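import Mathlib

/-!
# Potential density of a scheme over a field
-/

namespace Pool.Agent.Helper15

open AlgebraicGeometry CategoryTheory

universe u

/-- The set of points of `X` (a scheme over `K` via `s`) that are images of `L`-points of `X`
over `K`. -/
def ratPts (K : Type u) [Field K] (L : Type u) [Field L] [Algebra K L] (X : Scheme.{u})
    (s : X ⟶ Spec (CommRingCat.of K)) : Set X :=
  {x | ∃ p : Spec (CommRingCat.of L) ⟶ X,
    p ≫ s = Spec.map (CommRingCat.ofHom (algebraMap K L)) ∧ x ∈ Set.range p}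

/-- A scheme `X` over the field `K` is potentially dense if for some finite extension `L` of `K`
the set `X(L)` of `L`-points over `K` is Zariski dense in `X`. -/
def PotentiallyDense (K : Type u) [Field K] (X : Scheme.{u})
    (s : X ⟶ Spec (CommRingCat.of K)) : Prop :=
  ∃ (L : Type u) (_ : Field L) (_ : Algebra K L), FiniteDimensional K L ∧
    Dense (ratPts K L X s)

/-- Two schemes over `K` are birational over `K` if some nonempty scheme over `K` is an open
subscheme of both. -/
def BirationalOver (K : Type u) [Field K] (X Y : Scheme.{u})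
    (s : X ⟶ Spec (CommRingCat.of K)) (t : Y ⟶ Spec (CommRingCat.of K)) : Prop :=
  ∃ (W : Scheme.{u}) (i : W ⟶ X) (j : W ⟶ Y),
    IsOpenImmersion i ∧ IsOpenImmersion j ∧ Nonempty W ∧ i ≫ s = j ≫ t

theorem dense_ratPts_of_openImmersion (K : Type u) [Field K] (L : Type u) [Field L] [Algebra K L]
    (W Y : Scheme.{u}) (j : W ⟶ Y) [IsOpenImmersion j] (t : Y ⟶ Spec (CommRingCat.of K))
    (h : Dense (ratPts K L Y t)) : Dense (ratPts K L W (j ≫ t)) := by
  have h1 : Dense (j ⁻¹' (ratPts K L Y t)) := h.preimage j.isOpenEmbedding.isOpenMap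
  refine h1.mono ?_
  rintro z ⟨p, hp, ⟨y, hy⟩⟩
  have hsub : Set.range p ⊆ Set.range j := by
    rintro _ ⟨y', rfl⟩
    have : y' = y := Subsingleton.elim _ _
    rw [this, hy]
    exact ⟨z, rfl⟩
  refine ⟨IsOpenImmersion.lift j p hsub, ?_, y, ?_⟩
  · rw [← Category.assoc, IsOpenImmersion.lift_fac, hp]
  · apply j.isOpenEmbedding.injective
    rw [← Scheme.Hom.comp_apply, IsOpenImmersion.lift_fac, hy]

theorem dense_ratPts_of_birational (K : Type u) [Field K] (L : Type u) [Field L] [Algebra K L]
    (X Y : Scheme.{u}) (s : X ⟶ Spec (CommRingCat.of K)) (t : Y ⟶ Spec (CommRingCat.of K))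
    [IrreducibleSpace X] (hb : BirationalOver K X Y s t)
    (h : Dense (ratPts K L Y t)) : Dense (ratPts K L X s) := by
  obtain ⟨W, i, j, hi, hj, hW, hij⟩ := hb
  have hD : Dense (ratPts K L W (j ≫ t)) := dense_ratPts_of_openImmersion K L W Y j t h
  have hsub : i '' (ratPts K L W (j ≫ t)) ⊆ ratPts K L X s := by
    rintro _ ⟨z, ⟨p, hp, ⟨y, hy⟩⟩, rfl⟩
    refine ⟨p ≫ i, ?_, y, ?_⟩
    · rw [Category.assoc, hij, hp]
    · rw [Scheme.Hom.comp_apply, hy]
  have hrange : Dense (Set.range i) := by
    have ho : IsOpen (Set.range i) := i.isOpenEmbedding.isOpen_range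
    exact ho.dense ⟨i hW.some, hW.some, rfl⟩
  intro x
  have h1 : Set.range i ⊆ closure (i '' (ratPts K L W (j ≫ t))) := by
    rintro _ ⟨z, rfl⟩
    exact image_closure_subset_closure_image i.continuous ⟨z, hD z, rfl⟩
  have h2 : x ∈ closure (Set.range i) := hrange x
  have h3 : closure (Set.range i) ⊆ closure (ratPts K L X s) :=
    closure_minimal (h1.trans (closure_mono hsub)) isClosed_closure
  exact h3 h2

/-- Potential density is a birational invariant of irreducible schemes. -/
theorem PotentiallyDense.of_birational (K : Type u) [Field K]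
    (X Y : Scheme.{u}) (s : X ⟶ Spec (CommRingCat.of K)) (t : Y ⟶ Spec (CommRingCat.of K))
    [IrreducibleSpace X] (hb : BirationalOver K X Y s t)
    (h : PotentiallyDense K Y t) : PotentiallyDense K X s := by
  obtain ⟨L, iL, aL, hfin, hd⟩ := h
  exact ⟨L, iL, aL, hfin, dense_ratPts_of_birational K L X Y s t hb hd⟩

theorem closure_ker_eq_univ (K : Type u) [Field K] (L : Type u) [Field L] [Algebra K L]
    (A : Type u) [CommRing A] [Algebra K A]
    (h : ∀ g : A, (∀ φ : A →ₐ[K] L, φ g = 0) → g = 0) :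
    closure {x : PrimeSpectrum A | ∃ φ : A →ₐ[K] L, x.asIdeal = RingHom.ker φ}
      = Set.univ := by
  rw [← PrimeSpectrum.zeroLocus_vanishingIdeal_eq_closure]
  have hz : PrimeSpectrum.vanishingIdeal
      {x : PrimeSpectrum A | ∃ φ : A →ₐ[K] L, x.asIdeal = RingHom.ker φ} = ⊥ := by
    rw [eq_bot_iff]
    intro g hg
    rw [PrimeSpectrum.mem_vanishingIdeal] at hg
    show g = 0
    apply h
    intro φ
    have hprime : (RingHom.ker φ).IsPrime := RingHom.ker_isPrime φ
    have := hg ⟨RingHom.ker φ, hprime⟩ ⟨φ, rfl⟩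
    exact this
  rw [hz]
  exact PrimeSpectrum.zeroLocus_bot

/-- The criterion for an affine scheme: if an element of `A` killed by every `K`-algebra
homomorphism to `L` is zero, then the `L`-points are dense. -/
theorem dense_ratPts_spec (K : Type u) [Field K] (L : Type u) [Field L] [Algebra K L]
    (A : Type u) [CommRing A] [Algebra K A]
    (h : ∀ g : A, (∀ φ : A →ₐ[K] L, φ g = 0) → g = 0) :
    Dense (ratPts K L (Spec (CommRingCat.of A))
      (Spec.map (CommRingCat.ofHom (algebraMap K A)))) := by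
  have hsub : {x : PrimeSpectrum A | ∃ φ : A →ₐ[K] L, x.asIdeal = RingHom.ker φ} ⊆
      (ratPts K L (Spec (CommRingCat.of A))
      (Spec.map (CommRingCat.ofHom (algebraMap K A)))) := by
    rintro x ⟨φ, hφ⟩
    refine ⟨Spec.map (CommRingCat.ofHom (φ : A →+* L)), ?_, ⟨(⊥ : PrimeSpectrum L), ?_⟩⟩
    · rw [← Spec.map_comp, ← CommRingCat.ofHom_comp]
      congr 2
      exact φ.comp_algebraMap
    · apply PrimeSpectrum.ext
      rw [hφ]
      rfl
  have hd : Dense {x : PrimeSpectrum A | ∃ φ : A →ₐ[K] L, x.asIdeal = RingHom.ker φ} := by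
    rw [dense_iff_closure_eq]
    exact closure_ker_eq_univ K L A h
  exact Dense.mono hsub hd

end Pool.Agent.Helper15
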