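import Mathlib

/-!
# Extending specialisations: the general form
-/

namespace Pool.Agent.Helper15.Spec

/-- Let `θ : P → E` and `ev : P → L` be ring homomorphisms such that `ev` kills the kernel of
`θ`, and let `R'` be a subalgebra of `E` whose elements are fractions `θ f / θ s` with `ev s`
nonzero.  Then `ev` induces a homomorphism from `R'` to `L`. -/
theorem exists_ext {K P E L : Type*} [Field K] [CommRing P] [Field E] [Field L] [Algebra K E]
    [Algebra K L] (θ : P →+* E) (ev : P →+* L) (hker : ∀ f, θ f = 0 → ev f = 0)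
    (R' : Subalgebra K E)
    (hR' : ∀ g ∈ R', ∃ f s : P, g * θ s = θ f ∧ ev s ≠ 0)
    (hK : ∀ r : K, ∃ p : P, θ p = algebraMap K E r ∧ ev p = algebraMap K L r) :
    ∃ φ' : R' →ₐ[K] L, ∀ (g : R') (f s : P), (g : E) * θ s = θ f → φ' g * ev s = ev f := by
  classical
  have hex : ∀ g : R', ∃ fs : P × P, (g : E) * θ fs.2 = θ fs.1 ∧ ev fs.2 ≠ 0 := by
    intro g
    obtain ⟨f, s, h1, h2⟩ := hR' g g.2
    exact ⟨(f, s), h1, h2⟩
  choose FS hFS1 hFS2 using hex
  let ψ : R' → L := fun g => ev (FS g).1 / ev (FS g).2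
  have key : ∀ (g : R') (f s : P), (g : E) * θ s = θ f → ψ g * ev s = ev f := by
    intro g f s h
    have h1 := hFS1 g
    have h2 := hFS2 g
    have h3 : θ (f * (FS g).2 - (FS g).1 * s) = 0 := by
      rw [map_sub, map_mul, map_mul, ← h, ← h1]; ring
    have h4 := hker _ h3
    rw [map_sub, map_mul, map_mul] at h4
    show ev (FS g).1 / ev (FS g).2 * _ = _
    field_simp
    linear_combination -h4
  have cancel : ∀ (a b t : L), t ≠ 0 → a * t = b * t → a = b := fun a b t ht h =>
    mul_right_cancel₀ ht h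
  have h1 : ψ 1 = 1 := by
    have := key 1 1 1 (by simp)
    simpa using this
  have h2 : ∀ a b, ψ (a * b) = ψ a * ψ b := by
    intro a b
    have h := key (a * b) ((FS a).1 * (FS b).1) ((FS a).2 * (FS b).2) (by
      rw [map_mul, map_mul, ← hFS1, ← hFS1]; push_cast; ring)
    rw [map_mul, map_mul] at h
    have ha := key a _ _ (hFS1 a)
    have hb := key b _ _ (hFS1 b)
    refine cancel _ _ _ (mul_ne_zero (hFS2 a) (hFS2 b)) ?_
    rw [h, ← ha, ← hb]; ring
  have h0 : ψ 0 = 0 := by
    have := key 0 0 1 (by simp)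
    simpa using this
  have h3 : ∀ a b, ψ (a + b) = ψ a + ψ b := by
    intro a b
    have h := key (a + b) ((FS a).1 * (FS b).2 + (FS b).1 * (FS a).2) ((FS a).2 * (FS b).2) (by
      rw [map_mul, map_add, map_mul, map_mul, ← hFS1, ← hFS1]; push_cast; ring)
    rw [map_mul, map_add, map_mul, map_mul] at h
    have ha := key a _ _ (hFS1 a)
    have hb := key b _ _ (hFS1 b)
    refine cancel _ _ _ (mul_ne_zero (hFS2 a) (hFS2 b)) ?_
    rw [h, ← ha, ← hb]; ring
  have h4 : ∀ r : K, ψ (algebraMap K R' r) = algebraMap K L r := by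
    intro r
    obtain ⟨p, hp1, hp2⟩ := hK r
    have h := key (algebraMap K R' r) p 1 (by
      rw [map_one, mul_one, hp1]
      rfl)
    rw [map_one, mul_one] at h
    rw [h, hp2]
  let ρ : R' →+* L :=
    { toFun := ψ
      map_one' := h1
      map_mul' := h2
      map_zero' := h0
      map_add' := h3 }
  exact ⟨{ ρ with commutes' := h4 }, key⟩

/-- The elements of `E` that are fractions `θ f / θ s` with `θ s` in a subset closed under
multiplication form a subalgebra. -/
def fracs {K P E : Type*} [Field K] [CommRing P] [Field E] [Algebra K E]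
    (θ : P →+* E) (hK : ∀ r : K, ∃ p : P, θ p = algebraMap K E r) (S : Submonoid P) :
    Subalgebra K E where
  carrier := {g | ∃ f s : P, g * θ s = θ f ∧ s ∈ S}
  mul_mem' := by
    rintro a b ⟨f, s, h1, h2⟩ ⟨f', s', h1', h2'⟩
    refine ⟨f * f', s * s', ?_, S.mul_mem h2 h2'⟩
    rw [map_mul, map_mul, ← h1, ← h1']; ring
  add_mem' := by
    rintro a b ⟨f, s, h1, h2⟩ ⟨f', s', h1', h2'⟩
    refine ⟨f * s' + f' * s, s * s', ?_, S.mul_mem h2 h2'⟩
    rw [map_mul, map_add, map_mul, map_mul, ← h1, ← h1']; ring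
  algebraMap_mem' := by
    intro r
    obtain ⟨p, hp⟩ := hK r
    exact ⟨p, 1, by rw [map_one, mul_one, hp], S.one_mem⟩

theorem mem_fracs {K P E : Type*} [Field K] [CommRing P] [Field E] [Algebra K E]
    {θ : P →+* E} {hK : ∀ r : K, ∃ p : P, θ p = algebraMap K E r} {S : Submonoid P} {g : E} :
    g ∈ fracs θ hK S ↔ ∃ f s : P, g * θ s = θ f ∧ s ∈ S := Iff.rfl

end Pool.Agent.Helper15.Spec
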