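import Pool.Agent.Helper15.Pres
import Pool.Agent.Helper15.Spec0

/-!
# Approximation of generic points by algebraic points
-/

namespace Pool.Agent.Helper15.Approx

open Polynomial Filter Topology

/-- A monic polynomial with a small value at `u` has a root near `u`. -/
theorem exists_root_near {Ω : Type*} [NormedField Ω] [IsAlgClosed Ω] (f : Polynomial Ω) (hf : f.Monic)
    (u : Ω) (ε : ℝ) (hε : 0 < ε) (h : ‖f.eval u‖ < ε ^ f.natDegree) :
    ∃ ρ, f.eval ρ = 0 ∧ ‖u - ρ‖ < ε := by
  by_contra hcon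
  push Not at hcon
  have hs : f.Splits := IsAlgClosed.splits f
  have h1 : f = (f.roots.map fun a => X - C a).prod := by
    have := hs.eq_prod_roots
    rw [hf.leadingCoeff, C_1, one_mul] at this
    exact this
  have h2 : f.eval u = (f.roots.map fun a => u - a).prod := by
    conv_lhs => rw [h1]
    rw [eval_multiset_prod, Multiset.map_map]
    congr 1
    refine Multiset.map_congr rfl fun a _ => ?_
    simp
  have h3 : ∀ s : Multiset Ω, (∀ a ∈ s, ε ≤ ‖u - a‖) →
      ε ^ (Multiset.card s) ≤ ‖(s.map fun a => u - a).prod‖ := by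
    intro s
    induction s using Multiset.induction_on with
    | empty => intro _; simp
    | cons a s ih =>
      intro hs
      rw [Multiset.map_cons, Multiset.prod_cons, norm_mul, Multiset.card_cons, pow_succ, mul_comm]
      refine mul_le_mul (hs a (Multiset.mem_cons_self _ _)) (ih fun b hb => hs b
        (Multiset.mem_cons_of_mem hb)) (by positivity) (norm_nonneg _)
  have h4 := h3 f.roots (fun a ha => hcon a (isRoot_of_mem_roots ha))
  rw [← h2, ← hs.natDegree_eq_card_roots] at h4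
  exact absurd h (not_lt.mpr h4)

/-- The algebraic numbers are dense in the algebraic closure of `ℚ_2`. -/
theorem exists_algebraic_near (u : PadicAlgCl 2) (ε : ℝ) (hε : 0 < ε) :
    ∃ a : PadicAlgCl 2, IsAlgebraic ℚ a ∧ ‖a - u‖ < ε := by
  classical
  set p := minpoly ℚ_[2] u with hp
  have hint : IsIntegral ℚ_[2] u := Algebra.IsIntegral.isIntegral u
  have hm : p.Monic := minpoly.monic hint
  set d := p.natDegree with hd
  set M : ℝ := ∑ i ∈ Finset.range d, ‖u‖ ^ i + 1 with hM
  have hM0 : 0 < M := by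
    have : 0 ≤ ∑ i ∈ Finset.range d, ‖u‖ ^ i := Finset.sum_nonneg fun i _ => by positivity
    linarith
  have hη : 0 < ε ^ d / M := by positivity
  have hr := fun i : ℕ => Padic.rat_dense (p := 2) (p.coeff i) hη
  choose r hr using hr
  let f : ℚ[X] := X ^ d + ∑ i ∈ Finset.range d, C (r i) * X ^ i
  have hdeg : (∑ i ∈ Finset.range d, C (r i) * X ^ i : ℚ[X]).degree < d := by
    have h := degree_sum_fin_lt (fun i : Fin d => r i)
    rw [Fin.sum_univ_eq_sum_range (fun i => C (r i) * X ^ i) d] at h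
    exact h
  have hfm : f.Monic := monic_X_pow_add hdeg
  have hfd : f.natDegree = d := by
    rw [natDegree_add_eq_left_of_degree_lt (by rw [degree_X_pow]; exact hdeg), natDegree_X_pow]
  let f' : (PadicAlgCl 2)[X] := f.map (algebraMap ℚ (PadicAlgCl 2))
  have hf'm : f'.Monic := hfm.map _
  have hf'd : f'.natDegree = d := by rw [hfm.natDegree_map, hfd]
  have hp0 : aeval u p = 0 := minpoly.aeval _ _
  have hpsum : p = X ^ d + ∑ i ∈ Finset.range d, C (p.coeff i) * X ^ i := hm.as_sum
  have e1 : f'.eval u = ∑ i ∈ Finset.range d,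
      (algebraMap ℚ_[2] (PadicAlgCl 2) ((r i : ℚ_[2]) - p.coeff i)) * u ^ i := by
    have e2 : f'.eval u = u ^ d + ∑ i ∈ Finset.range d, ((r i : ℚ) : PadicAlgCl 2) * u ^ i := by
      rw [eval_map_algebraMap, map_add, map_sum, map_pow, aeval_X]
      congr 1
      refine Finset.sum_congr rfl fun i _ => ?_
      rw [map_mul, aeval_C, map_pow, aeval_X]
      rfl
    have e3 : u ^ d + ∑ i ∈ Finset.range d,
        (algebraMap ℚ_[2] (PadicAlgCl 2) (p.coeff i)) * u ^ i = 0 := by
      rw [hpsum, map_add, map_sum, map_pow, aeval_X] at hp0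
      rw [← hp0]
      congr 1
      refine Finset.sum_congr rfl fun i _ => ?_
      rw [map_mul, aeval_C, map_pow, aeval_X]
    rw [e2, ← sub_zero (u ^ d + _), ← e3, add_sub_add_left_eq_sub, ← Finset.sum_sub_distrib]
    refine Finset.sum_congr rfl fun i _ => ?_
    rw [map_sub, map_ratCast]
    ring
  have e4 : ‖f'.eval u‖ < ε ^ f'.natDegree := by
    rw [e1, hf'd]
    calc ‖∑ i ∈ Finset.range d,
          (algebraMap ℚ_[2] (PadicAlgCl 2) ((r i : ℚ_[2]) - p.coeff i)) * u ^ i‖
        ≤ ∑ i ∈ Finset.range d, ‖(algebraMap ℚ_[2] (PadicAlgCl 2)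
            ((r i : ℚ_[2]) - p.coeff i)) * u ^ i‖ := norm_sum_le _ _
      _ ≤ ∑ i ∈ Finset.range d, (ε ^ d / M) * ‖u‖ ^ i := by
          refine Finset.sum_le_sum fun i _ => ?_
          rw [norm_mul, norm_pow, norm_algebraMap', norm_sub_rev]
          gcongr
          exact (hr i).le
      _ = (ε ^ d / M) * (M - 1) := by rw [← Finset.mul_sum, hM]; ring
      _ < (ε ^ d / M) * M := by
          refine mul_lt_mul_of_pos_left ?_ hη
          linarith
      _ = ε ^ d := by field_simp
  obtain ⟨ρ, hρ, hn⟩ := exists_root_near f' hf'm u ε hε e4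
  refine ⟨ρ, ⟨f, hfm.ne_zero, ?_⟩, ?_⟩
  · rw [← eval_map_algebraMap]; exact hρ
  · rw [norm_sub_rev]; exact hn

section Cont

variable {K Ω : Type*} [Field K] [NormedField Ω] [Algebra K Ω] {t : Type*}

theorem continuous_aeval (p : MvPolynomial t K) :
    Continuous fun a : t → Ω => MvPolynomial.aeval a p := by
  have : (fun a : t → Ω => MvPolynomial.aeval a p)
      = fun a => MvPolynomial.eval a (MvPolynomial.map (algebraMap K Ω) p) := by
    funext a
    rw [MvPolynomial.eval_map, MvPolynomial.aeval_def]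
  rw [this]
  exact MvPolynomial.continuous_eval _

theorem continuous_eval₂ (f : (MvPolynomial t K)[X]) :
    Continuous fun p : (t → Ω) × Ω =>
      f.eval₂ (MvPolynomial.aeval p.1 : MvPolynomial t K →ₐ[K] Ω) p.2 := by
  have : (fun p : (t → Ω) × Ω =>
      f.eval₂ (MvPolynomial.aeval p.1 : MvPolynomial t K →ₐ[K] Ω) p.2)
      = fun p => ∑ k ∈ f.support, (MvPolynomial.aeval p.1 (f.coeff k) : Ω) * p.2 ^ k := by
    funext p
    rw [eval₂_eq_sum, Polynomial.sum]
    rfl
  rw [this]
  refine continuous_finsetSum _ fun k _ => ?_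
  exact ((continuous_aeval _).comp continuous_fst).mul (continuous_snd.pow k)

theorem tendsto_eval₂ {α : Type*} {l : Filter α} {a : α → t → Ω} {ζ : α → Ω} {u : t → Ω} {v : Ω}
    (ha : Tendsto a l (𝓝 u)) (hζ : Tendsto ζ l (𝓝 v)) (f : (MvPolynomial t K)[X]) :
    Tendsto (fun n => f.eval₂ (MvPolynomial.aeval (a n) : MvPolynomial t K →ₐ[K] Ω) (ζ n)) l
      (𝓝 (f.eval₂ (MvPolynomial.aeval u : MvPolynomial t K →ₐ[K] Ω) v)) := by
  have h := (continuous_eval₂ (Ω := Ω) f).tendsto (u, v)
  have h2 := h.comp (ha.prodMk_nhds hζ)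
  simpa only [Function.comp_def] using h2

theorem tendsto_aeval {α : Type*} {l : Filter α} {a : α → t → Ω} {u : t → Ω}
    (ha : Tendsto a l (𝓝 u)) (D : MvPolynomial t K) :
    Tendsto (fun n => (MvPolynomial.aeval (a n) D : Ω)) l (𝓝 (MvPolynomial.aeval u D)) :=
  Tendsto.comp (g := fun a : t → Ω => (MvPolynomial.aeval a D : Ω))
    ((continuous_aeval D).tendsto u) ha

end Cont

theorem exists_specialization {K E : Type*} [Field K] [CharZero K] [Field E] [Algebra K E]
    [Algebra K (PadicAlgCl 2)] (τ : E →ₐ[K] PadicAlgCl 2) (G : Finset E)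
    (hG : IntermediateField.adjoin K (G : Set E) = ⊤) :
    ∃ φ : Algebra.adjoin K (G : Set E) →ₐ[K] PadicAlgCl 2, (∀ a, IsAlgebraic K (φ a)) ∧
      ∀ a : Algebra.adjoin K (G : Set E), (a : E) ∈ G → ‖φ a - τ a‖ < 1 := by
  classical
  obtain ⟨t, htf, z, m, ht, hm, hker, hfrac⟩ := Pres.exists_presentation K E G hG
  choose f D hD hfD using hfrac
  cases nonempty_fintype t
  let R := MvPolynomial t K
  let u : t → PadicAlgCl 2 := fun i => τ i
  let Kb : IntermediateField K (PadicAlgCl 2) := algebraicClosure K (PadicAlgCl 2)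
  have hu : ∀ r : R, MvPolynomial.aeval u r = τ (MvPolynomial.aeval ((↑) : t → E) r) := by
    intro r
    have h1 : (MvPolynomial.aeval u : R →ₐ[K] PadicAlgCl 2)
        = τ.comp (MvPolynomial.aeval ((↑) : t → E)) := by
      apply MvPolynomial.algHom_ext
      intro i
      rw [MvPolynomial.aeval_X, AlgHom.comp_apply, MvPolynomial.aeval_X]
    rw [h1]; rfl
  have huz : ∀ g : R[X], g.eval₂ (MvPolynomial.aeval u : R →ₐ[K] PadicAlgCl 2) (τ z)
      = τ (g.eval₂ (MvPolynomial.aeval ((↑) : t → E) : R →ₐ[K] E) z) := by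
    intro g
    rw [← AlgHom.coe_toRingHom τ, hom_eval₂]
    congr 1
    ext r
    · rw [RingHom.comp_apply, RingHom.comp_apply, RingHom.comp_apply]
      exact hu _
    · exact hu _
  -- algebraic approximations
  have step : ∀ n : ℕ, ∃ (a : t → PadicAlgCl 2) (ζ : PadicAlgCl 2), (∀ i, a i ∈ Kb) ∧ ζ ∈ Kb ∧
      ‖a - u‖ < 1 / (n + 1 : ℝ) ∧ ‖ζ - τ z‖ < 1 / (n + 1 : ℝ) ∧
      m.eval₂ (MvPolynomial.aeval a : R →ₐ[K] PadicAlgCl 2) ζ = 0 := by
    intro n
    have hn : (0 : ℝ) < 1 / (n + 1 : ℝ) := by positivity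
    have hc : Continuous fun a : t → PadicAlgCl 2 =>
        ‖m.eval₂ (MvPolynomial.aeval a : R →ₐ[K] PadicAlgCl 2) (τ z)‖ := by
      have h1 := continuous_eval₂ (Ω := PadicAlgCl 2) m
      have h2 : Continuous fun a : t → PadicAlgCl 2 => ((a, τ z) : (t → PadicAlgCl 2) × _) := by
        fun_prop
      exact (h1.comp h2).norm
    have h0 : ‖m.eval₂ (MvPolynomial.aeval u : R →ₐ[K] PadicAlgCl 2) (τ z)‖
        < (1 / (n + 1 : ℝ)) ^ m.natDegree := by
      rw [huz, (hker m).mpr dvd_rfl, map_zero, norm_zero]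
      positivity
    have hev := hc.continuousAt.eventually_lt continuousAt_const h0
    obtain ⟨δ, hδ, hball⟩ := Metric.eventually_nhds_iff.mp hev
    have ha := fun i : t => exists_algebraic_near (u i) (min δ (1 / (n + 1 : ℝ)))
      (lt_min hδ hn)
    choose a ha1 ha2 using ha
    have hau : ‖a - u‖ < min δ (1 / (n + 1 : ℝ)) := by
      rw [pi_norm_lt_iff (lt_min hδ hn)]
      exact ha2
    have haK : ∀ i, a i ∈ Kb := by
      intro i
      rw [mem_algebraicClosure_iff]
      exact (ha1 i).extendScalars (algebraMap ℚ K).injective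
    have h1 : ‖m.eval₂ (MvPolynomial.aeval a : R →ₐ[K] PadicAlgCl 2) (τ z)‖
        < (1 / (n + 1 : ℝ)) ^ m.natDegree := by
      apply hball
      rw [dist_eq_norm]
      exact lt_of_lt_of_le hau (min_le_left _ _)
    obtain ⟨ζ, hζ, hζn⟩ := exists_root_near
      (m.map ((MvPolynomial.aeval a : R →ₐ[K] PadicAlgCl 2) : R →+* PadicAlgCl 2)) (hm.map _)
      (τ z) (1 / (n + 1 : ℝ)) hn (by rw [hm.natDegree_map, eval_map]; exact h1)
    rw [eval_map] at hζ
    refine ⟨a, ζ, haK, ?_, lt_of_lt_of_le hau (min_le_right _ _), by rwa [norm_sub_rev], hζ⟩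
    -- `ζ` is algebraic
    have hζKb : IsAlgebraic Kb ζ := by
      refine ⟨m.map ((MvPolynomial.aeval (fun i => (⟨a i, haK i⟩ : Kb)) : R →ₐ[K] Kb) : R →+* Kb),
        (hm.map _).ne_zero, ?_⟩
      rw [aeval_def, eval₂_map]
      rw [← hζ]
      congr 1
      ext r
      · simp
      · simp
    rw [mem_algebraicClosure_iff]
    have : Algebra.IsAlgebraic K Kb := inferInstance
    exact IsAlgebraic.restrictScalars K hζKb
  choose a ζ haK hζK hau hζz hm0 using step
  have hlim0 : Tendsto (fun n : ℕ => 1 / (n + 1 : ℝ)) atTop (𝓝 0) :=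
    tendsto_one_div_add_atTop_nhds_zero_nat
  have hlima : Tendsto a atTop (𝓝 u) := by
    rw [tendsto_iff_norm_sub_tendsto_zero]
    exact squeeze_zero (fun n => norm_nonneg _) (fun n => (hau n).le) hlim0
  have hlimζ : Tendsto ζ atTop (𝓝 (τ z)) := by
    rw [tendsto_iff_norm_sub_tendsto_zero]
    exact squeeze_zero (fun n => norm_nonneg _) (fun n => (hζz n).le) hlim0
  have hgood : ∀ e ∈ G, ∀ᶠ n in atTop, MvPolynomial.aeval (a n) (D e) ≠ 0 ∧
      ‖(f e).eval₂ (MvPolynomial.aeval (a n) : R →ₐ[K] PadicAlgCl 2) (ζ n)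
        / MvPolynomial.aeval (a n) (D e) - τ e‖ < 1 := by
    intro e _
    have h1 : Tendsto (fun n => MvPolynomial.aeval (a n) (D e)) atTop
        (𝓝 (MvPolynomial.aeval u (D e))) := tendsto_aeval hlima (D e)
    have h2 : Tendsto (fun n => (f e).eval₂ (MvPolynomial.aeval (a n) : R →ₐ[K] PadicAlgCl 2) (ζ n))
        atTop (𝓝 ((f e).eval₂ (MvPolynomial.aeval u : R →ₐ[K] PadicAlgCl 2) (τ z))) :=
      tendsto_eval₂ hlima hlimζ (f e)
    have hne : MvPolynomial.aeval u (D e) ≠ 0 := by
      rw [hu]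
      exact (map_ne_zero τ).mpr (hD e)
    have h3 := h2.div h1 hne
    have h4 : (f e).eval₂ (MvPolynomial.aeval u : R →ₐ[K] PadicAlgCl 2) (τ z)
        / MvPolynomial.aeval u (D e) = τ e := by
      rw [huz, hu, ← hfD, map_mul, mul_div_cancel_right₀ _ ((map_ne_zero τ).mpr (hD e))]
    rw [h4] at h3
    refine (h1.eventually_ne hne).and ?_
    have h5 := (h3.sub_const (τ e)).norm
    rw [sub_self, norm_zero] at h5
    exact h5.eventually_lt_const one_pos
  obtain ⟨n, hn⟩ := ((Filter.eventually_all_finset G).mpr hgood).exists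
  -- the homomorphisms
  let θ : R[X] →+* E := eval₂RingHom (MvPolynomial.aeval ((↑) : t → E) : R →ₐ[K] E) z
  let ev : R[X] →+* PadicAlgCl 2 :=
    eval₂RingHom (MvPolynomial.aeval (a n) : R →ₐ[K] PadicAlgCl 2) (ζ n)
  have hK : ∀ r : K, ∃ p : R[X], θ p = algebraMap K E r := by
    intro r
    refine ⟨C (MvPolynomial.C r), ?_⟩
    show eval₂ _ _ _ = _
    rw [eval₂_C]
    show MvPolynomial.aeval _ _ = _
    rw [MvPolynomial.aeval_C]
  let S : Submonoid R[X] :=
    { carrier := {s | ev s ≠ 0}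
      one_mem' := by
        show ev 1 ≠ 0
        rw [map_one]; exact one_ne_zero
      mul_mem' := by
        intro x y hx hy
        show ev (x * y) ≠ 0
        rw [map_mul]; exact mul_ne_zero hx hy }
  have hsub : Algebra.adjoin K (G : Set E) ≤ Spec.fracs θ hK S := by
    apply Algebra.adjoin_le
    intro e he
    rw [SetLike.mem_coe, Spec.mem_fracs]
    refine ⟨f e, C (D e), ?_, ?_⟩
    · have : θ (C (D e)) = MvPolynomial.aeval ((↑) : t → E) (D e) := eval₂_C _ _
      rw [this, hfD]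
      rfl
    · show ev (C (D e)) ≠ 0
      have : ev (C (D e)) = MvPolynomial.aeval (a n) (D e) := eval₂_C _ _
      rw [this]
      exact (hn e he).1
  obtain ⟨φ, hφ⟩ := Spec.exists_ext θ ev (by
    intro g hg
    obtain ⟨c, hc⟩ := (hker g).mp hg
    rw [hc, map_mul]
    have : ev m = 0 := hm0 n
    rw [this, zero_mul]) (Algebra.adjoin K (G : Set E)) (fun g hg => hsub hg) (by
    intro r
    refine ⟨C (MvPolynomial.C r), ?_, ?_⟩
    · show eval₂ _ _ _ = _
      rw [eval₂_C]
      show MvPolynomial.aeval _ _ = _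
      rw [MvPolynomial.aeval_C]
    · show eval₂ _ _ _ = _
      rw [eval₂_C]
      show MvPolynomial.aeval _ _ = _
      rw [MvPolynomial.aeval_C])
  refine ⟨φ, ?_, ?_⟩
  · intro g
    obtain ⟨f', s', h1, h2⟩ := hsub g.2
    have h3 := hφ g f' s' h1
    have hmem : ∀ p : R[X], ev p ∈ Kb := by
      intro p
      have : ev p = ((eval₂ ((MvPolynomial.aeval (fun i => (⟨a n i, haK n i⟩ : Kb)) :
          R →ₐ[K] Kb) : R →+* Kb) (⟨ζ n, hζK n⟩ : Kb) p : Kb) : PadicAlgCl 2) := by
        rw [← IntermediateField.algebraMap_apply, hom_eval₂]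
        show eval₂ _ _ _ = _
        congr 1
        ext r
        · simp
        · simp
      rw [this]
      exact SetLike.coe_mem _
    have h4 : φ g = ev f' / ev s' := by
      rw [eq_div_iff h2]; exact h3
    have h5 : φ g ∈ Kb := by
      rw [h4]
      exact Kb.div_mem (hmem _) (hmem _)
    exact mem_algebraicClosure_iff.mp h5
  · intro g hg
    have h3 := hφ g (f g) (C (D g)) (by
      have : θ (C (D g)) = MvPolynomial.aeval ((↑) : t → E) (D g) := eval₂_C _ _
      rw [this, hfD]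
      rfl)
    have e1 : ev (C (D g)) = MvPolynomial.aeval (a n) (D g) := eval₂_C _ _
    have h4 := hn g hg
    have h5 : φ g = (f g).eval₂ (MvPolynomial.aeval (a n) : R →ₐ[K] PadicAlgCl 2) (ζ n)
        / MvPolynomial.aeval (a n) (D g) := by
      rw [eq_div_iff h4.1, ← e1]
      exact h3
    rw [h5]
    exact h4.2

end Pool.Agent.Helper15.Approx
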