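import Pool.Agent.Helper15.NumField
import Pool.Agent.Helper15.PotDense

/-!
# The double cover `w ^ 2 = F`
-/

namespace Pool.Agent.Helper15

open MvPolynomial

/-- If `F` has, over the algebraic closure, an irreducible factor of multiplicity one that
involves all the variables, then `F` has a zero at which no partial derivative vanishes. -/
theorem exists_good_point {Ω ι : Type*} [Field Ω] [IsAlgClosed Ω] [CharZero Ω] [Finite ι]
    (P H : MvPolynomial ι Ω) (hP : Irreducible P) (hPH : ¬ P ∣ H)
    (hvars : ∀ j, 1 ≤ P.degreeOf j) :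
    ∃ a : ι → Ω, eval a (P * H) = 0 ∧ ∀ j, eval a (pderiv j (P * H)) ≠ 0 := by
  classical
  cases nonempty_fintype ι
  by_contra hcon
  push Not at hcon
  have hprime : Prime P := hP.prime
  -- the product of all partial derivatives vanishes on the zero locus of `P`
  have h1 : (∏ j : ι, pderiv j (P * H)) ∈
      vanishingIdeal Ω (zeroLocus Ω (Ideal.span {P})) := by
    rw [mem_vanishingIdeal_iff]
    intro a ha
    have haP : eval a P = 0 := by
      have := ha P (Ideal.subset_span rfl)
      simpa [aeval_def, eval_eq_eval_mv_eval'] using this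
    have haPH : eval a (P * H) = 0 := by rw [map_mul, haP, zero_mul]
    obtain ⟨j, hj⟩ := hcon a haPH
    rw [map_prod]
    refine Finset.prod_eq_zero (Finset.mem_univ j) ?_
    simpa [aeval_def] using hj
  rw [vanishingIdeal_zeroLocus_eq_radical] at h1
  obtain ⟨n, hn⟩ := h1
  have h2 : P ∣ ∏ j : ι, pderiv j (P * H) := by
    rw [Ideal.mem_span_singleton] at hn
    exact hprime.dvd_of_dvd_pow hn
  obtain ⟨j, -, hj⟩ := hprime.exists_mem_finset_dvd h2
  have h3 : P ∣ pderiv j P * H := by
    have e : pderiv j (P * H) = pderiv j P * H + P * pderiv j H := by rw [pderiv_mul]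
    rw [e] at hj
    exact (dvd_add_left (Dvd.intro _ rfl)).mp hj
  rcases hprime.dvd_or_dvd h3 with h4 | h4
  · -- degree contradiction
    have hlt : ∀ m ∈ (pderiv j P).support, m j + 1 ≤ P.degreeOf j := by
      intro m hm
      rw [mem_support_iff, coeff_pderiv] at hm
      have : coeff (m + Finsupp.single j 1) P ≠ 0 := by
        intro h
        apply hm
        rw [h]; simp
      have := monomial_le_degreeOf j (mem_support_iff.mpr this)
      simpa using this
    have hne : pderiv j P ≠ 0 := by
      -- a monomial of top degree in the variable `j`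
      obtain ⟨m, hm, hmj⟩ : ∃ m ∈ P.support, m j = P.degreeOf j := by
        have hPne : P.support.Nonempty := by
          rw [Finset.nonempty_iff_ne_empty, Ne, support_eq_empty]
          exact hP.ne_zero
        obtain ⟨m, hm, hmax⟩ := Finset.exists_mem_eq_sup' hPne (fun m => m j)
        refine ⟨m, hm, ?_⟩
        rw [degreeOf_eq_sup, ← hmax, Finset.sup'_eq_sup]
      have hmj1 : 1 ≤ m j := by rw [hmj]; exact hvars j
      intro h
      have hc : coeff (m - Finsupp.single j 1) (pderiv j P) = 0 := by rw [h]; simp
      rw [coeff_pderiv] at hc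
      have hm' : m - Finsupp.single j 1 + Finsupp.single j 1 = m := by
        apply tsub_add_cancel_of_le
        rw [Finsupp.single_le_iff]
        exact hmj1
      rw [hm'] at hc
      have hcoef : coeff m P ≠ 0 := mem_support_iff.mp hm
      rcases mul_eq_zero.mp hc with h' | h'
      · exact hcoef h'
      · have h5 : (m - Finsupp.single j 1 : ι →₀ ℕ) j + 1 = m j := by
          rw [Finsupp.tsub_apply, Finsupp.single_eq_same]; omega
        have h6 : (((m - Finsupp.single j 1 : ι →₀ ℕ) j : ℕ) : Ω) + 1 = ((m j : ℕ) : Ω) := by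
          rw [← h5]; push_cast; rfl
        rw [h6] at h'
        have : m j = 0 := by exact_mod_cast h'
        omega
    obtain ⟨Q, hQ⟩ := h4
    have hQne : Q ≠ 0 := by
      rintro rfl
      exact hne (by rw [hQ, mul_zero])
    have hdeg : (pderiv j P).degreeOf j = P.degreeOf j + Q.degreeOf j := by
      rw [hQ, degreeOf_mul_eq hP.ne_zero hQne]
    have hlt' : (pderiv j P).degreeOf j + 1 ≤ P.degreeOf j := by
      have : (pderiv j P).degreeOf j < P.degreeOf j := by
        rw [degreeOf_lt_iff (lt_of_lt_of_le Nat.zero_lt_one (hvars j))]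
        intro m hm
        have := hlt m hm
        omega
      omega
    omega
  · exact hPH h4

/-- The coordinate ring of the affine double cover `w ^ 2 = F(x)`. -/
abbrev CoverRing {K ι : Type*} [Field K] (F : MvPolynomial ι K) : Type _ :=
  AdjoinRoot (Polynomial.X ^ 2 - Polynomial.C F : Polynomial (MvPolynomial ι K))

/-- Elements of the coordinate ring of the double cover are determined by their values at the
points over `L`, if the set of points of `L ^ n` where `F` is a nonzero square is dense. -/
theorem cover_separated {K L ι : Type*} [Field K] [Field L] [CharZero L] [Algebra K L]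
    (F : MvPolynomial ι K)
    (hd : ∀ G : MvPolynomial ι L, (∀ x : ι → L, (∃ u : L, u ≠ 0 ∧ u ^ 2 = aeval x F) →
        eval x G = 0) → G = 0)
    (g : CoverRing F) (hg : ∀ φ : CoverRing F →ₐ[K] L, φ g = 0) : g = 0 := by
  classical
  set f : Polynomial (MvPolynomial ι K) := Polynomial.X ^ 2 - Polynomial.C F with hf
  have hmonic : f.Monic := Polynomial.monic_X_pow_sub_C F (by norm_num)
  have hnat : f.natDegree = 2 := Polynomial.natDegree_X_pow_sub_C
  obtain ⟨p, rfl⟩ := AdjoinRoot.mk_surjective g
  -- reduce modulo `f`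
  set r : Polynomial (MvPolynomial ι K) := p %ₘ f with hr
  have hpr : AdjoinRoot.mk f p = AdjoinRoot.mk f r := by
    rw [AdjoinRoot.mk_eq_mk]
    refine ⟨p /ₘ f, ?_⟩
    have := Polynomial.modByMonic_add_div p f
    rw [hr]
    linear_combination -this
  have hdegr : r.natDegree < 2 := by
    rw [← hnat]
    exact Polynomial.natDegree_modByMonic_lt p hmonic (by
      intro h
      rw [h] at hnat
      simp at hnat)
  obtain ⟨c0, c1, hc⟩ : ∃ c0 c1 : MvPolynomial ι K, r = Polynomial.C c1 * Polynomial.X
      + Polynomial.C c0 :=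
    ⟨r.coeff 0, r.coeff 1, Polynomial.eq_X_add_C_of_natDegree_le_one (by omega)⟩
  -- the homomorphism attached to a point
  have hpt : ∀ (x : ι → L) (u : L), u ^ 2 = aeval x F →
      aeval x c1 * u + aeval x c0 = 0 := by
    intro x u hu
    have hroot : Polynomial.eval₂ ((aeval x : MvPolynomial ι K →ₐ[K] L) : MvPolynomial ι K →+* L)
        u f = 0 := by
      rw [hf]
      simp [hu]
    let φ : CoverRing F →ₐ[K] L :=
      { AdjoinRoot.lift ((aeval x : MvPolynomial ι K →ₐ[K] L) : MvPolynomial ι K →+* L) u hroot with
        commutes' := by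
          intro a
          have h1 : algebraMap K (CoverRing F) a = AdjoinRoot.of f (C a) := rfl
          show AdjoinRoot.lift _ u hroot (algebraMap K (CoverRing F) a) = _
          rw [h1, AdjoinRoot.lift_of]
          simp }
    have h2 : φ (AdjoinRoot.mk f p) = 0 := hg φ
    have h3 : φ (AdjoinRoot.mk f p) = AdjoinRoot.lift
      ((aeval x : MvPolynomial ι K →ₐ[K] L) : MvPolynomial ι K →+* L) u hroot
        (AdjoinRoot.mk f p) := rfl
    rw [h3, hpr, AdjoinRoot.lift_mk, hc] at h2
    simpa using h2
  have key : ∀ x : ι → L, (∃ u : L, u ≠ 0 ∧ u ^ 2 = aeval x F) →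
      aeval x c0 = 0 ∧ aeval x c1 = 0 := by
    rintro x ⟨u, hu0, hu⟩
    have e1 := hpt x u hu
    have e2 := hpt x (-u) (by rw [neg_sq, hu])
    have h2 : (2 : L) ≠ 0 := two_ne_zero
    have e3 : aeval x c0 = 0 := by
      have : (2 : L) * aeval x c0 = 0 := by linear_combination e1 + e2
      exact (mul_eq_zero.mp this).resolve_left h2
    refine ⟨e3, ?_⟩
    rw [e3, add_zero] at e1
    exact (mul_eq_zero.mp e1).resolve_right hu0
  have hz : ∀ c : MvPolynomial ι K, (∀ x : ι → L, (∃ u : L, u ≠ 0 ∧ u ^ 2 = aeval x F) →
      aeval x c = 0) → c = 0 := by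
    intro c hcz
    have : map (algebraMap K L) c = 0 := by
      apply hd
      intro x hx
      rw [eval_map, ← aeval_def]
      exact hcz x hx
    exact (map_eq_zero_iff _ (map_injective _ (algebraMap K L).injective)).mp this
  have hc0 : c0 = 0 := hz c0 fun x hx => (key x hx).1
  have hc1 : c1 = 0 := hz c1 fun x hx => (key x hx).2
  rw [hpr, hc, hc0, hc1]
  simp

end Pool.Agent.Helper15
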