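import Pool.Agent.Helper15.Spec0

/-!
# The function field of a curve `y ^ 2 = q(x)`
-/

namespace Pool.Agent.Helper15.Curve

open Polynomial

/-- The functions `1`, `y` are independent over the rational functions of `x`. -/
theorem indep {F Ω : Type*} [Field F] [Field Ω] (σ : F →+* Ω) (q : F[X]) (hq : q.Separable)
    (hdeg : 1 ≤ q.natDegree) (x y : Ω) (hx : ∀ f : F[X], f.eval₂ σ x = 0 → f = 0)
    (hy : y ^ 2 = q.eval₂ σ x)
    (α β : F[X]) (h : α.eval₂ σ x + β.eval₂ σ x * y = 0) : α = 0 ∧ β = 0 := by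
  have h1 : (α ^ 2 - β ^ 2 * q).eval₂ σ x = 0 := by
    rw [eval₂_sub, eval₂_mul, eval₂_pow, eval₂_pow, ← hy]
    linear_combination (α.eval₂ σ x - β.eval₂ σ x * y) * h
  have h2 : α ^ 2 = β ^ 2 * q := sub_eq_zero.mp (hx _ h1)
  by_cases hβ : β = 0
  · rw [hβ] at h2
    refine ⟨?_, hβ⟩
    have : α ^ 2 = 0 := by rw [h2]; ring
    exact pow_eq_zero_iff (two_ne_zero) |>.mp this
  exfalso
  have hq0 : q ≠ 0 := hq.ne_zero
  have hα : α ≠ 0 := by
    rintro rfl
    have : β ^ 2 * q ≠ 0 := mul_ne_zero (pow_ne_zero 2 hβ) hq0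
    apply this
    rw [← h2]; ring
  obtain ⟨π, hπ, hπq⟩ := exists_irreducible_of_natDegree_ne_zero (f := q) (by omega)
  have hp : Prime π := hπ.prime
  have hfα : FiniteMultiplicity π α := FiniteMultiplicity.of_prime_left hp hα
  have hfβ : FiniteMultiplicity π β := FiniteMultiplicity.of_prime_left hp hβ
  have hfq : FiniteMultiplicity π q := FiniteMultiplicity.of_prime_left hp hq0
  have e1 : multiplicity π q = 1 := by
    have hsq : Squarefree q := hq.squarefree
    have hle : emultiplicity π q ≤ 1 := by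
      rcases (squarefree_iff_emultiplicity_le_one q).mp hsq π with h | h
      · exact h
      · exact absurd h hπ.not_isUnit
    have hge : 1 ≤ multiplicity π q := by
      rw [Nat.one_le_iff_ne_zero]
      intro h0
      exact (multiplicity_eq_zero.mp h0) hπq
    have hle' : multiplicity π q ≤ 1 := by
      rw [hfq.emultiplicity_eq_multiplicity] at hle
      exact_mod_cast hle
    omega
  have e2 : multiplicity π (α ^ 2) = 2 * multiplicity π α := hfα.multiplicity_pow hp
  have e3 : multiplicity π (β ^ 2 * q) = 2 * multiplicity π β + 1 := by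
    rw [multiplicity_mul hp, hfβ.multiplicity_pow hp, e1]
    exact FiniteMultiplicity.of_prime_left hp (mul_ne_zero (pow_ne_zero 2 hβ) hq0)
  rw [← h2, e2] at e3
  omega

section Red

variable {R : Type*} [CommRing R]

/-- Two variable polynomials as iterated polynomials. -/
noncomputable def toIter (R : Type*) [CommRing R] : MvPolynomial (Fin 2) R →+* R[X][X] :=
  MvPolynomial.eval₂Hom ((C : R[X] →+* R[X][X]).comp (C : R →+* R[X])) ![C X, X]

theorem eval_toIter {A : Type*} [CommRing A] (ψ : R →+* A) (x y : A)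
    (f : MvPolynomial (Fin 2) R) :
    eval₂ (eval₂RingHom ψ x) y (toIter R f) = MvPolynomial.eval₂ ψ ![x, y] f := by
  induction f using MvPolynomial.induction_on with
  | C a =>
    rw [toIter, MvPolynomial.eval₂Hom_C, MvPolynomial.eval₂_C]
    simp
  | add p q hp hq => rw [map_add, eval₂_add, hp, hq, MvPolynomial.eval₂_add]
  | mul_X p i hp =>
    rw [map_mul, eval₂_mul, hp, MvPolynomial.eval₂_mul, MvPolynomial.eval₂_X]
    congr 1
    rw [toIter, MvPolynomial.eval₂Hom_X']
    fin_cases i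
    · simp
    · simp

/-- The reduction of a two variable polynomial modulo `y ^ 2 - q(x)`: constant part. -/
noncomputable def redA (q : R[X]) (f : MvPolynomial (Fin 2) R) : R[X] :=
  (toIter R f %ₘ (X ^ 2 - C q)).coeff 0

/-- The reduction of a two variable polynomial modulo `y ^ 2 - q(x)`: coefficient of `y`. -/
noncomputable def redB (q : R[X]) (f : MvPolynomial (Fin 2) R) : R[X] :=
  (toIter R f %ₘ (X ^ 2 - C q)).coeff 1

theorem eval_red {A : Type*} [CommRing A] (ψ : R →+* A) (q : R[X]) (x y : A)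
    (hy : y ^ 2 = q.eval₂ ψ x) (f : MvPolynomial (Fin 2) R) :
    MvPolynomial.eval₂ ψ ![x, y] f = (redA q f).eval₂ ψ x + (redB q f).eval₂ ψ x * y := by
  rcases subsingleton_or_nontrivial R with hR | hR
  · have h1 : (1 : A) = 0 := by
      rw [← map_one ψ, Subsingleton.elim (1 : R) 0, map_zero]
    have : Subsingleton A := subsingleton_of_zero_eq_one h1.symm
    exact Subsingleton.elim _ _
  have hmonic : (X ^ 2 - C q : R[X][X]).Monic := monic_X_pow_sub_C q (by norm_num)
  have hnat : (X ^ 2 - C q : R[X][X]).natDegree = 2 := natDegree_X_pow_sub_C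
  have e1 : eval₂ (eval₂RingHom ψ x) y (X ^ 2 - C q : R[X][X]) = 0 := by
    rw [eval₂_sub, eval₂_pow, eval₂_X, eval₂_C, hy, coe_eval₂RingHom, sub_self]
  have hdiv := modByMonic_add_div (toIter R f) (X ^ 2 - C q : R[X][X])
  have hdeg : (toIter R f %ₘ (X ^ 2 - C q)).natDegree < 2 := by
    refine lt_of_lt_of_eq (natDegree_modByMonic_lt _ hmonic ?_) hnat
    intro h
    rw [h] at hnat
    simp at hnat
  rw [← eval_toIter, ← hdiv, eval₂_add, eval₂_mul, e1, zero_mul, add_zero]
  unfold redA redB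
  generalize toIter R f %ₘ (X ^ 2 - C q) = r at hdeg ⊢
  have hr' : r = C (r.coeff 1) * X + C (r.coeff 0) :=
    eq_X_add_C_of_natDegree_le_one (by omega)
  conv_lhs => rw [hr']
  rw [eval₂_add, eval₂_mul, eval₂_C, eval₂_C, eval₂_X, coe_eval₂RingHom]
  ring

end Red

/-- The field `E` is generated over `B` by `x` and `y` with `y ^ 2 = q(x)`, where `q` is separable
of degree between one and four: the function field of a curve of genus at most one. -/
structure IsQuartic {K E : Type*} [Field K] [Field E] [Algebra K E] (B : IntermediateField K E)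
    (x y : E) (q : Polynomial B) : Prop where
  transc : Transcendental B x
  sep : q.Separable
  one_le : 1 ≤ q.natDegree
  le_four : q.natDegree ≤ 4
  eqn : y ^ 2 = aeval x q
  top : IntermediateField.adjoin B {x, y} = ⊤

section Emb

variable {K E : Type*} [Field K] [Field E] [Algebra K E] {B : IntermediateField K E}
    {x y : E} {q : Polynomial B}

theorem IsQuartic.transc' (h : IsQuartic B x y q) (f : Polynomial B)
    (hf : f.eval₂ (algebraMap B E) x = 0) : f = 0 := by
  by_contra hne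
  exact h.transc ⟨f, hne, hf⟩

theorem IsQuartic.eqn' (h : IsQuartic B x y q) : y ^ 2 = q.eval₂ (algebraMap B E) x := h.eqn

/-- Every element of `E` is a fraction of polynomials in `x` and `y`. -/
theorem IsQuartic.frac (h : IsQuartic B x y q) (g : E) :
    ∃ f s : MvPolynomial (Fin 2) B, g * MvPolynomial.aeval ![x, y] s = MvPolynomial.aeval ![x, y] f ∧
      MvPolynomial.aeval ![x, y] s ≠ (0 : E) := by
  have hr : Set.range ![x, y] = {x, y} := by simp [Set.pair_comm y x]
  have hg : g ∈ IntermediateField.adjoin B (Set.range ![x, y]) := by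
    rw [hr, h.top]; exact IntermediateField.mem_top
  rw [IntermediateField.mem_adjoin_range_iff] at hg
  obtain ⟨r, s, hrs⟩ := hg
  by_cases hs : MvPolynomial.aeval ![x, y] s = (0 : E)
  · refine ⟨0, 1, ?_, ?_⟩
    · rw [hrs, hs, div_zero, zero_mul, map_zero]
    · rw [map_one]; exact one_ne_zero
  · exact ⟨r, s, by rw [hrs, div_mul_cancel₀ _ hs], hs⟩

/-- Extension of an embedding of `B` to `E`. -/
theorem IsQuartic.exists_embedding (h : IsQuartic B x y q) {Ω : Type*} [Field Ω] [Algebra K Ω]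
    (σ : B →ₐ[K] Ω) (x' y' : Ω)
    (hx' : ∀ f : Polynomial B, f.eval₂ (σ : B →+* Ω) x' = 0 → f = 0)
    (hy' : y' ^ 2 = q.eval₂ (σ : B →+* Ω) x') :
    ∃ ψ : E →ₐ[K] Ω, (∀ b : B, ψ b = σ b) ∧ ψ x = x' ∧ ψ y = y' := by
  let θ : MvPolynomial (Fin 2) B →+* E := MvPolynomial.eval₂Hom (algebraMap B E) ![x, y]
  let ev : MvPolynomial (Fin 2) B →+* Ω := MvPolynomial.eval₂Hom (σ : B →+* Ω) ![x', y']
  have hθ : ∀ f, θ f = (redA q f).eval₂ (algebraMap B E) x
      + (redB q f).eval₂ (algebraMap B E) x * y := fun f => eval_red _ q x y h.eqn' f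
  have hev : ∀ f, ev f = (redA q f).eval₂ (σ : B →+* Ω) x'
      + (redB q f).eval₂ (σ : B →+* Ω) x' * y' := fun f => eval_red _ q x' y' hy' f
  have hker : ∀ f, θ f = 0 ↔ ev f = 0 := by
    intro f
    rw [hθ, hev]
    constructor
    · intro h0
      obtain ⟨h1, h2⟩ := indep _ q h.sep h.one_le x y h.transc' h.eqn' _ _ h0
      rw [h1, h2]; simp
    · intro h0
      obtain ⟨h1, h2⟩ := indep _ q h.sep h.one_le x' y' hx' hy' _ _ h0
      rw [h1, h2]; simp
  obtain ⟨φ', hφ'⟩ := Spec.exists_ext θ ev (fun f hf => (hker f).mp hf) (⊤ : Subalgebra K E) (by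
    intro g _
    obtain ⟨f, s, h1, h2⟩ := h.frac g
    refine ⟨f, s, h1, ?_⟩
    rw [Ne, ← hker]
    exact h2) (by
    intro r
    refine ⟨MvPolynomial.C (algebraMap K B r), ?_, ?_⟩
    · show MvPolynomial.eval₂Hom _ _ _ = _
      rw [MvPolynomial.eval₂Hom_C]; rfl
    · show MvPolynomial.eval₂Hom _ _ _ = _
      rw [MvPolynomial.eval₂Hom_C]
      exact σ.commutes r)
  have key : ∀ f, φ' ⟨θ f, Algebra.mem_top⟩ = ev f := by
    intro f
    have := hφ' ⟨θ f, Algebra.mem_top⟩ f 1 (by rw [map_one, mul_one])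
    rwa [map_one, mul_one] at this
  refine ⟨φ'.comp (Subalgebra.topEquiv.symm : E ≃ₐ[K] (⊤ : Subalgebra K E)).toAlgHom, ?_, ?_, ?_⟩
  · intro b
    have h1 := key (MvPolynomial.C b)
    have h2 : θ (MvPolynomial.C b) = b := by
      show MvPolynomial.eval₂Hom _ _ _ = _
      rw [MvPolynomial.eval₂Hom_C]; rfl
    have h3 : ev (MvPolynomial.C b) = σ b := by
      show MvPolynomial.eval₂Hom _ _ _ = _
      rw [MvPolynomial.eval₂Hom_C]; rfl
    rw [h3] at h1
    rw [← h1]
    show φ' _ = φ' _
    congr 1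
    exact Subtype.ext h2.symm
  · have h1 := key (MvPolynomial.X 0)
    have h2 : θ (MvPolynomial.X 0) = x := by
      show MvPolynomial.eval₂Hom _ _ _ = _
      rw [MvPolynomial.eval₂Hom_X']; rfl
    have h3 : ev (MvPolynomial.X 0) = x' := by
      show MvPolynomial.eval₂Hom _ _ _ = _
      rw [MvPolynomial.eval₂Hom_X']; rfl
    rw [h3] at h1
    rw [← h1]
    show φ' _ = φ' _
    congr 1
    exact Subtype.ext h2.symm
  · have h1 := key (MvPolynomial.X 1)
    have h2 : θ (MvPolynomial.X 1) = y := by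
      show MvPolynomial.eval₂Hom _ _ _ = _
      rw [MvPolynomial.eval₂Hom_X']; rfl
    have h3 : ev (MvPolynomial.X 1) = y' := by
      show MvPolynomial.eval₂Hom _ _ _ = _
      rw [MvPolynomial.eval₂Hom_X']; rfl
    rw [h3] at h1
    rw [← h1]
    show φ' _ = φ' _
    congr 1
    exact Subtype.ext h2.symm

end Emb

end Pool.Agent.Helper15.Curve
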