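import Mathlib

/-!
# Existence and uniqueness of derivations of fields in characteristic zero
-/

namespace Pool.Agent.Helper15.Der

/-- Field extensions in characteristic zero are formally smooth. -/
theorem formallySmooth_field (F E : Type*) [Field F] [Field E] [Algebra F E] [CharZero F] :
    Algebra.FormallySmooth F E := by
  obtain ⟨ι, v, hv⟩ := exists_isTranscendenceBasis' F E
  have h1 : Algebra.IsAlgebraic (IntermediateField.adjoin F (Set.range v)) E :=
    hv.isAlgebraic_field
  have h2 : CharZero (IntermediateField.adjoin F (Set.range v)) :=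
    charZero_of_injective_algebraMap (algebraMap F _).injective
  have h3 : Algebra.IsSeparable (IntermediateField.adjoin F (Set.range v)) E :=
    Algebra.IsAlgebraic.isSeparable_of_perfectField
  exact Algebra.FormallySmooth.of_algebraicIndependent_of_isSeparable hv.1

/-- Dual numbers, with only the ring structure. -/
def DN (E : Type*) [CommRing E] : Type _ := TrivSqZeroExt E E

section

variable {E : Type*} [CommRing E]

noncomputable instance : CommRing (DN E) := inferInstanceAs (CommRing (TrivSqZeroExt E E))

/-- The first component. -/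
def DN.fst : DN E →+* E where
  toFun x := TrivSqZeroExt.fst x
  map_one' := rfl
  map_mul' _ _ := rfl
  map_zero' := rfl
  map_add' _ _ := rfl

/-- The second component. -/
def DN.snd : DN E →+ E where
  toFun x := TrivSqZeroExt.snd x
  map_zero' := rfl
  map_add' _ _ := rfl

theorem DN.snd_mul (x y : DN E) :
    DN.snd (x * y) = DN.fst x * DN.snd y + DN.fst y * DN.snd x := by
  rw [mul_comm (DN.fst y) (DN.snd x)]
  exact TrivSqZeroExt.snd_mul (R := E) (M := E) x y

/-- Constructor. -/
def DN.mk (a b : E) : DN E := (a, b)

theorem DN.fst_mk (a b : E) : DN.fst (DN.mk a b) = a := rfl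

theorem DN.snd_mk (a b : E) : DN.snd (DN.mk a b) = b := rfl

theorem DN.ext' {x y : DN E} (h1 : DN.fst x = DN.fst y) (h2 : DN.snd x = DN.snd y) : x = y :=
  TrivSqZeroExt.ext h1 h2

/-- The inclusion of constants. -/
def DN.inl : E →+* DN E where
  toFun x := DN.mk x 0
  map_one' := rfl
  map_mul' x y := by
    apply DN.ext'
    · rw [map_mul]; rfl
    · rw [DN.snd_mul, DN.snd_mk, DN.snd_mk, DN.snd_mk, mul_zero, mul_zero, add_zero]
  map_zero' := rfl
  map_add' x y := by
    apply DN.ext'
    · rw [map_add]; rfl
    · rw [map_add, DN.snd_mk, DN.snd_mk, DN.snd_mk, add_zero]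

end

/-- Extension of derivations, phrased through dual numbers. -/
theorem exists_deriv {A E : Type*} [CommRing A] [CommRing E] [Algebra A E]
    [Algebra.FormallySmooth A E] (φ : A →+* DN E) (hφ : ∀ a, DN.fst (φ a) = algebraMap A E a) :
    ∃ D : Derivation ℤ E E, ∀ a, D (algebraMap A E a) = DN.snd (φ a) := by
  let _ : Algebra A (DN E) := φ.toAlgebra
  let g : DN E →ₐ[A] E := { DN.fst with commutes' := hφ }
  have hg : Function.Surjective g := fun x => ⟨DN.mk x 0, rfl⟩
  have hnil : IsNilpotent (RingHom.ker (g : DN E →+* E)) := by
    refine ⟨2, ?_⟩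
    rw [pow_two, Ideal.zero_eq_bot, eq_bot_iff, Ideal.mul_le]
    intro x hx y hy
    rw [RingHom.mem_ker] at hx hy
    rw [Ideal.mem_bot]
    have hx' : DN.fst x = 0 := hx
    have hy' : DN.fst y = 0 := hy
    apply DN.ext'
    · rw [map_mul, hx', zero_mul, map_zero]
    · rw [DN.snd_mul, hx', hy', zero_mul, zero_mul, add_zero, map_zero]
  let Φ : E →ₐ[A] DN E := Algebra.FormallySmooth.liftOfSurjective (AlgHom.id A E) g hg hnil
  have hΦ : ∀ x, DN.fst (Φ x) = x := by
    intro x
    exact Algebra.FormallySmooth.liftOfSurjective_apply (AlgHom.id A E) g hg hnil x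
  have hΦa : ∀ a, Φ (algebraMap A E a) = φ a := fun a => Φ.commutes a
  refine ⟨Derivation.mk' (AddMonoidHom.toIntLinearMap
    (DN.snd.comp (Φ : E →+* DN E).toAddMonoidHom)) ?_, ?_⟩
  · intro x y
    change DN.snd (Φ (x * y)) = x • DN.snd (Φ y) + y • DN.snd (Φ x)
    rw [map_mul, DN.snd_mul, hΦ, hΦ]
    rfl
  · intro a
    change DN.snd (Φ (algebraMap A E a)) = _
    rw [hΦa]

/-- A derivation over `ℤ` that kills the elements of `k` is a derivation over `k`. -/
def ofInt {k E : Type*} [CommRing k] [CommRing E] [Algebra k E] (D : Derivation ℤ E E)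
    (hD : ∀ a : k, D (algebraMap k E a) = 0) : Derivation k E E where
  toFun := D
  map_add' := map_add D
  map_smul' a x := by
    have h := D.leibniz (algebraMap k E a) x
    show D (a • x) = a • D x
    rw [Algebra.smul_def, h, hD, smul_zero, add_zero, smul_eq_mul, ← Algebra.smul_def]
  map_one_eq_zero' := D.map_one_eq_zero
  leibniz' := D.leibniz

open scoped IntermediateField.algebraAdjoinAdjoin in
/-- In characteristic zero there are derivations with prescribed values on an algebraically
independent family. -/
theorem exists_derivation {k E ι : Type*} [Field k] [Field E] [Algebra k E] [CharZero k]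
    (t : ι → E) (ht : AlgebraicIndependent k t) (v : ι → E) :
    ∃ D : Derivation k E E, ∀ i, D (t i) = v i := by
  classical
  let A := Algebra.adjoin k (Set.range t)
  have h1 : Algebra.FormallySmooth A (IntermediateField.adjoin k (Set.range t)) :=
    .of_isLocalization (nonZeroDivisors _)
  have h2 : CharZero (IntermediateField.adjoin k (Set.range t)) :=
    charZero_of_injective_algebraMap (algebraMap k _).injective
  have h3 : Algebra.FormallySmooth (IntermediateField.adjoin k (Set.range t)) E :=
    formallySmooth_field _ _
  have h4 : IsScalarTower A (IntermediateField.adjoin k (Set.range t)) E := by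
    exact IsScalarTower.of_algebraMap_eq fun x => rfl
  have h5 : Algebra.FormallySmooth A E :=
    .comp _ (IntermediateField.adjoin k (Set.range t)) _
  let Φ : MvPolynomial ι k →+* DN E :=
    MvPolynomial.eval₂Hom (DN.inl.comp (algebraMap k E)) (fun i => DN.mk (t i) (v i))
  let φ : A →+* DN E := Φ.comp (ht.aevalEquiv.symm : A →+* MvPolynomial ι k)
  have hfst : ∀ p : MvPolynomial ι k, DN.fst (Φ p) = MvPolynomial.aeval t p := by
    intro p
    induction p using MvPolynomial.induction_on with
    | C a =>
      show DN.fst (MvPolynomial.eval₂Hom _ _ _) = _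
      rw [MvPolynomial.eval₂Hom_C, MvPolynomial.aeval_C]; rfl
    | add p q hp hq => rw [map_add, map_add, map_add, hp, hq]
    | mul_X p i hp =>
      rw [map_mul, map_mul, map_mul, hp, MvPolynomial.aeval_X]
      congr 1
      show DN.fst (MvPolynomial.eval₂Hom _ _ _) = _
      rw [MvPolynomial.eval₂Hom_X']; rfl
  obtain ⟨D, hD⟩ := exists_deriv (A := A) (E := E) φ (by
    intro a
    show DN.fst (Φ (ht.aevalEquiv.symm a)) = _
    rw [hfst]
    have := ht.algebraMap_aevalEquiv (ht.aevalEquiv.symm a)
    rw [AlgEquiv.apply_symm_apply] at this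
    rw [← this])
  have hmk : ∀ p : MvPolynomial ι k, D (MvPolynomial.aeval t p) = DN.snd (Φ p) := by
    intro p
    have h6 := hD (ht.aevalEquiv p)
    rw [ht.algebraMap_aevalEquiv] at h6
    rw [h6]
    show DN.snd (Φ (ht.aevalEquiv.symm (ht.aevalEquiv p))) = _
    rw [AlgEquiv.symm_apply_apply]
  refine ⟨ofInt D ?_, ?_⟩
  · intro a
    have := hmk (MvPolynomial.C a)
    rw [MvPolynomial.aeval_C] at this
    rw [this]
    show DN.snd (MvPolynomial.eval₂Hom _ _ _) = _
    rw [MvPolynomial.eval₂Hom_C]; rfl
  · intro i
    show D (t i) = v i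
    have := hmk (MvPolynomial.X i)
    rw [MvPolynomial.aeval_X] at this
    rw [this]
    show DN.snd (MvPolynomial.eval₂Hom _ _ _) = _
    rw [MvPolynomial.eval₂Hom_X']; rfl

/-- A derivation with values in an extension field that vanishes on the base and on a
transcendence basis is zero. -/
theorem derivation_eq_zero {k E Ω : Type*} [Field k] [Field E] [Field Ω] [Algebra k E]
    [CharZero k] (σ : E →+* Ω) (d : E → Ω) (hadd : ∀ a b, d (a + b) = d a + d b)
    (hmul : ∀ a b, d (a * b) = σ a * d b + σ b * d a) (hk : ∀ a : k, d (algebraMap k E a) = 0)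
    (T : Set E) (hT : ∀ t ∈ T, d t = 0)
    (halg : Algebra.IsAlgebraic (IntermediateField.adjoin k T) E) (e : E) : d e = 0 := by
  have hcz : CharZero E := charZero_of_injective_algebraMap (algebraMap k E).injective
  have h0 : d 0 = 0 := by
    have := hadd 0 0
    rw [add_zero] at this
    exact left_eq_add.mp this
  have h1 : d 1 = 0 := by
    have := hk 1
    rwa [map_one] at this
  have hneg : ∀ a, d (-a) = - d a := by
    intro a
    have := hadd a (-a)
    rw [add_neg_cancel, h0] at this
    linear_combination -this
  -- the subfield of constants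
  let F : IntermediateField k E :=
    { carrier := {a | d a = 0}
      mul_mem' := by
        intro a b ha hb
        simp only [Set.mem_ofPred_eq] at ha hb ⊢
        rw [hmul, ha, hb, mul_zero, mul_zero, add_zero]
      one_mem' := h1
      add_mem' := by
        intro a b ha hb
        simp only [Set.mem_ofPred_eq] at ha hb ⊢
        rw [hadd, ha, hb, add_zero]
      zero_mem' := h0
      algebraMap_mem' := hk
      inv_mem' := by
        intro a ha
        simp only [Set.mem_ofPred_eq] at ha ⊢
        rcases eq_or_ne a 0 with rfl | hne
        · rw [inv_zero]; exact h0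
        · have h := hmul a a⁻¹
          rw [mul_inv_cancel₀ hne, h1, ha, mul_zero, add_zero] at h
          have hσ : σ a ≠ 0 := (map_ne_zero σ).mpr hne
          exact (mul_eq_zero.mp h.symm).resolve_left hσ }
  have hF : IntermediateField.adjoin k T ≤ F := by
    rw [IntermediateField.adjoin_le_iff]
    intro t ht
    exact hT t ht
  -- the derivation on polynomials with constant coefficients
  have hpow : ∀ n : ℕ, d (e ^ (n + 1)) = (n + 1 : ℕ) * σ e ^ n * d e := by
    intro n
    induction n with
    | zero => simp
    | succ n ih =>
      rw [pow_succ, hmul, ih, map_pow]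
      push_cast
      ring
  have hpoly : ∀ p : Polynomial (IntermediateField.adjoin k T), d (Polynomial.aeval e p)
      = σ (Polynomial.aeval e (Polynomial.derivative p)) * d e := by
    intro p
    induction p using Polynomial.induction_on' with
    | add p q hp hq => rw [map_add, hadd, hp, hq, map_add, map_add, map_add, add_mul]
    | monomial n a =>
      have ha : d (a : E) = 0 := hF a.2
      cases n with
      | zero =>
        rw [Polynomial.monomial_zero_left, Polynomial.aeval_C, Polynomial.derivative_C, map_zero,
          map_zero, zero_mul]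
        exact ha
      | succ n =>
        rw [Polynomial.aeval_monomial, hmul, hpow, Polynomial.derivative_monomial,
          Polynomial.aeval_monomial, Nat.add_sub_cancel]
        have ha' : d (algebraMap (IntermediateField.adjoin k T) E a) = 0 := ha
        rw [ha', mul_zero, add_zero, map_mul, map_mul, map_pow, map_natCast, map_mul, map_natCast]
        ring
  have hint : IsIntegral (IntermediateField.adjoin k T) e := Algebra.IsIntegral.isIntegral e
  have hsep : (minpoly (IntermediateField.adjoin k T) e).Separable := by
    have : CharZero (IntermediateField.adjoin k T) :=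
      charZero_of_injective_algebraMap (algebraMap k _).injective
    exact (minpoly.irreducible hint).separable
  have h2 := hpoly (minpoly (IntermediateField.adjoin k T) e)
  rw [minpoly.aeval, h0] at h2
  have h3 : Polynomial.aeval e (Polynomial.derivative (minpoly (IntermediateField.adjoin k T) e))
      ≠ 0 := hsep.aeval_derivative_ne_zero (minpoly.aeval _ _)
  exact (mul_eq_zero.mp h2.symm).resolve_left ((map_ne_zero σ).mpr h3)

end Pool.Agent.Helper15.Der
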