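import Pool.Agent.Helper15.Curve
import Pool.Agent.Helper15.Der

/-!
# The derivation of the function field of a curve `y ^ 2 = q(x)`
-/

namespace Pool.Agent.Helper15.Curve

open Polynomial

variable {K E : Type*} [Field K] [Field E] [Algebra K E] {B : IntermediateField K E}
    {x y : E} {q : Polynomial B}

theorem IsQuartic.y_ne_zero (h : IsQuartic B x y q) : y ≠ 0 := by
  rintro rfl
  have h1 := h.eqn'
  rw [zero_pow two_ne_zero] at h1
  exact h.sep.ne_zero (h.transc' q h1.symm)

theorem IsQuartic.isAlgebraic (h : IsQuartic B x y q) :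
    Algebra.IsAlgebraic (IntermediateField.adjoin B {x}) E := by
  have hxF : x ∈ IntermediateField.adjoin B {x} := IntermediateField.subset_adjoin _ _ rfl
  have hy : IsAlgebraic (IntermediateField.adjoin B {x}) y := by
    have h1 : IsAlgebraic (IntermediateField.adjoin B {x}) (y ^ 2) := by
      have h2 : y ^ 2 = algebraMap (IntermediateField.adjoin B {x}) E
          (aeval (⟨x, hxF⟩ : IntermediateField.adjoin B {x}) q) := by
        rw [h.eqn, ← aeval_algebraMap_apply]
        rfl
      rw [h2]
      exact isAlgebraic_algebraMap _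
    exact IsAlgebraic.of_pow two_pos h1
  have hc : ∀ z, z ∈ (algebraicClosure (IntermediateField.adjoin B {x}) E).restrictScalars B →
      IsAlgebraic (IntermediateField.adjoin B {x}) z := fun z hz =>
    (mem_algebraicClosure_iff).mp hz
  have hle : (⊤ : IntermediateField B E)
      ≤ (algebraicClosure (IntermediateField.adjoin B {x}) E).restrictScalars B := by
    rw [← h.top, IntermediateField.adjoin_le_iff]
    rintro z (rfl | hz)
    · show z ∈ algebraicClosure (IntermediateField.adjoin B {z}) E
      rw [mem_algebraicClosure_iff]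
      exact isAlgebraic_algebraMap (⟨z, hxF⟩ : IntermediateField.adjoin B {z})
    · rw [Set.mem_singleton_iff.mp hz]
      show y ∈ algebraicClosure (IntermediateField.adjoin B {x}) E
      rw [mem_algebraicClosure_iff]
      exact hy
  exact ⟨fun z => hc z (hle IntermediateField.mem_top)⟩

theorem IsQuartic.isTranscendenceBasis (h : IsQuartic B x y q) :
    IsTranscendenceBasis B (fun _ : Unit => x) := by
  rw [isTranscendenceBasis_iff_algebraicIndependent_isAlgebraic]
  refine ⟨algebraicIndependent_unique_type_iff.mpr h.transc, ?_⟩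
  have hr : Set.range (fun _ : Unit => x) = {x} := by simp
  rw [hr]
  have h1 := h.isAlgebraic
  let _ : Algebra (Algebra.adjoin B ({x} : Set E)) (IntermediateField.adjoin B ({x} : Set E)) :=
    (Subalgebra.inclusion (IntermediateField.algebra_adjoin_le_adjoin B {x})).toRingHom.toAlgebra
  have h2 : IsScalarTower (Algebra.adjoin B ({x} : Set E))
      (IntermediateField.adjoin B ({x} : Set E)) E :=
    IsScalarTower.of_algebraMap_eq (congrFun rfl)
  have h3 : Algebra.IsAlgebraic (Algebra.adjoin B ({x} : Set E))
      (IntermediateField.adjoin B ({x} : Set E)) := by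
    constructor
    intro z
    obtain ⟨a, ha, b, hb, hab⟩ := IntermediateField.mem_adjoin_iff_div.mp z.2
    by_cases hb0 : b = 0
    · rw [hb0, div_zero] at hab
      have : z = 0 := Subtype.ext hab
      rw [this]
      exact isAlgebraic_zero
    · refine ⟨C ⟨b, hb⟩ * X - C ⟨a, ha⟩, ?_, ?_⟩
      · intro h0
        have := congrArg (fun p => p.coeff 1) h0
        simp only [coeff_sub, coeff_C_mul, coeff_X_one, mul_one, coeff_zero] at this
        rw [coeff_C_of_ne_zero one_ne_zero, sub_zero] at this
        exact hb0 (congrArg Subtype.val this)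
      · rw [map_sub, map_mul, aeval_C, aeval_C, aeval_X]
        apply Subtype.ext
        show b * (z : E) - a = 0
        rw [hab, mul_div_cancel₀ _ hb0, sub_self]
  exact Algebra.IsAlgebraic.trans _ (IntermediateField.adjoin B ({x} : Set E)) _

/-- An element of `E` algebraic over `B` lies in `B`. -/
theorem IsQuartic.mem_of_isAlgebraic (h : IsQuartic B x y q) (e : E) (he : IsAlgebraic B e) :
    e ∈ B := by
  let F := algebraicClosure B E
  have hF : Algebra.IsAlgebraic B F := inferInstance
  have heF : e ∈ F := by
    rw [mem_algebraicClosure_iff]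
    exact he
  have hxF : Transcendental F x := by
    intro hx
    apply h.transc
    exact IsAlgebraic.restrictScalars B hx
  obtain ⟨f, s, hfs, hs⟩ := h.frac e
  have hr := fun g : MvPolynomial (Fin 2) B => eval_red (algebraMap B E) q x y h.eqn' g
  have hfs' : e * ((redA q s).eval₂ (algebraMap B E) x + (redB q s).eval₂ (algebraMap B E) x * y)
      = (redA q f).eval₂ (algebraMap B E) x + (redB q f).eval₂ (algebraMap B E) x * y := by
    rw [← hr, ← hr]
    exact hfs
  have hs' : ¬ (redA q s = 0 ∧ redB q s = 0) := by
    rintro ⟨h1, h2⟩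
    apply hs
    have := hr s
    rw [h1, h2] at this
    simp only [eval₂_zero, zero_mul, add_zero] at this
    exact this
  set eF : F := ⟨e, heF⟩ with heF'
  have hm : ∀ p : Polynomial B, (p.map (algebraMap B F)).eval₂ (algebraMap F E) x
      = p.eval₂ (algebraMap B E) x := by
    intro p
    rw [eval₂_map, ← IsScalarTower.algebraMap_eq]
  have key := indep (algebraMap F E) (q.map (algebraMap B F)) (h.sep.map)
    (by rw [natDegree_map]; exact h.one_le) x y
    (fun p hp => by
      by_contra hne
      exact hxF ⟨p, hne, hp⟩)
    (by rw [hm]; exact h.eqn')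
    (C eF * (redA q s).map (algebraMap B F) - (redA q f).map (algebraMap B F))
    (C eF * (redB q s).map (algebraMap B F) - (redB q f).map (algebraMap B F)) (by
      rw [eval₂_sub, eval₂_sub, eval₂_mul, eval₂_mul, hm, hm, hm, hm, eval₂_C]
      show (e * _ - _) + (e * _ - _) * y = 0
      linear_combination hfs')
  -- some coefficient of `s` is nonzero
  have hcoef : ∀ p r : Polynomial B, p ≠ 0 →
      C eF * p.map (algebraMap B F) - r.map (algebraMap B F) = 0 → e ∈ B := by
    intro p r hp h0
    have h1 := congrArg (fun t => t.coeff p.natDegree) h0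
    simp only [coeff_sub, coeff_C_mul, coeff_map, coeff_zero] at h1
    have h2 : p.coeff p.natDegree ≠ 0 := by
      rw [coeff_natDegree]; exact leadingCoeff_ne_zero.mpr hp
    have h3 := congrArg (fun t : F => (t : E)) h1
    have h4 : e * (p.coeff p.natDegree : E) - (r.coeff p.natDegree : E) = 0 := h3
    have h5 : (p.coeff p.natDegree : E) ≠ 0 := by
      intro h
      exact h2 (Subtype.ext h)
    have h6 : e = (r.coeff p.natDegree : E) / (p.coeff p.natDegree : E) := by
      rw [eq_div_iff h5]; linear_combination h4
    rw [h6]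
    exact B.div_mem (SetLike.coe_mem _) (SetLike.coe_mem _)
  by_cases hA : redA q s = 0
  · exact hcoef _ _ (fun hB => hs' ⟨hA, hB⟩) key.2
  · exact hcoef _ _ hA key.1

/-- A derivation on `E` with values in an extension field that vanishes on `B` and `x`
vanishes. -/
theorem IsQuartic.derivation_eq_zero [CharZero K] (h : IsQuartic B x y q) {Ω : Type*} [Field Ω]
    (σ : E →+* Ω) (d : E → Ω) (hadd : ∀ a b, d (a + b) = d a + d b)
    (hmul : ∀ a b, d (a * b) = σ a * d b + σ b * d a) (hB : ∀ b : B, d b = 0)
    (hx : d x = 0) (e : E) : d e = 0 := by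
  have : CharZero B := charZero_of_injective_algebraMap (algebraMap K B).injective
  refine Der.derivation_eq_zero (k := B) σ d hadd hmul hB {x} ?_ h.isAlgebraic e
  rintro t rfl
  exact hx

/-- The derivation `d / dx` of `E` over `B`. -/
theorem IsQuartic.exists_der [CharZero K] (h : IsQuartic B x y q) :
    ∃ D : Derivation K E E, D x = 1 ∧ (∀ e, D e = 0 ↔ e ∈ B) ∧
      2 * y * D y = aeval x (derivative q) := by
  have : CharZero B := charZero_of_injective_algebraMap (algebraMap K B).injective
  obtain ⟨D₀, hD₀⟩ := Der.exists_derivation (k := B) (fun _ : Unit => x)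
    h.isTranscendenceBasis.1 (fun _ => 1)
  have hx1 : D₀ x = 1 := hD₀ ()
  refine ⟨D₀.restrictScalars K, hx1, ?_, ?_⟩
  · intro e
    constructor
    · intro he
      apply h.mem_of_isAlgebraic
      by_contra htr
      have hb : IsTranscendenceBasis B (fun _ : Unit => e) := by
        refine AlgebraicIndependent.isTranscendenceBasis_of_lift_trdeg_le_of_finite
          (algebraicIndependent_unique_type_iff.mpr htr) ?_
        rw [← h.isTranscendenceBasis.lift_cardinalMk_eq_trdeg]
      have halg := hb.isAlgebraic_field
      have h0 : D₀ x = 0 := by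
        refine Der.derivation_eq_zero (k := B) (RingHom.id E) D₀ (map_add D₀) ?_ ?_ _ ?_ halg x
        · intro a b
          rw [D₀.leibniz]; rfl
        · intro a
          exact D₀.map_algebraMap a
        · rintro t ⟨_, rfl⟩
          exact he
      rw [hx1] at h0
      exact one_ne_zero h0
    · intro he
      exact D₀.map_algebraMap (⟨e, he⟩ : B)
  · have h1 := congrArg D₀ h.eqn
    have h2 : D₀ (aeval x q) = aeval x (derivative q) * D₀ x := by
      rw [D₀.map_aeval, smul_eq_mul]
    rw [h2, hx1, mul_one] at h1
    rw [← h1]
    show 2 * y * D₀ y = D₀ (y ^ 2)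
    rw [sq, D₀.leibniz, smul_eq_mul]
    ring

end Pool.Agent.Helper15.Curve
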