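import Mathlib

/-!
# Directional derivatives of polynomials
-/

namespace Pool.Agent.Helper15

open MvPolynomial

/-- The derivative `∑ i, w i * ∂f/∂x_i` of the polynomial `f` in the direction `w`. -/
noncomputable def dirDeriv {R ι : Type*} [CommRing R] [Fintype ι] (w : ι → R)
    (f : MvPolynomial ι R) : MvPolynomial ι R :=
  ∑ i, C (w i) * pderiv i f

end Pool.Agent.Helper15
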