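import Mathlib

/-!
# Weierstrass curves `y ^ 2 = x ^ 3 + c x ^ 2 + p x + r`: doubling at a place above `2`
-/

namespace Pool.Agent.Helper15.EC

open WeierstrassCurve WeierstrassCurve.Affine

/-- The curve `y ^ 2 = x ^ 3 + c x ^ 2 + p x + r`. -/
def cub {F : Type*} [CommRing F] (c p r : F) : WeierstrassCurve.Affine F := ⟨0, c, 0, p, r⟩

section Basic

variable {F : Type*} [Field F]

theorem cub_equation (c p r x y : F) :
    (cub c p r).Equation x y ↔ y ^ 2 = x ^ 3 + c * x ^ 2 + p * x + r := by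
  rw [equation_iff]
  simp [cub]

theorem cub_nonsingular (c p r x y : F) (hΔ : (cub c p r).Δ ≠ 0)
    (h : y ^ 2 = x ^ 3 + c * x ^ 2 + p * x + r) : (cub c p r).Nonsingular x y :=
  (equation_iff_nonsingular_of_Δ_ne_zero hΔ).mp ((cub_equation c p r x y).mpr h)

/-- `P` is the affine point with coordinates `x`, `y`. -/
def IsAt (c p r : F) (P : (cub c p r).Point) (x y : F) : Prop :=
  ∃ h : (cub c p r).Nonsingular x y, P = .some x y h

theorem IsAt.eq {c p r : F} {P : (cub c p r).Point} {x y : F} (h : IsAt c p r P x y) :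
    y ^ 2 = x ^ 3 + c * x ^ 2 + p * x + r := by
  obtain ⟨h, -⟩ := h
  exact (cub_equation c p r x y).mp h.1

theorem IsAt.ne_zero {c p r : F} {P : (cub c p r).Point} {x y : F} (h : IsAt c p r P x y) :
    P ≠ 0 := by
  obtain ⟨h, rfl⟩ := h
  exact Point.some_ne_zero h

theorem IsAt.unique {c p r : F} {P : (cub c p r).Point} {x y x' y' : F}
    (h : IsAt c p r P x y) (h' : IsAt c p r P x' y') : x = x' ∧ y = y' := by
  obtain ⟨h, rfl⟩ := h
  obtain ⟨h', e⟩ := h'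
  exact Point.some.inj e

theorem exists_isAt {c p r : F} {P : (cub c p r).Point} (h : P ≠ 0) :
    ∃ x y, IsAt c p r P x y := by
  cases P with
  | zero => exact absurd rfl h
  | some x y hxy => exact ⟨x, y, hxy, rfl⟩

theorem IsAt.neg {c p r : F} {P : (cub c p r).Point} {x y : F} (h : IsAt c p r P x y) :
    IsAt c p r (-P) x (-y) := by
  obtain ⟨h, rfl⟩ := h
  have e : (cub c p r).negY x y = -y := by simp [cub]
  have h' := (nonsingular_neg (W' := cub c p r) x y).mpr h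
  rw [e] at h'
  refine ⟨h', ?_⟩
  rw [Point.neg_some]
  simp only [e]

/-- Points with the same abscissa are equal or opposite. -/
theorem IsAt.eq_or_neg {c p r : F} {P Q : (cub c p r).Point} {x y y' : F}
    (hP : IsAt c p r P x y) (hQ : IsAt c p r Q x y') : P = Q ∨ P = -Q := by
  obtain ⟨hP, rfl⟩ := hP
  obtain ⟨hQ, rfl⟩ := hQ
  exact Point.X_eq_iff.mp rfl

variable [DecidableEq F]

/-- The sum of two points with different abscissae. -/
theorem IsAt.add {c p r : F} {P Q : (cub c p r).Point} {x y x' y' : F}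
    (hP : IsAt c p r P x y) (hQ : IsAt c p r Q x' y') (hx : x ≠ x') (l : F)
    (hl : l = (y - y') / (x - x')) :
    IsAt c p r (P + Q) (l ^ 2 - c - x - x') (-(l * ((l ^ 2 - c - x - x') - x) + y)) := by
  obtain ⟨hP, rfl⟩ := hP
  obtain ⟨hQ, rfl⟩ := hQ
  rw [Point.add_of_X_ne hx]
  have e1 : (cub c p r).slope x x' y y' = l := by rw [slope_of_X_ne hx, hl]
  have e2 : (cub c p r).addX x x' ((cub c p r).slope x x' y y') = l ^ 2 - c - x - x' := by
    rw [e1]; simp [cub]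
  have e3 : (cub c p r).addY x x' y ((cub c p r).slope x x' y y')
      = -(l * ((l ^ 2 - c - x - x') - x) + y) := by
    rw [e1, addY, negAddY]
    simp [cub]
  have h := nonsingular_add hP hQ (fun h => hx h.1)
  rw [e2, e3] at h
  refine ⟨h, ?_⟩
  simp only [e2, e3]

/-- The double of a point. -/
theorem IsAt.double {c p r : F} {P : (cub c p r).Point} {x y : F}
    (hP : IsAt c p r P x y) (h2 : (2 : F) ≠ 0) (hy : y ≠ 0) (l : F)
    (hl : l = (3 * x ^ 2 + 2 * c * x + p) / (2 * y)) :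
    IsAt c p r (P + P) (l ^ 2 - c - x - x) (-(l * ((l ^ 2 - c - x - x) - x) + y)) := by
  obtain ⟨hP, rfl⟩ := hP
  have hy' : y ≠ (cub c p r).negY x y := by
    simp only [cub, negY, zero_mul, sub_zero]
    intro h
    have : 2 * y = 0 := by linear_combination h
    rcases mul_eq_zero.mp this with h | h
    · exact h2 h
    · exact hy h
  rw [Point.add_self_of_Y_ne hy']
  have e1 : (cub c p r).slope x x y y = l := by
    rw [slope_of_Y_ne rfl hy', hl]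
    simp [cub]
    ring
  have e2 : (cub c p r).addX x x ((cub c p r).slope x x y y) = l ^ 2 - c - x - x := by
    rw [e1]; simp [cub]
  have e3 : (cub c p r).addY x x y ((cub c p r).slope x x y y)
      = -(l * ((l ^ 2 - c - x - x) - x) + y) := by
    rw [e1, addY, negAddY]
    simp [cub]
  have h := nonsingular_add hP hP (fun h => hy' h.2)
  rw [e2, e3] at h
  refine ⟨h, ?_⟩
  simp only [e2, e3]

end Basic

section Normed

variable {F : Type*} [NormedField F] [IsUltrametricDist F]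

theorem norm_add_of_lt {a b : F} (h : ‖b‖ < ‖a‖) : ‖a + b‖ = ‖a‖ := by
  rw [IsUltrametricDist.norm_add_eq_max_of_norm_ne_norm h.ne']
  exact max_eq_left h.le

/-- If `x` is large, then `‖y‖ ^ 2 = ‖x‖ ^ 3`. -/
theorem norm_y_sq {c p r x y : F} {C : ℝ} (hC : 1 ≤ C) (hc : ‖c‖ ≤ C) (hp : ‖p‖ ≤ C)
    (hr : ‖r‖ ≤ C) (h : y ^ 2 = x ^ 3 + c * x ^ 2 + p * x + r) (hx : C < ‖x‖) :
    ‖y‖ ^ 2 = ‖x‖ ^ 3 := by
  have hx0 : 0 < ‖x‖ := by linarith
  have hx1 : 1 < ‖x‖ := by linarith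
  rw [← norm_pow, h]
  have e : x ^ 3 + c * x ^ 2 + p * x + r = x ^ 3 + (c * x ^ 2 + (p * x + r)) := by ring
  rw [e, norm_add_of_lt, norm_pow]
  rw [norm_pow]
  have h3 : ‖x‖ ^ 3 = ‖x‖ * ‖x‖ ^ 2 := by ring
  have hsq : 1 < ‖x‖ ^ 2 := by nlinarith
  have h1 : ‖c * x ^ 2‖ < ‖x‖ ^ 3 := by
    rw [norm_mul, norm_pow, h3]
    exact mul_lt_mul_of_pos_right (lt_of_le_of_lt hc hx) (by positivity)
  have h2 : ‖p * x‖ < ‖x‖ ^ 3 := by
    rw [norm_mul]
    calc ‖p‖ * ‖x‖ < ‖x‖ * ‖x‖ := mul_lt_mul_of_pos_right (lt_of_le_of_lt hp hx) hx0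
      _ ≤ ‖x‖ ^ 3 := by nlinarith
  have h4 : ‖r‖ < ‖x‖ ^ 3 := by
    calc ‖r‖ < ‖x‖ := lt_of_le_of_lt hr hx
      _ ≤ ‖x‖ ^ 3 := by nlinarith
  exact lt_of_le_of_lt (IsUltrametricDist.norm_add_le_max _ _) (max_lt h1
    (lt_of_le_of_lt (IsUltrametricDist.norm_add_le_max _ _) (max_lt h2 h4)))

variable [DecidableEq F]

/-- Doubling multiplies the norm of a large abscissa by `1 / ‖4‖`. -/
theorem double_large {c p r : F} {C : ℝ} (hC : 1 ≤ C) (hc : ‖c‖ ≤ C) (hp : ‖p‖ ≤ C)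
    (hr : ‖r‖ ≤ C) (h2 : (2 : F) ≠ 0) (h2lt : ‖(2 : F)‖ < 1)
    {P : (cub c p r).Point} {x y : F} (hP : IsAt c p r P x y) (hx : C < ‖x‖) :
    ∃ x' y', IsAt c p r (P + P) x' y' ∧ ‖x'‖ = ‖x‖ / ‖(2 : F)‖ ^ 2 := by
  have hx0 : 0 < ‖x‖ := by linarith
  have hx1 : 1 < ‖x‖ := by linarith
  have h2p : 0 < ‖(2 : F)‖ := norm_pos_iff.mpr h2
  have hysq := norm_y_sq hC hc hp hr hP.eq hx
  have hy : y ≠ 0 := by
    intro h
    rw [h, norm_zero] at hysq
    have : 0 < ‖x‖ ^ 3 := by positivity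
    rw [← hysq] at this
    norm_num at this
  have hyp : 0 < ‖y‖ := norm_pos_iff.mpr hy
  refine ⟨_, _, hP.double h2 hy _ rfl, ?_⟩
  -- the abscissa of the double
  have hE := hP.eq
  have hY2 : y ^ 2 = x ^ 3 + c * x ^ 2 + p * x + r := hE
  have e1 : ((3 * x ^ 2 + 2 * c * x + p) / (2 * y)) ^ 2 - c - x - x
      = (x ^ 4 + (-(2 * p * x ^ 2) + (-(8 * r * x) + (p ^ 2 - 4 * c * r)))) / (2 ^ 2 * y ^ 2) := by
    field_simp
    rw [hY2]
    ring
  rw [e1, norm_div, norm_mul, norm_pow, norm_pow, hysq]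
  have hnum : ‖x ^ 4 + (-(2 * p * x ^ 2) + (-(8 * r * x) + (p ^ 2 - 4 * c * r)))‖ = ‖x‖ ^ 4 := by
    rw [norm_add_of_lt, norm_pow]
    rw [norm_pow]
    have hn8 : ‖(8 : F)‖ ≤ 1 := by
      have : (8 : F) = 2 ^ 3 := by norm_num
      rw [this, norm_pow]; exact pow_le_one₀ h2p.le h2lt.le
    have hn4 : ‖(4 : F)‖ ≤ 1 := by
      have : (4 : F) = 2 ^ 2 := by norm_num
      rw [this, norm_pow]; exact pow_le_one₀ h2p.le h2lt.le
    have hpx : ‖p‖ < ‖x‖ := lt_of_le_of_lt hp hx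
    have hcx : ‖c‖ < ‖x‖ := lt_of_le_of_lt hc hx
    have hrx : ‖r‖ < ‖x‖ := lt_of_le_of_lt hr hx
    have hx2 : ‖x‖ ≤ ‖x‖ ^ 2 := by nlinarith
    have hx3 : ‖x‖ ^ 2 ≤ ‖x‖ ^ 3 := by nlinarith [sq_nonneg ‖x‖]
    have hx4 : ‖x‖ ^ 3 < ‖x‖ ^ 4 := by
      have : ‖x‖ ^ 4 = ‖x‖ ^ 3 * ‖x‖ := by ring
      rw [this]
      exact lt_mul_of_one_lt_right (by positivity) hx1
    have b1 : ‖-(2 * p * x ^ 2)‖ < ‖x‖ ^ 4 := by
      rw [norm_neg, norm_mul, norm_mul, norm_pow]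
      calc ‖(2 : F)‖ * ‖p‖ * ‖x‖ ^ 2 ≤ 1 * ‖x‖ * ‖x‖ ^ 2 := by gcongr
        _ = ‖x‖ ^ 3 := by ring
        _ < ‖x‖ ^ 4 := hx4
    have b2 : ‖-(8 * r * x)‖ < ‖x‖ ^ 4 := by
      rw [norm_neg, norm_mul, norm_mul]
      calc ‖(8 : F)‖ * ‖r‖ * ‖x‖ ≤ 1 * ‖x‖ * ‖x‖ := by gcongr
        _ = ‖x‖ ^ 2 := by ring
        _ < ‖x‖ ^ 4 := by linarith
    have b3 : ‖p ^ 2 - 4 * c * r‖ < ‖x‖ ^ 4 := by
      rw [sub_eq_add_neg]
      refine lt_of_le_of_lt (IsUltrametricDist.norm_add_le_max _ _) (max_lt ?_ ?_)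
      · rw [norm_pow]
        calc ‖p‖ ^ 2 ≤ ‖x‖ ^ 2 := by gcongr
          _ < ‖x‖ ^ 4 := by linarith
      · rw [norm_neg, norm_mul, norm_mul]
        calc ‖(4 : F)‖ * ‖c‖ * ‖r‖ ≤ 1 * ‖x‖ * ‖x‖ := by gcongr
          _ = ‖x‖ ^ 2 := by ring
          _ < ‖x‖ ^ 4 := by linarith
    exact lt_of_le_of_lt (IsUltrametricDist.norm_add_le_max _ _) (max_lt b1
      (lt_of_le_of_lt (IsUltrametricDist.norm_add_le_max _ _) (max_lt b2 b3)))
  rw [hnum]
  field_simp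

/-- Iterated doubling of a point with large abscissa. -/
theorem iterate_double {c p r : F} {C : ℝ} (hC : 1 ≤ C) (hc : ‖c‖ ≤ C) (hp : ‖p‖ ≤ C)
    (hr : ‖r‖ ≤ C) (h2 : (2 : F) ≠ 0) (h2lt : ‖(2 : F)‖ < 1)
    {P : (cub c p r).Point} {x y : F} (hP : IsAt c p r P x y) (hx : C < ‖x‖) (k : ℕ) :
    ∃ x' y', IsAt c p r (2 ^ k • P) x' y' ∧ ‖x'‖ = ‖x‖ / (‖(2 : F)‖ ^ 2) ^ k := by
  have h2p : 0 < ‖(2 : F)‖ := norm_pos_iff.mpr h2
  induction k with
  | zero => exact ⟨x, y, by simpa using hP, by simp⟩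
  | succ k ih =>
    obtain ⟨x', y', h', hn⟩ := ih
    have hle : ‖x‖ ≤ ‖x'‖ := by
      rw [hn]
      rw [le_div_iff₀ (by positivity)]
      calc ‖x‖ * (‖(2 : F)‖ ^ 2) ^ k ≤ ‖x‖ * 1 := by
            gcongr
            exact pow_le_one₀ (by positivity) (pow_le_one₀ h2p.le h2lt.le)
        _ = ‖x‖ := mul_one _
    obtain ⟨x'', y'', h'', hn'⟩ := double_large hC hc hp hr h2 h2lt h' (lt_of_lt_of_le hx hle)
    refine ⟨x'', y'', ?_, ?_⟩
    · have : 2 ^ (k + 1) • P = 2 ^ k • P + 2 ^ k • P := by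
        rw [pow_succ, mul_comm, mul_smul, two_smul]
      rw [this]; exact h''
    · rw [hn', hn, pow_succ (‖(2 : F)‖ ^ 2) k, div_div]

/-- A point with large abscissa has infinite order. -/
theorem nontorsion_of_large {c p r : F} {C : ℝ} (hC : 1 ≤ C) (hc : ‖c‖ ≤ C) (hp : ‖p‖ ≤ C)
    (hr : ‖r‖ ≤ C) (h2 : (2 : F) ≠ 0) (h2lt : ‖(2 : F)‖ < 1)
    {P : (cub c p r).Point} {x y : F} (hP : IsAt c p r P x y) (hx : C < ‖x‖) (n : ℕ)
    (hn : 0 < n) : n • P ≠ 0 := by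
  intro h
  have h2p : 0 < ‖(2 : F)‖ := norm_pos_iff.mpr h2
  have hx0 : 0 < ‖x‖ := by linarith
  have hne : NeZero n := ⟨hn.ne'⟩
  -- two powers of two are congruent modulo `n`
  obtain ⟨i, j, hij, hmod⟩ := Finite.exists_ne_map_eq_of_infinite
    (fun k : ℕ => ((2 ^ k : ℕ) : ZMod n))
  have heq : (2 ^ i) • P = (2 ^ j) • P := by
    have hm : 2 ^ i ≡ 2 ^ j [MOD n] := (ZMod.natCast_eq_natCast_iff _ _ _).mp hmod
    have key : ∀ m : ℕ, m • P = (m % n) • P := by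
      intro m
      conv_lhs => rw [← Nat.div_add_mod m n]
      rw [add_smul, mul_comm, mul_smul, h, smul_zero, zero_add]
    rw [key (2 ^ i), key (2 ^ j), hm]
  obtain ⟨x1, y1, h1, n1⟩ := iterate_double hC hc hp hr h2 h2lt hP hx i
  obtain ⟨x2, y2, h2', n2⟩ := iterate_double hC hc hp hr h2 h2lt hP hx j
  rw [heq] at h1
  have hxx := (h1.unique h2').1
  rw [hxx, n2] at n1
  have h3 : (‖(2 : F)‖ ^ 2) ^ j = (‖(2 : F)‖ ^ 2) ^ i := by
    have hpos : ∀ k : ℕ, 0 < (‖(2 : F)‖ ^ 2) ^ k := fun k => by positivity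
    have := (div_eq_div_iff (hpos j).ne' (hpos i).ne').mp n1
    exact (mul_left_cancel₀ hx0.ne' this).symm
  have h4 := (pow_right_strictAnti₀ (by positivity : 0 < ‖(2 : F)‖ ^ 2)
    (pow_lt_one₀ h2p.le h2lt (by norm_num))).injective h3
  exact hij h4.symm

end Normed

end Pool.Agent.Helper15.EC
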