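import Pool.Agent.Helper15.EC1

/-!
# Multiples of a point of infinite order over a locally compact field
-/

namespace Pool.Agent.Helper15.EC

open WeierstrassCurve WeierstrassCurve.Affine Filter Topology

section Diff

variable {F : Type*} [Field F] [DecidableEq F]

/-- The difference of two distinct points. -/
theorem IsAt.sub {c p r : F} {P Q : (cub c p r).Point} {x y x' y' : F}
    (hP : IsAt c p r P x y) (hQ : IsAt c p r Q x' y') (h2 : (2 : F) ≠ 0) (hne : P ≠ Q) :
    ∃ l z : F, IsAt c p r (P - Q) (l ^ 2 - c - x - x') z ∧ l * (x - x') = y + y' ∧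
      l * (y - y') = x ^ 2 + x * x' + x' ^ 2 + c * (x + x') + p := by
  have hE := hP.eq
  have hE' := hQ.eq
  by_cases hx : x = x'
  · subst hx
    rcases hP.eq_or_neg hQ with h | h
    · exact absurd h hne
    · have hy : y = -y' := (hP.unique (h ▸ hQ.neg)).2
      have hy0 : y ≠ 0 := by
        intro h0
        apply hne
        rw [h]
        have hy' : y' = 0 := by rw [h0] at hy; exact (neg_eq_zero.mp hy.symm)
        obtain ⟨hq, rfl⟩ := hQ
        subst hy'
        rw [Point.neg_some]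
        simp [cub]
      refine ⟨(3 * x ^ 2 + 2 * c * x + p) / (2 * y), -(((3 * x ^ 2 + 2 * c * x + p) / (2 * y)) *
          ((((3 * x ^ 2 + 2 * c * x + p) / (2 * y)) ^ 2 - c - x - x) - x) + y), ?_, ?_, ?_⟩
      · have e : P - Q = P + P := by rw [h]; abel
        rw [e]
        exact hP.double h2 hy0 _ rfl
      · rw [hy]; ring
      · have e : y' = -y := by rw [hy]; ring
        rw [e]
        field_simp
        ring
  · have h := hP.add hQ.neg hx _ rfl
    rw [← sub_eq_add_neg] at h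
    refine ⟨(y - -y') / (x - x'), _, h, ?_, ?_⟩
    · have : x - x' ≠ 0 := sub_ne_zero.mpr hx
      field_simp
      ring
    · have : x - x' ≠ 0 := sub_ne_zero.mpr hx
      rw [div_mul_eq_mul_div, div_eq_iff this]
      linear_combination hE - hE'

end Diff

/-- Over a locally compact field, the abscissae of the multiples of a point of infinite order on
a smooth curve are unbounded. -/
theorem exists_large {M : Type*} [NormedField M] [ProperSpace M] [DecidableEq M]
    (h2 : (2 : M) ≠ 0) (c p r : M) (hΔ : (cub c p r).Δ ≠ 0) (P : (cub c p r).Point)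
    (hP : ∀ n : ℕ, 0 < n → n • P ≠ 0) (B : ℝ) :
    ∃ n : ℕ, 0 < n ∧ ∃ x y, IsAt c p r (n • P) x y ∧ B < ‖x‖ := by
  by_contra hcon
  push Not at hcon
  have hex : ∀ n : ℕ, ∃ x y, IsAt c p r ((n + 1) • P) x y := fun n =>
    exists_isAt (hP (n + 1) (Nat.succ_pos n))
  choose X Y hXY using hex
  have hXB : ∀ n, ‖X n‖ ≤ B := fun n => hcon (n + 1) (Nat.succ_pos n) _ _ (hXY n)
  have hB0 : 0 ≤ B := le_trans (norm_nonneg _) (hXB 0)
  -- the ordinates are bounded
  set B' : ℝ := B ^ 3 + ‖c‖ * B ^ 2 + ‖p‖ * B + ‖r‖ + 1 with hB'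
  have hB'1 : 1 ≤ B' := by
    have : 0 ≤ B ^ 3 + ‖c‖ * B ^ 2 + ‖p‖ * B + ‖r‖ := by positivity
    linarith
  have hYB : ∀ n, ‖Y n‖ ≤ B' := by
    intro n
    have h1 : ‖Y n‖ ^ 2 ≤ B' := by
      rw [← norm_pow, (hXY n).eq]
      calc ‖X n ^ 3 + c * X n ^ 2 + p * X n + r‖
          ≤ ‖X n ^ 3 + c * X n ^ 2 + p * X n‖ + ‖r‖ := norm_add_le _ _
        _ ≤ ‖X n ^ 3 + c * X n ^ 2‖ + ‖p * X n‖ + ‖r‖ := by gcongr; exact norm_add_le _ _
        _ ≤ ‖X n ^ 3‖ + ‖c * X n ^ 2‖ + ‖p * X n‖ + ‖r‖ := by gcongr; exact norm_add_le _ _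
        _ = ‖X n‖ ^ 3 + ‖c‖ * ‖X n‖ ^ 2 + ‖p‖ * ‖X n‖ + ‖r‖ := by
            rw [norm_pow, norm_mul, norm_pow, norm_mul]
        _ ≤ B ^ 3 + ‖c‖ * B ^ 2 + ‖p‖ * B + ‖r‖ := by
            have := hXB n
            gcongr
        _ ≤ B' := by linarith
    by_contra hlt
    push Not at hlt
    have : B' * B' < ‖Y n‖ ^ 2 := by
      have h0 := norm_nonneg (Y n)
      nlinarith
    nlinarith
  -- a convergent subsequence
  have hK : IsCompact (Metric.closedBall (0 : M × M) (max B B')) := isCompact_closedBall _ _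
  have hmem : ∀ n, (X n, Y n) ∈ Metric.closedBall (0 : M × M) (max B B') := by
    intro n
    rw [mem_closedBall_zero_iff, Prod.norm_def]
    exact max_le (le_trans (hXB n) (le_max_left _ _)) (le_trans (hYB n) (le_max_right _ _))
  obtain ⟨⟨x0, y0⟩, -, φ, hφ, hlim⟩ := hK.tendsto_subseq hmem
  have hxl : Tendsto (fun k => X (φ k)) atTop (𝓝 x0) :=
    (continuous_fst.tendsto (x0, y0)).comp hlim
  have hyl : Tendsto (fun k => Y (φ k)) atTop (𝓝 y0) :=
    (continuous_snd.tendsto (x0, y0)).comp hlim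
  have hxl' : Tendsto (fun k => X (φ (k + 1))) atTop (𝓝 x0) :=
    hxl.comp (tendsto_add_atTop_nat 1)
  have hyl' : Tendsto (fun k => Y (φ (k + 1))) atTop (𝓝 y0) :=
    hyl.comp (tendsto_add_atTop_nat 1)
  -- the differences
  have hdiff : ∀ k, ∃ l z : M, IsAt c p r ((φ (k + 1) + 1) • P - (φ k + 1) • P)
      (l ^ 2 - c - X (φ (k + 1)) - X (φ k)) z ∧
      l * (X (φ (k + 1)) - X (φ k)) = Y (φ (k + 1)) + Y (φ k) ∧
      l * (Y (φ (k + 1)) - Y (φ k)) = X (φ (k + 1)) ^ 2 + X (φ (k + 1)) * X (φ k)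
        + X (φ k) ^ 2 + c * (X (φ (k + 1)) + X (φ k)) + p := by
    intro k
    refine (hXY (φ (k + 1))).sub (hXY (φ k)) h2 ?_
    intro heq
    have hlt : φ k < φ (k + 1) := hφ (Nat.lt_succ_self k)
    have h3 : (φ (k + 1) - φ k) • P = 0 := by
      have e : (φ (k + 1) + 1) = (φ (k + 1) - φ k) + (φ k + 1) := by omega
      rw [e, add_smul] at heq
      exact add_eq_right.mp heq
    exact hP _ (Nat.sub_pos_of_lt hlt) h3
  choose l z hl1 hl2 hl3 using hdiff
  have hlb : ∀ k, ‖l k‖ ≤ B + ‖c‖ + B + B + 1 := by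
    intro k
    have hlt : φ k < φ (k + 1) := hφ (Nat.lt_succ_self k)
    have e : (φ (k + 1) + 1) • P - (φ k + 1) • P = (φ (k + 1) - φ k) • P := by
      have e : (φ (k + 1) + 1) = (φ (k + 1) - φ k) + (φ k + 1) := by omega
      conv_lhs => rw [e]
      rw [add_smul, add_sub_cancel_right]
    have h4 := hl1 k
    rw [e] at h4
    have h5 := hcon _ (Nat.sub_pos_of_lt hlt) _ _ h4
    have h6 : ‖l k‖ ^ 2 ≤ B + ‖c‖ + B + B := by
      have e2 : l k ^ 2 = (l k ^ 2 - c - X (φ (k + 1)) - X (φ k)) + c + X (φ (k + 1))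
        + X (φ k) := by ring
      rw [← norm_pow, e2]
      calc _ ≤ ‖(l k ^ 2 - c - X (φ (k + 1)) - X (φ k)) + c + X (φ (k + 1))‖
            + ‖X (φ k)‖ := norm_add_le _ _
        _ ≤ ‖(l k ^ 2 - c - X (φ (k + 1)) - X (φ k)) + c‖ + ‖X (φ (k + 1))‖
            + ‖X (φ k)‖ := by gcongr; exact norm_add_le _ _
        _ ≤ ‖(l k ^ 2 - c - X (φ (k + 1)) - X (φ k))‖ + ‖c‖ + ‖X (φ (k + 1))‖
            + ‖X (φ k)‖ := by gcongr; exact norm_add_le _ _
        _ ≤ B + ‖c‖ + B + B := by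
            have := hXB (φ (k + 1))
            have := hXB (φ k)
            gcongr
    by_contra hlt'
    push Not at hlt'
    have hc0 := norm_nonneg c
    nlinarith
  have hz : ∀ {u : ℕ → M}, Tendsto u atTop (𝓝 0) → Tendsto (fun k => l k * u k) atTop (𝓝 0) := by
    intro u hu
    rw [tendsto_zero_iff_norm_tendsto_zero] at hu ⊢
    have h7 := hu.const_mul (B + ‖c‖ + B + B + 1)
    rw [mul_zero] at h7
    refine squeeze_zero (fun k => norm_nonneg _) (fun k => ?_) h7
    rw [norm_mul]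
    exact mul_le_mul_of_nonneg_right (hlb k) (norm_nonneg _)
  have hdx : Tendsto (fun k => X (φ (k + 1)) - X (φ k)) atTop (𝓝 0) := by
    simpa using hxl'.sub hxl
  have hdy : Tendsto (fun k => Y (φ (k + 1)) - Y (φ k)) atTop (𝓝 0) := by
    simpa using hyl'.sub hyl
  have h8 := hz hdx
  have h9 := hz hdy
  simp only [hl2] at h8
  simp only [hl3] at h9
  have h10 : y0 + y0 = 0 := tendsto_nhds_unique (hyl'.add hyl) h8
  have h11 : x0 ^ 2 + x0 * x0 + x0 ^ 2 + c * (x0 + x0) + p = 0 := by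
    refine tendsto_nhds_unique ?_ h9
    exact ((((hxl'.pow 2).add (hxl'.mul hxl)).add (hxl.pow 2)).add
      ((hxl'.add hxl).const_mul c)).add tendsto_const_nhds
  have h12 : y0 ^ 2 = x0 ^ 3 + c * x0 ^ 2 + p * x0 + r := by
    have e1 : Tendsto (fun k => Y (φ k) ^ 2) atTop (𝓝 (y0 ^ 2)) := hyl.pow 2
    have e2 : Tendsto (fun k => X (φ k) ^ 3 + c * X (φ k) ^ 2 + p * X (φ k) + r) atTop
        (𝓝 (x0 ^ 3 + c * x0 ^ 2 + p * x0 + r)) :=
      (((hxl.pow 3).add ((hxl.pow 2).const_mul c)).add (hxl.const_mul p)).add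
        tendsto_const_nhds
    have e3 : (fun k => Y (φ k) ^ 2) = fun k => X (φ k) ^ 3 + c * X (φ k) ^ 2 + p * X (φ k) + r :=
      funext fun k => (hXY (φ k)).eq
    rw [e3] at e1
    exact tendsto_nhds_unique e1 e2
  have hns := cub_nonsingular c p r x0 y0 hΔ h12
  rw [nonsingular_iff'] at hns
  have hy0 : y0 = 0 := by
    have : 2 * y0 = 0 := by linear_combination h10
    exact (mul_eq_zero.mp this).resolve_left h2
  rcases hns.2 with h | h
  · apply h
    simp only [cub]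
    linear_combination -h11
  · apply h
    simp only [cub]
    rw [hy0]; ring

end Pool.Agent.Helper15.EC
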