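import Pool.Agent.Helper15.EC1

/-!
# Coordinates of the multiples of a point, uniformly in families
-/

namespace Pool.Agent.Helper15.EC

open WeierstrassCurve WeierstrassCurve.Affine

section Coords

variable {A : Type*} [CommRing A]

/-- The step `n P ↦ n P + P` on coordinates `(u / w, v / w)`. -/
def stepC (c x y : A) (t : A × A × A) : A × A × A :=
  let D := t.1 - x * t.2.2
  let N := t.2.1 - y * t.2.2
  let U := N ^ 2 * t.2.2 - (c * t.2.2 + x * t.2.2 + t.1) * D ^ 2
  (U * D, -(N * (U - t.1 * D ^ 2) + t.2.1 * D ^ 3), t.2.2 * D ^ 3)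

/-- The coordinates of `2 P`. -/
def dblC (c p x y : A) : A × A × A :=
  let T := 3 * x ^ 2 + 2 * c * x + p
  (2 * y * (T ^ 2 - 4 * y ^ 2 * (c + 2 * x)),
    -(T * (T ^ 2 - 4 * y ^ 2 * (c + 3 * x)) + 8 * y ^ 4), 8 * y ^ 3)

/-- Coordinates of `(n + 1) P`. -/
def coords (c p x y : A) : ℕ → A × A × A
  | 0 => (x, y, 1)
  | 1 => dblC c p x y
  | n + 2 => stepC c x y (coords c p x y (n + 1))

theorem coords_w_dvd (c p x y : A) (n : ℕ) :
    (coords c p x y n).2.2 ∣ (coords c p x y (n + 1)).2.2 := by
  cases n with
  | zero => exact one_dvd _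
  | succ n => exact Dvd.intro _ rfl

end Coords

section Point

variable {A : Type*} [CommRing A] {F : Type*} [Field F] [DecidableEq F]

theorem coords_isAt (c p r x y : A) (ψ : A →+* F)
    (P : (cub (ψ c) (ψ p) (ψ r)).Point) (hP : IsAt (ψ c) (ψ p) (ψ r) P (ψ x) (ψ y)) (n : ℕ)
    (hw : ψ (coords c p x y n).2.2 ≠ 0) :
    IsAt (ψ c) (ψ p) (ψ r) ((n + 1) • P)
      (ψ (coords c p x y n).1 / ψ (coords c p x y n).2.2)
      (ψ (coords c p x y n).2.1 / ψ (coords c p x y n).2.2) := by
  induction n with
  | zero =>
    simp only [coords, map_one, div_one]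
    simpa using hP
  | succ n ih =>
    cases n with
    | zero =>
      simp only [coords, dblC, map_mul, map_pow, map_ofNat] at hw
      have h8 : (8 : F) ≠ 0 := left_ne_zero_of_mul hw
      have h2 : (2 : F) ≠ 0 := by
        intro h
        apply h8
        have : (8 : F) = 2 * 4 := by norm_num
        rw [this, h, zero_mul]
      have hy : ψ y ≠ 0 := by
        intro h
        apply hw
        rw [h]; ring
      have h4 : (4 : F) ≠ 0 := by
        have : (4 : F) = 2 * 2 := by norm_num
        rw [this]; exact mul_ne_zero h2 h2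
      have h := hP.double h2 hy _ rfl
      have e : (0 + 1 + 1) • P = P + P := by rw [zero_add, one_add_one_eq_two, two_smul]
      rw [e]
      convert! h using 1
      · simp only [coords, dblC, map_mul, map_pow, map_ofNat, map_sub, map_add]
        field_simp
        ring
      · simp only [coords, dblC, map_mul, map_pow, map_ofNat, map_sub, map_add, map_neg]
        field_simp
        ring
    | succ n =>
      have hdvd := coords_w_dvd c p x y (n + 1)
      set t := coords c p x y (n + 1) with ht
      have hcs : coords c p x y (n + 1 + 1) = stepC c x y t := rfl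
      rw [hcs] at hw hdvd ⊢
      have hw1 : ψ t.2.2 ≠ 0 := by
        intro h
        apply hw
        obtain ⟨k, hk⟩ := hdvd
        rw [hk, map_mul, h, zero_mul]
      have ih' := ih hw1
      have hD : ψ t.1 - ψ x * ψ t.2.2 ≠ 0 := by
        intro h
        apply hw
        simp only [stepC, map_mul, map_pow, map_sub]
        rw [h]; ring
      have hne : ψ t.1 / ψ t.2.2 ≠ ψ x := by
        intro h
        apply hD
        rw [div_eq_iff hw1] at h
        rw [h]; ring
      have h := ih'.add hP hne _ rfl
      have e : (n + 1 + 1 + 1) • P = (n + 1 + 1) • P + P := by rw [add_smul, one_smul]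
      rw [e]
      have hne' : ψ t.1 / ψ t.2.2 - ψ x ≠ 0 := sub_ne_zero.mpr hne
      have hsl : (ψ t.2.1 / ψ t.2.2 - ψ y) / (ψ t.1 / ψ t.2.2 - ψ x)
          = (ψ t.2.1 - ψ y * ψ t.2.2) / (ψ t.1 - ψ x * ψ t.2.2) := by
        rw [div_eq_div_iff hne' hD]
        field_simp
      rw [hsl] at h
      simp only [stepC, map_mul, map_pow, map_sub, map_add, map_neg]
      generalize ψ t.1 - ψ x * ψ t.2.2 = D at hD h ⊢
      generalize ψ t.2.1 - ψ y * ψ t.2.2 = N at h ⊢
      convert! h using 1
      · field_simp
        ring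
      · field_simp
        ring

/-- If the point has infinite order, then no denominator vanishes. -/
theorem coords_w_ne_zero (c p r x y : A) (ψ : A →+* F)
    (h2 : (2 : F) ≠ 0)
    (P : (cub (ψ c) (ψ p) (ψ r)).Point) (hP : IsAt (ψ c) (ψ p) (ψ r) P (ψ x) (ψ y))
    (hn : ∀ n : ℕ, 0 < n → n • P ≠ 0) (n : ℕ) : ψ (coords c p x y n).2.2 ≠ 0 := by
  induction n with
  | zero => simp [coords]
  | succ n ih =>
    cases n with
    | zero =>
      simp only [coords, dblC, map_mul, map_pow, map_ofNat]
      have h8 : (8 : F) ≠ 0 := by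
        have : (8 : F) = 2 ^ 3 := by norm_num
        rw [this]; exact pow_ne_zero 3 h2
      refine mul_ne_zero h8 (pow_ne_zero 3 ?_)
      intro hy
      apply hn 2 (by norm_num)
      obtain ⟨h, rfl⟩ := hP
      rw [two_smul]
      apply Point.add_self_of_Y_eq
      simp [cub, hy]
    | succ n =>
      have h := coords_isAt c p r x y ψ P hP (n + 1) ih
      set t := coords c p x y (n + 1) with ht
      have hcs : coords c p x y (n + 1 + 1) = stepC c x y t := rfl
      rw [hcs]
      simp only [stepC, map_mul, map_pow, map_sub]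
      refine mul_ne_zero ih (pow_ne_zero 3 ?_)
      intro h0
      have hx : ψ t.1 / ψ t.2.2 = ψ x := by
        rw [div_eq_iff ih]
        linear_combination h0
      rw [hx] at h
      rcases h.eq_or_neg hP with h1 | h1
      · apply hn (n + 1) (Nat.succ_pos n)
        have e : (n + 1 + 1) • P = (n + 1) • P + P := by rw [add_smul, one_smul]
        rw [e] at h1
        exact add_eq_right.mp h1
      · apply hn (n + 1 + 1 + 1) (Nat.succ_pos _)
        have e : (n + 1 + 1 + 1) • P = (n + 1 + 1) • P + P := by rw [add_smul, one_smul]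
        rw [e, h1]
        exact neg_add_cancel P

end Point

end Pool.Agent.Helper15.EC
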