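import Pool.Agent.Helper15.EC1

/-!
# From points of the Jacobian near the origin to points of the quartic
-/

namespace Pool.Agent.Helper15.EC

open WeierstrassCurve WeierstrassCurve.Affine Filter Topology

/-- The quartic `y ^ 2 = y0 ^ 2 + d s + c s ^ 2 + b s ^ 3 + a s ^ 4` has Jacobian
`y ^ 2 = x ^ 3 + c x ^ 2 + p x + r` with `p = b d - 4 a y0 ^ 2` and
`r = a d ^ 2 + b ^ 2 y0 ^ 2 - 4 a c y0 ^ 2`. -/
def jp {R : Type*} [CommRing R] (y0 d b a : R) : R := b * d - 4 * a * y0 ^ 2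

/-- See `jp`. -/
def jr {R : Type*} [CommRing R] (y0 d c b a : R) : R :=
  a * d ^ 2 + b ^ 2 * y0 ^ 2 - 4 * a * c * y0 ^ 2

/-- The algebraic identity of the map from the Jacobian to the quartic. -/
theorem quartic_identity {L : Type*} [Field L] (h2 : (2 : L) ≠ 0) (y0 d c b a X Y : L)
    (hy0 : y0 ≠ 0) (hE : Y ^ 2 = X ^ 3 + c * X ^ 2 + jp y0 d b a * X + jr y0 d c b a)
    (D s y : L) (hD : D = 2 * y0 * Y - d * X - 2 * b * y0 ^ 2) (hD0 : D ≠ 0)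
    (hs : s = (4 * y0 ^ 2 * (X + c) - d ^ 2) / D)
    (hy : y = -y0 + s * (s * X - d) / (2 * y0)) :
    y ^ 2 = y0 ^ 2 + d * s + c * s ^ 2 + b * s ^ 3 + a * s ^ 4 := by
  unfold jp jr at hE
  have key : (4 * y0 ^ 2 * (X + c) - d ^ 2) * (X ^ 2 - 4 * a * y0 ^ 2)
      = D * (D + 2 * d * X + 4 * b * y0 ^ 2) := by
    rw [hD]
    linear_combination (-4 * y0 ^ 2) * hE
  have hsD : s * D = 4 * y0 ^ 2 * (X + c) - d ^ 2 := by
    rw [hs]; field_simp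
  have h3 : D * (s * (X ^ 2 - 4 * a * y0 ^ 2)) = D * (D + 2 * d * X + 4 * b * y0 ^ 2) := by
    rw [← key, ← hsD]; ring
  have h4 : s * (X ^ 2 - 4 * a * y0 ^ 2) = D + 2 * d * X + 4 * b * y0 ^ 2 :=
    mul_left_cancel₀ hD0 h3
  have h5 : s ^ 2 * (X ^ 2 - 4 * a * y0 ^ 2) - s * (2 * d * X + 4 * b * y0 ^ 2)
      + (d ^ 2 - 4 * y0 ^ 2 * (X + c)) = 0 := by
    linear_combination s * h4 + hsD
  have h6 : 2 * y0 * y = -(2 * y0 ^ 2) + s * (s * X - d) := by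
    rw [hy]; field_simp
  have h7 : (2 * y0) ^ 2 * (y ^ 2 - (y0 ^ 2 + d * s + c * s ^ 2 + b * s ^ 3 + a * s ^ 4)) = 0 := by
    linear_combination (2 * y0 * y - (2 * y0 ^ 2) + s * (s * X - d)) * h6 + s ^ 2 * h5
  have h8 : (2 * y0) ^ 2 ≠ 0 := pow_ne_zero 2 (mul_ne_zero h2 hy0)
  have h9 := (mul_eq_zero.mp h7).resolve_left h8
  linear_combination h9

theorem quartic_points {L : Type*} [NormedField L] [IsUltrametricDist L] [DecidableEq L]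
    (h2 : (2 : L) ≠ 0) (h2lt : ‖(2 : L)‖ < 1) (y0 d c b a : L) (hy0 : y0 ≠ 0)
    {C : ℝ} (hC : 1 ≤ C) (hc : ‖c‖ ≤ C) (hp : ‖jp y0 d b a‖ ≤ C) (hr : ‖jr y0 d c b a‖ ≤ C)
    (Q : (cub c (jp y0 d b a) (jr y0 d c b a)).Point) (X0 Y0 : L)
    (hQ : IsAt c (jp y0 d b a) (jr y0 d c b a) Q X0 Y0) (hX0 : C < ‖X0‖) (ε : ℝ) (hε : 0 < ε) :
    {s : L | ∃ y : L, y ^ 2 = y0 ^ 2 + d * s + c * s ^ 2 + b * s ^ 3 + a * s ^ 4 ∧
      ‖s‖ < ε ∧ ‖y - y0‖ < ε}.Infinite := by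
  have h2p : 0 < ‖(2 : L)‖ := norm_pos_iff.mpr h2
  have hX0p : 0 < ‖X0‖ := by linarith
  have hn2y : 0 < ‖2 * y0‖ := norm_pos_iff.mpr (mul_ne_zero h2 hy0)
  have hq : 1 < 1 / ‖(2 : L)‖ ^ 2 := by
    rw [one_lt_div (by positivity)]
    exact pow_lt_one₀ h2p.le h2lt (by norm_num)
  -- the points `2 ^ k Q`
  have hk := fun k => iterate_double hC hc hp hr h2 h2lt hQ hX0 k
  choose X Y hXY hXn using hk
  have hXn' : ∀ k, ‖X k‖ = ‖X0‖ * (1 / ‖(2 : L)‖ ^ 2) ^ k := by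
    intro k
    rw [hXn k, div_pow, one_pow]
    ring
  have hlim : Tendsto (fun k => ‖X k‖) atTop atTop := by
    simp only [hXn']
    exact (tendsto_pow_atTop_atTop_of_one_lt hq).const_mul_atTop hX0p
  have hmono : StrictMono fun k => ‖X k‖ := by
    intro i j hij
    simp only [hXn']
    exact mul_lt_mul_of_pos_left (pow_lt_pow_right₀ hq hij) hX0p
  -- the threshold
  set n2 : ℝ := ‖2 * y0‖ ^ 2 with hn2
  have hn2p : 0 < n2 := by positivity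
  set K : ℝ := ‖d‖ + ‖c‖ + ‖b‖ + ‖a‖ + 1 with hK
  have hKp : 0 < K := by positivity
  obtain ⟨k0, hk0⟩ := (hlim.eventually_gt_atTop (C + ‖d‖ ^ 2 / n2 + ‖2 * b * y0 ^ 2‖ ^ 2 / n2
    + ‖4 * y0 ^ 2 * c - d ^ 2‖ / n2 + n2 + n2 / ε ^ 2 + n2 * K ^ 2 / ε ^ 4)).exists
  have hbig : ∀ k, k0 ≤ k → C < ‖X k‖ ∧ ‖d‖ ^ 2 / n2 < ‖X k‖ ∧
      ‖2 * b * y0 ^ 2‖ ^ 2 / n2 < ‖X k‖ ∧ ‖4 * y0 ^ 2 * c - d ^ 2‖ / n2 < ‖X k‖ ∧
      n2 < ‖X k‖ ∧ n2 / ε ^ 2 < ‖X k‖ ∧ n2 * K ^ 2 / ε ^ 4 < ‖X k‖ := by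
    intro k hk
    have h1 : ‖X k0‖ ≤ ‖X k‖ := hmono.monotone hk
    have p1 : 0 ≤ ‖d‖ ^ 2 / n2 := by positivity
    have p2 : 0 ≤ ‖2 * b * y0 ^ 2‖ ^ 2 / n2 := by positivity
    have p3 : 0 ≤ ‖4 * y0 ^ 2 * c - d ^ 2‖ / n2 := by positivity
    have p4 : 0 ≤ n2 / ε ^ 2 := by positivity
    have p5 : 0 ≤ n2 * K ^ 2 / ε ^ 4 := by positivity
    refine ⟨?_, ?_, ?_, ?_, ?_, ?_, ?_⟩ <;> linarith
  -- the points of the quartic
  set D : ℕ → L := fun k => 2 * y0 * Y k - d * X k - 2 * b * y0 ^ 2 with hD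
  set s : ℕ → L := fun k => (4 * y0 ^ 2 * (X k + c) - d ^ 2) / D k with hs
  set y : ℕ → L := fun k => -y0 + s k * (s k * X k - d) / (2 * y0) with hy
  have hmain : ∀ k, k0 ≤ k → D k ≠ 0 ∧ ‖s k‖ ^ 2 = n2 / ‖X k‖ := by
    intro k hk
    obtain ⟨b1, b2, b3, b4, b5, b6, b7⟩ := hbig k hk
    have hA1 : 1 < ‖X k‖ := by linarith
    have hA0 : 0 < ‖X k‖ := by linarith
    have hYk : ‖Y k‖ ^ 2 = ‖X k‖ ^ 3 := norm_y_sq hC hc hp hr (hXY k).eq b1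
    have hm : ‖2 * y0 * Y k‖ ^ 2 = n2 * ‖X k‖ ^ 3 := by
      rw [norm_mul, mul_pow, hYk]
    have hA23 : ‖X k‖ ≤ ‖X k‖ ^ 3 := by
      have : 1 ≤ ‖X k‖ ^ 2 := one_le_pow₀ hA1.le
      nlinarith
    have hDn : ‖D k‖ ^ 2 = n2 * ‖X k‖ ^ 3 := by
      have e : D k = 2 * y0 * Y k + (-(d * X k) + -(2 * b * y0 ^ 2)) := by
        simp only [hD]; ring
      rw [e, norm_add_of_lt, hm]
      refine lt_of_le_of_lt (IsUltrametricDist.norm_add_le_max _ _) (max_lt ?_ ?_)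
      · rw [norm_neg]
        refine lt_of_pow_lt_pow_left₀ 2 (norm_nonneg _) ?_
        rw [hm, norm_mul, mul_pow]
        rw [div_lt_iff₀ hn2p] at b2
        calc ‖d‖ ^ 2 * ‖X k‖ ^ 2 < (‖X k‖ * n2) * ‖X k‖ ^ 2 :=
              mul_lt_mul_of_pos_right b2 (by positivity)
          _ = n2 * ‖X k‖ ^ 3 := by ring
      · rw [norm_neg]
        refine lt_of_pow_lt_pow_left₀ 2 (norm_nonneg _) ?_
        rw [hm]
        rw [div_lt_iff₀ hn2p] at b3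
        calc ‖2 * b * y0 ^ 2‖ ^ 2 < ‖X k‖ * n2 := b3
          _ ≤ ‖X k‖ ^ 3 * n2 := mul_le_mul_of_nonneg_right hA23 hn2p.le
          _ = n2 * ‖X k‖ ^ 3 := by ring
    have hDpos : 0 < ‖D k‖ ^ 2 := by rw [hDn]; positivity
    have hD0 : D k ≠ 0 := by
      intro h
      rw [h, norm_zero] at hDpos
      norm_num at hDpos
    have hNn : ‖4 * y0 ^ 2 * (X k + c) - d ^ 2‖ = n2 * ‖X k‖ := by
      have e : 4 * y0 ^ 2 * (X k + c) - d ^ 2 = (2 * y0) ^ 2 * X k + (4 * y0 ^ 2 * c - d ^ 2) := by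
        ring
      rw [e, norm_add_of_lt, norm_mul, norm_pow]
      rw [norm_mul, norm_pow]
      rw [div_lt_iff₀ hn2p] at b4
      calc _ < ‖X k‖ * n2 := b4
        _ = ‖2 * y0‖ ^ 2 * ‖X k‖ := by rw [hn2]; ring
    refine ⟨hD0, ?_⟩
    simp only [hs]
    rw [norm_div, div_pow, hNn, hDn]
    field_simp
  have hinj : Set.InjOn s (Set.Ici k0) := by
    intro i hi j hj hij
    have h1 := (hmain i hi).2
    have h2' := (hmain j hj).2
    rw [hij, h2'] at h1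
    have hXi : 0 < ‖X i‖ := by have := (hbig i hi).1; linarith
    have hXj : 0 < ‖X j‖ := by have := (hbig j hj).1; linarith
    rw [div_eq_div_iff hXj.ne' hXi.ne'] at h1
    exact hmono.injective (mul_left_cancel₀ hn2p.ne' h1)
  refine ((Set.Ici_infinite k0).image hinj).mono ?_
  rintro _ ⟨k, hk, rfl⟩
  obtain ⟨b1, b2, b3, b4, b5, b6, b7⟩ := hbig k hk
  obtain ⟨hD0, hsn⟩ := hmain k hk
  have hA0 : 0 < ‖X k‖ := by linarith
  have hid := quartic_identity h2 y0 d c b a (X k) (Y k) hy0 (hXY k).eq (D k) (s k) (y k) rfl hD0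
    rfl rfl
  have hsε : ‖s k‖ < ε := by
    refine lt_of_pow_lt_pow_left₀ 2 hε.le ?_
    rw [hsn, div_lt_iff₀ hA0]
    rw [div_lt_iff₀ (by positivity)] at b6
    linarith
  have hs1 : ‖s k‖ ≤ 1 := by
    by_contra hlt
    push Not at hlt
    have h1 : 1 < ‖s k‖ ^ 2 := one_lt_pow₀ hlt (by norm_num)
    rw [hsn, lt_div_iff₀ hA0] at h1
    linarith
  have hprod : ‖y k - y0‖ * ‖y k + y0‖ < ε ^ 2 := by
    rw [← norm_mul]
    have e : (y k - y0) * (y k + y0) = s k * (d + c * s k + b * s k ^ 2 + a * s k ^ 3) := by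
      linear_combination hid
    rw [e, norm_mul]
    have hb : ‖d + c * s k + b * s k ^ 2 + a * s k ^ 3‖ ≤ K := by
      calc ‖d + c * s k + b * s k ^ 2 + a * s k ^ 3‖
          ≤ ‖d‖ + ‖c * s k‖ + ‖b * s k ^ 2‖ + ‖a * s k ^ 3‖ := by
            refine le_trans (norm_add_le _ _) ?_
            gcongr
            refine le_trans (norm_add_le _ _) ?_
            gcongr
            exact norm_add_le _ _
        _ = ‖d‖ + ‖c‖ * ‖s k‖ + ‖b‖ * ‖s k‖ ^ 2 + ‖a‖ * ‖s k‖ ^ 3 := by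
            rw [norm_mul, norm_mul, norm_mul, norm_pow, norm_pow]
        _ ≤ ‖d‖ + ‖c‖ * 1 + ‖b‖ * 1 + ‖a‖ * 1 := by
            gcongr
            · exact pow_le_one₀ (norm_nonneg _) hs1
            · exact pow_le_one₀ (norm_nonneg _) hs1
        _ ≤ K := by rw [hK]; linarith
    have h1 : (‖s k‖ * K) ^ 2 < (ε ^ 2) ^ 2 := by
      rw [mul_pow, hsn]
      rw [div_lt_iff₀ (by positivity)] at b7
      rw [div_mul_eq_mul_div, div_lt_iff₀ hA0]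
      calc n2 * K ^ 2 < ‖X k‖ * ε ^ 4 := b7
        _ = (ε ^ 2) ^ 2 * ‖X k‖ := by ring
    calc ‖s k‖ * ‖d + c * s k + b * s k ^ 2 + a * s k ^ 3‖ ≤ ‖s k‖ * K := by gcongr
      _ < ε ^ 2 := lt_of_pow_lt_pow_left₀ 2 (by positivity) h1
  rcases lt_or_ge ‖y k - y0‖ ε with h | h
  · exact ⟨y k, hid, hsε, h⟩
  · have h' : ‖y k + y0‖ < ε := by
      by_contra hlt
      push Not at hlt
      have : ε * ε ≤ ‖y k - y0‖ * ‖y k + y0‖ := mul_le_mul h hlt hε.le (norm_nonneg _)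
      nlinarith
    refine ⟨-y k, by rw [neg_sq]; exact hid, hsε, ?_⟩
    have e : -y k - y0 = -(y k + y0) := by ring
    rw [e, norm_neg]
    exact h'

end Pool.Agent.Helper15.EC
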