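import Pool.Agent.Helper15.EC4

/-!
# The discriminant of the Jacobian of a separable quartic
-/

namespace Pool.Agent.Helper15.EC

open WeierstrassCurve WeierstrassCurve.Affine

theorem cub_Δ {F : Type*} [CommRing F] (c p r : F) : (cub c p r).Δ
    = 16 * (c ^ 2 * p ^ 2 - 4 * p ^ 3 - 4 * c ^ 3 * r + 18 * c * p * r - 27 * r ^ 2) := by
  simp [cub, WeierstrassCurve.Δ, WeierstrassCurve.b₂, WeierstrassCurve.b₄, WeierstrassCurve.b₆,
    WeierstrassCurve.b₈]
  ring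

theorem map_cub_Δ {F G : Type*} [CommRing F] [CommRing G] (φ : F →+* G) (c p r : F) :
    φ (cub c p r).Δ = (cub (φ c) (φ p) (φ r)).Δ := by
  rw [cub_Δ, cub_Δ]
  simp only [map_mul, map_sub, map_add, map_pow, map_ofNat]

theorem coeff_five {F : Type*} [CommRing F] (Q : Polynomial F) (e0 e1 e2 e3 e4 : F)
    (h : Q = Polynomial.C e0 + Polynomial.C e1 * Polynomial.X + Polynomial.C e2 * Polynomial.X ^ 2
      + Polynomial.C e3 * Polynomial.X ^ 3 + Polynomial.C e4 * Polynomial.X ^ 4) :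
    Q.coeff 0 = e0 ∧ Q.coeff 1 = e1 ∧ Q.coeff 2 = e2 ∧ Q.coeff 3 = e3 ∧ Q.coeff 4 = e4 := by
  subst h
  refine ⟨?_, ?_, ?_, ?_, ?_⟩ <;> simp [Polynomial.coeff_X, Polynomial.coeff_C]

/-- The discriminant does not vanish if the quartic is separable, of degree three or four. -/
theorem quartic_disc_closed {F : Type*} [Field F] [IsAlgClosed F] (h2 : (2 : F) ≠ 0)
    (Q : Polynomial F) (hQ : Q.Separable) (h3 : 3 ≤ Q.natDegree) (h4 : Q.natDegree ≤ 4) (y0 : F)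
    (h0 : y0 ^ 2 = Q.coeff 0) :
    (cub (Q.coeff 2) (jp y0 (Q.coeff 1) (Q.coeff 3) (Q.coeff 4))
      (jr y0 (Q.coeff 1) (Q.coeff 2) (Q.coeff 3) (Q.coeff 4))).Δ ≠ 0 := by
  have h16 : (16 : F) ≠ 0 := by
    have : (16 : F) = 2 ^ 4 := by norm_num
    rw [this]; exact pow_ne_zero 4 h2
  have hQ0 : Q ≠ 0 := by
    rintro rfl
    simp at h3
  have hsplit := (IsAlgClosed.splits Q).eq_prod_roots
  have hcard : Q.roots.card = Q.natDegree := IsAlgClosed.card_roots_eq_natDegree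
  have hnodup := Polynomial.nodup_roots hQ
  have hlc : Q.leadingCoeff ≠ 0 := Polynomial.leadingCoeff_ne_zero.mpr hQ0
  have hsub : ∀ {a b : F}, a ≠ b → a - b ≠ 0 := fun h => sub_ne_zero.mpr h
  rw [cub_Δ]
  unfold jp jr
  rcases (by omega : Q.natDegree = 3 ∨ Q.natDegree = 4) with hd | hd
  · rw [hd] at hcard
    obtain ⟨s1, s2, s3, hs⟩ := Multiset.card_eq_three.mp hcard
    rw [hs] at hnodup hsplit
    have n12 : s1 ≠ s2 ∧ s1 ≠ s3 ∧ s2 ≠ s3 := by
      simp only [Multiset.insert_eq_cons, Multiset.nodup_cons, Multiset.mem_cons,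
        Multiset.mem_singleton, not_or] at hnodup
      exact ⟨hnodup.1.1, hnodup.1.2, hnodup.2.1⟩
    obtain ⟨n1, n2, n3⟩ := n12
    set b := Q.leadingCoeff with hb
    have hQe : Q = Polynomial.C b * ((Polynomial.X - Polynomial.C s1) *
        ((Polynomial.X - Polynomial.C s2) * (Polynomial.X - Polynomial.C s3))) := by
      conv_lhs => rw [hsplit]
      simp
    have hexp : Q = Polynomial.C (-(b * (s1 * s2 * s3)))
        + Polynomial.C (b * (s1 * s2 + s1 * s3 + s2 * s3)) * Polynomial.X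
        + Polynomial.C (-(b * (s1 + s2 + s3))) * Polynomial.X ^ 2
        + Polynomial.C b * Polynomial.X ^ 3 + Polynomial.C 0 * Polynomial.X ^ 4 := by
      rw [hQe]
      simp only [map_neg, map_mul, map_add, map_zero]
      ring
    obtain ⟨c0, c1, c2, c3, c4⟩ := coeff_five Q _ _ _ _ _ hexp
    rw [h0, c0, c1, c2, c3, c4]
    have e : 16 * ((-(b * (s1 + s2 + s3))) ^ 2 * (b * (b * (s1 * s2 + s1 * s3 + s2 * s3))
          - 4 * 0 * -(b * (s1 * s2 * s3))) ^ 2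
        - 4 * (b * (b * (s1 * s2 + s1 * s3 + s2 * s3)) - 4 * 0 * -(b * (s1 * s2 * s3))) ^ 3
        - 4 * (-(b * (s1 + s2 + s3))) ^ 3 * (0 * (b * (s1 * s2 + s1 * s3 + s2 * s3)) ^ 2
          + b ^ 2 * -(b * (s1 * s2 * s3)) - 4 * 0 * -(b * (s1 + s2 + s3)) * -(b * (s1 * s2 * s3)))
        + 18 * -(b * (s1 + s2 + s3)) * (b * (b * (s1 * s2 + s1 * s3 + s2 * s3))
          - 4 * 0 * -(b * (s1 * s2 * s3))) * (0 * (b * (s1 * s2 + s1 * s3 + s2 * s3)) ^ 2
          + b ^ 2 * -(b * (s1 * s2 * s3)) - 4 * 0 * -(b * (s1 + s2 + s3)) * -(b * (s1 * s2 * s3)))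
        - 27 * (0 * (b * (s1 * s2 + s1 * s3 + s2 * s3)) ^ 2
          + b ^ 2 * -(b * (s1 * s2 * s3)) - 4 * 0 * -(b * (s1 + s2 + s3))
          * -(b * (s1 * s2 * s3))) ^ 2)
        = 16 * (b ^ 6 * ((s1 - s2) ^ 2 * ((s1 - s3) ^ 2 * (s2 - s3) ^ 2))) := by ring
    rw [e]
    exact mul_ne_zero h16 (mul_ne_zero (pow_ne_zero 6 hlc) (mul_ne_zero (pow_ne_zero 2 (hsub n1))
      (mul_ne_zero (pow_ne_zero 2 (hsub n2)) (pow_ne_zero 2 (hsub n3)))))
  · rw [hd] at hcard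
    obtain ⟨s1, T, hT⟩ : ∃ s1 T, Q.roots = s1 ::ₘ T :=
      Multiset.exists_cons_of_mem (Multiset.card_pos_iff_exists_mem.mp (by omega)).choose_spec
        |>.elim fun t ht => ⟨_, t, ht⟩
    have hcardT : T.card = 3 := by
      rw [hT, Multiset.card_cons] at hcard
      omega
    obtain ⟨s2, s3, s4, hs⟩ := Multiset.card_eq_three.mp hcardT
    rw [hT, hs] at hnodup hsplit
    have n12 : (s1 ≠ s2 ∧ s1 ≠ s3 ∧ s1 ≠ s4) ∧ (s2 ≠ s3 ∧ s2 ≠ s4) ∧ s3 ≠ s4 := by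
      simp only [Multiset.insert_eq_cons, Multiset.nodup_cons, Multiset.mem_cons,
        Multiset.mem_singleton, not_or] at hnodup
      exact ⟨hnodup.1, hnodup.2.1, hnodup.2.2.1⟩
    obtain ⟨⟨n1, n2, n3⟩, ⟨n4, n5⟩, n6⟩ := n12
    set a := Q.leadingCoeff with ha
    have hQe : Q = Polynomial.C a * ((Polynomial.X - Polynomial.C s1) *
        ((Polynomial.X - Polynomial.C s2) * ((Polynomial.X - Polynomial.C s3) *
          (Polynomial.X - Polynomial.C s4)))) := by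
      conv_lhs => rw [hsplit]
      simp
    have hexp : Q = Polynomial.C (a * (s1 * s2 * s3 * s4))
        + Polynomial.C (-(a * (s1 * s2 * s3 + s1 * s2 * s4 + s1 * s3 * s4 + s2 * s3 * s4)))
          * Polynomial.X
        + Polynomial.C (a * (s1 * s2 + s1 * s3 + s1 * s4 + s2 * s3 + s2 * s4 + s3 * s4))
          * Polynomial.X ^ 2
        + Polynomial.C (-(a * (s1 + s2 + s3 + s4))) * Polynomial.X ^ 3
        + Polynomial.C a * Polynomial.X ^ 4 := by
      rw [hQe]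
      simp only [map_neg, map_mul, map_add]
      ring
    obtain ⟨c0, c1, c2, c3, c4⟩ := coeff_five Q _ _ _ _ _ hexp
    rw [h0, c0, c1, c2, c3, c4]
    generalize he1 : s1 + s2 + s3 + s4 = e1
    generalize he2 : s1 * s2 + s1 * s3 + s1 * s4 + s2 * s3 + s2 * s4 + s3 * s4 = e2
    generalize he3 : s1 * s2 * s3 + s1 * s2 * s4 + s1 * s3 * s4 + s2 * s3 * s4 = e3
    generalize he4 : s1 * s2 * s3 * s4 = e4
    have e : 16 * ((a * e2) ^ 2 * (-(a * e1) * -(a * e3) - 4 * a * (a * e4)) ^ 2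
        - 4 * (-(a * e1) * -(a * e3) - 4 * a * (a * e4)) ^ 3
        - 4 * (a * e2) ^ 3 * (a * (-(a * e3)) ^ 2 + (-(a * e1)) ^ 2 * (a * e4)
          - 4 * a * (a * e2) * (a * e4))
        + 18 * (a * e2) * (-(a * e1) * -(a * e3) - 4 * a * (a * e4)) *
          (a * (-(a * e3)) ^ 2 + (-(a * e1)) ^ 2 * (a * e4) - 4 * a * (a * e2) * (a * e4))
        - 27 * (a * (-(a * e3)) ^ 2 + (-(a * e1)) ^ 2 * (a * e4)
          - 4 * a * (a * e2) * (a * e4)) ^ 2)
        = 16 * (a ^ 6 * (e2 ^ 2 * (e1 * e3 - 4 * e4) ^ 2 - 4 * (e1 * e3 - 4 * e4) ^ 3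
          - 4 * e2 ^ 3 * (e3 ^ 2 + e1 ^ 2 * e4 - 4 * e2 * e4)
          + 18 * e2 * (e1 * e3 - 4 * e4) * (e3 ^ 2 + e1 ^ 2 * e4 - 4 * e2 * e4)
          - 27 * (e3 ^ 2 + e1 ^ 2 * e4 - 4 * e2 * e4) ^ 2)) := by ring
    rw [e]
    have e' : e2 ^ 2 * (e1 * e3 - 4 * e4) ^ 2 - 4 * (e1 * e3 - 4 * e4) ^ 3
          - 4 * e2 ^ 3 * (e3 ^ 2 + e1 ^ 2 * e4 - 4 * e2 * e4)
          + 18 * e2 * (e1 * e3 - 4 * e4) * (e3 ^ 2 + e1 ^ 2 * e4 - 4 * e2 * e4)
          - 27 * (e3 ^ 2 + e1 ^ 2 * e4 - 4 * e2 * e4) ^ 2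
        = (s1 - s2) ^ 2 * (s1 - s3) ^ 2 * (s1 - s4) ^ 2 * (s2 - s3) ^ 2 * (s2 - s4) ^ 2
          * (s3 - s4) ^ 2 := by
      rw [← he1, ← he2, ← he3, ← he4]
      ring
    rw [e']
    exact mul_ne_zero h16 (mul_ne_zero (pow_ne_zero 6 hlc) (mul_ne_zero (mul_ne_zero (mul_ne_zero
      (mul_ne_zero (mul_ne_zero (pow_ne_zero 2 (hsub n1)) (pow_ne_zero 2 (hsub n2)))
        (pow_ne_zero 2 (hsub n3))) (pow_ne_zero 2 (hsub n4))) (pow_ne_zero 2 (hsub n5)))
          (pow_ne_zero 2 (hsub n6))))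

theorem quartic_disc {F : Type*} [Field F] (h2 : (2 : F) ≠ 0)
    (Q : Polynomial F) (hQ : Q.Separable) (h3 : 3 ≤ Q.natDegree) (h4 : Q.natDegree ≤ 4) (y0 : F)
    (h0 : y0 ^ 2 = Q.coeff 0) :
    (cub (Q.coeff 2) (jp y0 (Q.coeff 1) (Q.coeff 3) (Q.coeff 4))
      (jr y0 (Q.coeff 1) (Q.coeff 2) (Q.coeff 3) (Q.coeff 4))).Δ ≠ 0 := by
  intro h
  set φ := algebraMap F (AlgebraicClosure F) with hφ
  have hinj : Function.Injective φ := φ.injective
  have h2' : (2 : AlgebraicClosure F) ≠ 0 := by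
    intro h
    apply h2
    apply hinj
    rw [map_ofNat, map_zero]; exact h
  have hd : (Q.map φ).natDegree = Q.natDegree := Polynomial.natDegree_map_eq_of_injective hinj Q
  have key := quartic_disc_closed h2' (Q.map φ) (hQ.map) (by rw [hd]; exact h3)
    (by rw [hd]; exact h4) (φ y0) (by rw [← map_pow, h0, Polynomial.coeff_map])
  apply key
  have := congrArg φ h
  rw [map_cub_Δ, map_zero] at this
  rw [← this]
  simp only [Polynomial.coeff_map, jp, jr, map_sub, map_add, map_mul, map_pow, map_ofNat]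

theorem taylor_separable {F : Type*} [Field F] (q : Polynomial F) (hq : q.Separable) (x : F) :
    (Polynomial.taylor x q).Separable := by
  have h : IsCoprime q (Polynomial.derivative q) := hq
  have h1 := h.map (Polynomial.taylorAlgHom x).toRingHom
  have h2 : Polynomial.derivative (Polynomial.taylor x q)
      = Polynomial.taylor x (Polynomial.derivative q) := by
    rw [Polynomial.taylor_apply, Polynomial.taylor_apply, Polynomial.derivative_comp]
    simp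
  show IsCoprime _ _
  rw [h2]
  exact h1

end Pool.Agent.Helper15.EC
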