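import Mathlib

/-!
# Embeddings of finitely generated fields into the algebraic closure of the `p`-adic numbers
-/

namespace Pool.Agent.Helper15.Emb

open Polynomial

theorem countable_polynomial (F : Type*) [Field F] [Countable F] : Countable F[X] := by
  rw [← Cardinal.mk_le_aleph0_iff]
  refine le_trans Polynomial.cardinalMk_le_max ?_
  rw [sup_le_iff]
  exact ⟨Cardinal.mk_le_aleph0_iff.mpr inferInstance, le_rfl⟩

theorem countable_mvPolynomial (F ι : Type*) [Field F] [Countable F] [Finite ι] :
    Countable (MvPolynomial ι F) := by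
  rw [← Cardinal.mk_le_aleph0_iff]
  refine le_trans MvPolynomial.cardinalMk_le_max_lift ?_
  rw [sup_le_iff, sup_le_iff]
  refine ⟨⟨?_, ?_⟩, le_rfl⟩
  · rw [Cardinal.lift_le_aleph0]; exact Cardinal.mk_le_aleph0_iff.mpr inferInstance
  · rw [Cardinal.lift_le_aleph0]; exact Cardinal.mk_le_aleph0_iff.mpr inferInstance

/-- An uncountable set contains elements transcendental over a given countable field. -/
theorem exists_transcendental {F Ω : Type*} [Field F] [Countable F] [Field Ω] (σ : F →+* Ω)
    (S : Set Ω) (hS : ¬ S.Countable) : ∃ x ∈ S, ∀ f : F[X], f.eval₂ σ x = 0 → f = 0 := by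
  classical
  by_contra hcon
  push Not at hcon
  apply hS
  have hc := countable_polynomial F
  have h1 : (⋃ f : F[X], ((f.map σ).roots.toFinset : Set Ω)).Countable :=
    Set.countable_iUnion fun f => Finset.countable_toSet _
  refine h1.mono ?_
  intro x hx
  obtain ⟨f, hf, hne⟩ := hcon x hx
  rw [Set.mem_iUnion]
  refine ⟨f, ?_⟩
  rw [Finset.mem_coe, Multiset.mem_toFinset, mem_roots ((Polynomial.map_ne_zero_iff σ.injective).mpr hne)]
  rw [IsRoot.def, eval_map]
  exact hf

instance : Uncountable (PadicAlgCl 2) := by
  rw [← Cardinal.aleph0_lt_mk_iff]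
  have h := continuum_le_cardinal_of_isOpen (E := PadicAlgCl 2) ℚ_[2] (s := Set.univ) isOpen_univ
    ⟨0, trivial⟩
  rw [Cardinal.mk_univ] at h
  exact lt_of_lt_of_le Cardinal.aleph0_lt_continuum h

theorem not_countable_ball (x : PadicAlgCl 2) (ε : ℝ) (hε : 0 < ε) :
    ¬ (Metric.ball x ε).Countable := by
  intro hc
  have h := continuum_le_cardinal_of_isOpen (E := PadicAlgCl 2) ℚ_[2] (s := Metric.ball x ε)
    Metric.isOpen_ball ⟨x, Metric.mem_ball_self hε⟩
  rw [← Cardinal.le_aleph0_iff_set_countable] at hc
  exact absurd (lt_of_lt_of_le Cardinal.aleph0_lt_continuum h) (not_lt.mpr hc)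

theorem countable_numberField (K : Type*) [Field K] [NumberField K] : Countable K := by
  rw [← Cardinal.mk_le_aleph0_iff]
  have h := Algebra.IsAlgebraic.lift_cardinalMk_le_max ℚ K
  rw [Cardinal.lift_uzero] at h
  refine le_trans h ?_
  rw [sup_le_iff]
  refine ⟨?_, le_rfl⟩
  rw [Cardinal.lift_le_aleph0]
  exact Cardinal.mk_le_aleph0_iff.mpr inferInstance

/-- A finitely generated field over a countable field is countable. -/
theorem countable_of_fg (K E : Type*) [Field K] [Countable K] [Field E] [Algebra K E]
    (G : Finset E) (hG : IntermediateField.adjoin K (G : Set E) = ⊤) : Countable E := by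
  have hc := countable_mvPolynomial K G
  let f : MvPolynomial G K × MvPolynomial G K → E := fun p =>
    MvPolynomial.aeval (fun g : G => (g : E)) p.1 / MvPolynomial.aeval (fun g : G => (g : E)) p.2
  have hf : Function.Surjective f := by
    intro e
    have he : e ∈ IntermediateField.adjoin K (Set.range (fun g : G => (g : E))) := by
      have : Set.range (fun g : G => (g : E)) = (G : Set E) := by simp
      rw [this, hG]
      exact IntermediateField.mem_top
    rw [IntermediateField.mem_adjoin_range_iff] at he
    obtain ⟨r, s, hrs⟩ := he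
    exact ⟨(r, s), hrs.symm⟩
  exact hf.countable

/-- A finitely generated field over a countable field embeds into every uncountable
algebraically closed field. -/
theorem exists_embedding (K E Ω : Type*) [Field K] [Countable K] [Field E] [Algebra K E]
    [Field Ω] [IsAlgClosed Ω] [Algebra K Ω] [Uncountable Ω]
    (G : Finset E) (hG : IntermediateField.adjoin K (G : Set E) = ⊤) :
    Nonempty (E →ₐ[K] Ω) := by
  classical
  -- a finite transcendence basis of `E`
  have halg : Algebra.IsAlgebraic (Algebra.adjoin K (G : Set E)) E := by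
    constructor
    intro e
    have he : e ∈ IntermediateField.adjoin K (G : Set E) := by rw [hG]; exact IntermediateField.mem_top
    obtain ⟨a, ha, b, hb, hab⟩ := IntermediateField.mem_adjoin_iff_div.mp he
    by_cases hb0 : b = 0
    · rw [hb0, div_zero] at hab
      rw [hab]
      exact isAlgebraic_zero
    · refine ⟨C ⟨b, hb⟩ * X - C ⟨a, ha⟩, ?_, ?_⟩
      · intro h0
        have := congrArg (fun p => p.coeff 1) h0
        simp only [coeff_sub, coeff_C_mul, coeff_X_one, mul_one, coeff_zero] at this
        rw [coeff_C_of_ne_zero one_ne_zero, sub_zero] at this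
        exact hb0 (congrArg Subtype.val this)
      · rw [map_sub, map_mul, aeval_C, aeval_C, aeval_X]
        show b * e - a = 0
        rw [hab, mul_div_cancel₀ _ hb0, sub_self]
  obtain ⟨t, htG, ht⟩ := exists_isTranscendenceBasis_subset (R := K) (A := E) (G : Set E)
  have htf : Finite t := (G.finite_toSet.subset htG)
  -- an infinite transcendence basis of `Ω`
  obtain ⟨T, hT⟩ := exists_isTranscendenceBasis K Ω
  have hTinf : Infinite T := by
    by_contra hfin
    rw [not_infinite_iff_finite] at hfin
    have h1 := IsAlgClosed.cardinal_le_max_transcendence_basis _ hT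
    have h2 := le_trans h1 (c := Cardinal.aleph0) (by
      rw [sup_le_iff, sup_le_iff]
      refine ⟨⟨?_, ?_⟩, le_rfl⟩
      · rw [Cardinal.lift_le_aleph0]; exact Cardinal.mk_le_aleph0_iff.mpr inferInstance
      · rw [Cardinal.lift_le_aleph0]; exact Cardinal.mk_le_aleph0_iff.mpr inferInstance)
    rw [Cardinal.lift_le_aleph0, Cardinal.mk_le_aleph0_iff] at h2
    exact not_countable h2
  obtain ⟨j⟩ : Nonempty (t ↪ T) := by
    cases nonempty_fintype t
    obtain ⟨s, hs⟩ := Infinite.exists_subset_card_eq T (Fintype.card t)
    have e : t ≃ s := Fintype.equivOfCardEq (by rw [Fintype.card_coe, hs])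
    exact ⟨e.toEmbedding.trans (Function.Embedding.subtype _)⟩
  have hu : AlgebraicIndependent K (fun i : t => ((j i : T) : Ω)) := hT.1.comp j j.injective
  -- the two algebra structures
  let P := MvPolynomial t K
  let algE : Algebra P E := (MvPolynomial.aeval (fun i : t => (i : E)) : P →ₐ[K] E).toRingHom.toAlgebra
  let algΩ : Algebra P Ω :=
    (MvPolynomial.aeval (fun i : t => ((j i : T) : Ω)) : P →ₐ[K] Ω).toRingHom.toAlgebra
  have hE : Module.IsTorsionFree P E := by
    rw [Module.isTorsionFree_iff_algebraMap_injective]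
    exact ht.1
  have hΩ : Module.IsTorsionFree P Ω := by
    rw [Module.isTorsionFree_iff_algebraMap_injective]
    exact hu
  have hPE : Algebra.IsAlgebraic P E := by
    have h1 := ht.isAlgebraic
    refine Algebra.IsAlgebraic.of_ringHom_of_comp_eq
      (ht.1.aevalEquiv : P →+* Algebra.adjoin K (Set.range ((↑) : t → E))) (RingHom.id E)
      ht.1.aevalEquiv.surjective Function.injective_id ?_
    ext p
    · rfl
    · rfl
  let φ : E →ₐ[P] Ω := IsAlgClosed.lift
  refine ⟨{ (φ : E →+* Ω) with commutes' := ?_ }⟩
  intro r
  have := φ.commutes (MvPolynomial.C r)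
  have h1 : algebraMap P E (MvPolynomial.C r) = algebraMap K E r := by
    show MvPolynomial.aeval _ _ = _
    rw [MvPolynomial.aeval_C]
  have h2 : algebraMap P Ω (MvPolynomial.C r) = algebraMap K Ω r := by
    show MvPolynomial.aeval _ _ = _
    rw [MvPolynomial.aeval_C]
  rw [h1, h2] at this
  exact this

end Pool.Agent.Helper15.Emb
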