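import Pool.Agent.Helper15.Spec0

/-!
# Moving points along fibrations: stability of the ideal under derivations
-/

namespace Pool.Agent.Helper15.Engine

open Filter Topology

variable {K E : Type*} [Field K] [Field E] [Algebra K E] {Ω : Type*} [NormedField Ω] [Algebra K Ω]

/-- The polynomials over `A ∩ B`, as functions on `E ^ r`. -/
noncomputable def evE (A : Subalgebra K E) (B : IntermediateField K E) {r : ℕ} (z : Fin r → E) :
    MvPolynomial (Fin r) (A ⊓ B.toSubalgebra : Subalgebra K E) →+* E :=
  MvPolynomial.eval₂Hom (algebraMap (A ⊓ B.toSubalgebra : Subalgebra K E) E) z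

/-- The polynomials over `A ∩ B`, as functions on `Ω ^ r`, via a homomorphism from `A`. -/
noncomputable def evΩ (A : Subalgebra K E) (B : IntermediateField K E) (φ : A →ₐ[K] Ω) {r : ℕ}
    (z' : Fin r → Ω) : MvPolynomial (Fin r) (A ⊓ B.toSubalgebra : Subalgebra K E) →+* Ω :=
  MvPolynomial.eval₂Hom
    ((φ : A →+* Ω).comp (Subalgebra.inclusion (inf_le_left : A ⊓ B.toSubalgebra ≤ A) :
      (A ⊓ B.toSubalgebra : Subalgebra K E) →+* A)) z'

/-- The polynomials over `A ∩ B`, as functions on `A ^ r`. -/
noncomputable def evA (A : Subalgebra K E) (B : IntermediateField K E) {r : ℕ} (z : Fin r → A) :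
    MvPolynomial (Fin r) (A ⊓ B.toSubalgebra : Subalgebra K E) →+* A :=
  MvPolynomial.eval₂Hom
    (Subalgebra.inclusion (inf_le_left : A ⊓ B.toSubalgebra ≤ A) :
      (A ⊓ B.toSubalgebra : Subalgebra K E) →+* A) z

theorem coe_evA (A : Subalgebra K E) (B : IntermediateField K E) {r : ℕ} (z : Fin r → A)
    (f : MvPolynomial (Fin r) (A ⊓ B.toSubalgebra : Subalgebra K E)) :
    (evA A B z f : E) = evE A B (fun j => (z j : E)) f := by
  unfold evA evE
  induction f using MvPolynomial.induction_on with
  | C a => rw [MvPolynomial.eval₂Hom_C, MvPolynomial.eval₂Hom_C]; rfl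
  | add p q hp hq => rw [map_add, map_add, ← hp, ← hq]; rfl
  | mul_X p i hp =>
    rw [map_mul, map_mul, ← hp, MvPolynomial.eval₂Hom_X', MvPolynomial.eval₂Hom_X']; rfl

/-- `K`-points of the fibres near a given point: the derivation `D` kills `B`, and near every
specialisation `φ` of the embedding `τ` there are points of the fibre of `φ`, rational over the
same field, converging to `φ` in the direction of `D`. -/
def Supply (τ : E →ₐ[K] Ω) (B : IntermediateField K E) (D : Derivation K E E) : Prop :=
  (∀ b ∈ B, D b = 0) ∧ ∃ (r : ℕ) (z : Fin r → E) (F₀ : Finset E),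
    IntermediateField.adjoin B (Set.range z) = ⊤ ∧
    ∀ (A : Subalgebra K E), (∀ g ∈ F₀, g ∈ A) → ∀ (L : IntermediateField K Ω) (φ : A →ₐ[K] Ω),
      (∀ a, φ a ∈ L) → (∀ a : A, (a : E) ∈ F₀ → ‖φ a - τ a‖ < 1) →
      ∃ (z' : ℕ → Fin r → Ω) (s : ℕ → Ω), (∀ k j, z' k j ∈ L) ∧ (∀ k, s k ≠ 0) ∧
        (∀ (j : Fin r) (a b : A), (a : E) = z j → (b : E) = D (z j) →
          Tendsto (fun k => z' k j) atTop (𝓝 (φ a)) ∧
          Tendsto (fun k => (z' k j - φ a) / s k) atTop (𝓝 (φ b))) ∧
        ∀ (k : ℕ) (f : MvPolynomial (Fin r) (A ⊓ B.toSubalgebra : Subalgebra K E)),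
          evE A B z f = 0 → evΩ A B φ (z' k) f = 0

/-- Derivatives in the direction of `D`. -/
theorem tendsto_ev {A : Subalgebra K E} {B : IntermediateField K E} {D : Derivation K E E}
    (hB : ∀ b ∈ B, D b = 0) (hDA : ∀ a ∈ A, D a ∈ A) (φ : A →ₐ[K] Ω) {r : ℕ} (z : Fin r → A)
    (z' : ℕ → Fin r → Ω) (s : ℕ → Ω)
    (h : ∀ (j : Fin r), Tendsto (fun k => z' k j) atTop (𝓝 (φ (z j))) ∧
          Tendsto (fun k => (z' k j - φ (z j)) / s k) atTop
            (𝓝 (φ ⟨D (z j), hDA _ (z j).2⟩)))
    (f : MvPolynomial (Fin r) (A ⊓ B.toSubalgebra : Subalgebra K E)) :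
    Tendsto (fun k => evΩ A B φ (z' k) f) atTop (𝓝 (φ (evA A B z f))) ∧
    Tendsto (fun k => (evΩ A B φ (z' k) f - φ (evA A B z f)) / s k) atTop
      (𝓝 (φ ⟨D (evA A B z f), hDA _ (evA A B z f).2⟩)) := by
  induction f using MvPolynomial.induction_on with
  | C a =>
    have e1 : ∀ k, evΩ A B φ (z' k) (MvPolynomial.C a) = φ (evA A B z (MvPolynomial.C a)) := by
      intro k
      unfold evΩ evA
      rw [MvPolynomial.eval₂Hom_C, MvPolynomial.eval₂Hom_C]; rfl
    have e2 : (evA A B z (MvPolynomial.C a) : E) = a := by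
      unfold evA
      rw [MvPolynomial.eval₂Hom_C]; rfl
    constructor
    · simp only [e1]; exact tendsto_const_nhds
    · simp only [e1, sub_self, zero_div]
      have e3 : (⟨D (evA A B z (MvPolynomial.C a)), hDA _ (evA A B z (MvPolynomial.C a)).2⟩ : A)
          = 0 := by
        apply Subtype.ext
        show D (evA A B z (MvPolynomial.C a) : E) = 0
        rw [e2]
        exact hB _ a.2.2
      rw [e3, map_zero]
      exact tendsto_const_nhds
  | add p q hp hq =>
    constructor
    · simp only [map_add]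
      exact hp.1.add hq.1
    · have h1 := hp.2.add hq.2
      have e1 : φ ⟨D (evA A B z p), hDA _ (evA A B z p).2⟩
          + φ ⟨D (evA A B z q), hDA _ (evA A B z q).2⟩
          = φ ⟨D (evA A B z (p + q)), hDA _ (evA A B z (p + q)).2⟩ := by
        rw [← map_add]
        congr 1
        apply Subtype.ext
        show D _ + D _ = D _
        rw [map_add (evA A B z), ← map_add D]; rfl
      rw [e1] at h1
      refine h1.congr fun k => ?_
      simp only [map_add]
      ring
  | mul_X p j hp =>
    have e0 : ∀ k, evΩ A B φ (z' k) (p * MvPolynomial.X j) = evΩ A B φ (z' k) p * z' k j := by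
      intro k
      rw [map_mul]
      congr 1
      unfold evΩ
      rw [MvPolynomial.eval₂Hom_X']
    have e0' : evA A B z (p * MvPolynomial.X j) = evA A B z p * z j := by
      rw [map_mul]
      congr 1
      unfold evA
      rw [MvPolynomial.eval₂Hom_X']
    constructor
    · simp only [e0, e0', map_mul]
      exact hp.1.mul (h j).1
    · have h1 := (hp.2.mul (h j).1).add ((h j).2.const_mul (φ (evA A B z p)))
      have e1 : φ ⟨D (evA A B z p), hDA _ (evA A B z p).2⟩ * φ (z j)
          + φ (evA A B z p) * φ ⟨D (z j), hDA _ (z j).2⟩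
          = φ ⟨D (evA A B z (p * MvPolynomial.X j)),
              hDA _ (evA A B z (p * MvPolynomial.X j)).2⟩ := by
        rw [← map_mul, ← map_mul, ← map_add]
        congr 1
        apply Subtype.ext
        show D (evA A B z p) * (z j : E) + (evA A B z p : E) * D (z j)
          = D (evA A B z (p * MvPolynomial.X j) : A)
        rw [e0']
        show _ = D ((evA A B z p : E) * (z j : E))
        rw [D.leibniz, smul_eq_mul, smul_eq_mul]
        ring
      rw [e1] at h1
      refine h1.congr fun k => ?_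
      rw [e0, e0', map_mul]
      ring

end Pool.Agent.Helper15.Engine
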