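import Pool.Agent.Helper15.Engine1

/-!
# Stability of the ideal of near points
-/

namespace Pool.Agent.Helper15.Engine

open Filter Topology

variable {K E : Type*} [Field K] [Field E] [Algebra K E] {Ω : Type*} [NormedField Ω] [Algebra K Ω]

/-- The specialisations of `A` with values in `L` that are close to `τ` on `G`. -/
def Near (τ : E →ₐ[K] Ω) (A : Subalgebra K E) (G : Finset E) (L : IntermediateField K Ω) :
    Set (A →ₐ[K] Ω) :=
  {φ | (∀ a, φ a ∈ L) ∧ ∀ a : A, (a : E) ∈ G → ‖φ a - τ a‖ < 1}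

/-- The elements of `A` killed by all near specialisations. -/
def Killed (τ : E →ₐ[K] Ω) (A : Subalgebra K E) (G : Finset E) (L : IntermediateField K Ω) :
    Set E :=
  {h | ∃ hA : h ∈ A, ∀ φ ∈ Near τ A G L, φ ⟨h, hA⟩ = 0}

/-- The fractions of polynomials in `z` over `A ∩ B` whose denominators are units of `A`. -/
def IsFr (A : Subalgebra K E) (B : IntermediateField K E) {r : ℕ} (z : Fin r → E) (g : E) : Prop :=
  ∃ f s : MvPolynomial (Fin r) (A ⊓ B.toSubalgebra : Subalgebra K E),
    g * evE A B z s = evE A B z f ∧ ∃ w ∈ A, evE A B z s * w = 1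

theorem evE_const (A : Subalgebra K E) (B : IntermediateField K E) {r : ℕ} (z : Fin r → E) (a : K) :
    evE A B z (MvPolynomial.C (algebraMap K _ a)) = algebraMap K E a := by
  unfold evE
  rw [MvPolynomial.eval₂Hom_C]; rfl

theorem evΩ_const (A : Subalgebra K E) (B : IntermediateField K E) (φ : A →ₐ[K] Ω) {r : ℕ}
    (z' : Fin r → Ω) (a : K) :
    evΩ A B φ z' (MvPolynomial.C (algebraMap K _ a)) = algebraMap K Ω a := by
  unfold evΩ
  rw [MvPolynomial.eval₂Hom_C]
  exact φ.commutes a

/-- The elements that are fractions with unit denominators form a subalgebra. -/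
noncomputable def frAlg (A : Subalgebra K E) (B : IntermediateField K E) {r : ℕ} (z : Fin r → E) :
    Subalgebra K E :=
  Spec.fracs (evE A B z) (fun a => ⟨MvPolynomial.C (algebraMap K _ a), evE_const A B z a⟩)
    { carrier := {s | ∃ w ∈ A, evE A B z s * w = 1}
      one_mem' := ⟨1, A.one_mem, by rw [map_one, one_mul]⟩
      mul_mem' := by
        rintro a b ⟨w, hw, h⟩ ⟨w', hw', h'⟩
        refine ⟨w * w', A.mul_mem hw hw', ?_⟩
        rw [map_mul]
        calc evE A B z a * evE A B z b * (w * w')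
            = (evE A B z a * w) * (evE A B z b * w') := by ring
          _ = 1 := by rw [h, h', one_mul] }

theorem mem_frAlg {A : Subalgebra K E} {B : IntermediateField K E} {r : ℕ} {z : Fin r → E}
    {g : E} : g ∈ frAlg A B z ↔ IsFr A B z g := Iff.rfl

theorem stable (τ : E →ₐ[K] Ω) (B : IntermediateField K E) (D : Derivation K E E)
    (hB : ∀ b ∈ B, D b = 0) (r : ℕ) (z : Fin r → E) (F₀ : Finset E)
    (hsup : ∀ (A : Subalgebra K E), (∀ g ∈ F₀, g ∈ A) → ∀ (L : IntermediateField K Ω)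
      (φ : A →ₐ[K] Ω),
      (∀ a, φ a ∈ L) → (∀ a : A, (a : E) ∈ F₀ → ‖φ a - τ a‖ < 1) →
      ∃ (z' : ℕ → Fin r → Ω) (s : ℕ → Ω), (∀ k j, z' k j ∈ L) ∧ (∀ k, s k ≠ 0) ∧
        (∀ (j : Fin r) (a b : A), (a : E) = z j → (b : E) = D (z j) →
          Tendsto (fun k => z' k j) atTop (𝓝 (φ a)) ∧
          Tendsto (fun k => (z' k j - φ a) / s k) atTop (𝓝 (φ b))) ∧
        ∀ (k : ℕ) (f : MvPolynomial (Fin r) (A ⊓ B.toSubalgebra : Subalgebra K E)),
          evE A B z f = 0 → evΩ A B φ (z' k) f = 0)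
    (G : Finset E) (A : Subalgebra K E) (hA : A = Algebra.adjoin K (G : Set E))
    (hF₀ : ∀ g ∈ F₀, g ∈ G) (hz : ∀ j, z j ∈ A) (hDA : ∀ a ∈ A, D a ∈ A)
    (hfr : ∀ g ∈ G, IsFr A B z g) (L : IntermediateField K Ω) (h : E)
    (hh : h ∈ Killed τ A G L) : D h ∈ Killed τ A G L := by
  classical
  obtain ⟨hhA, hkill⟩ := hh
  refine ⟨hDA h hhA, ?_⟩
  rintro φ ⟨hφL, hφG⟩
  have hGA : ∀ g ∈ G, g ∈ A := fun g hg => by
    rw [hA]; exact Algebra.subset_adjoin hg
  obtain ⟨z', s, hz'L, hs0, hlim, hrel⟩ := hsup A (fun g hg => hGA g (hF₀ g hg)) L φ hφL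
    (fun a ha => hφG a (hF₀ _ ha))
  let zA : Fin r → A := fun j => ⟨z j, hz j⟩
  have hlim' : ∀ j : Fin r, Tendsto (fun k => z' k j) atTop (𝓝 (φ (zA j))) ∧
      Tendsto (fun k => (z' k j - φ (zA j)) / s k) atTop (𝓝 (φ ⟨D (zA j), hDA _ (zA j).2⟩)) :=
    fun j => hlim j (zA j) ⟨D (zA j), hDA _ (zA j).2⟩ rfl rfl
  have hT := fun f => tendsto_ev (B := B) hB hDA φ zA z' s hlim' f
  have hcoe := fun f => coe_evA A B zA f
  -- all elements of `A` are fractions
  have hall : A ≤ frAlg A B z := by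
    conv_lhs => rw [hA]
    exact Algebra.adjoin_le hfr
  -- values of units
  have hunit : ∀ t : MvPolynomial (Fin r) (A ⊓ B.toSubalgebra : Subalgebra K E),
      (∃ w ∈ A, evE A B z t * w = 1) → φ (evA A B zA t) ≠ 0 := by
    rintro t ⟨w, hw, hw1⟩ h0
    have h1 : (evA A B zA t) * ⟨w, hw⟩ = 1 := by
      apply Subtype.ext
      show (evA A B zA t : E) * w = 1
      rw [hcoe]; exact hw1
    have h2 := congrArg φ h1
    rw [map_mul, h0, zero_mul, map_one] at h2
    exact zero_ne_one h2
  -- fractions in `A`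
  have hfrac : ∀ (g : A) (f t : MvPolynomial (Fin r) (A ⊓ B.toSubalgebra : Subalgebra K E)),
      (g : E) * evE A B z t = evE A B z f → φ g * φ (evA A B zA t) = φ (evA A B zA f) := by
    intro g f t hgt
    rw [← map_mul]
    congr 1
    apply Subtype.ext
    show (g : E) * (evA A B zA t : E) = (evA A B zA f : E)
    rw [hcoe, hcoe]; exact hgt
  choose! f t hft ht using hfr
  -- the moved points are eventually near specialisations
  have hgood : ∀ g ∈ G, ∀ᶠ k in atTop, evΩ A B φ (z' k) (t g) ≠ 0 ∧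
      ‖evΩ A B φ (z' k) (f g) / evΩ A B φ (z' k) (t g) - τ g‖ < 1 := by
    intro g hg
    have h1 := (hT (t g)).1
    have h2 := (hT (f g)).1
    have hne := hunit (t g) (ht g hg)
    have h3 := h2.div h1 hne
    have h4 : φ (evA A B zA (f g)) / φ (evA A B zA (t g)) = φ ⟨g, hGA g hg⟩ := by
      rw [div_eq_iff hne]
      exact (hfrac ⟨g, hGA g hg⟩ _ _ (hft g hg)).symm
    rw [h4] at h3
    refine (h1.eventually_ne hne).and ?_
    have h5 := (h3.sub_const (τ g)).norm
    exact h5.eventually_lt_const (hφG ⟨g, hGA g hg⟩ hg)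
  obtain ⟨f₀, t₀, hft₀, ht₀⟩ := hall hhA
  have hmove : ∀ᶠ k in atTop, evΩ A B φ (z' k) f₀ = 0 := by
    have hev := (Filter.eventually_all_finset G).mpr hgood
    have hev₀ := ((hT t₀).1).eventually_ne (hunit t₀ ht₀)
    filter_upwards [hev, hev₀] with k hk hk₀
    -- the submonoid of admissible denominators
    let S : Submonoid (MvPolynomial (Fin r) (A ⊓ B.toSubalgebra : Subalgebra K E)) :=
      { carrier := {p | evΩ A B φ (z' k) p ≠ 0}
        one_mem' := by
          show evΩ A B φ (z' k) 1 ≠ 0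
          rw [map_one]; exact one_ne_zero
        mul_mem' := by
          intro a b ha hb
          show evΩ A B φ (z' k) (a * b) ≠ 0
          rw [map_mul]; exact mul_ne_zero ha hb }
    have hsub : A ≤ Spec.fracs (evE A B z)
        (fun a => ⟨MvPolynomial.C (algebraMap K _ a), evE_const A B z a⟩) S := by
      conv_lhs => rw [hA]
      refine Algebra.adjoin_le fun g hg => ?_
      exact ⟨f g, t g, hft g hg, (hk g hg).1⟩
    obtain ⟨φ', hφ'⟩ := Spec.exists_ext (evE A B z) (evΩ A B φ (z' k)) (hrel k) A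
      (fun g hg => hsub hg) (fun a => ⟨MvPolynomial.C (algebraMap K _ a), evE_const A B z a,
        evΩ_const A B φ (z' k) a⟩)
    have hφ'near : φ' ∈ Near τ A G L := by
      constructor
      · intro a
        obtain ⟨f', t', h1, h2⟩ := hsub a.2
        have h3 := hφ' a f' t' h1
        have hmem : ∀ p, evΩ A B φ (z' k) p ∈ L := by
          intro p
          induction p using MvPolynomial.induction_on with
          | C a =>
            unfold evΩ
            rw [MvPolynomial.eval₂Hom_C]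
            exact hφL _
          | add p q hp hq => rw [map_add]; exact L.add_mem hp hq
          | mul_X p i hp =>
            rw [map_mul]
            refine L.mul_mem hp ?_
            unfold evΩ
            rw [MvPolynomial.eval₂Hom_X']
            exact hz'L k i
        have h4 : φ' a = evΩ A B φ (z' k) f' / evΩ A B φ (z' k) t' := by
          rw [eq_div_iff h2]; exact h3
        rw [h4]
        exact L.div_mem (hmem _) (hmem _)
      · intro a ha
        have h3 := hφ' a (f a) (t a) (hft a ha)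
        have h4 : φ' a = evΩ A B φ (z' k) (f a) / evΩ A B φ (z' k) (t a) := by
          rw [eq_div_iff (hk a ha).1]; exact h3
        rw [h4]
        exact (hk a ha).2
    have h5 := hφ' ⟨h, hhA⟩ f₀ t₀ hft₀
    rw [hkill φ' hφ'near, zero_mul] at h5
    exact h5.symm
  -- the value at `φ` vanishes
  have h0 : φ ⟨h, hhA⟩ = 0 := hkill φ ⟨hφL, hφG⟩
  have h1 : φ (evA A B zA f₀) = 0 := by
    have := hfrac ⟨h, hhA⟩ f₀ t₀ hft₀
    rw [h0, zero_mul] at this
    exact this.symm
  have h2 := (hT f₀).2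
  have h3 : Tendsto (fun k => (evΩ A B φ (z' k) f₀ - φ (evA A B zA f₀)) / s k) atTop (𝓝 0) := by
    refine tendsto_const_nhds.congr' ?_
    filter_upwards [hmove] with k hk
    rw [hk, h1, sub_zero, zero_div]
  have h4 := tendsto_nhds_unique h2 h3
  -- conclusion by the Leibniz rule
  have h5 : (⟨D (evA A B zA f₀), hDA _ (evA A B zA f₀).2⟩ : A)
      = ⟨D h, hDA h hhA⟩ * evA A B zA t₀ + ⟨h, hhA⟩ * ⟨D (evA A B zA t₀), hDA _ (evA A B zA t₀).2⟩ := by
    apply Subtype.ext
    show D (evA A B zA f₀ : E) = D h * (evA A B zA t₀ : E) + h * D (evA A B zA t₀ : E)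
    have e1 : (evA A B zA f₀ : E) = h * (evA A B zA t₀ : E) := by
      rw [hcoe, hcoe]; exact hft₀.symm
    rw [e1, D.leibniz, smul_eq_mul, smul_eq_mul]
    ring
  rw [h5, map_add, map_mul, map_mul, h0, zero_mul, add_zero] at h4
  exact (mul_eq_zero.mp h4).resolve_right (hunit t₀ ht₀)

end Pool.Agent.Helper15.Engine
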