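import Pool.Agent.Helper15.Engine2

/-!
# Good finitely generated algebras
-/

namespace Pool.Agent.Helper15.Engine

open Filter Topology

variable {K E : Type*} [Field K] [Field E] [Algebra K E]

/-- A common denominator. -/
theorem exists_denominator (G : Finset E) (hG : IntermediateField.adjoin K (G : Set E) = ⊤)
    (F : Finset E) : ∃ ω ∈ Algebra.adjoin K (G : Set E), ω ≠ 0 ∧
      ∀ e ∈ F, e * ω ∈ Algebra.adjoin K (G : Set E) := by
  classical
  induction F using Finset.induction_on with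
  | empty => exact ⟨1, Subalgebra.one_mem _, one_ne_zero, by simp⟩
  | insert e F _ ih =>
    obtain ⟨ω, hω, h0, hF⟩ := ih
    have he : e ∈ IntermediateField.adjoin K (G : Set E) := by
      rw [hG]; exact IntermediateField.mem_top
    obtain ⟨a, ha, b, hb, hab⟩ := IntermediateField.mem_adjoin_iff_div.mp he
    by_cases hb0 : b = 0
    · refine ⟨ω, hω, h0, ?_⟩
      intro x hx
      rcases Finset.mem_insert.mp hx with rfl | hx
      · rw [hab, hb0, div_zero, zero_mul]; exact Subalgebra.zero_mem _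
      · exact hF x hx
    · refine ⟨ω * b, Subalgebra.mul_mem _ hω hb, mul_ne_zero h0 hb0, ?_⟩
      intro x hx
      rcases Finset.mem_insert.mp hx with rfl | hx
      · have : x * (ω * b) = ω * a := by
          rw [hab]; field_simp
        rw [this]
        exact Subalgebra.mul_mem _ hω ha
      · have : x * (ω * b) = (x * ω) * b := by ring
        rw [this]
        exact Subalgebra.mul_mem _ (hF x hx) hb

/-- The inclusion of `A ∩ B` in `B`. -/
def toB (A : Subalgebra K E) (B : IntermediateField K E) :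
    (A ⊓ B.toSubalgebra : Subalgebra K E) →+* B where
  toFun x := ⟨x.1, x.2.2⟩
  map_one' := rfl
  map_mul' _ _ := rfl
  map_zero' := rfl
  map_add' _ _ := rfl

theorem exists_lift (A : Subalgebra K E) (B : IntermediateField K E) {r : ℕ} (z : Fin r → E)
    (f : MvPolynomial (Fin r) B) (hf : ∀ m ∈ f.support, ((MvPolynomial.coeff m f : B) : E) ∈ A) :
    ∃ f' : MvPolynomial (Fin r) (A ⊓ B.toSubalgebra : Subalgebra K E),
      evE A B z f' = MvPolynomial.aeval z f := by
  classical
  obtain ⟨f', hf'⟩ : ∃ f' : MvPolynomial (Fin r) (A ⊓ B.toSubalgebra : Subalgebra K E),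
      MvPolynomial.map (toB A B) f' = f := by
    have : f ∈ Set.range (MvPolynomial.map (σ := Fin r) (toB A B)) := by
      rw [MvPolynomial.mem_range_map_iff_coeffs_subset]
      intro c hc
      obtain ⟨m, hm⟩ := MvPolynomial.mem_coeffs_iff.mp hc
      refine ⟨⟨(c : E), ?_, c.2⟩, rfl⟩
      rw [hm.2]
      exact hf m hm.1
    exact this
  refine ⟨f', ?_⟩
  rw [← hf', MvPolynomial.aeval_def, MvPolynomial.eval₂_map]
  rfl

/-- For finitely many derivations `D i` with generators `z i` of `E` over `B i`, every finite set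
is contained in a finite set generating an algebra stable under the `D i`, all of whose elements
are fractions with unit denominators over `B i`. -/
theorem exists_good {ι : Type*} (J : Finset ι) (B : ι → IntermediateField K E)
    (D : ι → Derivation K E E) (r : ι → ℕ) (z : ∀ i, Fin (r i) → E)
    (hz : ∀ i, IntermediateField.adjoin (B i) (Set.range (z i)) = ⊤)
    (G₀ : Finset E) (hG₀ : IntermediateField.adjoin K (G₀ : Set E) = ⊤) :
    ∃ G : Finset E, G₀ ⊆ G ∧ (∀ i ∈ J, ∀ j, z i j ∈ Algebra.adjoin K (G : Set E)) ∧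
      (∀ i ∈ J, ∀ a ∈ Algebra.adjoin K (G : Set E), D i a ∈ Algebra.adjoin K (G : Set E)) ∧
      (∀ i ∈ J, ∀ g ∈ G, IsFr (Algebra.adjoin K (G : Set E)) (B i) (z i) g) := by
  classical
  -- generators
  set G₁ : Finset E := G₀ ∪ J.biUnion (fun i => Finset.univ.image (z i)) with hG₁
  have hG₁top : IntermediateField.adjoin K (G₁ : Set E) = ⊤ := by
    rw [eq_top_iff, ← hG₀]
    refine IntermediateField.adjoin.mono K _ _ ?_
    rw [hG₁]
    push_cast
    exact Set.subset_union_left
  -- fractions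
  have hfrac : ∀ (i : ι) (g : E), ∃ p : MvPolynomial (Fin (r i)) (B i) × MvPolynomial (Fin (r i)) (B i),
      g * MvPolynomial.aeval (z i) p.2 = MvPolynomial.aeval (z i) p.1 ∧
      MvPolynomial.aeval (z i) p.2 ≠ (0 : E) := by
    intro i g
    have hg : g ∈ IntermediateField.adjoin (B i) (Set.range (z i)) := by
      rw [hz i]; exact IntermediateField.mem_top
    rw [IntermediateField.mem_adjoin_range_iff] at hg
    obtain ⟨f, s, hfs⟩ := hg
    by_cases hs : MvPolynomial.aeval (z i) s = (0 : E)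
    · refine ⟨(0, 1), ?_, ?_⟩
      · rw [hfs, hs, div_zero, zero_mul, map_zero]
      · rw [map_one]; exact one_ne_zero
    · exact ⟨(f, s), by rw [hfs, div_mul_cancel₀ _ hs], hs⟩
  choose p hp1 hp2 using hfrac
  -- the elements that must belong to the algebra
  let F : Finset E := J.biUnion fun i => G₁.biUnion fun g =>
    ((p i g).1.support.image fun m => ((MvPolynomial.coeff m (p i g).1 : B i) : E)) ∪
    ((p i g).2.support.image fun m => ((MvPolynomial.coeff m (p i g).2 : B i) : E)) ∪
    {(MvPolynomial.aeval (z i) (p i g).2 : E)⁻¹, D i g}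
  obtain ⟨ω, hω, hω0, hωF⟩ := exists_denominator G₁ hG₁top F
  let G : Finset E := insert ω⁻¹ G₁
  have hG₁G : Algebra.adjoin K (G₁ : Set E) ≤ Algebra.adjoin K (G : Set E) := by
    refine Algebra.adjoin_mono ?_
    intro x hx
    exact Finset.mem_coe.mpr (Finset.mem_insert_of_mem (Finset.mem_coe.mp hx))
  have hωinv : ω⁻¹ ∈ Algebra.adjoin K (G : Set E) :=
    Algebra.subset_adjoin (Finset.mem_coe.mpr (Finset.mem_insert_self _ _))
  have hFA : ∀ e ∈ F, e ∈ Algebra.adjoin K (G : Set E) := by
    intro e he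
    have h1 := Subalgebra.mul_mem _ (hG₁G (hωF e he)) hωinv
    have h2 : e * ω * ω⁻¹ = e := by
      rw [mul_assoc, mul_inv_cancel₀ hω0, mul_one]
    rwa [h2] at h1
  have hGA : ∀ g ∈ G₁, g ∈ Algebra.adjoin K (G : Set E) := fun g hg =>
    hG₁G (Algebra.subset_adjoin (Finset.mem_coe.mpr hg))
  -- membership of the required elements
  have hF1 : ∀ i ∈ J, ∀ g ∈ G₁, ∀ m ∈ (p i g).1.support,
      ((MvPolynomial.coeff m (p i g).1 : B i) : E) ∈ Algebra.adjoin K (G : Set E) := by
    intro i hi g hg m hm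
    apply hFA
    refine Finset.mem_biUnion.mpr ⟨i, hi, Finset.mem_biUnion.mpr ⟨g, hg, ?_⟩⟩
    exact Finset.mem_union_left _ (Finset.mem_union_left _ (Finset.mem_image_of_mem _ hm))
  have hF2 : ∀ i ∈ J, ∀ g ∈ G₁, ∀ m ∈ (p i g).2.support,
      ((MvPolynomial.coeff m (p i g).2 : B i) : E) ∈ Algebra.adjoin K (G : Set E) := by
    intro i hi g hg m hm
    apply hFA
    refine Finset.mem_biUnion.mpr ⟨i, hi, Finset.mem_biUnion.mpr ⟨g, hg, ?_⟩⟩
    exact Finset.mem_union_left _ (Finset.mem_union_right _ (Finset.mem_image_of_mem _ hm))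
  have hF3 : ∀ i ∈ J, ∀ g ∈ G₁,
      (MvPolynomial.aeval (z i) (p i g).2 : E)⁻¹ ∈ Algebra.adjoin K (G : Set E) := by
    intro i hi g hg
    apply hFA
    refine Finset.mem_biUnion.mpr ⟨i, hi, Finset.mem_biUnion.mpr ⟨g, hg, ?_⟩⟩
    exact Finset.mem_union_right _ (Finset.mem_insert_self _ _)
  have hF4 : ∀ i ∈ J, ∀ g ∈ G₁, D i g ∈ Algebra.adjoin K (G : Set E) := by
    intro i hi g hg
    apply hFA
    refine Finset.mem_biUnion.mpr ⟨i, hi, Finset.mem_biUnion.mpr ⟨g, hg, ?_⟩⟩
    exact Finset.mem_union_right _ (Finset.mem_insert_of_mem (Finset.mem_singleton_self _))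
  have hfr1 : ∀ i ∈ J, ∀ g ∈ G₁, IsFr (Algebra.adjoin K (G : Set E)) (B i) (z i) g := by
    intro i hi g hg
    obtain ⟨f', hf'⟩ := exists_lift (Algebra.adjoin K (G : Set E)) (B i) (z i) (p i g).1
      (hF1 i hi g hg)
    obtain ⟨s', hs'⟩ := exists_lift (Algebra.adjoin K (G : Set E)) (B i) (z i) (p i g).2
      (hF2 i hi g hg)
    refine ⟨f', s', ?_, _, hF3 i hi g hg, ?_⟩
    · rw [hf', hs']; exact hp1 i g
    · rw [hs']; exact mul_inv_cancel₀ (hp2 i g)
  -- stability under the derivations, first on the smaller algebra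
  have hD1 : ∀ i ∈ J, ∀ a ∈ Algebra.adjoin K (G₁ : Set E), D i a ∈ Algebra.adjoin K (G : Set E) := by
    intro i hi a ha
    induction ha using Algebra.adjoin_induction with
    | mem x hx => exact hF4 i hi x (Finset.mem_coe.mp hx)
    | algebraMap r => rw [(D i).map_algebraMap]; exact Subalgebra.zero_mem _
    | add x y hx hy h1 h2 => rw [map_add]; exact Subalgebra.add_mem _ h1 h2
    | mul x y hx hy h1 h2 =>
      rw [(D i).leibniz, smul_eq_mul, smul_eq_mul]
      exact Subalgebra.add_mem _ (Subalgebra.mul_mem _ (hG₁G hx) h2)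
        (Subalgebra.mul_mem _ (hG₁G hy) h1)
  refine ⟨G, ?_, ?_, ?_, ?_⟩
  · exact (Finset.subset_union_left).trans (Finset.subset_insert _ _)
  · intro i hi j
    apply hGA
    rw [hG₁]
    refine Finset.mem_union_right _ (Finset.mem_biUnion.mpr ⟨i, hi, ?_⟩)
    exact Finset.mem_image_of_mem _ (Finset.mem_univ j)
  · intro i hi a ha
    induction ha using Algebra.adjoin_induction with
    | mem x hx =>
      rcases Finset.mem_insert.mp (Finset.mem_coe.mp hx) with rfl | hx
      · have h1 : D i ω⁻¹ = - (ω⁻¹ * ω⁻¹ * D i ω) := by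
          have h2 := (D i).leibniz ω ω⁻¹
          rw [mul_inv_cancel₀ hω0, (D i).map_one_eq_zero, smul_eq_mul, smul_eq_mul] at h2
          have h3 : ω * D i ω⁻¹ = - (ω⁻¹ * D i ω) := by linear_combination -h2
          calc D i ω⁻¹ = ω⁻¹ * (ω * D i ω⁻¹) := by
                rw [← mul_assoc, inv_mul_cancel₀ hω0, one_mul]
            _ = - (ω⁻¹ * ω⁻¹ * D i ω) := by rw [h3]; ring
        rw [h1]
        exact Subalgebra.neg_mem _ (Subalgebra.mul_mem _ (Subalgebra.mul_mem _ hωinv hωinv)
          (hD1 i hi ω hω))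
      · exact hF4 i hi x hx
    | algebraMap r => rw [(D i).map_algebraMap]; exact Subalgebra.zero_mem _
    | add x y hx hy h1 h2 => rw [map_add]; exact Subalgebra.add_mem _ h1 h2
    | mul x y hx hy h1 h2 =>
      rw [(D i).leibniz, smul_eq_mul, smul_eq_mul]
      exact Subalgebra.add_mem _ (Subalgebra.mul_mem _ hx h2) (Subalgebra.mul_mem _ hy h1)
  · intro i hi g hg
    rcases Finset.mem_insert.mp hg with rfl | hg
    · have h1 : Algebra.adjoin K (G₁ : Set E)
          ≤ frAlg (Algebra.adjoin K (G : Set E)) (B i) (z i) :=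
        Algebra.adjoin_le fun x hx => hfr1 i hi x (Finset.mem_coe.mp hx)
      obtain ⟨f, s, hfs, w, hw, hsw⟩ := h1 hω
      refine ⟨s, f, ?_, w * ω⁻¹, Subalgebra.mul_mem _ hw hωinv, ?_⟩
      · rw [← hfs, ← mul_assoc, inv_mul_cancel₀ hω0, one_mul]
      · rw [← hfs]
        calc ω * evE (Algebra.adjoin K (G : Set E)) (B i) (z i) s * (w * ω⁻¹)
            = (ω * ω⁻¹) * (evE (Algebra.adjoin K (G : Set E)) (B i) (z i) s * w) := by ring
          _ = 1 := by rw [hsw, mul_inv_cancel₀ hω0, one_mul]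
    · exact hfr1 i hi g hg

end Pool.Agent.Helper15.Engine
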