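import Pool.Agent.Helper15.Engine3
import Pool.Agent.Helper15.Approx
import Pool.Agent.Helper15.Der

/-!
# Density
-/

namespace Pool.Agent.Helper15.Engine

open Filter Topology

section Gen

variable {K E : Type*} [Field K] [Field E] [Algebra K E]

/-- The smallest `E`-subspace of `Der_K(E)` closed under brackets that contains the `D i`. -/
inductive Gen {ι : Type*} (D : ι → Derivation K E E) : Derivation K E E → Prop
  | of (i : ι) : Gen D (D i)
  | zero : Gen D 0
  | add {D₁ D₂ : Derivation K E E} : Gen D D₁ → Gen D D₂ → Gen D (D₁ + D₂)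
  | smul (e : E) {D₁ : Derivation K E E} : Gen D D₁ → Gen D (e • D₁)
  | lie {D₁ D₂ : Derivation K E E} : Gen D D₁ → Gen D D₂ → Gen D ⁅D₁, D₂⁆

/-- A subset closed under addition and multiplication by `A`. -/
structure IsIdealLike (A : Subalgebra K E) (I : Set E) : Prop where
  sub : ∀ x ∈ I, x ∈ A
  zero : (0 : E) ∈ I
  add : ∀ x ∈ I, ∀ y ∈ I, x + y ∈ I
  mul : ∀ a ∈ A, ∀ x ∈ I, a * x ∈ I

theorem Gen.finite {ι : Type*} {D : ι → Derivation K E E} {D' : Derivation K E E}
    (h : Gen D D') : ∃ (F : Finset E) (J : Finset ι), ∀ (A : Subalgebra K E) (I : Set E),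
      IsIdealLike A I → (∀ e ∈ F, e ∈ A) → (∀ i ∈ J, ∀ a ∈ A, D i a ∈ A) →
      (∀ i ∈ J, ∀ x ∈ I, D i x ∈ I) → (∀ a ∈ A, D' a ∈ A) ∧ ∀ x ∈ I, D' x ∈ I := by
  classical
  induction h with
  | of i =>
    refine ⟨∅, {i}, fun A I _ _ hA hI => ⟨?_, ?_⟩⟩
    · exact hA i (Finset.mem_singleton_self _)
    · exact hI i (Finset.mem_singleton_self _)
  | zero =>
    refine ⟨∅, ∅, fun A I hid _ _ _ => ⟨?_, ?_⟩⟩
    · intro a _
      rw [Derivation.zero_apply]; exact A.zero_mem
    · intro a _
      rw [Derivation.zero_apply]; exact hid.zero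
  | add _ _ ih₁ ih₂ =>
    obtain ⟨F₁, J₁, h₁⟩ := ih₁
    obtain ⟨F₂, J₂, h₂⟩ := ih₂
    refine ⟨F₁ ∪ F₂, J₁ ∪ J₂, fun A I hid hF hA hI => ?_⟩
    obtain ⟨a1, b1⟩ := h₁ A I hid (fun e he => hF e (Finset.mem_union_left _ he))
      (fun i hi => hA i (Finset.mem_union_left _ hi)) (fun i hi => hI i (Finset.mem_union_left _ hi))
    obtain ⟨a2, b2⟩ := h₂ A I hid (fun e he => hF e (Finset.mem_union_right _ he))
      (fun i hi => hA i (Finset.mem_union_right _ hi))
      (fun i hi => hI i (Finset.mem_union_right _ hi))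
    refine ⟨fun a ha => ?_, fun x hx => ?_⟩
    · rw [Derivation.add_apply]; exact A.add_mem (a1 a ha) (a2 a ha)
    · rw [Derivation.add_apply]; exact hid.add _ (b1 x hx) _ (b2 x hx)
  | smul e _ ih =>
    obtain ⟨F₁, J₁, h₁⟩ := ih
    refine ⟨insert e F₁, J₁, fun A I hid hF hA hI => ?_⟩
    obtain ⟨a1, b1⟩ := h₁ A I hid (fun e he => hF e (Finset.mem_insert_of_mem he)) hA hI
    have he : e ∈ A := hF e (Finset.mem_insert_self _ _)
    refine ⟨fun a ha => ?_, fun x hx => ?_⟩
    · rw [Derivation.smul_apply, smul_eq_mul]; exact A.mul_mem he (a1 a ha)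
    · rw [Derivation.smul_apply, smul_eq_mul]; exact hid.mul e he _ (b1 x hx)
  | lie _ _ ih₁ ih₂ =>
    obtain ⟨F₁, J₁, h₁⟩ := ih₁
    obtain ⟨F₂, J₂, h₂⟩ := ih₂
    refine ⟨F₁ ∪ F₂, J₁ ∪ J₂, fun A I hid hF hA hI => ?_⟩
    obtain ⟨a1, b1⟩ := h₁ A I hid (fun e he => hF e (Finset.mem_union_left _ he))
      (fun i hi => hA i (Finset.mem_union_left _ hi)) (fun i hi => hI i (Finset.mem_union_left _ hi))
    obtain ⟨a2, b2⟩ := h₂ A I hid (fun e he => hF e (Finset.mem_union_right _ he))
      (fun i hi => hA i (Finset.mem_union_right _ hi))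
      (fun i hi => hI i (Finset.mem_union_right _ hi))
    refine ⟨fun a ha => ?_, fun x hx => ?_⟩
    · rw [Derivation.commutator_apply]
      exact A.sub_mem (a1 _ (a2 a ha)) (a2 _ (a1 a ha))
    · rw [Derivation.commutator_apply, sub_eq_add_neg]
      refine hid.add _ (b1 _ (b2 x hx)) _ ?_
      have := hid.mul (-1) (A.neg_mem A.one_mem) _ (b2 _ (b1 x hx))
      rwa [neg_one_mul] at this

end Gen

section Poly

variable {K E : Type*} [Field K] [CharZero K] [Field E] [Algebra K E]

/-- An ideal stable under derivations dual to independent elements `t`, containing a nonzero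
polynomial in `t`, contains a nonzero constant. -/
theorem exists_const {I : Set E}
    {t : Type*} (u : t → E) (dd : t → Derivation K E E) [DecidableEq t]
    (hdu : ∀ i j, dd i (u j) = if i = j then 1 else 0)
    (hI : ∀ i, ∀ x ∈ I, dd i x ∈ I) (p : MvPolynomial t K) (hp : p ≠ 0)
    (hpI : MvPolynomial.aeval u p ∈ I) : ∃ c : K, c ≠ 0 ∧ algebraMap K E c ∈ I := by
  classical
  -- derivatives
  have hder : ∀ (i : t) (q : MvPolynomial t K),
      dd i (MvPolynomial.aeval u q) = MvPolynomial.aeval u (MvPolynomial.pderiv i q) := by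
    intro i q
    induction q using MvPolynomial.induction_on with
    | C a => rw [MvPolynomial.aeval_C, (dd i).map_algebraMap, MvPolynomial.pderiv_C, map_zero]
    | add p q hp hq => rw [map_add, map_add, hp, hq, map_add, map_add]
    | mul_X p j hp =>
      rw [map_mul, (dd i).leibniz, hp, MvPolynomial.aeval_X, hdu, Derivation.leibniz, map_add,
        smul_eq_mul, smul_eq_mul, smul_eq_mul, smul_eq_mul, map_mul, map_mul, MvPolynomial.aeval_X]
      by_cases h : i = j
      · subst h
        rw [if_pos rfl, MvPolynomial.pderiv_X_self, map_one]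
      · rw [if_neg h, MvPolynomial.pderiv_X_of_ne (Ne.symm h), map_zero]
  -- a polynomial of minimal degree
  have hex : ∃ n : ℕ, ∃ q : MvPolynomial t K, q ≠ 0 ∧ MvPolynomial.aeval u q ∈ I ∧
      q.totalDegree = n := ⟨_, p, hp, hpI, rfl⟩
  obtain ⟨q, hq0, hqI, hqn⟩ := Nat.find_spec hex
  set n := Nat.find hex with hn
  have hmin : ∀ m < n, ¬ ∃ q : MvPolynomial t K, q ≠ 0 ∧ MvPolynomial.aeval u q ∈ I ∧
      q.totalDegree = m := fun m hm => Nat.find_min hex hm
  rcases Nat.eq_zero_or_pos n with h0 | hpos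
  · rw [h0] at hqn
    rw [MvPolynomial.totalDegree_eq_zero_iff_eq_C] at hqn
    refine ⟨MvPolynomial.coeff 0 q, ?_, ?_⟩
    · intro h
      rw [h, map_zero] at hqn
      exact hq0 hqn
    · rw [hqn, MvPolynomial.aeval_C] at hqI
      exact hqI
  · exfalso
    -- a monomial of top degree
    have hsup : q.support.Nonempty := by
      rw [Finset.nonempty_iff_ne_empty, Ne, MvPolynomial.support_eq_empty]
      exact hq0
    obtain ⟨m, hm, hmax⟩ := Finset.exists_mem_eq_sup q.support hsup fun s => s.sum fun _ e => e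
    have hmn : (m.sum fun _ e => e) = n := by
      rw [← hmax, ← hqn]; rfl
    obtain ⟨i, hi⟩ : ∃ i, m i ≠ 0 := by
      by_contra hcon
      push Not at hcon
      have : m = 0 := Finsupp.ext hcon
      rw [this, Finsupp.sum_zero_index] at hmn
      omega
    have hle : Finsupp.single i 1 ≤ m := by
      rw [Finsupp.single_le_iff]; omega
    have hne : MvPolynomial.pderiv i q ≠ 0 := by
      intro h
      have hc : MvPolynomial.coeff (m - Finsupp.single i 1) (MvPolynomial.pderiv i q) = 0 := by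
        rw [h]; simp
      rw [MvPolynomial.coeff_pderiv, tsub_add_cancel_of_le hle] at hc
      rcases mul_eq_zero.mp hc with h' | h'
      · exact (MvPolynomial.mem_support_iff.mp hm) h'
      · have : ((((m - Finsupp.single i 1 : t →₀ ℕ) i + 1 : ℕ)) : K) = 0 := by
          push_cast; exact h'
        rw [Nat.cast_eq_zero] at this
        omega
    have hdeg : (MvPolynomial.pderiv i q).totalDegree < n := by
      rw [MvPolynomial.totalDegree, Finset.sup_lt_iff (by exact hpos)]
      intro m' hm'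
      have hm'' : m' + Finsupp.single i 1 ∈ q.support := by
        rw [MvPolynomial.mem_support_iff, MvPolynomial.coeff_pderiv] at hm'
        rw [MvPolynomial.mem_support_iff]
        exact left_ne_zero_of_mul hm'
      have h1 := MvPolynomial.le_totalDegree hm''
      rw [hqn, Finsupp.sum_add_index' (fun _ => rfl) (fun _ _ _ => rfl),
        Finsupp.sum_single_index rfl] at h1
      omega
    refine hmin _ hdeg ⟨MvPolynomial.pderiv i q, hne, ?_, rfl⟩
    rw [← hder]
    exact hI i _ hqI

end Poly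

end Pool.Agent.Helper15.Engine
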