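import Pool.Agent.Helper15.Engine4

/-!
# The density theorem for fibrations with many points near a generic point
-/

namespace Pool.Agent.Helper15.Engine

open Filter Topology

theorem density {K E : Type*} [Field K] [CharZero K] [Field E] [Algebra K E]
    [Algebra K (PadicAlgCl 2)] (τ : E →ₐ[K] PadicAlgCl 2)
    (G₀ : Finset E) (hG₀ : IntermediateField.adjoin K (G₀ : Set E) = ⊤)
    {ι : Type*} (B : ι → IntermediateField K E) (D : ι → Derivation K E E)
    (hS : ∀ i, Supply τ (B i) (D i)) (hgen : ∀ D', Gen D D') (A₀ : Finset E) :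
    ∃ L : IntermediateField K (PadicAlgCl 2), FiniteDimensional K L ∧
      ∀ h : Algebra.adjoin K (A₀ : Set E),
        (∀ φ : Algebra.adjoin K (A₀ : Set E) →ₐ[K] L, φ h = 0) → h = 0 := by
  classical
  obtain ⟨t, htf, -, -, ht, -⟩ := Pres.exists_presentation K E G₀ hG₀
  cases nonempty_fintype t
  -- the dual derivations
  have hdd : ∀ l : t, ∃ d : Derivation K E E, ∀ j : t, d j = if l = j then 1 else 0 := fun l =>
    Der.exists_derivation ((↑) : t → E) ht.1 (fun j => if l = j then 1 else 0)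
  choose dd hdd using hdd
  have hfin := fun l : t => (hgen (dd l)).finite
  choose F J hFJ using hfin
  have hB := fun i => (hS i).1
  have hsup := fun i => (hS i).2
  choose r z F₀ htop hsup using hsup
  let JJ : Finset ι := Finset.univ.biUnion J
  let G₂ : Finset E := G₀ ∪ A₀ ∪ Finset.univ.image ((↑) : t → E) ∪ Finset.univ.biUnion F
    ∪ JJ.biUnion F₀
  have hG₂top : IntermediateField.adjoin K (G₂ : Set E) = ⊤ := by
    rw [eq_top_iff, ← hG₀]
    refine IntermediateField.adjoin.mono K _ _ ?_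
    intro x hx
    rw [Finset.mem_coe] at hx ⊢
    simp only [G₂, Finset.mem_union]
    tauto
  obtain ⟨G, hG₂G, hzA, hDA, hfr⟩ := exists_good JJ B D r z htop G₂ hG₂top
  set A := Algebra.adjoin K (G : Set E) with hA
  have hGA : ∀ g ∈ G, g ∈ A := fun g hg => Algebra.subset_adjoin (Finset.mem_coe.mpr hg)
  have hGtop : IntermediateField.adjoin K (G : Set E) = ⊤ := by
    rw [eq_top_iff, ← hG₂top]
    refine IntermediateField.adjoin.mono K _ _ ?_
    exact_mod_cast hG₂G
  obtain ⟨φ₀, hφ₀alg, hφ₀⟩ := Approx.exists_specialization τ G hGtop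
  -- the number field
  let L : IntermediateField K (PadicAlgCl 2) :=
    IntermediateField.adjoin K (Set.range fun g : G => φ₀ ⟨g, hGA g g.2⟩)
  have hLfin : FiniteDimensional K L := by
    refine IntermediateField.finiteDimensional_adjoin ?_
    rintro _ ⟨g, rfl⟩
    exact (hφ₀alg _).isIntegral
  have hφ₀L : ∀ a, φ₀ a ∈ L := by
    rintro ⟨a, ha⟩
    have key : ∀ (x : E) (hx : x ∈ Algebra.adjoin K (G : Set E)), φ₀ ⟨x, hx⟩ ∈ L := by
      intro x hx
      induction hx using Algebra.adjoin_induction with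
      | mem x hx => exact IntermediateField.subset_adjoin _ _ ⟨⟨x, Finset.mem_coe.mp hx⟩, rfl⟩
      | algebraMap r =>
        have : φ₀ ⟨algebraMap K E r, Subalgebra.algebraMap_mem _ r⟩
            = algebraMap K (PadicAlgCl 2) r := φ₀.commutes r
        rw [this]
        exact L.algebraMap_mem r
      | add x y hx hy h1 h2 =>
        have : φ₀ ⟨x + y, Subalgebra.add_mem _ hx hy⟩ = φ₀ ⟨x, hx⟩ + φ₀ ⟨y, hy⟩ := by
          rw [← map_add]; rfl
        rw [this]
        exact L.add_mem h1 h2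
      | mul x y hx hy h1 h2 =>
        have : φ₀ ⟨x * y, Subalgebra.mul_mem _ hx hy⟩ = φ₀ ⟨x, hx⟩ * φ₀ ⟨y, hy⟩ := by
          rw [← map_mul]; rfl
        rw [this]
        exact L.mul_mem h1 h2
    exact key a ha
  have hφ₀near : φ₀ ∈ Near τ A G L := ⟨hφ₀L, hφ₀⟩
  -- the ideal
  set I := Killed τ A G L with hI
  have hid : IsIdealLike A I := by
    refine ⟨?_, ?_, ?_, ?_⟩
    · rintro x ⟨hx, -⟩; exact hx
    · refine ⟨A.zero_mem, fun φ _ => ?_⟩
      exact map_zero φ
    · rintro x ⟨hx, h1⟩ y ⟨hy, h2⟩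
      refine ⟨A.add_mem hx hy, fun φ hφ => ?_⟩
      have : φ ⟨x + y, A.add_mem hx hy⟩ = φ ⟨x, hx⟩ + φ ⟨y, hy⟩ := by
        rw [← map_add]; rfl
      rw [this, h1 φ hφ, h2 φ hφ, add_zero]
    · rintro a ha x ⟨hx, h1⟩
      refine ⟨A.mul_mem ha hx, fun φ hφ => ?_⟩
      have : φ ⟨a * x, A.mul_mem ha hx⟩ = φ ⟨a, ha⟩ * φ ⟨x, hx⟩ := by
        rw [← map_mul]; rfl
      rw [this, h1 φ hφ, mul_zero]
  have hJJ : ∀ l, J l ⊆ JJ := fun l => Finset.subset_biUnion_of_mem J (Finset.mem_univ l)
  have hIst : ∀ i ∈ JJ, ∀ x ∈ I, D i x ∈ I := by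
    intro i hi x hx
    refine stable τ (B i) (D i) (hB i) (r i) (z i) (F₀ i) (hsup i) G A rfl ?_ (hzA i hi)
      (hDA i hi) (hfr i hi) L x hx
    intro g hg
    apply hG₂G
    simp only [G₂, Finset.mem_union]
    right
    exact Finset.mem_biUnion.mpr ⟨i, hi, hg⟩
  have hdI : ∀ l, ∀ x ∈ I, dd l x ∈ I := by
    intro l
    refine (hFJ l A I hid ?_ (fun i hi => hDA i (hJJ l hi)) (fun i hi => hIst i (hJJ l hi))).2
    intro e he
    apply hGA
    apply hG₂G
    simp only [G₂, Finset.mem_union]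
    left; right
    exact Finset.mem_biUnion.mpr ⟨l, Finset.mem_univ l, he⟩
  refine ⟨L, hLfin, fun h hh => ?_⟩
  have hA₀A : Algebra.adjoin K (A₀ : Set E) ≤ A := by
    refine Algebra.adjoin_le fun x hx => hGA x (hG₂G ?_)
    simp only [G₂, Finset.mem_union]
    left; left; left; right
    exact Finset.mem_coe.mp hx
  have hhI : (h : E) ∈ I := by
    refine ⟨hA₀A h.2, fun φ hφ => ?_⟩
    let ψ : Algebra.adjoin K (A₀ : Set E) →ₐ[K] L :=
      (φ.comp (Subalgebra.inclusion hA₀A)).codRestrict L.toSubalgebra (fun a => hφ.1 _)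
    have h1 := congrArg (fun y : L => (y : PadicAlgCl 2)) (hh ψ)
    exact h1
  by_contra hne
  have hne' : (h : E) ≠ 0 := fun h0 => hne (Subtype.ext h0)
  -- a nonzero polynomial in the transcendence basis
  have halg := ht.isAlgebraic
  obtain ⟨q, hq0, hq⟩ := (halg.isAlgebraic (h : E)).exists_nonzero_coeff_and_aeval_eq_zero
    (mem_nonZeroDivisors_of_ne_zero hne')
  have htA : Algebra.adjoin K (Set.range ((↑) : t → E)) ≤ A := by
    refine Algebra.adjoin_le ?_
    rintro _ ⟨j, rfl⟩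
    apply hGA
    apply hG₂G
    simp only [G₂, Finset.mem_union]
    left; left; right
    exact Finset.mem_image_of_mem _ (Finset.mem_univ j)
  have hqI : ((q.coeff 0 : Algebra.adjoin K (Set.range ((↑) : t → E))) : E) ∈ I := by
    have h1 : Polynomial.aeval (h : E) q = Polynomial.aeval (h : E) q.divX * h
        + ((q.coeff 0 : Algebra.adjoin K (Set.range ((↑) : t → E))) : E) := by
      conv_lhs => rw [← Polynomial.divX_mul_X_add q]
      rw [map_add, map_mul, Polynomial.aeval_X, Polynomial.aeval_C]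
      rfl
    have h2 : ((q.coeff 0 : Algebra.adjoin K (Set.range ((↑) : t → E))) : E)
        = (- Polynomial.aeval (h : E) q.divX) * h := by
      rw [hq] at h1
      linear_combination -h1
    rw [h2]
    refine hid.mul _ (A.neg_mem ?_) _ hhI
    rw [Polynomial.aeval_eq_sum_range]
    refine Subalgebra.sum_mem _ fun k _ => ?_
    rw [Algebra.smul_def]
    exact A.mul_mem (htA (SetLike.coe_mem _)) (A.pow_mem (hA₀A h.2) k)
  let p : MvPolynomial t K := ht.1.aevalEquiv.symm (q.coeff 0)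
  have hp : MvPolynomial.aeval ((↑) : t → E) p
      = ((q.coeff 0 : Algebra.adjoin K (Set.range ((↑) : t → E))) : E) := by
    have := ht.1.algebraMap_aevalEquiv p
    rw [AlgEquiv.apply_symm_apply] at this
    exact this.symm
  have hp0 : p ≠ 0 := by
    intro h0
    have : q.coeff 0 = 0 := by
      have h1 := congrArg ht.1.aevalEquiv h0
      rw [AlgEquiv.apply_symm_apply, map_zero] at h1
      exact h1
    exact hq0 this
  obtain ⟨c, hc0, ⟨hcA, hck⟩⟩ := exists_const ((↑) : t → E) dd hdd hdI p hp0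
    (by rw [hp]; exact hqI)
  have h1 := hck φ₀ hφ₀near
  have h2 : φ₀ ⟨algebraMap K E c, hcA⟩ = algebraMap K (PadicAlgCl 2) c := φ₀.commutes c
  rw [h2] at h1
  exact hc0 ((map_eq_zero _).mp h1)

end Pool.Agent.Helper15.Engine
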