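import Pool.Agent.Helper15.LemR4

/-!
# Bracket generation from the absence of common rational functions
-/

namespace Pool.Agent.Helper15.Final

open Polynomial Curve Engine LemR

/-- A derivation kills every element of its kernel field and is linear over subfields of it. -/
noncomputable def liftDer {K E : Type*} [Field K] [Field E] [Algebra K E]
    (k : IntermediateField K E) (D : Derivation K E E) (h : ∀ c ∈ k, D c = 0) :
    Derivation k E E :=
  Derivation.mk'
    { toFun := D
      map_add' := map_add D
      map_smul' := by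
        intro c e
        rw [Algebra.smul_def, D.leibniz]
        have : D (algebraMap k E c) = 0 := h _ c.2
        rw [this, smul_zero, add_zero]
        rfl }
    (by
      intro a b
      exact D.leibniz a b)

theorem liftDer_apply {K E : Type*} [Field K] [Field E] [Algebra K E]
    (k : IntermediateField K E) (D : Derivation K E E) (h : ∀ c ∈ k, D c = 0) (e : E) :
    liftDer k D h e = D e := rfl

theorem der_eq_zero_of_isAlgebraic {K E : Type*} [Field K] [CharZero K] [Field E] [Algebra K E]
    (D : Derivation K E E) (c : E) (hc : IsAlgebraic K c) : D c = 0 := by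
  have hint : IsIntegral K c := hc.isIntegral
  have hsep : (minpoly K c).Separable := (minpoly.irreducible hint).separable
  have h1 : D (aeval c (minpoly K c)) = aeval c (derivative (minpoly K c)) • D c :=
    D.map_aeval _ _
  rw [minpoly.aeval, map_zero, smul_eq_mul] at h1
  rcases mul_eq_zero.mp h1.symm with h2 | h2
  · exact absurd h2 (hsep.aeval_derivative_ne_zero (minpoly.aeval K c))
  · exact h2

/-- Change of the ground field. -/
theorem isQuartic_of_mem_iff {K K' E : Type*} [Field K] [Field K'] [Field E] [Algebra K E]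
    [Algebra K' E] (B : IntermediateField K E) (B' : IntermediateField K' E)
    (hBB' : ∀ e, e ∈ B ↔ e ∈ B') {x y : E} {q : Polynomial B} (h : IsQuartic B x y q) :
    ∃ q' : Polynomial B', IsQuartic B' x y q' := by
  let ρ : B →+* B' := (algebraMap B E).codRestrict B'.toSubring (fun b => (hBB' _).mp b.2)
  let ρ' : B' →+* B := (algebraMap B' E).codRestrict B.toSubring (fun b => (hBB' _).mpr b.2)
  have hρ : (algebraMap B' E).comp ρ = algebraMap B E := RingHom.ext fun _ => rfl
  have hρ' : (algebraMap B E).comp ρ' = algebraMap B' E := RingHom.ext fun _ => rfl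
  refine ⟨q.map ρ, ?_, h.sep.map, ?_, ?_, ?_, ?_⟩
  · rintro ⟨f, hf, hfx⟩
    have h1 : f.map ρ' = 0 := by
      apply h.transc'
      rw [eval₂_map, hρ']
      exact hfx
    exact hf ((Polynomial.map_eq_zero ρ').mp h1)
  · rw [natDegree_map]; exact h.one_le
  · rw [natDegree_map]; exact h.le_four
  · rw [h.eqn', aeval_def, eval₂_map, hρ]
  · rw [eq_top_iff]
    intro e _
    have he : e ∈ IntermediateField.adjoin B {x, y} := by rw [h.top]; exact IntermediateField.mem_top
    induction he using IntermediateField.adjoin_induction with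
    | mem z hz => exact IntermediateField.subset_adjoin _ _ hz
    | algebraMap b =>
      exact IntermediateField.algebraMap_mem _ (⟨b, (hBB' _).mp b.2⟩ : B')
    | add z w _ _ hz hw => exact add_mem (hz IntermediateField.mem_top) (hw IntermediateField.mem_top)
    | inv z _ hz => exact inv_mem (hz IntermediateField.mem_top)
    | mul z w _ _ hz hw => exact mul_mem (hz IntermediateField.mem_top) (hw IntermediateField.mem_top)

universe u

theorem gen_restrict {K : Type*} {E : Type*} [Field K] [Field E] [Algebra K E]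
    (k : IntermediateField K E) {ι : Type*} (D : ι → Derivation K E E)
    (D₁ : ι → Derivation k E E) (hD : ∀ i e, D₁ i e = D i e) (Δ : Derivation k E E)
    (h : Gen D₁ Δ) : ∀ Δ' : Derivation K E E, (∀ e, Δ e = Δ' e) → Gen D Δ' := by
  induction h with
  | of i =>
    intro Δ' hΔ
    have : Δ' = D i := Derivation.ext fun e => by rw [← hΔ, hD]
    rw [this]; exact Gen.of i
  | zero =>
    intro Δ' hΔ
    have : Δ' = 0 := Derivation.ext fun e => by rw [← hΔ]; rfl
    rw [this]; exact Gen.zero
  | @add D₂ D₃ _ _ ih₁ ih₂ =>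
    intro Δ' hΔ
    have : Δ' = D₂.restrictScalars K + D₃.restrictScalars K :=
      Derivation.ext fun e => by rw [← hΔ]; rfl
    rw [this]; exact (ih₁ _ fun e => rfl).add (ih₂ _ fun e => rfl)
  | @smul e D₂ _ ih =>
    intro Δ' hΔ
    have : Δ' = e • D₂.restrictScalars K :=
      Derivation.ext fun e => by rw [← hΔ]; rfl
    rw [this]; exact (ih _ fun e => rfl).smul e
  | @lie D₂ D₃ _ _ ih₁ ih₂ =>
    intro Δ' hΔ
    have : Δ' = ⁅D₂.restrictScalars K, D₃.restrictScalars K⁆ :=
      Derivation.ext fun e => by
        rw [← hΔ, Derivation.commutator_apply, Derivation.commutator_apply]; rfl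
    rw [this]; exact (ih₁ _ fun e => rfl).lie (ih₂ _ fun e => rfl)

theorem gen_all_quartic {K : Type*} {E : Type u} [Field K] [CharZero K] [Field E] [Algebra K E]
    [Algebra.EssFiniteType K E] [Countable E] {Ω : Type*} [Field Ω] [IsAlgClosed Ω]
    [Uncountable Ω] (τ : E →+* Ω)
    {ι : Type*} (B : ι → IntermediateField K E) (x y : ι → E) (q : ∀ i, Polynomial (B i))
    (h : ∀ i, IsQuartic (B i) (x i) (y i) (q i)) (D : ι → Derivation K E E)
    (hDx : ∀ i, D i (x i) = 1) (hDB : ∀ i e, D i e = 0 ↔ e ∈ B i)
    (hconst : ∀ e, (∀ i, e ∈ B i) → IsAlgebraic K e) (D' : Derivation K E E) : Gen D D' := by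
  let k : IntermediateField K E := ⨅ i, B i
  have hk : ∀ i, k ≤ B i := fun i => iInf_le B i
  have hmemk : ∀ e, e ∈ k ↔ ∀ i, e ∈ B i := fun e => by
    rw [← SetLike.mem_coe, IntermediateField.coe_iInf, Set.mem_iInter]
    exact Iff.rfl
  have hCk : CharZero k := charZero_of_injective_algebraMap (algebraMap K k).injective
  have hess : Algebra.EssFiniteType k E := Algebra.EssFiniteType.of_comp K k E
  let _ : Algebra k Ω := (τ.comp (algebraMap k E)).toAlgebra
  let σ₀ : E →ₐ[k] Ω := { τ with commutes' := fun c => rfl }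
  have hkD : ∀ Δ : Derivation K E E, ∀ c ∈ k, Δ c = 0 := fun Δ c hc =>
    der_eq_zero_of_isAlgebraic Δ c (hconst c ((hmemk c).mp hc))
  let B₁ : ι → IntermediateField k E := fun i => IntermediateField.extendScalars (hk i)
  let D₁ : ι → Derivation k E E := fun i => liftDer k (D i) (hkD (D i))
  have hB₁ : ∀ i e, e ∈ B i ↔ e ∈ B₁ i := fun i e => by
    rw [IntermediateField.mem_extendScalars]
  have hq : ∀ i, ∃ q' : Polynomial (B₁ i), IsQuartic (B₁ i) (x i) (y i) q' := fun i =>
    isQuartic_of_mem_iff (B i) (B₁ i) (hB₁ i) (h i)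
  choose q₁ hq₁ using hq
  have hDB₁ : ∀ i e, D₁ i e = 0 ↔ e ∈ B₁ i := fun i e => by
    rw [← hB₁, ← hDB]; exact Iff.rfl
  have hDx₁ : ∀ i, D₁ i (x i) = 1 := fun i => hDx i
  have key : Gen D₁ (liftDer k D' (hkD D')) := by
    refine gen_all D₁ B₁ hDB₁ x hDx₁ ?_ σ₀ ?_ ?_ _
    · intro i σ d hadd hmul hd hdx e
      exact (hq₁ i).derivation_eq_zero (σ : E →+* Ω) d hadd hmul (fun b => hd b b.2) hdx e
    · intro i σ
      exact genExt (hq₁ i) (D₁ i) (fun b hb => (hDB₁ i b).mpr hb) (hDx₁ i) σ₀ σ
    · intro e he
      have : e ∈ k := (hmemk e).mpr fun i => (hB₁ i e).mpr (he i)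
      exact ⟨⟨e, this⟩, rfl⟩
  exact gen_restrict k D D₁ (fun i e => rfl) _ key D' (fun e => rfl)

end Pool.Agent.Helper15.Final
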