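import Pool.Agent.Helper15.Large2
import Pool.Agent.Helper15.Engine1

/-!
# Supply of points on fibrations in curves of genus at most one with a bisection
-/

namespace Pool.Agent.Helper15.Curve

open Polynomial EC Filter Topology Engine

theorem taylor_map' {R S : Type*} [CommRing R] [CommRing S] (f : R →+* S) (p : Polynomial R)
    (r : R) : taylor (f r) (p.map f) = (taylor r p).map f := by
  ext i
  rw [taylor_coeff, hasseDeriv_map, eval_map, eval₂_at_apply, coeff_map, taylor_coeff]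

/-- A point with large abscissa is nonsingular. -/
theorem nonsingular_of_large {F : Type*} [NormedField F] [IsUltrametricDist F] (h2 : (2 : F) ≠ 0)
    {c p r : F} {C : ℝ} (hC : 1 ≤ C) (hc : ‖c‖ ≤ C) (hp : ‖p‖ ≤ C) (hr : ‖r‖ ≤ C) {X Y : F}
    (h : Y ^ 2 = X ^ 3 + c * X ^ 2 + p * X + r) (hX : C < ‖X‖) : (cub c p r).Nonsingular X Y := by
  have h1 := norm_y_sq hC hc hp hr h hX
  have hX0 : 0 < ‖X‖ := by linarith
  have hY : Y ≠ 0 := by
    rintro rfl
    rw [norm_zero, zero_pow two_ne_zero] at h1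
    have : 0 < ‖X‖ ^ 3 := by positivity
    linarith
  rw [WeierstrassCurve.Affine.nonsingular_iff]
  refine ⟨(cub_equation c p r X Y).mpr h, Or.inr ?_⟩
  intro h3
  simp only [cub, zero_mul, sub_zero] at h3
  have : 2 * Y = 0 := by linear_combination h3
  exact hY ((mul_eq_zero.mp this).resolve_left h2)

variable {K E : Type*} [Field K] [Field E] [Algebra K E] {B : IntermediateField K E}
    {x y : E} {q : Polynomial B}

theorem IsQuartic.supply [NumberField K] (h : IsQuartic B x y q)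
    [Algebra K (PadicAlgCl 2)] (τ : E →ₐ[K] PadicAlgCl 2) (G : Finset E)
    (hG : IntermediateField.adjoin K (G : Set E) = ⊤) (D : Derivation K E E)
    (hDx : D x = 1) (hDB : ∀ b ∈ B, D b = 0) (hDy : 2 * y * D y = aeval x (derivative q)) :
    Supply τ B D := by
  classical
  have hcz : CharZero E := charZero_of_injective_algebraMap (algebraMap K E).injective
  set d := (tay x q).coeff 1 with hd
  set c := (tay x q).coeff 2 with hc
  set b := (tay x q).coeff 3 with hb
  set a := (tay x q).coeff 4 with ha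
  obtain ⟨X, Y, hXY, hlarge⟩ := h.exists_large_point τ G hG
    (1 + ‖τ c‖ + ‖τ (jp y d b a)‖ + ‖τ (jr y d c b a)‖)
  set C := 1 + ‖τ c‖ + ‖τ (jp y d b a)‖ + ‖τ (jr y d c b a)‖ with hCdef
  have hn1 := norm_nonneg (τ c)
  have hn2 := norm_nonneg (τ (jp y d b a))
  have hn3 := norm_nonneg (τ (jr y d c b a))
  have hC1 : 1 ≤ C := by rw [hCdef]; linarith
  refine ⟨hDB, 2, ![x, y], {x, y, y⁻¹, X, Y, c, jp y d b a, jr y d c b a, D y} ∪
    q.support.image (fun i => ((q.coeff i : B) : E)), ?_, ?_⟩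
  · have hr : Set.range ![x, y] = {x, y} := by simp [Set.pair_comm y x]
    rw [hr]
    exact h.top
  intro A hFA L φ hφL hφF
  -- the elements of `A`
  have hxA : x ∈ A := hFA _ (by simp)
  have hyA : y ∈ A := hFA _ (by simp)
  have hyiA : y⁻¹ ∈ A := hFA _ (by simp)
  have hXA : X ∈ A := hFA _ (by simp)
  have hYA : Y ∈ A := hFA _ (by simp)
  have hcA : c ∈ A := hFA _ (by simp)
  have hpA : jp y d b a ∈ A := hFA _ (by simp)
  have hrA : jr y d c b a ∈ A := hFA _ (by simp)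
  have hqA : ∀ i, ((q.coeff i : B) : E) ∈ A := by
    intro i
    by_cases hi : i ∈ q.support
    · exact hFA _ (Finset.mem_union_right _ (Finset.mem_image_of_mem _ hi))
    · rw [notMem_support_iff.mp hi]
      exact A.zero_mem
  -- `q` over `A ∩ B`
  obtain ⟨q', hq'⟩ : ∃ q' : Polynomial (A ⊓ B.toSubalgebra : Subalgebra K E),
      q'.map (algebraMap _ E) = q.map (algebraMap B E) := by
    refine ⟨∑ i ∈ q.support, monomial i ⟨((q.coeff i : B) : E), hqA i, (q.coeff i).2⟩, ?_⟩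
    rw [Polynomial.map_sum]
    conv_rhs => rw [q.as_sum_support, Polynomial.map_sum]
    refine Finset.sum_congr rfl fun i _ => ?_
    rw [map_monomial, map_monomial]
    rfl
  let incl : (A ⊓ B.toSubalgebra : Subalgebra K E) →+* A :=
    (Subalgebra.inclusion (inf_le_left : A ⊓ B.toSubalgebra ≤ A) : _ →+* A)
  let coeA : A →+* E := algebraMap A E
  let qA : Polynomial A := q'.map incl
  have hqAE : qA.map coeA = q.map (algebraMap B E) := by
    rw [← hq', Polynomial.map_map]; rfl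
  let TA : Polynomial A := taylor (⟨x, hxA⟩ : A) qA
  have hTA : TA.map coeA = tay x q := by
    show (taylor (⟨x, hxA⟩ : A) qA).map coeA = _
    rw [← taylor_map' coeA, hqAE]; rfl
  have hTAc : ∀ i, ((TA.coeff i : A) : E) = (tay x q).coeff i := by
    intro i
    rw [← hTA, coeff_map]; rfl
  have hinjA : Function.Injective coeA := Subtype.val_injective
  have hTAdeg : TA.natDegree ≤ 4 := by
    rw [← natDegree_map_eq_of_injective hinjA TA, hTA, tay_natDegree]
    exact h.le_four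
  -- the specialised quantities in `L`
  let φL : A →+* L := (φ : A →+* PadicAlgCl 2).codRestrict L hφL
  have hφLc : ∀ a : A, ((φL a : L) : PadicAlgCl 2) = φ a := fun a => rfl
  have hnear : ∀ (e : E) (he : e ∈ A), e ∈ ({x, y, y⁻¹, X, Y, c, jp y d b a, jr y d c b a, D y} ∪
      q.support.image (fun i => ((q.coeff i : B) : E)) : Finset E) → ‖φ ⟨e, he⟩ - τ e‖ < 1 :=
    fun e he heF => hφF ⟨e, he⟩ heF
  let y0 : L := φL ⟨y, hyA⟩
  let d0 : L := φL (TA.coeff 1)
  let c0 : L := φL (TA.coeff 2)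
  let b0 : L := φL (TA.coeff 3)
  let a0 : L := φL (TA.coeff 4)
  have hy0 : y0 ≠ 0 := by
    intro h0
    have h1 : (⟨y, hyA⟩ : A) * ⟨y⁻¹, hyiA⟩ = 1 := Subtype.ext (mul_inv_cancel₀ h.y_ne_zero)
    have h2 := congrArg φL h1
    rw [map_mul, map_one] at h2
    have h3 : φL ⟨y, hyA⟩ = 0 := h0
    rw [h3, zero_mul] at h2
    exact zero_ne_one h2
  have hc0 : (c0 : PadicAlgCl 2) = φ ⟨c, hcA⟩ := by
    show φ (TA.coeff 2) = _
    congr 1
    exact Subtype.ext (hTAc 2)
  have hp0 : ((jp y0 d0 b0 a0 : L) : PadicAlgCl 2) = φ ⟨jp y d b a, hpA⟩ := by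
    have h1 : (⟨jp y d b a, hpA⟩ : A) = jp ⟨y, hyA⟩ (TA.coeff 1) (TA.coeff 3) (TA.coeff 4) := by
      apply Subtype.ext
      unfold jp
      push_cast
      rw [hTAc, hTAc, hTAc]; rfl
    have h2 : φL (jp ⟨y, hyA⟩ (TA.coeff 1) (TA.coeff 3) (TA.coeff 4)) = jp y0 d0 b0 a0 := by
      unfold jp
      rw [map_sub, map_mul, map_mul, map_mul, map_pow, map_ofNat]
    rw [← h2, hφLc, ← h1]
  have hr0 : ((jr y0 d0 c0 b0 a0 : L) : PadicAlgCl 2) = φ ⟨jr y d c b a, hrA⟩ := by
    have h1 : (⟨jr y d c b a, hrA⟩ : A)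
        = jr ⟨y, hyA⟩ (TA.coeff 1) (TA.coeff 2) (TA.coeff 3) (TA.coeff 4) := by
      apply Subtype.ext
      unfold jr
      push_cast
      rw [hTAc, hTAc, hTAc, hTAc]; rfl
    have h2 : φL (jr ⟨y, hyA⟩ (TA.coeff 1) (TA.coeff 2) (TA.coeff 3) (TA.coeff 4))
        = jr y0 d0 c0 b0 a0 := by
      unfold jr
      simp only [map_sub, map_add, map_mul, map_pow, map_ofNat]
      rfl
    rw [← h2, hφLc, ← h1]
  have hle : ∀ (e : E) (he : e ∈ A), ‖φ ⟨e, he⟩ - τ e‖ < 1 → ‖φ ⟨e, he⟩‖ ≤ 1 + ‖τ e‖ := by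
    intro e he h1
    have := norm_add_le (φ ⟨e, he⟩ - τ e) (τ e)
    rw [sub_add_cancel] at this
    linarith
  have hcC : ‖c0‖ ≤ C := by
    have h1 : ‖c0‖ = ‖φ ⟨c, hcA⟩‖ := by rw [← hc0]; rfl
    rw [h1]
    have := hle c hcA (hnear c hcA (by simp))
    rw [hCdef]; linarith
  have hpC : ‖jp y0 d0 b0 a0‖ ≤ C := by
    have h1 : ‖jp y0 d0 b0 a0‖ = ‖φ ⟨jp y d b a, hpA⟩‖ := by rw [← hp0]; rfl
    rw [h1]
    have := hle _ hpA (hnear _ hpA (by simp))
    rw [hCdef]; linarith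
  have hrC : ‖jr y0 d0 c0 b0 a0‖ ≤ C := by
    have h1 : ‖jr y0 d0 c0 b0 a0‖ = ‖φ ⟨jr y d c b a, hrA⟩‖ := by rw [← hr0]; rfl
    rw [h1]
    have := hle _ hrA (hnear _ hrA (by simp))
    rw [hCdef]; linarith
  let X0 : L := φL ⟨X, hXA⟩
  let Y0 : L := φL ⟨Y, hYA⟩
  have hX0 : C < ‖X0‖ := by
    have h1 : ‖X0‖ = ‖φ ⟨X, hXA⟩‖ := rfl
    have h2 : φ ⟨X, hXA⟩ = τ X + (φ ⟨X, hXA⟩ - τ X) := by ring
    rw [h1, h2, norm_add_of_lt]
    · exact hlarge
    · exact lt_trans (hnear X hXA (by simp)) (lt_of_le_of_lt hC1 hlarge)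
  have heqn0 : Y0 ^ 2 = X0 ^ 3 + c0 * X0 ^ 2 + jp y0 d0 b0 a0 * X0 + jr y0 d0 c0 b0 a0 := by
    have h1 : (⟨Y, hYA⟩ : A) ^ 2 = ⟨X, hXA⟩ ^ 3 + ⟨c, hcA⟩ * ⟨X, hXA⟩ ^ 2
        + ⟨jp y d b a, hpA⟩ * ⟨X, hXA⟩ + ⟨jr y d c b a, hrA⟩ := Subtype.ext hXY
    have h2 := congrArg φL h1
    rw [map_pow, map_add, map_add, map_add, map_mul, map_mul, map_pow, map_pow] at h2
    have e1 : φL ⟨c, hcA⟩ = c0 := Subtype.ext hc0.symm
    have e2 : φL ⟨jp y d b a, hpA⟩ = jp y0 d0 b0 a0 := Subtype.ext hp0.symm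
    have e3 : φL ⟨jr y d c b a, hrA⟩ = jr y0 d0 c0 b0 a0 := Subtype.ext hr0.symm
    rw [e1, e2, e3] at h2
    exact h2
  have h2L : (2 : L) ≠ 0 := two_ne_zero
  have h2lt : ‖(2 : L)‖ < 1 := norm_two_lt
  have hns := nonsingular_of_large h2L hC1 hcC hpC hrC heqn0 hX0
  let P : (cub c0 (jp y0 d0 b0 a0) (jr y0 d0 c0 b0 a0)).Point :=
    WeierstrassCurve.Affine.Point.some X0 Y0 hns
  have hP : IsAt c0 (jp y0 d0 b0 a0) (jr y0 d0 c0 b0 a0) P X0 Y0 := ⟨_, rfl⟩
  have hpts := fun k : ℕ => quartic_points h2L h2lt y0 d0 c0 b0 a0 hy0 hC1 hcC hpC hrC P X0 Y0 hP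
    hX0 (1 / (k + 1 : ℝ)) (by positivity)
  have hex : ∀ k : ℕ, ∃ s w : L, s ≠ 0 ∧
      w ^ 2 = y0 ^ 2 + d0 * s + c0 * s ^ 2 + b0 * s ^ 3 + a0 * s ^ 4 ∧
      ‖s‖ < 1 / (k + 1 : ℝ) ∧ ‖w - y0‖ < 1 / (k + 1 : ℝ) := by
    intro k
    obtain ⟨s, hs, hs0⟩ := ((hpts k).sdiff (Set.finite_singleton (0 : L))).nonempty
    obtain ⟨w, h1, h2, h3⟩ := hs
    exact ⟨s, w, fun h0 => hs0 h0, h1, h2, h3⟩
  choose s w hs0 hw hs hwy using hex
  have hlim0 : Tendsto (fun n : ℕ => 1 / (n + 1 : ℝ)) atTop (𝓝 0) :=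
    tendsto_one_div_add_atTop_nhds_zero_nat
  have hslim : Tendsto (fun k => ((s k : L) : PadicAlgCl 2)) atTop (𝓝 0) := by
    rw [tendsto_zero_iff_norm_tendsto_zero]
    exact squeeze_zero (fun n => norm_nonneg _) (fun n => (hs n).le) hlim0
  have hwlim : Tendsto (fun k => ((w k : L) : PadicAlgCl 2)) atTop (𝓝 (y0 : PadicAlgCl 2)) := by
    rw [tendsto_iff_norm_sub_tendsto_zero]
    exact squeeze_zero (fun n => norm_nonneg _) (fun n => (hwy n).le) hlim0
  refine ⟨fun k => ![(φL ⟨x, hxA⟩ + s k : L), (w k : L)], fun k => (s k : L), ?_, ?_, ?_, ?_⟩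
  · intro k j
    fin_cases j
    · exact (φL ⟨x, hxA⟩ + s k : L).2
    · exact (w k).2
  · intro k h0
    exact hs0 k (Subtype.ext h0)
  · intro j e f he hf
    fin_cases j
    · have he' : e = ⟨x, hxA⟩ := Subtype.ext he
      have hf' : f = 1 := Subtype.ext (by
        have : (f : E) = D x := hf
        rw [this, hDx]; rfl)
      subst he'
      rw [hf', map_one]
      constructor
      · show Tendsto (fun k => (((φL ⟨x, hxA⟩ + s k : L)) : PadicAlgCl 2)) atTop
          (𝓝 (φ ⟨x, hxA⟩))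
        have h1 := (tendsto_const_nhds (x := φ ⟨x, hxA⟩)).add hslim
        rw [add_zero] at h1
        exact h1
      · show Tendsto (fun k => ((((φL ⟨x, hxA⟩ + s k : L)) : PadicAlgCl 2) - φ ⟨x, hxA⟩)
          / (s k : L)) atTop (𝓝 1)
        refine tendsto_const_nhds.congr fun k => ?_
        have h1 : (((φL ⟨x, hxA⟩ + s k : L)) : PadicAlgCl 2) - φ ⟨x, hxA⟩ = (s k : L) := by
          show φ ⟨x, hxA⟩ + (s k : PadicAlgCl 2) - φ ⟨x, hxA⟩ = _
          ring
        rw [h1, div_self]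
        intro h0
        exact hs0 k (Subtype.ext h0)
    · have he' : e = ⟨y, hyA⟩ := Subtype.ext he
      subst he'
      constructor
      · exact hwlim
      · show Tendsto (fun k => (((w k : L) : PadicAlgCl 2) - φ ⟨y, hyA⟩) / (s k : L)) atTop
          (𝓝 (φ f))
        -- the value of `φ` at `D y`
        have hyy : (y0 : PadicAlgCl 2) = φ ⟨y, hyA⟩ := rfl
        have hy0' : (y0 : PadicAlgCl 2) ≠ 0 := fun h0 => hy0 (Subtype.ext h0)
        have hfy : 2 * (y0 : PadicAlgCl 2) * φ f = d0 := by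
          have h1 : 2 * (⟨y, hyA⟩ : A) * f = TA.coeff 1 := by
            apply Subtype.ext
            have h2 : (f : E) = D y := hf
            show 2 * y * (f : E) = (TA.coeff 1 : E)
            rw [h2, hDy, hTAc]
            unfold tay
            rw [taylor_coeff_one, derivative_map, eval_map]
            rfl
          have h2 := congrArg φ h1
          rw [map_mul, map_mul, map_ofNat] at h2
          exact h2
        have hlimit : Tendsto (fun k => (d0 + c0 * (s k : PadicAlgCl 2)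
            + b0 * (s k : PadicAlgCl 2) ^ 2 + a0 * (s k : PadicAlgCl 2) ^ 3)
            / ((w k : PadicAlgCl 2) + y0)) atTop (𝓝 (φ f)) := by
          have h1 : Tendsto (fun k => (d0 + c0 * (s k : PadicAlgCl 2)
            + b0 * (s k : PadicAlgCl 2) ^ 2 + a0 * (s k : PadicAlgCl 2) ^ 3)) atTop
              (𝓝 (d0 + c0 * 0 + b0 * 0 ^ 2 + a0 * 0 ^ 3)) :=
            (((tendsto_const_nhds).add (hslim.const_mul _)).add
              ((hslim.pow 2).const_mul _)).add ((hslim.pow 3).const_mul _)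
          have h2 : Tendsto (fun k => ((w k : PadicAlgCl 2) + y0)) atTop (𝓝 (y0 + y0)) :=
            hwlim.add_const _
          have h3 : (y0 : PadicAlgCl 2) + y0 ≠ 0 := by
            rw [← two_mul]
            exact mul_ne_zero two_ne_zero hy0'
          have h4 := h1.div h2 h3
          have h5 : ((d0 : PadicAlgCl 2) + c0 * 0 + b0 * 0 ^ 2 + a0 * 0 ^ 3) / (y0 + y0) = φ f := by
            rw [div_eq_iff h3]
            linear_combination -hfy
          rw [h5] at h4
          exact h4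
        have hne : ∀ᶠ k in atTop, ((w k : PadicAlgCl 2) + y0) ≠ 0 := by
          have h2 : Tendsto (fun k => ((w k : PadicAlgCl 2) + y0)) atTop (𝓝 (y0 + y0)) :=
            hwlim.add_const _
          refine h2.eventually_ne ?_
          rw [← two_mul]
          exact mul_ne_zero two_ne_zero hy0'
        refine hlimit.congr' ?_
        filter_upwards [hne] with k hk
        have hsk : ((s k : L) : PadicAlgCl 2) ≠ 0 := fun h0 => hs0 k (Subtype.ext h0)
        have h1 := congrArg (fun t : L => (t : PadicAlgCl 2)) (hw k)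
        have h2 : ((w k : PadicAlgCl 2)) ^ 2 = (y0 : PadicAlgCl 2) ^ 2
            + d0 * (s k : PadicAlgCl 2) + c0 * (s k : PadicAlgCl 2) ^ 2
            + b0 * (s k : PadicAlgCl 2) ^ 3 + a0 * (s k : PadicAlgCl 2) ^ 4 := h1
        rw [← hyy, div_eq_div_iff hk hsk]
        linear_combination -h2
  · intro k f hf
    -- the moved point lies on the specialised curve
    let ψ : (A ⊓ B.toSubalgebra : Subalgebra K E) →+* PadicAlgCl 2 := (φ : A →+* PadicAlgCl 2).comp incl
    have hcurve : ((w k : L) : PadicAlgCl 2) ^ 2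
        = q'.eval₂ ψ (((φL ⟨x, hxA⟩ + s k : L)) : PadicAlgCl 2) := by
      have h1 : q'.eval₂ ψ (((φL ⟨x, hxA⟩ + s k : L)) : PadicAlgCl 2)
          = ((qA.map (φ : A →+* PadicAlgCl 2))).eval (φ ⟨x, hxA⟩ + s k) := by
        rw [eval_map, eval₂_map]
        rfl
      rw [h1]
      have h2 : ((qA.map (φ : A →+* PadicAlgCl 2))).eval (φ ⟨x, hxA⟩ + s k)
          = (taylor (φ ⟨x, hxA⟩) (qA.map (φ : A →+* PadicAlgCl 2))).eval (s k : PadicAlgCl 2) := by
        rw [taylor_eval, add_comm]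
      rw [h2]
      have h3 : taylor (φ ⟨x, hxA⟩) (qA.map (φ : A →+* PadicAlgCl 2))
          = TA.map (φ : A →+* PadicAlgCl 2) := taylor_map' (φ : A →+* PadicAlgCl 2) qA ⟨x, hxA⟩
      rw [h3, eval_eq_sum_range' (n := 5) (lt_of_le_of_lt (natDegree_map_le) (by omega))]
      simp only [Finset.sum_range_succ, Finset.sum_range_zero, zero_add, coeff_map, pow_zero,
        mul_one, pow_one]
      have h4 : φ (TA.coeff 0) = (y0 : PadicAlgCl 2) ^ 2 := by
        have h5 : TA.coeff 0 = (⟨y, hyA⟩ : A) ^ 2 := by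
          apply Subtype.ext
          rw [hTAc]
          exact h.tay_zero.symm
        rw [h5, map_pow]
        rfl
      have h6 := congrArg (fun t : L => (t : PadicAlgCl 2)) (hw k)
      have h7 : ((w k : PadicAlgCl 2)) ^ 2 = (y0 : PadicAlgCl 2) ^ 2
            + d0 * (s k : PadicAlgCl 2) + c0 * (s k : PadicAlgCl 2) ^ 2
            + b0 * (s k : PadicAlgCl 2) ^ 3 + a0 * (s k : PadicAlgCl 2) ^ 4 := h6
      rw [h7]
      show _ = φ (TA.coeff 0) + φ (TA.coeff 1) * _ + φ (TA.coeff 2) * _ + φ (TA.coeff 3) * _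
        + φ (TA.coeff 4) * _
      rw [h4]
      rfl
    -- reduction modulo the equation
    have hE := eval_red (algebraMap (A ⊓ B.toSubalgebra : Subalgebra K E) E) q' x y (by
      rw [← eval_map, hq', eval_map]; exact h.eqn') f
    have hΩ := eval_red ψ q' (((φL ⟨x, hxA⟩ + s k : L)) : PadicAlgCl 2)
      ((w k : L) : PadicAlgCl 2) hcurve f
    have hf0 : MvPolynomial.eval₂ (algebraMap (A ⊓ B.toSubalgebra : Subalgebra K E) E) ![x, y] f
        = 0 := hf
    rw [hE] at hf0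
    let toBB : (A ⊓ B.toSubalgebra : Subalgebra K E) →+* B :=
      { toFun := fun x => ⟨x.1, x.2.2⟩
        map_one' := rfl
        map_mul' := fun _ _ => rfl
        map_zero' := rfl
        map_add' := fun _ _ => rfl }
    have hinjB : Function.Injective toBB := by
      intro u v huv
      exact Subtype.ext (congrArg (fun t : B => (t : E)) huv)
    have hm : ∀ g : Polynomial (A ⊓ B.toSubalgebra : Subalgebra K E),
        (g.map toBB).eval₂ (algebraMap B E) x
          = g.eval₂ (algebraMap (A ⊓ B.toSubalgebra : Subalgebra K E) E) x := by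
      intro g
      rw [eval₂_map]
      rfl
    have hind := indep (algebraMap B E) q h.sep h.one_le x y h.transc' h.eqn'
      ((redA q' f).map toBB) ((redB q' f).map toBB) (by rw [hm, hm]; exact hf0)
    have hA0 : redA q' f = 0 := (Polynomial.map_eq_zero_iff hinjB).mp hind.1
    have hB0 : redB q' f = 0 := (Polynomial.map_eq_zero_iff hinjB).mp hind.2
    rw [hA0, hB0] at hΩ
    simp only [eval₂_zero, zero_mul, add_zero] at hΩ
    exact hΩ

end Pool.Agent.Helper15.Curve
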