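import Pool.Agent.Helper15.Final1
import Pool.Agent.Helper15.Engine5
import Pool.Agent.Helper15.SupplyQ
import Pool.Agent.Helper15.PotDense

/-!
# Potential density from fibrations in curves of genus at most one
-/

namespace Pool.Agent.Helper15.Final

open AlgebraicGeometry CategoryTheory Polynomial Curve Engine LemR

universe u

/-- Passing from subalgebras of `E` and subfields of the `2`-adic closure to schemes. -/
theorem potentiallyDense_of_density (K : Type u) [Field K] (E : Type u) [Field E] [Algebra K E]
    [Algebra K (PadicAlgCl 2)]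
    (hd : ∀ A₀ : Finset E, ∃ L : IntermediateField K (PadicAlgCl 2), FiniteDimensional K L ∧
      ∀ h : Algebra.adjoin K (A₀ : Set E),
        (∀ φ : Algebra.adjoin K (A₀ : Set E) →ₐ[K] L, φ h = 0) → h = 0)
    (A : Type u) [CommRing A] [Algebra K A] [hA : Algebra.FiniteType K A] (f : A →ₐ[K] E)
    (hf : Function.Injective f) :
    PotentiallyDense K (Spec (CommRingCat.of A))
      (Spec.map (CommRingCat.ofHom (algebraMap K A))) := by
  classical
  obtain ⟨S, hS⟩ := hA.out
  obtain ⟨L, hL, hLd⟩ := hd (S.image f)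
  have hfS : ∀ a : A, f a ∈ Algebra.adjoin K ((S.image f : Finset E) : Set E) := by
    intro a
    have ha : a ∈ Algebra.adjoin K (S : Set A) := by rw [hS]; exact Algebra.mem_top
    rw [Finset.coe_image, ← AlgHom.map_adjoin]
    exact ⟨a, ha, rfl⟩
  let f' : A →ₐ[K] Algebra.adjoin K ((S.image f : Finset E) : Set E) :=
    f.codRestrict _ hfS
  let ψ : L →ₐ[K] AlgebraicClosure K := IsAlgClosed.lift
  let e : L ≃ₐ[K] ψ.fieldRange := AlgEquiv.ofInjectiveField ψ
  refine ⟨ψ.fieldRange, inferInstance, inferInstance, ?_, ?_⟩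
  · exact e.toLinearEquiv.finiteDimensional
  · refine dense_ratPts_spec K ψ.fieldRange A ?_
    intro g hg
    have h1 : f' g = 0 := by
      apply hLd
      intro φ
      have h2 := hg ((e : L →ₐ[K] ψ.fieldRange).comp (φ.comp f'))
      have h3 : e (φ (f' g)) = 0 := h2
      exact (map_eq_zero e).mp h3
    have h4 : f g = 0 := congrArg Subtype.val h1
    exact (map_eq_zero_iff f hf).mp h4

theorem main (K : Type u) [Field K] [NumberField K] (E : Type u) [Field E] [Algebra K E]
    (hfg : (⊤ : IntermediateField K E).FG) {ι : Type*} (B : ι → IntermediateField K E)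
    (x y : ι → E) (q : ∀ i, Polynomial (B i)) (h : ∀ i, IsQuartic (B i) (x i) (y i) (q i))
    (hB : ∀ e : E, (∀ i, e ∈ B i) → IsAlgebraic K e)
    (A : Type u) [CommRing A] [Algebra K A] [hA : Algebra.FiniteType K A] (f : A →ₐ[K] E)
    (hf : Function.Injective f) :
    PotentiallyDense K (Spec (CommRingCat.of A))
      (Spec.map (CommRingCat.ofHom (algebraMap K A))) := by
  classical
  have hess : Algebra.EssFiniteType K E := IntermediateField.fg_top_iff.mp hfg
  obtain ⟨G, hG⟩ := hfg
  have hKc : Countable K := Emb.countable_numberField K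
  have hEc : Countable E := Emb.countable_of_fg K E G hG
  have : Algebra.IsAlgebraic ℚ K := inferInstance
  let ι₀ : K →ₐ[ℚ] PadicAlgCl 2 := IsAlgClosed.lift
  let _ : Algebra K (PadicAlgCl 2) := ι₀.toRingHom.toAlgebra
  obtain ⟨τ⟩ := Emb.exists_embedding K E (PadicAlgCl 2) G hG
  choose D hDx hDB hDy using fun i => (h i).exists_der
  refine potentiallyDense_of_density K E ?_ A f hf
  intro A₀
  refine density τ G hG B D ?_ ?_ A₀
  · intro i
    exact (h i).supply τ G hG (D i) (hDx i) (fun b hb => (hDB i b).mpr hb) (hDy i)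
  · intro D'
    exact gen_all_quartic (τ : E →+* PadicAlgCl 2) B x y q h D hDx hDB hB D'

end Pool.Agent.Helper15.Final
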