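import Pool.Agent.Helper15.WE21

/-!
# Curves of geometric genus one
-/

namespace Pool.Agent.Helper15

open Polynomial

universe u

/-- `E / B` is the function field of a curve of genus one: `B` is algebraically closed in `E`
and, with `B'` the algebraic closure of `B` in an algebraic closure of `E`, the composite of `E`
and `B'` is the function field `B'(x, y)` of an elliptic curve `y ^ 2 = x ^ 3 + a x + b`
over `B'`. -/
structure IsGenusOne {K E : Type u} [Field K] [Field E] [Algebra K E]
    (B : IntermediateField K E) : Prop where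
  closed : ∀ e : E, IsAlgebraic B e → e ∈ B
  ell : ∃ (x y : AlgebraicClosure E) (a b : algebraicClosure B (AlgebraicClosure E)),
    Transcendental B x ∧ y ^ 2 = x ^ 3 + a * x + b ∧ 4 * a ^ 3 + 27 * b ^ 2 ≠ 0 ∧
    IntermediateField.adjoin (algebraicClosure B (AlgebraicClosure E)) {x, y}
      = IntermediateField.adjoin (algebraicClosure B (AlgebraicClosure E))
        (Set.range (algebraMap E (AlgebraicClosure E)))

namespace WE

open Polynomial Curve LemR EC Filter Topology Engine

theorem exists_isEll_aux {K E Ē : Type u} [Field K] [CharZero K] [Field E] [Algebra K E]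
    [Field Ē] [Algebra E Ē] [Normal E Ē]
    (B : IntermediateField K E) (hcl : ∀ e : E, IsAlgebraic B e → e ∈ B) (x y : Ē)
    (a b : algebraicClosure B Ē) (htr : Transcendental B x)
    (heqn : y ^ 2 = x ^ 3 + a * x + b) (hdisc : 4 * a ^ 3 + 27 * b ^ 2 ≠ 0)
    (htop : IntermediateField.adjoin (algebraicClosure B Ē) {x, y}
      = IntermediateField.adjoin (algebraicClosure B Ē) (Set.range (algebraMap E Ē))) :
    ∃ (M : Type u) (_ : Field M) (_ : Algebra K M) (_ : Algebra E M) (_ : IsScalarTower K E M)
      (_ : IsGalois E M) (C : IntermediateField K M) (x y a b : M),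
      Descent B C ∧ (∀ c ∈ C, IsAlgebraic B c) ∧ IsEll C x y a b := by
  have hcz : CharZero E := charZero_of_injective_algebraMap (algebraMap K E).injective
  let _ : Algebra K Ē := ((algebraMap E Ē).comp (algebraMap K E)).toAlgebra
  have hst : IsScalarTower K E Ē := IsScalarTower.of_algebraMap_eq fun _ => rfl
  let B' := algebraicClosure B Ē
  have hmemB' : ∀ z : Ē, z ∈ B' ↔ IsAlgebraic B z := fun z => mem_algebraicClosure_iff
  let M : IntermediateField E Ē := IntermediateField.adjoin E (B' : Set Ē)
  have hB'M : ∀ z ∈ B', z ∈ M := fun z hz => IntermediateField.subset_adjoin _ _ hz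
  -- `M` as an extension of `B'`
  let M' : IntermediateField B' Ē :=
    { M.toSubfield with
      algebraMap_mem' := fun z => hB'M z z.2 }
  have hM' : IntermediateField.adjoin B' (Set.range (algebraMap E Ē)) = M' := by
    apply le_antisymm
    · rw [IntermediateField.adjoin_le_iff]
      rintro _ ⟨e, rfl⟩
      show algebraMap E Ē e ∈ M
      exact M.algebraMap_mem e
    · let N : IntermediateField E Ē :=
        { (IntermediateField.adjoin B' (Set.range (algebraMap E Ē))).toSubfield with
          algebraMap_mem' := fun e => IntermediateField.subset_adjoin _ _ ⟨e, rfl⟩ }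
      have h1 : M ≤ N := by
        rw [IntermediateField.adjoin_le_iff]
        intro z hz
        exact (IntermediateField.adjoin B' (Set.range (algebraMap E Ē))).algebraMap_mem ⟨z, hz⟩
      exact fun z hz => h1 hz
  have htop' : IntermediateField.adjoin B' {x, y} = M' := htop.trans hM'
  have hxM : x ∈ M := by
    have h1 : x ∈ IntermediateField.adjoin B' {x, y} :=
      IntermediateField.subset_adjoin _ _ (by simp)
    rw [htop'] at h1
    exact h1
  have hyM : y ∈ M := by
    have h1 : y ∈ IntermediateField.adjoin B' {x, y} :=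
      IntermediateField.subset_adjoin _ _ (by simp)
    rw [htop'] at h1
    exact h1
  -- `M` is Galois
  have hnorm : Normal E M := by
    rw [IntermediateField.normal_iff_forall_map_le]
    intro σ
    rw [IntermediateField.adjoin_map, IntermediateField.adjoin_le_iff]
    rintro _ ⟨z, hz, rfl⟩
    apply hB'M
    have h1 := (hmemB' z).mp hz
    rw [hmemB']
    exact h1.algHom (σ.restrictScalars B)
  have hgal : IsGalois E M := ⟨⟩
  let C : IntermediateField K M :=
    { carrier := {m | (m : Ē) ∈ B'}
      mul_mem' := fun {u v} hu hv => B'.mul_mem hu hv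
      one_mem' := B'.one_mem
      add_mem' := fun {u v} hu hv => B'.add_mem hu hv
      zero_mem' := B'.zero_mem
      inv_mem' := fun u hu => B'.inv_mem hu
      algebraMap_mem' := fun c => by
        show (algebraMap K M c : Ē) ∈ B'
        rw [hmemB']
        have : (algebraMap K M c : Ē) = algebraMap B Ē (algebraMap K B c) := rfl
        rw [this]
        exact isAlgebraic_algebraMap _ }
  have hCmem : ∀ m : M, m ∈ C ↔ IsAlgebraic B m := by
    intro m
    show (m : Ē) ∈ B' ↔ _
    rw [hmemB']
    exact isAlgebraic_algebraMap_iff (algebraMap M Ē).injective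
  refine ⟨M, inferInstance, inferInstance, inferInstance, inferInstance, hgal, C, ⟨x, hxM⟩,
    ⟨y, hyM⟩, ⟨a, hB'M _ a.2⟩, ⟨b, hB'M _ b.2⟩, ⟨?_, ?_⟩, ?_, ⟨a.2, b.2, ?_, ?_, ?_, ?_⟩⟩
  · intro γ c hc
    rw [hCmem] at hc ⊢
    exact hc.algHom ((γ : M →ₐ[E] M).restrictScalars B)
  · intro e
    rw [hCmem, isAlgebraic_algebraMap_iff (algebraMap E M).injective]
    exact ⟨hcl e, fun he => isAlgebraic_algebraMap (⟨e, he⟩ : B)⟩
  · intro c hc
    exact (hCmem c).mp hc
  · intro h0
    apply hdisc
    have h1 := congrArg (fun m : M => (m : Ē)) h0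
    exact Subtype.ext h1
  · rintro ⟨p, hp, hpx⟩
    apply htr
    let f : C →+* B' := ((algebraMap M Ē).comp (algebraMap C M)).codRestrict B'.toSubring
      (fun c => c.2)
    have h1 : IsAlgebraic B' x := by
      refine ⟨p.map f, (Polynomial.map_ne_zero_iff f.injective).mpr hp, ?_⟩
      rw [aeval_def, eval₂_map]
      have h2 := congrArg (algebraMap M Ē) hpx
      rw [aeval_def, hom_eval₂, map_zero] at h2
      exact h2
    exact h1.restrictScalars B
  · exact Subtype.ext heqn
  · rw [eq_top_iff]
    have key : ∀ m ∈ IntermediateField.adjoin B' {x, y}, ∀ hm : m ∈ M, (⟨m, hm⟩ : M) ∈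
        IntermediateField.adjoin C {(⟨x, hxM⟩ : M), ⟨y, hyM⟩} := by
      intro m hm
      have hle : ∀ z, z ∈ IntermediateField.adjoin B' {x, y} → z ∈ M := by
        intro z hz
        rw [htop'] at hz
        exact hz
      induction hm using IntermediateField.adjoin_induction with
      | mem z hz =>
        intro hzM
        rcases hz with rfl | hz
        · exact IntermediateField.subset_adjoin _ _ (by simp)
        · have : z = y := hz
          subst this
          exact IntermediateField.subset_adjoin _ _ (by simp)
      | algebraMap c =>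
        intro hcM
        exact IntermediateField.algebraMap_mem _ (⟨⟨c, hcM⟩, c.2⟩ : C)
      | add z w hz hw ihz ihw =>
        intro hzM
        exact add_mem (ihz (hle z hz)) (ihw (hle w hw))
      | inv z hz ih =>
        intro hzM
        exact inv_mem (ih (hle z hz))
      | mul z w hz hw ihz ihw =>
        intro hzM
        exact mul_mem (ihz (hle z hz)) (ihw (hle w hw))
    rintro ⟨m, hm⟩ -
    refine key m ?_ hm
    rw [htop']
    exact hm

theorem exists_isEll {K E : Type u} [Field K] [CharZero K] [Field E] [Algebra K E]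
    {B : IntermediateField K E} (h : IsGenusOne B) :
    ∃ (M : Type u) (_ : Field M) (_ : Algebra K M) (_ : Algebra E M) (_ : IsScalarTower K E M)
      (_ : IsGalois E M) (C : IntermediateField K M) (x y a b : M),
      Descent B C ∧ (∀ c ∈ C, IsAlgebraic B c) ∧ IsEll C x y a b := by
  obtain ⟨hcl, x, y, a, b, htr, heqn, hdisc, htop⟩ := h
  exact exists_isEll_aux B hcl x y a b htr heqn hdisc htop

theorem good_of_isGenusOne {K E : Type u} [Field K] [NumberField K] [Field E]
    [Algebra K E] [Algebra K (PadicAlgCl 2)] (τ : E →ₐ[K] PadicAlgCl 2) (G : Finset E)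
    (hG : IntermediateField.adjoin K (G : Set E) = ⊤) {B : IntermediateField K E}
    (h : IsGenusOne B) : ∃ (D : Derivation K E E) (e₀ : E), Good τ B D e₀ := by
  obtain ⟨M, _, _, _, _, _, C, x, y, a, b, hdes, hC, hell⟩ := exists_isEll h
  exact good_of_isEll τ G hG hdes hC hell

end WE

end Pool.Agent.Helper15
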