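import Pool.Agent.Helper15.Local

/-!
# From local density to number fields
-/

namespace Pool.Agent.Helper15

open NNReal MvPolynomial

/-- A version of `dense_local` with the integrality of the coefficients as a hypothesis. -/
theorem dense_local' {L ι : Type*} [Field L] [Infinite L] [Finite ι] [DecidableEq ι]
    (v : Valuation L ℝ≥0) (h3 : v 3 < 1)
    (F : MvPolynomial ι L) (hint : ∀ m, v (coeff m F) ≤ 1)
    (hdeg : ∀ j, F.degreeOf j ≤ 4) (a : ι → L) (ha : ∀ i, v (a i) ≤ 1)
    (w : L) (hw0 : w ≠ 0) (hw : w ^ 2 = eval a F) (c : ℝ≥0)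
    (hc : ∀ j, c ≤ v (eval a (pderiv j F)))
    (hsmall : v w ^ 2 < v 3 * c ^ 8) (G : MvPolynomial ι L)
    (hG : ∀ x : ι → L, (∃ u : L, u ≠ 0 ∧ u ^ 2 = eval x F) → eval x G = 0) : G = 0 := by
  classical
  obtain ⟨F', hF'⟩ : ∃ F' : MvPolynomial ι v.integer, map v.integer.subtype F' = F := by
    have : F ∈ Set.range (map (σ := ι) v.integer.subtype) := by
      rw [mem_range_map_iff_coeffs_subset]
      intro z hz
      obtain ⟨m, hm⟩ := mem_coeffs_iff.mp hz
      refine ⟨⟨z, ?_⟩, rfl⟩
      rw [hm.2]
      exact hint m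
    exact this
  obtain ⟨a', ha'⟩ : ∃ a' : ι → v.integer, a = fun i => (a' i : L) :=
    ⟨fun i => ⟨a i, ha i⟩, rfl⟩
  have hevmap : ∀ Q : MvPolynomial ι v.integer, eval a (map v.integer.subtype Q)
      = ((eval a' Q : v.integer) : L) := by
    intro Q
    rw [ha', eval_map, ← Subring.subtype_apply, ← MvPolynomial.eval₂_id, MvPolynomial.hom_eval₂]
    rfl
  refine dense_local v h3 F' ?_ a' w hw0 ?_ c ?_ hsmall G ?_
  · intro j
    rw [degreeOf_le_iff]
    intro m hm
    have hmF : m ∈ F.support := by
      rw [mem_support_iff] at hm ⊢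
      rw [← hF', coeff_map]
      intro h
      apply hm
      exact Subtype.ext h
    exact (degreeOf_le_iff.mp (hdeg j)) m hmF
  · rw [hw, ← hF', hevmap]
  · intro j
    have := hc j
    rw [← hF', pderiv_map, hevmap] at this
    exact this
  · rw [hF']
    exact hG

section Translate

variable {R ι : Type*} [CommRing R]

/-- The translate `F(x + a)`. -/
noncomputable def translate (a : ι → R) (F : MvPolynomial ι R) : MvPolynomial ι R :=
  aeval (fun i => X i + C (a i)) F

theorem eval_translate (a x : ι → R) (F : MvPolynomial ι R) :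
    eval x (translate a F) = eval (x + a) F := by
  unfold translate
  rw [aeval_def, MvPolynomial.hom_eval₂]
  rw [MvPolynomial.eval, ← MvPolynomial.coe_eval₂Hom]
  congr 2
  · ext r; simp
  · funext i; simp

theorem eval_pderiv_translate [DecidableEq ι] (a x : ι → R) (F : MvPolynomial ι R) (j : ι) :
    eval x (pderiv j (translate a F)) = eval (x + a) (pderiv j F) := by
  have : pderiv j (translate a F) = translate a (pderiv j F) := by
    unfold translate
    induction F using MvPolynomial.induction_on with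
    | C r => simp
    | add p q hp hq => simp only [map_add, hp, hq]
    | mul_X p i hp =>
      simp only [map_mul, Derivation.leibniz, smul_eq_mul, hp, aeval_X, map_add, pderiv_C,
        add_zero]
      by_cases h : i = j
      · subst h; simp
      · simp [pderiv_X_of_ne h]
  rw [this, eval_translate]

theorem eval_translate_pderiv_aux (a : ι → R) (F : MvPolynomial ι R) (j : ι) :
    eval (0 : ι → R) (pderiv j (translate a F)) = eval a (pderiv j F) := by
  classical
  rw [eval_pderiv_translate, zero_add]

theorem degreeOf_translate_le [Nontrivial R] (a : ι → R) (F : MvPolynomial ι R) (j : ι) :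
    (translate a F).degreeOf j ≤ F.degreeOf j := by
  classical
  unfold translate
  rw [aeval_def, eval₂_eq]
  refine le_trans (degreeOf_sum_le j _ _) ?_
  refine Finset.sup_le fun m hm => ?_
  refine le_trans (degreeOf_C_mul_le _ _ _) ?_
  refine le_trans (degreeOf_prod_le j _ _) ?_
  have hmj : m j ≤ F.degreeOf j := monomial_le_degreeOf j hm
  refine le_trans ?_ hmj
  calc ∑ i ∈ m.support, degreeOf j ((X i + C (a i)) ^ m i)
      ≤ ∑ i ∈ m.support, (if i = j then m i else 0) := by
        refine Finset.sum_le_sum fun i _ => ?_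
        refine le_trans (degreeOf_pow_le _ _ _) ?_
        by_cases h : i = j
        · subst h
          rw [if_pos rfl]
          have : degreeOf i (X i + C (a i) : MvPolynomial ι R) ≤ 1 := by
            refine le_trans (degreeOf_add_le _ _ _) ?_
            rw [degreeOf_X_self, degreeOf_C]
            simp
          calc m i * degreeOf i (X i + C (a i) : MvPolynomial ι R) ≤ m i * 1 :=
                Nat.mul_le_mul_left _ this
            _ = m i := Nat.mul_one _
        · rw [if_neg h]
          have : degreeOf j (X i + C (a i) : MvPolynomial ι R) ≤ 0 := by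
            refine le_trans (degreeOf_add_le _ _ _) ?_
            rw [degreeOf_X_of_ne (Ne.symm h), degreeOf_C]
            simp
          rw [Nat.le_zero.mp this, Nat.mul_zero]
    _ ≤ m j := by
        rw [Finset.sum_ite_eq']
        split_ifs
        · exact le_rfl
        · exact Nat.zero_le _

theorem translate_map {S : Type*} [CommRing S] (φ : R →+* S) (a : ι → R)
    (F : MvPolynomial ι R) :
    map φ (translate a F) = translate (fun i => φ (a i)) (map φ F) := by
  unfold translate
  induction F using MvPolynomial.induction_on with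
  | C r => simp
  | add p q hp hq => simp only [map_add, hp, hq]
  | mul_X p i hp => simp only [map_mul, hp, aeval_X, map_add, map_X, map_C]

end Translate

/-- In a field with a valuation such that `0 < v 3 < 1`, every finite set can be multiplied into
the ring of integers by a power of `9`. -/
theorem exists_pow_mul_le_one {L : Type*} [Field L] (v : Valuation L ℝ≥0) (h3 : v 3 < 1)
    {α : Type*} (T : Finset α) (f : α → L) :
    ∃ k : ℕ, ∀ m ∈ T, v ((9 : L) ^ k * f m) ≤ 1 := by
  classical
  have h9 : v (9 : L) < 1 := by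
    have : (9 : L) = 3 * 3 := by norm_num
    rw [this, map_mul]
    calc v 3 * v 3 ≤ v 3 * 1 := mul_le_mul' le_rfl h3.le
      _ = v 3 := mul_one _
      _ < 1 := h3
  induction T using Finset.induction_on with
  | empty => exact ⟨0, by simp⟩
  | insert m T hm ih =>
    obtain ⟨k, hk⟩ := ih
    obtain ⟨l, hl⟩ : ∃ l : ℕ, v (9 : L) ^ l * v (f m) ≤ 1 := by
      rcases eq_or_ne (v (f m)) 0 with h | h
      · exact ⟨0, by rw [h]; simp⟩
      · obtain ⟨l, hl⟩ := _root_.exists_pow_lt_of_lt_one (show (0 : ℝ≥0) < (v (f m))⁻¹ from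
          inv_pos.mpr (pos_iff_ne_zero.mpr h)) h9
        refine ⟨l, ?_⟩
        calc v (9 : L) ^ l * v (f m) ≤ (v (f m))⁻¹ * v (f m) := mul_le_mul' hl.le le_rfl
          _ = 1 := inv_mul_cancel₀ h
    refine ⟨k + l, fun i hi => ?_⟩
    rw [Finset.mem_insert] at hi
    rcases hi with rfl | hi
    · rw [map_mul, map_pow, pow_add]
      calc v 9 ^ k * v 9 ^ l * v (f i) = v 9 ^ k * (v 9 ^ l * v (f i)) := mul_assoc _ _ _
        _ ≤ 1 * 1 := mul_le_mul' (pow_le_one₀ zero_le h9.le) hl
        _ = 1 := one_mul 1
    · have := hk i hi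
      rw [map_mul, map_pow] at this ⊢
      calc v 9 ^ (k + l) * v (f i) = v 9 ^ l * (v 9 ^ k * v (f i)) := by ring
        _ ≤ 1 * 1 := mul_le_mul' (pow_le_one₀ zero_le h9.le) this
        _ = 1 := one_mul 1

/-- The rescaled and translated polynomial `9 ^ k * F (x + a)`. -/
noncomputable def rescaled {R ι : Type*} [CommRing R] (k : ℕ) (a : ι → R)
    (F : MvPolynomial ι R) : MvPolynomial ι R :=
  C ((9 : R) ^ k) * translate a F

theorem rescaled_map {R S ι : Type*} [CommRing R] [CommRing S] (φ : R →+* S) (k : ℕ) (a : ι → R)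
    (F : MvPolynomial ι R) :
    map φ (rescaled k a F) = rescaled k (fun i => φ (a i)) (map φ F) := by
  unfold rescaled
  rw [map_mul, translate_map, map_C, map_pow, map_ofNat]

/-- The base point `(0, ..., 3 ^ N, ..., 0)`. -/
noncomputable def basePt {R ι : Type*} [CommRing R] [DecidableEq ι] (j : ι) (N : ℕ) : ι → R :=
  Function.update 0 j (3 ^ N)

/-- Over an algebraically closed field with a valuation such that `0 < v 3 < 1`, the numerical
conditions of the local density theorem can be met near every zero of `F` where no partial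
derivative vanishes. -/
theorem exists_data {Ω ι : Type*} [Field Ω] [IsAlgClosed Ω] [Finite ι] [DecidableEq ι]
    (v : Valuation Ω ℝ≥0) (h3 : v 3 < 1) (h30 : v 3 ≠ 0) (F : MvPolynomial ι Ω)
    (hdeg : ∀ j, F.degreeOf j ≤ 4)
    (a : ι → Ω) (h0 : eval a F = 0) (h1 : ∀ j, eval a (pderiv j F) ≠ 0) (j0 : ι) :
    ∃ (k N : ℕ) (w : Ω) (c : ℝ≥0), w ≠ 0 ∧ (∀ m, v (coeff m (rescaled k a F)) ≤ 1) ∧
      w ^ 2 = eval (basePt j0 N) (rescaled k a F) ∧
      (∀ j, c ≤ v (eval (basePt j0 N) (pderiv j (rescaled k a F)))) ∧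
      v w ^ 2 < v 3 * c ^ 8 := by
  classical
  cases nonempty_fintype ι
  obtain ⟨k, hk⟩ := exists_pow_mul_le_one v h3 (translate a F).support
    (fun m => coeff m (translate a F))
  have h3ne : (3 : Ω) ≠ 0 := (Valuation.ne_zero_iff v).mp h30
  have h9ne : (9 : Ω) ≠ 0 := by
    have : (9 : Ω) = 3 * 3 := by norm_num
    rw [this]; exact mul_ne_zero h3ne h3ne
  set F1 : MvPolynomial ι Ω := rescaled k a F with hF1
  have hint : ∀ m, v (coeff m F1) ≤ 1 := by
    intro m
    rw [hF1, rescaled, coeff_C_mul]
    by_cases hm : m ∈ (translate a F).support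
    · exact hk m hm
    · rw [notMem_support_iff.mp hm, mul_zero, map_zero]; exact zero_le
  obtain ⟨F', hF'⟩ : ∃ F' : MvPolynomial ι v.integer, map v.integer.subtype F' = F1 := by
    have : F1 ∈ Set.range (map (σ := ι) v.integer.subtype) := by
      rw [mem_range_map_iff_coeffs_subset]
      intro z hz
      obtain ⟨m, hm⟩ := mem_coeffs_iff.mp hz
      refine ⟨⟨z, ?_⟩, rfl⟩
      rw [hm.2]
      exact hint m
    exact this
  have hevmap : ∀ (b : ι → v.integer) (Q : MvPolynomial ι v.integer),
      eval (fun i => (b i : Ω)) (map v.integer.subtype Q) = ((eval b Q : v.integer) : Ω) := by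
    intro b Q
    rw [eval_map, ← Subring.subtype_apply, ← MvPolynomial.eval₂_id, MvPolynomial.hom_eval₂]
    rfl
  -- values at the origin
  have hzero : eval (0 : ι → Ω) F1 = 0 := by
    rw [hF1, rescaled, map_mul, eval_translate, zero_add, h0, mul_zero]
  have hpd0 : ∀ j, eval (0 : ι → Ω) (pderiv j F1) ≠ 0 := by
    intro j
    rw [hF1, rescaled, pderiv_C_mul, map_mul, eval_translate_pderiv_aux a F j]
    rw [eval_C]
    exact mul_ne_zero (pow_ne_zero k h9ne) (h1 j)
  -- a lower bound for the partial derivatives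
  obtain ⟨c, hcpos, hc⟩ : ∃ c : ℝ≥0, 0 < c ∧ ∀ j, c ≤ v (eval (0 : ι → Ω) (pderiv j F1)) := by
    have hne : (Finset.univ : Finset ι).Nonempty := ⟨j0, Finset.mem_univ _⟩
    refine ⟨Finset.univ.inf' hne (fun j => v (eval (0 : ι → Ω) (pderiv j F1))), ?_, ?_⟩
    · rw [Finset.lt_inf'_iff]
      intro j _
      exact pos_iff_ne_zero.mpr ((Valuation.ne_zero_iff v).mpr (hpd0 j))
    · intro j
      exact Finset.inf'_le _ (Finset.mem_univ j)
  have hz0 : (0 : ι → Ω) = fun i => (((0 : ι → v.integer) i : v.integer) : Ω) := by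
    funext i; simp
  have hc1 : c ≤ 1 := by
    refine le_trans (hc j0) ?_
    rw [← hF', pderiv_map, hz0, hevmap]
    exact (eval (0 : ι → v.integer) (pderiv j0 F')).2
  -- the choice of `N`
  obtain ⟨N, hN⟩ := _root_.exists_pow_lt_of_lt_one (show (0 : ℝ≥0) < v 3 * c ^ 8 from
    mul_pos (pos_iff_ne_zero.mpr h30) (pow_pos hcpos 8)) h3
  have hNc : v 3 ^ N < c := by
    calc v 3 ^ N < v 3 * c ^ 8 := hN
      _ ≤ 1 * c ^ 1 := mul_le_mul' h3.le (pow_le_pow_of_le_one zero_le hc1 (by norm_num))
      _ = c := by rw [one_mul, pow_one]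
  obtain ⟨w, hw⟩ := IsAlgClosed.exists_pow_nat_eq (eval (basePt j0 N) F1) (n := 2) (by norm_num)
  have hb : (basePt j0 N : ι → Ω) = fun i => ((basePt j0 N : ι → v.integer) i : Ω) := by
    funext i
    unfold basePt
    by_cases h : i = j0
    · subst h; rw [Function.update_self, Function.update_self]; push_cast; rfl
    · rw [Function.update_of_ne h, Function.update_of_ne h]; simp
  have hdist : ∀ i, v (((basePt j0 N : ι → v.integer) i - (0 : ι → v.integer) i : v.integer) : Ω)
      ≤ v 3 ^ N := by
    intro i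
    unfold basePt
    by_cases h : i = j0
    · subst h
      rw [Function.update_self]
      push_cast
      rw [Pi.zero_apply]
      push_cast
      rw [sub_zero, map_pow]
      exact le_rfl
    · rw [Function.update_of_ne h]; simp
  have hlip : ∀ Q : MvPolynomial ι v.integer,
      v (eval (basePt j0 N) (map v.integer.subtype Q)
        - eval (0 : ι → Ω) (map v.integer.subtype Q)) ≤ v 3 ^ N := by
    intro Q
    have := lipschitz v Q (v 3 ^ N) _ _ hdist
    rw [hb, hz0, hevmap, hevmap]
    exact_mod_cast this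
  refine ⟨k, N, w, c, ?_, hint, hw, ?_, ?_⟩
  · -- `w ≠ 0`
    intro hw0
    rw [hw0] at hw
    have hval : eval (basePt j0 N) F1 = 0 := by
      rw [← hw]; simp
    have hdeg' : F'.degreeOf j0 ≤ 4 := by
      rw [degreeOf_le_iff]
      intro m hm
      have hmF : m ∈ F1.support := by
        rw [mem_support_iff] at hm ⊢
        rw [← hF', coeff_map]
        intro h
        apply hm
        exact Subtype.ext h
      have hd : F1.degreeOf j0 ≤ 4 := by
        rw [hF1, rescaled]
        exact le_trans (degreeOf_C_mul_le _ _ _) (le_trans (degreeOf_translate_le _ _ _)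
          (hdeg j0))
      exact (degreeOf_le_iff.mp hd) m hmF
    obtain ⟨f2, f3, f4, hf⟩ := taylor_four F' j0 hdeg' (0 : ι → v.integer)
    have hb' : (basePt j0 N : ι → v.integer)
        = Function.update (0 : ι → v.integer) j0 ((0 : ι → v.integer) j0 + 3 ^ N) := by
      unfold basePt; simp
    have e1 := hf (3 ^ N)
    rw [← hb'] at e1
    have e2 : eval (basePt j0 N) F' = 0 := by
      apply Subtype.ext
      have := hevmap (basePt j0 N) F'
      rw [← hb, hF', hval] at this
      rw [← this]; rfl
    have e3 : eval (0 : ι → v.integer) F' = 0 := by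
      apply Subtype.ext
      have := hevmap 0 F'
      rw [← hz0, hF', hzero] at this
      rw [← this]; rfl
    rw [e2, e3, zero_add] at e1
    have h3N : (3 : v.integer) ^ N ≠ 0 := by
      refine pow_ne_zero N ?_
      intro h
      apply h3ne
      have := congrArg (fun z : v.integer => (z : Ω)) h
      exact this
    have e4 : eval (0 : ι → v.integer) (pderiv j0 F')
        = - ((f2 + f3 * 3 ^ N + f4 * (3 ^ N) ^ 2) * 3 ^ N) := by
      have : (3 : v.integer) ^ N * (eval (0 : ι → v.integer) (pderiv j0 F')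
        + (f2 + f3 * 3 ^ N + f4 * (3 ^ N) ^ 2) * 3 ^ N) = 0 := by
        rw [e1]; ring
      rcases mul_eq_zero.mp this with h | h
      · exact absurd h h3N
      · exact eq_neg_of_add_eq_zero_left h
    have e5 : v (eval (0 : ι → Ω) (pderiv j0 F1)) ≤ v 3 ^ N := by
      rw [← hF', pderiv_map, hz0, hevmap, e4]
      have : (((-((f2 + f3 * 3 ^ N + f4 * (3 ^ N) ^ 2) * 3 ^ N) : v.integer)) : Ω)
          = -((((f2 + f3 * 3 ^ N + f4 * (3 ^ N) ^ 2 : v.integer)) : Ω) * 3 ^ N) := by
        push_cast; rfl
      rw [this, Valuation.map_neg, map_mul, map_pow]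
      calc _ ≤ 1 * v 3 ^ N := mul_le_mul'
            (f2 + f3 * 3 ^ N + f4 * (3 ^ N) ^ 2 : v.integer).2 le_rfl
        _ = v 3 ^ N := one_mul _
    exact absurd (lt_of_le_of_lt (le_trans (hc j0) e5) hNc) (lt_irrefl _)
  · intro j
    have h2 : v (eval (basePt j0 N) (pderiv j F1) - eval (0 : ι → Ω) (pderiv j F1))
        < v (eval (0 : ι → Ω) (pderiv j F1)) := by
      refine lt_of_lt_of_le (lt_of_le_of_lt ?_ hNc) (hc j)
      rw [← hF', pderiv_map]
      exact hlip _
    have h3' : eval (basePt j0 N) (pderiv j F1) = eval (0 : ι → Ω) (pderiv j F1)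
        + (eval (basePt j0 N) (pderiv j F1) - eval (0 : ι → Ω) (pderiv j F1)) := by ring
    rw [h3', Valuation.map_add_eq_of_lt_left v h2]
    exact hc j
  · have := hlip F'
    rw [hF', hzero, sub_zero, ← hw, map_pow] at this
    exact lt_of_le_of_lt this hN

end Pool.Agent.Helper15
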