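import Pool.Agent.Helper15.HilbDense

/-!
# A large family of ideals in three variables, and the conclusion
-/

namespace Pool.Agent.Helper15.Hilb

open MvPolynomial

universe u

variable {k : Type u} [Field k]

section Family

variable (s : ℕ)

/-- Exponents of degree less than `3 s`. -/
abbrev Low : Type := {m : Fin 3 →₀ ℕ // m.degree < 3 * s}

theorem low_lt (m : Low s) (i : Fin 3) : m.1 i < 3 * s :=
  lt_of_le_of_lt (Finsupp.le_degree i m.1) m.2

/-- The injection of `Low s` into a finite type. -/
def lowEmb : Low s ↪ (Fin 3 → Fin (3 * s)) :=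
  { toFun := fun m i => ⟨m.1 i, low_lt s m i⟩
    inj' := by
      intro m m' h
      apply Subtype.ext
      ext i
      have := congrFun h i
      simpa using this }

noncomputable instance : Fintype (Low s) := Fintype.ofInjective _ (lowEmb s).injective

theorem card_low : Fintype.card (Low s) ≤ 27 * s ^ 3 := by
  refine le_trans (Fintype.card_le_of_embedding (lowEmb s)) ?_
  rw [Fintype.card_fun, Fintype.card_fin, Fintype.card_fin]
  exact le_of_eq (by ring)

/-- The index set of the basis. -/
abbrev Idx : Type := Low s ⊕ (Fin s × Fin s)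

theorem card_idx : Fintype.card (Idx s) ≤ 28 * s ^ 3 := by
  rw [Fintype.card_sum, Fintype.card_prod, Fintype.card_fin]
  have h := card_low s
  have h2 : s * s ≤ s ^ 3 := by
    rcases Nat.eq_zero_or_pos s with h0 | h0
    · subst h0; simp
    · calc s * s = s * s * 1 := by ring
        _ ≤ s * s * s := Nat.mul_le_mul_left _ h0
        _ = s ^ 3 := by ring
  omega

/-- The exponents `(a, b, 3 s - a - b)`. -/
noncomputable def eE (p : Fin s × Fin s) : Fin 3 →₀ ℕ :=
  Finsupp.equivFunOnFinite.symm ![(p.1 : ℕ), (p.2 : ℕ), 3 * s - p.1 - p.2]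

/-- The exponents `(a + s, b, 2 s - a - b)`. -/
noncomputable def eF (p : Fin s × Fin s) : Fin 3 →₀ ℕ :=
  Finsupp.equivFunOnFinite.symm ![(p.1 : ℕ) + s, (p.2 : ℕ), 2 * s - p.1 - p.2]

theorem degree_eE (p : Fin s × Fin s) : (eE s p).degree = 3 * s := by
  rw [Finsupp.degree_eq_sum, Fin.sum_univ_three]
  have h1 := p.1.isLt
  have h2 := p.2.isLt
  simp [eE]
  omega

theorem degree_eF (p : Fin s × Fin s) : (eF s p).degree = 3 * s := by
  rw [Finsupp.degree_eq_sum, Fin.sum_univ_three]
  have h1 := p.1.isLt
  have h2 := p.2.isLt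
  simp [eF]
  omega

theorem eE_injective : Function.Injective (eE s) := by
  intro p q h
  have h0 := DFunLike.congr_fun h 0
  have h1 := DFunLike.congr_fun h 1
  simp [eE] at h0 h1
  exact Prod.ext (Fin.ext h0) (Fin.ext h1)

theorem eF_injective : Function.Injective (eF s) := by
  intro p q h
  have h0 := DFunLike.congr_fun h 0
  have h1 := DFunLike.congr_fun h 1
  simp [eF] at h0 h1
  exact Prod.ext (Fin.ext h0) (Fin.ext h1)

theorem eE_ne_eF (p q : Fin s × Fin s) : eE s p ≠ eF s q := by
  intro h
  have h0 := DFunLike.congr_fun h 0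
  have h1 := p.1.isLt
  simp [eE, eF] at h0
  omega

/-- The linear map whose kernel is the ideal of the family with parameter `y`. -/
noncomputable def phi (y : (Fin s × Fin s) × (Fin s × Fin s) → k) :
    MvPolynomial (Fin 3) k →ₗ[k] (Idx s → k) where
  toFun f := Sum.elim (fun m => coeff m.1 f)
    (fun e => coeff (eE s e) f + ∑ t : Fin s × Fin s, y (t, e) * coeff (eF s t) f)
  map_add' f g := by
    funext j
    match j with
    | .inl m => simp
    | .inr e =>
      simp only [Sum.elim_inr, coeff_add, Pi.add_apply, mul_add, Finset.sum_add_distrib]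
      ring
  map_smul' c f := by
    funext j
    match j with
    | .inl m => simp
    | .inr e =>
      simp only [Sum.elim_inr, coeff_smul, smul_eq_mul, Pi.smul_apply, RingHom.id_apply,
        mul_add, Finset.mul_sum]
      congr 1
      refine Finset.sum_congr rfl fun t _ => ?_
      ring

theorem phi_inl (y : (Fin s × Fin s) × (Fin s × Fin s) → k) (f : MvPolynomial (Fin 3) k)
    (m : Low s) : phi s y f (.inl m) = coeff m.1 f := rfl

theorem phi_inr (y : (Fin s × Fin s) × (Fin s × Fin s) → k) (f : MvPolynomial (Fin 3) k)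
    (e : Fin s × Fin s) : phi s y f (.inr e)
      = coeff (eE s e) f + ∑ t : Fin s × Fin s, y (t, e) * coeff (eF s t) f := rfl

/-- Coefficients of a product with a polynomial without terms of small degree. -/
theorem coeff_mul_of_low (D : ℕ) (f g : MvPolynomial (Fin 3) k)
    (hf : ∀ m : Fin 3 →₀ ℕ, m.degree < D → coeff m f = 0) (m : Fin 3 →₀ ℕ) (hm : m.degree ≤ D) :
    coeff m (g * f) = coeff 0 g * coeff m f := by
  classical
  rw [coeff_mul]
  rw [Finset.sum_eq_single (0, m)]
  · rintro ⟨p, q⟩ hpq hne
    rw [Finset.HasAntidiagonal.mem_antidiagonal] at hpq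
    simp only at hpq ⊢
    have hdeg : p.degree + q.degree = m.degree := by rw [← hpq, map_add]
    by_cases hp : p = 0
    · subst hp
      rw [zero_add] at hpq
      exact absurd (by rw [hpq]) hne
    · have : 0 < p.degree := by
        rw [pos_iff_ne_zero]
        intro h
        exact hp ((Finsupp.degree_eq_zero_iff p).mp h)
      rw [hf q (by omega), mul_zero]
  · intro h
    exact absurd (Finset.HasAntidiagonal.mem_antidiagonal.mpr (zero_add m)) h

/-- The ideal with parameter `y`. -/
noncomputable def idealY (y : (Fin s × Fin s) × (Fin s × Fin s) → k) :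
    Ideal (MvPolynomial (Fin 3) k) where
  carrier := {f | phi s y f = 0}
  zero_mem' := map_zero _
  add_mem' := by
    intro a b ha hb
    show phi s y (a + b) = 0
    rw [map_add, show phi s y a = 0 from ha, show phi s y b = 0 from hb, add_zero]
  smul_mem' := by
    intro g f hf
    have hf' : phi s y f = 0 := hf
    have hlow : ∀ m : Fin 3 →₀ ℕ, m.degree < 3 * s → coeff m f = 0 := by
      intro m hm
      have := congrFun hf' (.inl ⟨m, hm⟩)
      rw [phi_inl] at this
      exact this
    show phi s y (g • f) = 0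
    rw [smul_eq_mul]
    funext j
    match j with
    | .inl m =>
      rw [phi_inl, coeff_mul_of_low (3 * s) f g hlow m.1 m.2.le, hlow m.1 m.2, mul_zero]
      rfl
    | .inr e =>
      rw [phi_inr, coeff_mul_of_low (3 * s) f g hlow _ (degree_eE s e).le]
      have h1 : ∀ t, y (t, e) * coeff (eF s t) (g * f)
          = coeff 0 g * (y (t, e) * coeff (eF s t) f) := by
        intro t
        rw [coeff_mul_of_low (3 * s) f g hlow _ (degree_eF s t).le]
        ring
      rw [Finset.sum_congr rfl (fun t _ => h1 t), ← Finset.mul_sum, ← mul_add]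
      have := congrFun hf' (.inr e)
      rw [phi_inr] at this
      rw [this]
      simp

/-- The exponents of the basis. -/
noncomputable def Bexp : Idx s → (Fin 3 →₀ ℕ) := Sum.elim (fun m => m.1) (eE s)

theorem phi_Bexp (y : (Fin s × Fin s) × (Fin s × Fin s) → k) (j : Idx s) :
    phi s y (monomial (Bexp s j) 1) = Pi.single j 1 := by
  classical
  funext i
  match i, j with
  | .inl m, .inl m₀ =>
    rw [phi_inl]
    simp only [Bexp, Sum.elim_inl, coeff_monomial]
    by_cases h : m₀ = m
    · subst h; simp
    · rw [if_neg (fun h' => h (Subtype.ext h')), Pi.single_eq_of_ne]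
      intro h'
      exact h (Sum.inl.inj h').symm
  | .inl m, .inr e₀ =>
    rw [phi_inl]
    simp only [Bexp, Sum.elim_inr, coeff_monomial]
    have h1 : eE s e₀ ≠ m.1 := by
      intro h
      have := m.2
      rw [← h, degree_eE] at this
      omega
    rw [if_neg h1, Pi.single_eq_of_ne (by simp)]
  | .inr e, .inl m₀ =>
    rw [phi_inr]
    simp only [Bexp, Sum.elim_inl, coeff_monomial]
    have h1 : m₀.1 ≠ eE s e := by
      intro h
      have := m₀.2
      rw [h, degree_eE] at this
      omega
    have h2 : ∀ t, m₀.1 ≠ eF s t := by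
      intro t h
      have := m₀.2
      rw [h, degree_eF] at this
      omega
    rw [if_neg h1, Pi.single_eq_of_ne (by simp)]
    rw [Finset.sum_eq_zero (fun t _ => by rw [if_neg (h2 t), mul_zero]), add_zero]
  | .inr e, .inr e₀ =>
    rw [phi_inr]
    simp only [Bexp, Sum.elim_inr, coeff_monomial]
    rw [Finset.sum_eq_zero (fun t _ => by rw [if_neg (eE_ne_eF s e₀ t), mul_zero]), add_zero]
    by_cases h : e₀ = e
    · subst h; simp
    · rw [if_neg (fun h' => h (eE_injective s h')), Pi.single_eq_of_ne]
      intro h'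
      exact h (Sum.inr.inj h').symm

theorem phi_eF (y : (Fin s × Fin s) × (Fin s × Fin s) → k) (t e : Fin s × Fin s) :
    phi s y (monomial (eF s t) 1) (.inr e) = y (t, e) := by
  classical
  rw [phi_inr]
  simp only [coeff_monomial]
  rw [if_neg (fun h => eE_ne_eF s e t h.symm), zero_add, Finset.sum_eq_single t]
  · rw [if_pos rfl, mul_one]
  · intro t' _ hne
    rw [if_neg (fun h => hne (eF_injective s h).symm), mul_zero]
  · intro h
    exact absurd (Finset.mem_univ t) h

theorem phi_surjective (y : (Fin s × Fin s) × (Fin s × Fin s) → k) :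
    Function.Surjective (phi s y) := by
  classical
  intro u
  refine ⟨∑ j, u j • monomial (Bexp s j) 1, ?_⟩
  rw [map_sum]
  simp only [map_smul, phi_Bexp]
  funext i
  rw [Finset.sum_apply, Finset.sum_eq_single i]
  · simp
  · intro j _ hj
    rw [Pi.smul_apply, Pi.single_eq_of_ne (Ne.symm hj), smul_zero]
  · intro h
    exact absurd (Finset.mem_univ i) h

/-- The quotient by the ideal with parameter `y`. -/
noncomputable def quotY (y : (Fin s × Fin s) × (Fin s × Fin s) → k) :
    (MvPolynomial (Fin 3) k ⧸ idealY s y) ≃ₗ[k] (Idx s → k) :=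
  (Submodule.Quotient.restrictScalarsEquiv k (idealY s y)).symm.trans
    ((Submodule.quotEquivOfEq _ _ (by ext f; rfl)).trans
      ((phi s y).quotKerEquivOfSurjective (phi_surjective s y)))

theorem quotY_mk (y : (Fin s × Fin s) × (Fin s × Fin s) → k) (f : MvPolynomial (Fin 3) k) :
    quotY s y (Ideal.Quotient.mk _ f) = phi s y f := rfl

/-- The basis of the quotient. -/
noncomputable def basisY (y : (Fin s × Fin s) × (Fin s × Fin s) → k) :
    Module.Basis (Fin (Fintype.card (Idx s))) k (MvPolynomial (Fin 3) k ⧸ idealY s y) :=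
  ((Pi.basisFun k (Idx s)).map (quotY s y).symm).reindex (Fintype.equivFin (Idx s))

theorem basisY_apply (y : (Fin s × Fin s) × (Fin s × Fin s) → k)
    (a : Fin (Fintype.card (Idx s))) :
    basisY s y a = xm k (MvPolynomial (Fin 3) k ⧸ idealY s y)
      (Bexp s ((Fintype.equivFin (Idx s)).symm a)) := by
  classical
  unfold basisY
  rw [Module.Basis.reindex_apply, Module.Basis.map_apply, Pi.basisFun_apply]
  rw [LinearEquiv.symm_apply_eq]
  exact (phi_Bexp s y _).symm

/-- The point of the Hilbert scheme. -/
noncomputable def ptY (y : (Fin s × Fin s) × (Fin s × Fin s) → k) :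
    HilbPt k 3 (Fintype.card (Idx s)) :=
  ⟨idealY s y, Module.Finite.of_basis (basisY s y),
    by rw [Module.finrank_eq_card_basis (basisY s y), Fintype.card_fin]⟩

/-- The chart. -/
noncomputable def chartB : Fin (Fintype.card (Idx s)) → (Fin 3 →₀ ℕ) :=
  fun a => Bexp s ((Fintype.equivFin (Idx s)).symm a)

/-- The monomials whose coordinates are the parameters. -/
noncomputable def chartMu : (Fin s × Fin s) × (Fin s × Fin s) → (Fin 3 →₀ ℕ) := fun t => eF s t.1

/-- The position of the coordinates. -/
noncomputable def chartAl : (Fin s × Fin s) × (Fin s × Fin s) → Fin (Fintype.card (Idx s)) :=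
  fun t => Fintype.equivFin (Idx s) (.inr t.2)

theorem DD_basisY (y : (Fin s × Fin s) × (Fin s × Fin s) → k) :
    DD (coords (n := 3) (basisY s y)) (chartB s) ≠ 0 := by
  rw [DD_coords_ne_zero_iff]
  have : (fun a => xm k (MvPolynomial (Fin 3) k ⧸ idealY s y) (chartB s a)) = basisY s y := by
    funext a
    exact (basisY_apply s y a).symm
  rw [this]
  exact ⟨(basisY s y).linearIndependent, (basisY s y).span_eq⟩

theorem yy_basisY (y : (Fin s × Fin s) × (Fin s × Fin s) → k) :
    yy (chartB s) (chartMu s) (chartAl s) (coords (n := 3) (basisY s y)) = y := by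
  classical
  funext t
  have h := cramer (basisY s y) (chartB s) (DD_basisY s y) (chartMu s t)
  have h2 : ∀ a, xm k (MvPolynomial (Fin 3) k ⧸ idealY s y) (chartB s a) = basisY s y a :=
    fun a => (basisY_apply s y a).symm
  simp only [h2] at h
  have h3 := congrArg (fun x => (basisY s y).repr x (chartAl s t)) h
  simp only [map_sum, map_smul, Module.Basis.repr_self, Finsupp.coe_finsetSum,
    Finset.sum_apply, Finsupp.smul_apply, Finsupp.single_apply, smul_eq_mul] at h3
  simp only [mul_ite, mul_one, mul_zero, Finset.sum_ite_eq', Finset.mem_univ, if_true] at h3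
  show EE _ _ _ _ / DD _ _ = y t
  rw [← h3]
  unfold basisY
  rw [Module.Basis.repr_reindex_apply, Module.Basis.map_repr]
  have h4 : (Fintype.equivFin (Idx s)).symm (chartAl s t) = .inr t.2 := by
    unfold chartAl
    rw [Equiv.symm_apply_apply]
  rw [h4]
  show (Pi.basisFun k (Idx s)).repr ((quotY s y).symm.symm (xm k _ (chartMu s t))) (.inr t.2) = _
  rw [Pi.basisFun_repr]
  exact phi_eF s y t.1 t.2

end Family

/-- **Elementary components of large length.**  For every `R` there is an elementary component
of the Hilbert scheme of `r` points on affine three-space for some `r` with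
`R < r ≤ 28 (84 R + 29) ^ 3`. -/
theorem exists_elementary [Infinite k] (R : ℕ) :
    ∃ r : ℕ, R < r ∧ r ≤ 28 * (84 * R + 29) ^ 3 ∧ ∃ C : Set (HilbPt k 3 r), IsElementary C := by
  classical
  by_contra hcon
  push Not at hcon
  set s : ℕ := 84 * R + 29 with hs
  set r : ℕ := Fintype.card (Idx s) with hr
  have hr28 : r ≤ 28 * s ^ 3 := card_idx s
  have hdense := band_dense (k := k) (n := 3) R r
    (fun r' h1 h2 C => hcon r' h1 (le_trans h2 hr28) C) r le_rfl
  -- the number of coordinates exceeds the number of parameters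
  have hcount : 3 * (r * R) + r < Fintype.card ((Fin s × Fin s) × (Fin s × Fin s)) := by
    rw [Fintype.card_prod, Fintype.card_prod, Fintype.card_fin]
    have h1 : 3 * (r * R) + r = r * (3 * R + 1) := by ring
    rw [h1]
    have hs0 : 0 < s := by omega
    calc r * (3 * R + 1) ≤ 28 * s ^ 3 * (3 * R + 1) := Nat.mul_le_mul_right _ hr28
      _ = s ^ 3 * (28 * (3 * R + 1)) := by ring
      _ < s ^ 3 * s := by
          refine Nat.mul_lt_mul_of_pos_left ?_ (pow_pos hs0 3)
          omega
      _ = s * s * (s * s) := by ring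
  -- the polynomial relations
  have hrel : ∀ c : Fin r → Fin r, ∃ P : MvPolynomial ((Fin s × Fin s) × (Fin s × Fin s)) k,
      P ≠ 0 ∧ ((∀ a, (Finset.univ.filter (fun i => c i = a)).card ≤ R) →
        ∀ z : (Fin 3 × Fin r × Fin r) ⊕ Fin r → k,
        (∀ l i j, c i ≠ c j → z (.inl (l, i, j)) = 0) → DD z (chartB s) ≠ 0 →
        eval (yy (chartB s) (chartMu s) (chartAl s) z) P = 0) := by
    intro c
    by_cases hc : ∀ a, (Finset.univ.filter (fun i => c i = a)).card ≤ R
    · obtain ⟨P, hP, h⟩ := dependent (k := k) R c hc hcount (chartB s) (chartMu s) (chartAl s)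
      exact ⟨P, hP, fun _ => h⟩
    · exact ⟨1, one_ne_zero, fun h => absurd h hc⟩
  choose P hPne hP using hrel
  set Q : MvPolynomial ((Fin s × Fin s) × (Fin s × Fin s)) k := ∏ c, P c with hQ
  have hQne : Q ≠ 0 := Finset.prod_ne_zero_iff.mpr fun c _ => hPne c
  obtain ⟨y, hy⟩ : ∃ y, eval y Q ≠ 0 := by
    by_contra h
    push Not at h
    apply hQne
    apply MvPolynomial.funext
    intro x
    rw [h x, map_zero]
  -- the band locus lies in the closed set
  have hsub : {I : HilbPt k 3 r | BandPt R I} ⊆ ZP (chartB s) (chartMu s) (chartAl s) Q := by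
    rintro I ⟨b, c, hc, hz⟩ b' hb'
    obtain ⟨hb, e⟩ := yy_eq b' b (chartB s) (chartMu s) (chartAl s) hb'
    rw [e, hQ, map_prod]
    exact Finset.prod_eq_zero (Finset.mem_univ c) (hP c hc _ hz hb)
  have hcl := closure_minimal hsub (isClosed_ZP (chartB s) (chartMu s) (chartAl s) Q)
  rw [hdense] at hcl
  have hmem := hcl (Set.mem_univ (ptY s y))
  have := hmem (basisY s y) (DD_basisY s y)
  exact hy ((congrArg (fun w => eval w Q) (yy_basisY s y)).symm.trans this)

end Pool.Agent.Helper15.Hilb
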