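import Pool.Agent.Helper15.HilbGen

/-!
# Closed conditions on chart coordinates, and algebraic dependence on band matrices
-/

namespace Pool.Agent.Helper15.Hilb

open MvPolynomial

universe u

/-- Homogenisation: `d ^ N * P (e / d)` is a polynomial in `d` and `e`. -/
theorem homog {k : Type u} [Field k] {τ : Type*} (P : MvPolynomial τ k) :
    ∃ (N : ℕ) (Q : MvPolynomial (Option τ) k), ∀ (F : Type u) [Field F] [Algebra k F] (d : F)
      (e : τ → F), d ≠ 0 → aeval (fun o => o.elim d e) Q = d ^ N * aeval (fun t => e t / d) P := by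
  induction P using MvPolynomial.induction_on with
  | C c => exact ⟨0, C c, fun F _ _ d e hd => by simp⟩
  | add p q hp hq =>
    obtain ⟨N, Q, hQ⟩ := hp
    obtain ⟨N', Q', hQ'⟩ := hq
    refine ⟨N + N', X none ^ N' * Q + X none ^ N * Q', fun F _ _ d e hd => ?_⟩
    rw [map_add, map_mul, map_mul, map_pow, map_pow, aeval_X, hQ F d e hd, hQ' F d e hd, map_add]
    simp only [Option.elim]
    ring
  | mul_X p t hp =>
    obtain ⟨N, Q, hQ⟩ := hp
    refine ⟨N + 1, Q * X (some t), fun F _ _ d e hd => ?_⟩
    rw [map_mul, hQ F d e hd, aeval_X, map_mul, aeval_X]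
    simp only [Option.elim]
    field_simp
    ring

section Chart

variable {k : Type u} [Field k] {n r : ℕ} {τ : Type*}

/-- The coordinates in the chart given by the monomials `B`. -/
noncomputable def yy (B : Fin r → (Fin n →₀ ℕ)) (μ : τ → (Fin n →₀ ℕ)) (α : τ → Fin r)
    (z : (Fin n × Fin r × Fin r) ⊕ Fin r → k) : τ → k :=
  fun t => EE z B (μ t) (α t) / DD z B

/-- The set of ideals that are outside the chart `B`, or whose coordinates in the chart satisfy
the equation `P`. -/
def ZP (B : Fin r → (Fin n →₀ ℕ)) (μ : τ → (Fin n →₀ ℕ)) (α : τ → Fin r)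
    (P : MvPolynomial τ k) : Set (HilbPt k n r) :=
  {I | ∀ b : Module.Basis (Fin r) k (MvPolynomial (Fin n) k ⧸ I.1),
    DD (coords b) B ≠ 0 → eval (yy B μ α (coords b)) P = 0}

/-- The chart coordinates do not depend on the basis. -/
theorem yy_eq {I : Ideal (MvPolynomial (Fin n) k)}
    (b b' : Module.Basis (Fin r) k (MvPolynomial (Fin n) k ⧸ I))
    (B : Fin r → (Fin n →₀ ℕ)) (μ : τ → (Fin n →₀ ℕ)) (α : τ → Fin r)
    (h : DD (coords b) B ≠ 0) : DD (coords b') B ≠ 0 ∧
      yy B μ α (coords b) = yy B μ α (coords b') := by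
  have h' : DD (coords b') B ≠ 0 := by
    rw [DD_coords_ne_zero_iff] at h ⊢
    exact h
  refine ⟨h', ?_⟩
  funext t
  have e1 := cramer b B h (μ t)
  have e2 := cramer b' B h' (μ t)
  have hli := ((DD_coords_ne_zero_iff b B).mp h).1
  have e3 : ∑ a, (EE (coords b) B (μ t) a / DD (coords b) B
      - EE (coords b') B (μ t) a / DD (coords b') B)
      • xm k (MvPolynomial (Fin n) k ⧸ I) (B a) = 0 := by
    simp only [sub_smul, Finset.sum_sub_distrib]
    rw [← e1, ← e2, sub_self]
  have := Fintype.linearIndependent_iff.mp hli _ e3 (α t)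
  exact sub_eq_zero.mp this

theorem isClosed_ZP (B : Fin r → (Fin n →₀ ℕ)) (μ : τ → (Fin n →₀ ℕ)) (α : τ → Fin r)
    (P : MvPolynomial τ k) : IsClosed (ZP B μ α P) := by
  rw [isClosed_iff]
  obtain ⟨N, Q, hQ⟩ := homog P
  -- the polynomial in the entries
  refine ⟨{DD X B * aeval (fun o : Option τ => o.elim (DD X B) (fun t => EE X B (μ t) (α t))) Q},
    fun I b => ?_⟩
  simp only [Set.mem_singleton_iff, forall_eq]
  have hD : eval (coords b) (DD X B) = DD (coords b) B := by
    rw [← DD_map]; congr 1; funext s; simp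
  have hE : ∀ t, eval (coords b) (EE X B (μ t) (α t)) = EE (coords b) B (μ t) (α t) := by
    intro t
    rw [← EE_map]; congr 1; funext s; simp
  have hQ2 : eval (coords b)
      (aeval (fun o : Option τ => o.elim (DD X B) (fun t => EE X B (μ t) (α t))) Q)
      = aeval (fun o : Option τ => o.elim (DD (coords b) B)
        (fun t => EE (coords b) B (μ t) (α t))) Q := by
    rw [aeval_def, MvPolynomial.hom_eval₂, aeval_def]
    congr 1
    · ext c; simp
    · funext o
      cases o with
      | none => exact hD
      | some t => exact hE t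
  rw [map_mul, hD, hQ2]
  constructor
  · intro hI
    by_cases h : DD (coords b) B = 0
    · rw [h, zero_mul]
    · have e1 := hI b h
      rw [hQ k _ _ h]
      have e2 : aeval (fun t => EE (coords b) B (μ t) (α t) / DD (coords b) B) P = 0 := e1
      rw [e2, mul_zero, mul_zero]
  · intro h b' hb'
    obtain ⟨hb, e⟩ := yy_eq b' b B μ α hb'
    rw [e]
    rw [hQ k _ _ hb] at h
    have h1 := (mul_eq_zero.mp h).resolve_left hb
    have h2 := (mul_eq_zero.mp h1).resolve_left (pow_ne_zero N hb)
    exact h2

end Chart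

section Dependence

variable {k : Type u} [Field k] {n r : ℕ}

/-- The entries allowed by the band pattern `c`: the matrix entries `(l, i, j)` with
`c i = c j`, and all entries of the vector. -/
def band (c : Fin r → Fin r) (s : (Fin n × Fin r × Fin r) ⊕ Fin r) : Prop :=
  match s with
  | .inl (_, i, j) => c i = c j
  | .inr _ => True

instance (c : Fin r → Fin r) : DecidablePred (band (n := n) c) := fun s => by
  unfold band
  match s with
  | .inl (_, i, j) => exact inferInstanceAs (Decidable (c i = c j))
  | .inr _ => exact inferInstanceAs (Decidable True)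

theorem card_band (c : Fin r → Fin r) (R : ℕ)
    (hc : ∀ a, (Finset.univ.filter (fun i => c i = a)).card ≤ R) :
    Fintype.card {s : (Fin n × Fin r × Fin r) ⊕ Fin r // band c s} ≤ n * (r * R) + r := by
  classical
  have e : {s : (Fin n × Fin r × Fin r) ⊕ Fin r // band c s} ↪
      (Fin n × (Σ i : Fin r, {j : Fin r // c j = c i})) ⊕ Fin r :=
    { toFun := fun s => match s with
        | ⟨.inl (l, i, j), h⟩ => .inl (l, ⟨i, ⟨j, Eq.symm h⟩⟩)
        | ⟨.inr i, _⟩ => .inr i
      inj' := by
        rintro ⟨(⟨l, i, j⟩ | i), h⟩ ⟨(⟨l', i', j'⟩ | i'), h'⟩ heq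
        · simp only [Sum.inl.injEq, Prod.mk.injEq, Sigma.mk.injEq] at heq
          obtain ⟨rfl, rfl, h3⟩ := heq
          have := eq_of_heq h3
          simp only [Subtype.mk.injEq] at this
          subst this
          rfl
        · simp at heq
        · simp at heq
        · simp only [Sum.inr.injEq] at heq
          subst heq
          rfl }
  refine le_trans (Fintype.card_le_of_embedding e) ?_
  rw [Fintype.card_sum, Fintype.card_prod, Fintype.card_fin, Fintype.card_fin, Fintype.card_sigma]
  refine Nat.add_le_add_right (Nat.mul_le_mul_left _ ?_) _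
  calc ∑ i : Fin r, Fintype.card {j : Fin r // c j = c i}
      ≤ ∑ _i : Fin r, R := by
        refine Finset.sum_le_sum fun i _ => ?_
        rw [Fintype.card_subtype]
        exact hc (c i)
    _ = r * R := by simp

theorem not_algInd {σ τ : Type} [Fintype σ] [Fintype τ] (h : Fintype.card σ < Fintype.card τ)
    (f : τ → FractionRing (MvPolynomial σ k)) : ¬ AlgebraicIndependent k f := by
  intro hf
  have h1 := hf.lift_cardinalMk_le_trdeg
  have halg : Algebra.IsAlgebraic (MvPolynomial σ k) (FractionRing (MvPolynomial σ k)) :=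
    IsLocalization.isAlgebraic _ (nonZeroDivisors (MvPolynomial σ k))
  have h2 := _root_.trdeg_add_eq k (MvPolynomial σ k) (A := FractionRing (MvPolynomial σ k))
  have h3 : Algebra.trdeg (MvPolynomial σ k) (FractionRing (MvPolynomial σ k)) = 0 :=
    _root_.trdeg_eq_zero
  rw [h3, add_zero, MvPolynomial.trdeg_of_isDomain] at h2
  rw [← h2] at h1
  simp only [Cardinal.mk_fintype, Cardinal.lift_natCast] at h1
  have h4 : Fintype.card τ ≤ Fintype.card σ := by exact_mod_cast h1
  omega

/-- On band matrices the chart coordinates satisfy a nontrivial polynomial relation as soon as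
there are more coordinates than free entries. -/
theorem dependent (R : ℕ) (c : Fin r → Fin r)
    (hc : ∀ a, (Finset.univ.filter (fun i => c i = a)).card ≤ R)
    {τ : Type} [Fintype τ] (hτ : n * (r * R) + r < Fintype.card τ)
    (B : Fin r → (Fin n →₀ ℕ)) (μ : τ → (Fin n →₀ ℕ)) (α : τ → Fin r) :
    ∃ P : MvPolynomial τ k, P ≠ 0 ∧ ∀ z : (Fin n × Fin r × Fin r) ⊕ Fin r → k,
      (∀ l i j, c i ≠ c j → z (.inl (l, i, j)) = 0) → DD z B ≠ 0 →
        eval (yy B μ α z) P = 0 := by
  classical
  let σc := {s : (Fin n × Fin r × Fin r) ⊕ Fin r // band c s}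
  let zg : (Fin n × Fin r × Fin r) ⊕ Fin r → MvPolynomial σc k :=
    fun s => if h : band c s then X ⟨s, h⟩ else 0
  -- specialisation
  have hspec : ∀ z : (Fin n × Fin r × Fin r) ⊕ Fin r → k,
      (∀ l i j, c i ≠ c j → z (.inl (l, i, j)) = 0) →
      (fun s => (eval (fun s : σc => z s.1)) (zg s)) = z := by
    intro z hz
    funext s
    by_cases h : band c s
    · simp only [zg, dif_pos h, eval_X]
    · simp only [zg, dif_neg h, map_zero]
      match s, h with
      | .inl (l, i, j), h => exact (hz l i j h).symm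
      | .inr i, h => exact absurd trivial h
  have hD : ∀ z : (Fin n × Fin r × Fin r) ⊕ Fin r → k,
      (∀ l i j, c i ≠ c j → z (.inl (l, i, j)) = 0) →
      DD z B = eval (fun s : σc => z s.1) (DD zg B) := by
    intro z hz
    rw [← DD_map, hspec z hz]
  have hE : ∀ z : (Fin n × Fin r × Fin r) ⊕ Fin r → k,
      (∀ l i j, c i ≠ c j → z (.inl (l, i, j)) = 0) → ∀ t,
      EE z B (μ t) (α t) = eval (fun s : σc => z s.1) (EE zg B (μ t) (α t)) := by
    intro z hz t
    rw [← EE_map, hspec z hz]
  by_cases hDg : DD zg B = 0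
  · refine ⟨1, one_ne_zero, fun z hz hDz => ?_⟩
    rw [hD z hz, hDg, map_zero] at hDz
    exact absurd rfl hDz
  let K := FractionRing (MvPolynomial σc k)
  let aM : MvPolynomial σc k →+* K := algebraMap _ _
  have haM : Function.Injective aM := IsFractionRing.injective _ _
  have hcard : Fintype.card σc < Fintype.card τ := lt_of_le_of_lt (card_band c R hc) hτ
  have hnot := not_algInd (k := k) hcard
    (fun t : τ => aM (EE zg B (μ t) (α t)) / aM (DD zg B))
  rw [algebraicIndependent_iff] at hnot
  push Not at hnot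
  obtain ⟨P, hP0, hPne⟩ := hnot
  refine ⟨P, hPne, fun z hz hDz => ?_⟩
  obtain ⟨N, Q, hQ⟩ := homog P
  have hDK : aM (DD zg B) ≠ 0 := fun h => hDg (haM (by rw [h, map_zero]))
  have h1 := hQ K (aM (DD zg B)) (fun t => aM (EE zg B (μ t) (α t))) hDK
  rw [hP0, mul_zero] at h1
  have h2 : aeval (fun o : Option τ => o.elim (DD zg B) (fun t => EE zg B (μ t) (α t))) Q
      = (0 : MvPolynomial σc k) := by
    apply haM
    rw [map_zero, ← h1, aeval_def, MvPolynomial.hom_eval₂, aeval_def]
    congr 1
    funext o
    cases o <;> rfl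
  have h3 : aeval (fun o : Option τ => o.elim (DD z B) (fun t => EE z B (μ t) (α t))) Q
      = (0 : k) := by
    have := congrArg (eval (fun s : σc => z s.1)) h2
    rw [map_zero, aeval_def, MvPolynomial.hom_eval₂] at this
    rw [← this, aeval_def]
    congr 1
    · ext c; simp
    · funext o
      cases o with
      | none => exact hD z hz
      | some t => exact hE z hz t
  rw [hQ k _ _ hDz] at h3
  exact (mul_eq_zero.mp h3).resolve_left (pow_ne_zero N hDz)

end Dependence

end Pool.Agent.Helper15.Hilb
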