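import Mathlib

/-!
# The Hilbert scheme of points on affine space: closed points and Zariski topology

`HilbPt k n r` is the set of ideals of `k[x_1, ..., x_n]` of colength `r`, that is, the set of
closed points of the Hilbert scheme of `r` points on affine `n`-space.  Its Zariski topology is
described by matrices: for an ideal `I` of colength `r` and a basis `b` of `k[x_1, ..., x_n]/I`,
`coords b` consists of the entries of the matrices of multiplication by `x_1, ..., x_n` in the
basis `b`, and of the coordinates of `1`.  The pairs `(I, b)` form the space of commuting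
`n`-tuples of `r × r` matrices with a cyclic vector, the Hilbert scheme is its quotient by the
base change group, and a set of ideals is closed if and only if its preimage in that space is
the zero locus of some set of polynomials in the entries.
-/

namespace Pool.Agent.Helper15.Hilb

open MvPolynomial

universe u

/-- The closed points of the Hilbert scheme of `r` points on `𝔸ⁿ` over `k`: the ideals of
`k[x_1, ..., x_n]` of colength `r`. -/
def HilbPt (k : Type u) [Field k] (n r : ℕ) : Type u :=
  {I : Ideal (MvPolynomial (Fin n) k) //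
    Module.Finite k (MvPolynomial (Fin n) k ⧸ I) ∧
    Module.finrank k (MvPolynomial (Fin n) k ⧸ I) = r}

/-- For a `k`-basis `b` of an algebra `A` over `k[x_1, ..., x_n]`: the entries
`coords b (inl (l, i, j))` of the matrices of multiplication by the variables `x_l`, and the
coordinates `coords b (inr i)` of `1`. -/
noncomputable def coords {k : Type*} [Field k] {n : ℕ} {A : Type*} [CommRing A] [Algebra k A]
    [Algebra (MvPolynomial (Fin n) k) A] {ι : Type*} (b : Module.Basis ι k A) :
    (Fin n × ι × ι) ⊕ ι → k
  | .inl (l, i, j) => b.repr (algebraMap (MvPolynomial (Fin n) k) A (X l) * b j) i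
  | .inr i => b.repr 1 i

/-- Zariski closed sets of ideals of colength `r`: the sets `Z` for which there is a set `T` of
polynomials in the coordinates such that, for every ideal `I` of colength `r` and every basis
`b` of the quotient, `I` is in `Z` if and only if all elements of `T` vanish at `coords b`. -/
def IsZariskiClosed {k : Type u} [Field k] {n r : ℕ} (Z : Set (HilbPt k n r)) : Prop :=
  ∃ T : Set (MvPolynomial ((Fin n × Fin r × Fin r) ⊕ Fin r) k),
    ∀ (I : HilbPt k n r) (b : Module.Basis (Fin r) k (MvPolynomial (Fin n) k ⧸ I.1)),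
      I ∈ Z ↔ ∀ p ∈ T, eval (coords b) p = 0

/-- The Zariski topology. -/
instance zariskiTopology (k : Type u) [Field k] (n r : ℕ) : TopologicalSpace (HilbPt k n r) :=
  TopologicalSpace.ofClosed {Z | IsZariskiClosed Z}
    ⟨{1}, fun I b => by simp⟩
    (by
      intro A hA
      have hA' : ∀ Z ∈ A, ∃ T : Set (MvPolynomial ((Fin n × Fin r × Fin r) ⊕ Fin r) k),
          ∀ (I : HilbPt k n r) (b : Module.Basis (Fin r) k (MvPolynomial (Fin n) k ⧸ I.1)),
            I ∈ Z ↔ ∀ p ∈ T, eval (coords b) p = 0 := fun Z hZ => hA hZ
      choose! T hT using hA'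
      refine ⟨⋃ Z ∈ A, T Z, fun I b => ?_⟩
      rw [Set.mem_sInter]
      constructor
      · intro h p hp
        rw [Set.mem_iUnion₂] at hp
        obtain ⟨Z, hZ, hpZ⟩ := hp
        exact (hT Z hZ I b).mp (h Z hZ) p hpZ
      · intro h Z hZ
        refine (hT Z hZ I b).mpr fun p hp => h p ?_
        rw [Set.mem_iUnion₂]
        exact ⟨Z, hZ, hp⟩)
    (by
      rintro Z₁ ⟨T₁, h₁⟩ Z₂ ⟨T₂, h₂⟩
      refine ⟨{p | ∃ p₁ ∈ T₁, ∃ p₂ ∈ T₂, p = p₁ * p₂}, fun I b => ?_⟩
      constructor
      · rintro (h | h) p ⟨p₁, hp₁, p₂, hp₂, rfl⟩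
        · rw [map_mul, (h₁ I b).mp h p₁ hp₁, zero_mul]
        · rw [map_mul, (h₂ I b).mp h p₂ hp₂, mul_zero]
      · intro h
        by_cases hI : I ∈ Z₁
        · exact Or.inl hI
        · refine Or.inr ((h₂ I b).mpr fun p₂ hp₂ => ?_)
          rw [h₁ I b] at hI
          push Not at hI
          obtain ⟨p₁, hp₁, hne⟩ := hI
          have := h (p₁ * p₂) ⟨p₁, hp₁, p₂, hp₂, rfl⟩
          rw [map_mul] at this
          exact (mul_eq_zero.mp this).resolve_left hne)

/-- An irreducible component `C` of the Hilbert scheme of `r` points is elementary if the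
subscheme corresponding to a general point of `C` is irreducible: there is an open set `U`
meeting `C` such that `Spec (k[x_1, ..., x_n]/I)` is irreducible for all `I ∈ C ∩ U`. -/
def IsElementary {k : Type u} [Field k] {n r : ℕ} (C : Set (HilbPt k n r)) : Prop :=
  C ∈ irreducibleComponents (HilbPt k n r) ∧
    ∃ U : Set (HilbPt k n r), IsOpen U ∧ (C ∩ U).Nonempty ∧
      ∀ I ∈ C ∩ U, IrreducibleSpace (PrimeSpectrum (MvPolynomial (Fin n) k ⧸ I.1))

theorem isClosed_iff {k : Type u} [Field k] {n r : ℕ} (Z : Set (HilbPt k n r)) :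
    IsClosed Z ↔ IsZariskiClosed Z := by
  rw [← isOpen_compl_iff]
  show IsZariskiClosed Zᶜᶜ ↔ IsZariskiClosed Z
  rw [compl_compl]

end Pool.Agent.Helper15.Hilb
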