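import Pool.Agent.Helper15.HilbSlice

/-!
# Density of the locus of band matrices when there are no elementary components
-/

namespace Pool.Agent.Helper15.Hilb

open MvPolynomial

universe u

variable {k : Type u} [Field k] {n r r₁ r₂ : ℕ}

/-- The ideal `I` is presented by block matrices with blocks of size at most `R`. -/
def BandPt (R : ℕ) (I : HilbPt k n r) : Prop :=
  ∃ (b : Module.Basis (Fin r) k (MvPolynomial (Fin n) k ⧸ I.1)) (c : Fin r → Fin r),
    (∀ a, (Finset.univ.filter (fun i => c i = a)).card ≤ R) ∧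
    ∀ (l : Fin n) (i j : Fin r), c i ≠ c j → coords (n := n) b (.inl (l, i, j)) = 0

theorem bandPt_of_le {R : ℕ} (h : r ≤ R) (I : HilbPt k n r) : BandPt R I := by
  classical
  rcases Nat.eq_zero_or_pos r with h0 | h0
  · subst h0
    exact ⟨I.basis, id, fun a => a.elim0, fun l i => i.elim0⟩
  · refine ⟨I.basis, fun _ => ⟨0, h0⟩, fun a => ?_, fun l i j hij => absurd rfl hij⟩
    refine le_trans (Finset.card_le_univ _) ?_
    rw [Fintype.card_fin]
    exact h

theorem bandPt_sum {R : ℕ} (e : Fin r₁ ⊕ Fin r₂ ≃ Fin r) (I₁ : HilbPt k n r₁)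
    (I₂ : HilbPt k n r₂) (h₁ : BandPt R I₁) (h₂ : BandPt R I₂) (K : HilbPt k n r)
    (hcop : IsCoprime I₁.1 I₂.1) (hK : K.1 = I₁.1 ⊓ I₂.1) : BandPt R K := by
  classical
  obtain ⟨K, hK1, hK2⟩ := K
  simp only at hK
  subst hK
  obtain ⟨b₁, c₁, hc₁, hz₁⟩ := h₁
  obtain ⟨b₂, c₂, hc₂, hz₂⟩ := h₂
  refine ⟨(sumBasis b₁ b₂ e).map (crt _ _ hcop).symm,
    fun i => e (Sum.map c₁ c₂ (e.symm i)), fun a => ?_, fun l i j hij => ?_⟩
  · rcases ha : e.symm a with a₁ | a₂
    · have hsub : (Finset.univ.filter (fun i => e (Sum.map c₁ c₂ (e.symm i)) = a)) ⊆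
          (Finset.univ.filter (fun i₁ => c₁ i₁ = a₁)).image (fun i₁ => e (Sum.inl i₁)) := by
        intro i hi
        rw [Finset.mem_filter] at hi
        have hi2 : Sum.map c₁ c₂ (e.symm i) = Sum.inl a₁ := by
          rw [← ha, ← hi.2, Equiv.symm_apply_apply]
        rw [Finset.mem_image]
        rcases hi3 : e.symm i with i₁ | i₂
        · rw [hi3, Sum.map_inl, Sum.inl.injEq] at hi2
          refine ⟨i₁, by rw [Finset.mem_filter]; exact ⟨Finset.mem_univ _, hi2⟩, ?_⟩
          rw [← hi3, Equiv.apply_symm_apply]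
        · rw [hi3, Sum.map_inr] at hi2
          exact absurd hi2 (by simp)
      exact le_trans (Finset.card_le_card hsub) (le_trans Finset.card_image_le (hc₁ a₁))
    · have hsub : (Finset.univ.filter (fun i => e (Sum.map c₁ c₂ (e.symm i)) = a)) ⊆
          (Finset.univ.filter (fun i₂ => c₂ i₂ = a₂)).image (fun i₂ => e (Sum.inr i₂)) := by
        intro i hi
        rw [Finset.mem_filter] at hi
        have hi2 : Sum.map c₁ c₂ (e.symm i) = Sum.inr a₂ := by
          rw [← ha, ← hi.2, Equiv.symm_apply_apply]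
        rw [Finset.mem_image]
        rcases hi3 : e.symm i with i₁ | i₂
        · rw [hi3, Sum.map_inl] at hi2
          exact absurd hi2 (by simp)
        · rw [hi3, Sum.map_inr, Sum.inr.injEq] at hi2
          refine ⟨i₂, by rw [Finset.mem_filter]; exact ⟨Finset.mem_univ _, hi2⟩, ?_⟩
          rw [← hi3, Equiv.apply_symm_apply]
      exact le_trans (Finset.card_le_card hsub) (le_trans Finset.card_image_le (hc₂ a₂))
  · rw [coords_crt, coords_sum_inl]
    rcases hi : e.symm i with i₁ | i₂ <;> rcases hj : e.symm j with j₁ | j₂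
    · refine hz₁ l i₁ j₁ fun h => hij ?_
      simp only
      rw [hi, hj, Sum.map_inl, Sum.map_inl, h]
    · rfl
    · rfl
    · refine hz₂ l i₂ j₂ fun h => hij ?_
      simp only
      rw [hi, hj, Sum.map_inr, Sum.map_inr, h]

/-- A finite algebra whose spectrum is not irreducible is a product. -/
theorem exists_decomposition (I : HilbPt k n r) (hr : 0 < r)
    (h : ¬ IrreducibleSpace (PrimeSpectrum (MvPolynomial (Fin n) k ⧸ I.1))) :
    ∃ (r₁ r₂ : ℕ) (J₁ : HilbPt k n r₁) (J₂ : HilbPt k n r₂), r₁ + r₂ = r ∧ r₁ < r ∧ r₂ < r ∧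
      IsCoprime J₁.1 J₂.1 ∧ I.1 = J₁.1 ⊓ J₂.1 := by
  classical
  obtain ⟨I, hfin, hrank⟩ := I
  simp only at h ⊢
  have hfin' := hfin
  have hnt : Nontrivial (MvPolynomial (Fin n) k ⧸ I) := by
    apply Module.nontrivial_of_finrank_pos (R := k)
    omega
  have : IsArtinianRing (MvPolynomial (Fin n) k ⧸ I) := IsArtinianRing.of_finite k _
  -- two distinct points
  obtain ⟨p, q, hpq⟩ : ∃ p q : PrimeSpectrum (MvPolynomial (Fin n) k ⧸ I), p ≠ q := by
    by_contra hcon
    push Not at hcon
    have : Subsingleton (PrimeSpectrum (MvPolynomial (Fin n) k ⧸ I)) := ⟨hcon⟩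
    apply h
    have : Nonempty (PrimeSpectrum (MvPolynomial (Fin n) k ⧸ I)) := inferInstance
    exact { toPreirreducibleSpace := inferInstance, toNonempty := inferInstance }
  have hclopen : IsClopen ({p} : Set (PrimeSpectrum (MvPolynomial (Fin n) k ⧸ I))) :=
    isClopen_discrete _
  obtain ⟨ε, hε, hpe⟩ := PrimeSpectrum.exists_idempotent_basicOpen_eq_of_isClopen hclopen
  have hε0 : ε ≠ 0 := by
    rintro rfl
    have : p ∈ (↑(PrimeSpectrum.basicOpen (0 : MvPolynomial (Fin n) k ⧸ I)) : Set _) := by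
      rw [← hpe]; rfl
    simp at this
  have hε1 : ε ≠ 1 := by
    rintro rfl
    have : q ∈ (↑(PrimeSpectrum.basicOpen (1 : MvPolynomial (Fin n) k ⧸ I)) : Set _) := by
      simp
    rw [← hpe] at this
    exact hpq this.symm
  obtain ⟨f, hf⟩ := Ideal.Quotient.mk_surjective ε
  -- the two ideals
  set J₁ : Ideal (MvPolynomial (Fin n) k) := I ⊔ Ideal.span {f} with hJ₁
  set J₂ : Ideal (MvPolynomial (Fin n) k) := I ⊔ Ideal.span {1 - f} with hJ₂
  have hff : f * (1 - f) ∈ I := by
    rw [← Ideal.Quotient.eq_zero_iff_mem, map_mul, map_sub, map_one, hf, mul_sub, mul_one,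
      hε.eq, sub_self]
  have hcop : IsCoprime J₁ J₂ := by
    rw [Ideal.isCoprime_iff_exists]
    exact ⟨f, Ideal.mem_sup_right (Ideal.mem_span_singleton_self f), 1 - f,
      Ideal.mem_sup_right (Ideal.mem_span_singleton_self (1 - f)), by ring⟩
  have hinf : I = J₁ ⊓ J₂ := by
    apply le_antisymm
    · exact le_inf le_sup_left le_sup_left
    · rintro x ⟨hx1, hx2⟩
      -- `x = x f + x (1 - f)`
      have h1 : x * (1 - f) ∈ I := by
        obtain ⟨y, hy, z, hz, rfl⟩ := Submodule.mem_sup.mp hx1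
        obtain ⟨w, rfl⟩ := Ideal.mem_span_singleton'.mp hz
        have : (y + w * f) * (1 - f) = y * (1 - f) + w * (f * (1 - f)) := by ring
        rw [this]
        exact I.add_mem (I.mul_mem_right _ hy) (I.mul_mem_left _ hff)
      have h2 : x * f ∈ I := by
        obtain ⟨y, hy, z, hz, rfl⟩ := Submodule.mem_sup.mp hx2
        obtain ⟨w, rfl⟩ := Ideal.mem_span_singleton'.mp hz
        have : (y + w * (1 - f)) * f = y * f + w * (f * (1 - f)) := by ring
        rw [this]
        exact I.add_mem (I.mul_mem_right _ hy) (I.mul_mem_left _ hff)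
      have : x = x * (1 - f) + x * f := by ring
      rw [this]
      exact I.add_mem h1 h2
  have hJ₁top : J₁ ≠ ⊤ := by
    intro htop
    have h1 : (1 : MvPolynomial (Fin n) k) ∈ J₁ := by rw [htop]; trivial
    obtain ⟨y, hy, z, hz, hyz⟩ := Submodule.mem_sup.mp h1
    obtain ⟨w, rfl⟩ := Ideal.mem_span_singleton'.mp hz
    have h2 : Ideal.Quotient.mk I w * ε = 1 := by
      have h3 : Ideal.Quotient.mk I (w * f) = Ideal.Quotient.mk I 1 := by
        rw [Ideal.Quotient.eq]
        have : w * f - 1 = -y := by linear_combination hyz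
        rw [this]
        exact I.neg_mem hy
      rw [map_mul, hf, map_one] at h3
      exact h3
    apply hε1
    calc ε = (Ideal.Quotient.mk I w * ε) * ε := by rw [h2, one_mul]
      _ = Ideal.Quotient.mk I w * (ε * ε) := mul_assoc _ _ _
      _ = 1 := by rw [hε.eq, h2]
  have hJ₂top : J₂ ≠ ⊤ := by
    intro htop
    have h1 : (1 : MvPolynomial (Fin n) k) ∈ J₂ := by rw [htop]; trivial
    obtain ⟨y, hy, z, hz, hyz⟩ := Submodule.mem_sup.mp h1
    obtain ⟨w, rfl⟩ := Ideal.mem_span_singleton'.mp hz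
    have h2 : Ideal.Quotient.mk I w * (1 - ε) = 1 := by
      have h3 : Ideal.Quotient.mk I (w * (1 - f)) = Ideal.Quotient.mk I 1 := by
        rw [Ideal.Quotient.eq]
        have : w * (1 - f) - 1 = -y := by linear_combination hyz
        rw [this]
        exact I.neg_mem hy
      rw [map_mul, map_sub, hf, map_one] at h3
      exact h3
    apply hε0
    have h3 : (1 - ε) * (1 - ε) = 1 - ε := hε.one_sub.eq
    have h4 : (1 : MvPolynomial (Fin n) k ⧸ I) - ε = 1 := by
      calc 1 - ε = (Ideal.Quotient.mk I w * (1 - ε)) * (1 - ε) := by rw [h2, one_mul]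
        _ = Ideal.Quotient.mk I w * ((1 - ε) * (1 - ε)) := mul_assoc _ _ _
        _ = 1 := by rw [h3, h2]
    linear_combination -h4
  clear_value J₁ J₂
  subst hinf
  have hfinprod : Module.Finite k
      ((MvPolynomial (Fin n) k ⧸ J₁) × (MvPolynomial (Fin n) k ⧸ J₂)) :=
    Module.Finite.equiv (crt J₁ J₂ hcop)
  have hfin₁ : Module.Finite k (MvPolynomial (Fin n) k ⧸ J₁) :=
    Module.Finite.of_surjective (LinearMap.fst k _ (MvPolynomial (Fin n) k ⧸ J₂))
      LinearMap.fst_surjective
  have hfin₂ : Module.Finite k (MvPolynomial (Fin n) k ⧸ J₂) :=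
    Module.Finite.of_surjective (LinearMap.snd k (MvPolynomial (Fin n) k ⧸ J₁) _)
      LinearMap.snd_surjective
  have hsum : Module.finrank k (MvPolynomial (Fin n) k ⧸ J₁)
      + Module.finrank k (MvPolynomial (Fin n) k ⧸ J₂) = r := by
    rw [← Module.finrank_prod, ← (crt J₁ J₂ hcop).finrank_eq, hrank]
  have : Nontrivial (MvPolynomial (Fin n) k ⧸ J₁) := Ideal.Quotient.nontrivial_iff.mpr hJ₁top
  have : Nontrivial (MvPolynomial (Fin n) k ⧸ J₂) := Ideal.Quotient.nontrivial_iff.mpr hJ₂top
  have hp1 : 0 < Module.finrank k (MvPolynomial (Fin n) k ⧸ J₁) := Module.finrank_pos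
  have hp2 : 0 < Module.finrank k (MvPolynomial (Fin n) k ⧸ J₂) := Module.finrank_pos
  exact ⟨_, _, ⟨J₁, hfin₁, rfl⟩, ⟨J₂, hfin₂, rfl⟩, hsum, by omega, by omega, hcop, rfl⟩

/-- If there are no elementary components in lengths `> R` (up to `N`), then the band locus is
dense in all lengths up to `N`. -/
theorem band_dense (R N : ℕ) (hno : ∀ r, R < r → r ≤ N → ∀ C : Set (HilbPt k n r),
    ¬ IsElementary C) :
    ∀ r, r ≤ N → closure {I : HilbPt k n r | BandPt R I} = Set.univ := by
  intro r
  induction r using Nat.strong_induction_on with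
  | _ r ih =>
    intro hrN
    by_cases hrR : r ≤ R
    · have : {I : HilbPt k n r | BandPt R I} = Set.univ := by
        ext I
        simp only [Set.mem_ofPred_eq, Set.mem_univ, iff_true]
        exact bandPt_of_le hrR I
      rw [this, closure_univ]
    · push Not at hrR
      set Z : Set (HilbPt k n r) := closure {I : HilbPt k n r | BandPt R I} with hZ
      have hZc : IsClosed Z := isClosed_closure
      -- the nonpunctual locus is dense
      have hdense : closure {J : HilbPt k n r |
          ¬ IrreducibleSpace (PrimeSpectrum (MvPolynomial (Fin n) k ⧸ J.1))} = Set.univ := by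
        ext I
        simp only [Set.mem_univ, iff_true]
        rw [mem_closure_iff]
        intro U hU hIU
        have hC := hno r hrR hrN (irreducibleComponent I)
        unfold IsElementary at hC
        rw [not_and] at hC
        have h1 := hC (irreducibleComponent_mem_irreducibleComponents I)
        push Not at h1
        obtain ⟨J, hJ, hJ'⟩ := h1 U hU ⟨I, mem_irreducibleComponent, hIU⟩
        exact ⟨J, hJ.2, hJ'⟩
      rw [← Set.univ_subset_iff, ← hdense]
      refine closure_minimal ?_ hZc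
      intro J hJ
      obtain ⟨r₁, r₂, J₁, J₂, hsum, hlt₁, hlt₂, hcop, hinf⟩ :=
        exists_decomposition J (by omega) hJ
      have e : Fin r₁ ⊕ Fin r₂ ≃ Fin r := finSumFinEquiv.trans (finCongr hsum)
      have ih₁ := ih r₁ hlt₁ (by omega)
      have ih₂ := ih r₂ hlt₂ (by omega)
      -- first slice
      have step1 : ∀ J₂' : HilbPt k n r₂, BandPt R J₂' → ∀ J₁' : HilbPt k n r₁,
          ∀ K : HilbPt k n r, IsCoprime J₁'.1 J₂'.1 → K.1 = J₁'.1 ⊓ J₂'.1 → K ∈ Z := by
        intro J₂' hJ₂' J₁'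
        have hcl := isClosed_slice J₂' e Z hZc
        have hsub : {I : HilbPt k n r₁ | BandPt R I} ⊆
            {J₁ : HilbPt k n r₁ | ∀ K : HilbPt k n r, IsCoprime J₁.1 J₂'.1 →
              K.1 = J₁.1 ⊓ J₂'.1 → K ∈ Z} := by
          intro I hI K hcop' hK
          exact subset_closure (bandPt_sum e I J₂' hI hJ₂' K hcop' hK)
        have h2 := closure_minimal hsub hcl
        rw [ih₁] at h2
        exact h2 (Set.mem_univ J₁')
      -- second slice
      have e' : Fin r₂ ⊕ Fin r₁ ≃ Fin r := (Equiv.sumComm _ _).trans e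
      have hcl := isClosed_slice J₁ e' Z hZc
      have hsub : {I : HilbPt k n r₂ | BandPt R I} ⊆
          {J₂ : HilbPt k n r₂ | ∀ K : HilbPt k n r, IsCoprime J₂.1 J₁.1 →
            K.1 = J₂.1 ⊓ J₁.1 → K ∈ Z} := by
        intro I hI K hcop' hK
        exact step1 I hI J₁ K hcop'.symm (by rw [hK, inf_comm])
      have h2 := closure_minimal hsub hcl
      rw [ih₂] at h2
      exact h2 (Set.mem_univ J₂) J hcop.symm (by rw [hinf, inf_comm])

end Pool.Agent.Helper15.Hilb
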