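import Pool.Agent.Helper15.HilbDefs

/-!
# Generic matrices, monomials applied to the cyclic vector, and Cramer's rule
-/

namespace Pool.Agent.Helper15.Hilb

open MvPolynomial

universe u

section Generic

variable {n : ℕ} {ι : Type*} [Fintype ι] [DecidableEq ι] {R R' : Type*} [CommRing R] [CommRing R']

/-- The `l`-th matrix of a coordinate vector. -/
def gmat (z : (Fin n × ι × ι) ⊕ ι → R) (l : Fin n) : Matrix ι ι R := fun i j => z (.inl (l, i, j))

/-- The cyclic vector of a coordinate vector. -/
def gvec (z : (Fin n × ι × ι) ⊕ ι → R) : ι → R := fun i => z (.inr i)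

/-- The monomial with exponent `m`, in the matrices, applied to the cyclic vector. -/
def monv (z : (Fin n × ι × ι) ⊕ ι → R) (m : Fin n →₀ ℕ) : ι → R :=
  ((List.finRange n).map (fun l => gmat z l ^ m l)).prod.mulVec (gvec z)

/-- The matrix whose columns are the vectors `monv z (B a)`. -/
def mMat (z : (Fin n × ι × ι) ⊕ ι → R) (B : ι → (Fin n →₀ ℕ)) : Matrix ι ι R :=
  fun i a => monv z (B a) i

/-- The determinant of `mMat`. -/
def DD (z : (Fin n × ι × ι) ⊕ ι → R) (B : ι → (Fin n →₀ ℕ)) : R := (mMat z B).det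

/-- The numerators in Cramer's rule. -/
def EE (z : (Fin n × ι × ι) ⊕ ι → R) (B : ι → (Fin n →₀ ℕ)) (m : Fin n →₀ ℕ) (a : ι) : R :=
  ((mMat z B).adjugate.mulVec (monv z m)) a

theorem monv_map (φ : R →+* R') (z : (Fin n × ι × ι) ⊕ ι → R) (m : Fin n →₀ ℕ) (i : ι) :
    monv (fun s => φ (z s)) m i = φ (monv z m i) := by
  unfold monv
  rw [RingHom.map_mulVec]
  congr 2
  · have h1 : ∀ l, gmat (fun s => φ (z s)) l = φ.mapMatrix (gmat z l) := fun l => rfl
    have h2 : (((List.finRange n).map (fun l => gmat z l ^ m l)).prod).map φ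
        = φ.mapMatrix (((List.finRange n).map (fun l => gmat z l ^ m l)).prod) := rfl
    rw [h2, map_list_prod, List.map_map]
    congr 2
    funext l
    simp only [Function.comp_apply, map_pow, h1]

theorem mMat_map (φ : R →+* R') (z : (Fin n × ι × ι) ⊕ ι → R) (B : ι → (Fin n →₀ ℕ)) :
    mMat (fun s => φ (z s)) B = φ.mapMatrix (mMat z B) := by
  ext i a
  exact monv_map φ z (B a) i

theorem DD_map (φ : R →+* R') (z : (Fin n × ι × ι) ⊕ ι → R) (B : ι → (Fin n →₀ ℕ)) :
    DD (fun s => φ (z s)) B = φ (DD z B) := by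
  unfold DD
  rw [mMat_map, RingHom.map_det]

theorem EE_map (φ : R →+* R') (z : (Fin n × ι × ι) ⊕ ι → R) (B : ι → (Fin n →₀ ℕ))
    (m : Fin n →₀ ℕ) (a : ι) :
    EE (fun s => φ (z s)) B m a = φ (EE z B m a) := by
  unfold EE
  rw [mMat_map, RingHom.map_mulVec, ← RingHom.map_adjugate]
  have : (fun i => monv (fun s => φ (z s)) m i) = φ ∘ monv z m := by
    funext i; exact monv_map φ z m i
  rw [← this]
  rfl

end Generic

section Algebra

variable {k : Type*} [Field k] {n : ℕ} {A : Type*} [CommRing A] [Algebra k A]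
    [Algebra (MvPolynomial (Fin n) k) A]
    {ι : Type*} [Fintype ι] [DecidableEq ι]

/-- The image of the monomial with exponent `m`. -/
noncomputable def xm (k : Type*) [Field k] {n : ℕ} (A : Type*) [CommRing A]
    [Algebra (MvPolynomial (Fin n) k) A] (m : Fin n →₀ ℕ) : A :=
  algebraMap (MvPolynomial (Fin n) k) A (monomial m 1)

omit [DecidableEq ι] in
theorem repr_X_mul (b : Module.Basis ι k A) (l : Fin n) (a : A) :
    ⇑(b.repr (algebraMap (MvPolynomial (Fin n) k) A (X l) * a))
      = (gmat (coords b) l).mulVec ⇑(b.repr a) := by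
  funext i
  conv_lhs => rw [← b.sum_repr a]
  rw [Finset.mul_sum, map_sum, Finset.sum_apply']
  unfold Matrix.mulVec dotProduct
  refine Finset.sum_congr rfl fun j _ => ?_
  rw [mul_smul_comm, map_smul, Finsupp.smul_apply, smul_eq_mul, mul_comm]
  rfl

theorem repr_X_pow_mul (b : Module.Basis ι k A) (l : Fin n) (e : ℕ) (a : A) :
    ⇑(b.repr (algebraMap (MvPolynomial (Fin n) k) A (X l ^ e) * a))
      = (gmat (coords b) l ^ e).mulVec ⇑(b.repr a) := by
  induction e with
  | zero => simp
  | succ e ih =>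
    rw [pow_succ', map_mul (algebraMap (MvPolynomial (Fin n) k) A), mul_assoc, repr_X_mul, ih, Matrix.mulVec_mulVec, pow_succ']

theorem repr_list_mul (b : Module.Basis ι k A) (m : Fin n →₀ ℕ) (L : List (Fin n)) (a : A) :
    ⇑(b.repr (algebraMap (MvPolynomial (Fin n) k) A
      (L.map (fun l => (X l : MvPolynomial (Fin n) k) ^ m l)).prod * a))
      = ((L.map (fun l => gmat (coords b) l ^ m l)).prod).mulVec ⇑(b.repr a) := by
  induction L with
  | nil => simp
  | cons l L ih =>
    rw [List.map_cons, List.prod_cons, map_mul (algebraMap (MvPolynomial (Fin n) k) A),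
      mul_assoc, repr_X_pow_mul, ih,
      Matrix.mulVec_mulVec, List.map_cons, List.prod_cons]

theorem monv_coords (b : Module.Basis ι k A) (m : Fin n →₀ ℕ) (i : ι) :
    monv (coords b) m i = b.repr (xm k A m) i := by
  have h := repr_list_mul b m (List.finRange n) 1
  have h2 : (monomial m 1 : MvPolynomial (Fin n) k)
      = ((List.finRange n).map (fun l => (X l : MvPolynomial (Fin n) k) ^ m l)).prod := by
    rw [monomial_eq, C_1, one_mul, Finsupp.prod_fintype _ _ (by simp)]
    rw [← List.ofFn_eq_map, List.prod_ofFn]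
  unfold monv xm
  rw [h2]
  rw [mul_one] at h
  rw [h]
  rfl

theorem mMat_coords (b : Module.Basis ι k A) (B : ι → (Fin n →₀ ℕ)) :
    mMat (coords b) B = b.toMatrix (fun a => xm k A (B a)) := by
  ext i a
  rw [Module.Basis.toMatrix_apply]
  exact monv_coords b (B a) i

theorem DD_coords_ne_zero_iff (b : Module.Basis ι k A) (B : ι → (Fin n →₀ ℕ)) :
    DD (coords b) B ≠ 0 ↔ LinearIndependent k (fun a => xm k A (B a)) ∧
      Submodule.span k (Set.range (fun a => xm k A (B a))) = ⊤ := by
  unfold DD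
  rw [mMat_coords, ← isUnit_iff_ne_zero, ← Module.Basis.det_apply, Module.Basis.is_basis_iff_det]

theorem cramer (b : Module.Basis ι k A) (B : ι → (Fin n →₀ ℕ)) (h : DD (coords b) B ≠ 0)
    (m : Fin n →₀ ℕ) :
    xm k A m = ∑ a, (EE (coords b) B m a / DD (coords b) B) • xm k A (B a) := by
  apply b.repr.injective
  ext i
  rw [map_sum, Finset.sum_apply']
  have h1 : ∀ a, (b.repr ((EE (coords b) B m a / DD (coords b) B) • xm k A (B a))) i
      = (DD (coords b) B)⁻¹ * (mMat (coords b) B i a * EE (coords b) B m a) := by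
    intro a
    rw [map_smul, Finsupp.smul_apply, smul_eq_mul]
    have : b.repr (xm k A (B a)) i = mMat (coords b) B i a := (monv_coords b (B a) i).symm
    rw [this]
    ring
  rw [Finset.sum_congr rfl (fun a _ => h1 a), ← Finset.mul_sum]
  have h2 : ∑ a, mMat (coords b) B i a * EE (coords b) B m a
      = ((mMat (coords b) B).mulVec ((mMat (coords b) B).adjugate.mulVec
        (monv (coords b) m))) i := rfl
  rw [h2, Matrix.mulVec_mulVec, Matrix.mul_adjugate, Matrix.smul_mulVec, Matrix.one_mulVec,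
    Pi.smul_apply, smul_eq_mul, monv_coords]
  have h3 : (mMat (coords b) B).det ≠ 0 := h
  show _ = ((mMat (coords b) B).det)⁻¹ * _
  field_simp

end Algebra

end Pool.Agent.Helper15.Hilb
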