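import Pool.Agent.Helper15.HilbSum

/-!
# Slices: intersecting with a fixed coprime ideal is continuous
-/

namespace Pool.Agent.Helper15.Hilb

open MvPolynomial

universe u

variable {k : Type u} [Field k] {n r₁ r₂ r : ℕ}

/-- The generic coordinates of a block sum whose second block is fixed. -/
noncomputable def rho (z₂ : (Fin n × Fin r₂ × Fin r₂) ⊕ Fin r₂ → k)
    (e : Fin r₁ ⊕ Fin r₂ ≃ Fin r) :
    (Fin n × Fin r × Fin r) ⊕ Fin r →
      MvPolynomial ((Fin n × Fin r₁ × Fin r₁) ⊕ Fin r₁) k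
  | .inl (l, i, j) =>
    match e.symm i, e.symm j with
    | .inl i₁, .inl j₁ => X (.inl (l, i₁, j₁))
    | .inr i₂, .inr j₂ => C (z₂ (.inl (l, i₂, j₂)))
    | _, _ => 0
  | .inr i =>
    match e.symm i with
    | .inl i₁ => X (.inr i₁)
    | .inr i₂ => C (z₂ (.inr i₂))

theorem eval_rho {A₁ A₂ : Type*} [CommRing A₁] [Algebra k A₁] [CommRing A₂] [Algebra k A₂]
    [Algebra (MvPolynomial (Fin n) k) A₁] [Algebra (MvPolynomial (Fin n) k) A₂]
    (b₁ : Module.Basis (Fin r₁) k A₁) (b₂ : Module.Basis (Fin r₂) k A₂)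
    (e : Fin r₁ ⊕ Fin r₂ ≃ Fin r) (s : (Fin n × Fin r × Fin r) ⊕ Fin r) :
    eval (coords b₁) (rho (coords b₂) e s) = coords (sumBasis b₁ b₂ e) s := by
  match s with
  | .inl (l, i, j) =>
    rw [coords_sum_inl]
    rcases hi : e.symm i with i₁ | i₂ <;> rcases hj : e.symm j with j₁ | j₂ <;>
      simp [rho, hi, hj]
  | .inr i =>
    rw [coords_sum_inr]
    rcases hi : e.symm i with i₁ | i₂ <;> simp [rho, hi]

/-- The isomorphism of the Chinese remainder theorem, as a `k`-linear map. -/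
noncomputable def crt (I J : Ideal (MvPolynomial (Fin n) k)) (h : IsCoprime I J) :
    (MvPolynomial (Fin n) k ⧸ I ⊓ J) ≃ₗ[k]
      (MvPolynomial (Fin n) k ⧸ I) × (MvPolynomial (Fin n) k ⧸ J) :=
  { Ideal.quotientInfEquivQuotientProd I J h with
    map_smul' := by
      intro c x
      obtain ⟨f, rfl⟩ := Ideal.Quotient.mk_surjective x
      rfl }

theorem crt_mk (I J : Ideal (MvPolynomial (Fin n) k)) (h : IsCoprime I J)
    (f : MvPolynomial (Fin n) k) : crt I J h (Ideal.Quotient.mk _ f)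
      = (Ideal.Quotient.mk I f, Ideal.Quotient.mk J f) := rfl

theorem coords_crt (I J : Ideal (MvPolynomial (Fin n) k)) (h : IsCoprime I J)
    (b : Module.Basis (Fin r) k
      ((MvPolynomial (Fin n) k ⧸ I) × (MvPolynomial (Fin n) k ⧸ J))) :
    coords (n := n) (b.map (crt I J h).symm) = coords (n := n) b := by
  have h1 := coords_map (n := n) (b.map (crt I J h).symm) (crt I J h) ?_ ?_
  · rw [← h1]
    congr 1
    ext i <;> simp
  · exact (crt_mk I J h 1).trans rfl
  · intro l a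
    obtain ⟨f, rfl⟩ := Ideal.Quotient.mk_surjective a
    have e1 : algebraMap (MvPolynomial (Fin n) k) (MvPolynomial (Fin n) k ⧸ I ⊓ J) (X l)
      * Ideal.Quotient.mk (I ⊓ J) f = Ideal.Quotient.mk (I ⊓ J) (X l * f) := rfl
    rw [e1, crt_mk, crt_mk]
    rfl

/-- If the images of finitely many monomials form a basis of the product, the ideals are
coprime. -/
theorem coprime_of_DD (I J : Ideal (MvPolynomial (Fin n) k))
    (b : Module.Basis (Fin r) k
      ((MvPolynomial (Fin n) k ⧸ I) × (MvPolynomial (Fin n) k ⧸ J)))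
    (B : Fin r → (Fin n →₀ ℕ)) (h : DD (coords b) B ≠ 0) : IsCoprime I J := by
  obtain ⟨-, hspan⟩ := (DD_coords_ne_zero_iff b B).mp h
  -- `(1, 0)` is the image of a polynomial
  have hmem : ((1, 0) : (MvPolynomial (Fin n) k ⧸ I) × (MvPolynomial (Fin n) k ⧸ J)) ∈
      Submodule.span k (Set.range (fun a => xm k
        ((MvPolynomial (Fin n) k ⧸ I) × (MvPolynomial (Fin n) k ⧸ J)) (B a))) := by
    rw [hspan]; trivial
  have hle : Submodule.span k (Set.range (fun a => xm k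
        ((MvPolynomial (Fin n) k ⧸ I) × (MvPolynomial (Fin n) k ⧸ J)) (B a))) ≤
      LinearMap.range ((Algebra.linearMap (MvPolynomial (Fin n) k)
        ((MvPolynomial (Fin n) k ⧸ I) × (MvPolynomial (Fin n) k ⧸ J))).restrictScalars k) := by
    rw [Submodule.span_le]
    rintro _ ⟨a, rfl⟩
    exact ⟨monomial (B a) 1, rfl⟩
  obtain ⟨f, hf⟩ := hle hmem
  have hf' : ((Ideal.Quotient.mk I f, Ideal.Quotient.mk J f) :
      (MvPolynomial (Fin n) k ⧸ I) × (MvPolynomial (Fin n) k ⧸ J)) = (1, 0) := hf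
  rw [Prod.mk.injEq] at hf'
  rw [Ideal.isCoprime_iff_exists]
  refine ⟨1 - f, ?_, f, ?_, by ring⟩
  · rw [← Ideal.Quotient.eq_zero_iff_mem, map_sub, hf'.1, map_one, sub_self]
  · rw [← Ideal.Quotient.eq_zero_iff_mem, hf'.2]

/-- A basis of the quotient by an ideal of colength `r`. -/
noncomputable def HilbPt.basis (I : HilbPt k n r) :
    Module.Basis (Fin r) k (MvPolynomial (Fin n) k ⧸ I.1) :=
  haveI := I.2.1
  Module.finBasisOfFinrankEq k _ I.2.2

/-- The slice lemma. -/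
theorem isClosed_slice (J₂ : HilbPt k n r₂) (e : Fin r₁ ⊕ Fin r₂ ≃ Fin r)
    (Z : Set (HilbPt k n r)) (hZ : IsClosed Z) :
    IsClosed {J₁ : HilbPt k n r₁ | ∀ K : HilbPt k n r, IsCoprime J₁.1 J₂.1 →
      K.1 = J₁.1 ⊓ J₂.1 → K ∈ Z} := by
  rw [isClosed_iff] at hZ ⊢
  obtain ⟨T, hT⟩ := hZ
  set b₂ := J₂.basis with hb₂
  refine ⟨{p | ∃ (B : Fin r → (Fin n →₀ ℕ)) (f : _), f ∈ T ∧
    p = aeval (rho (r₁ := r₁) (coords b₂) e) (DD X B * f)}, fun J₁ b₁ => ?_⟩
  set bb := sumBasis b₁ b₂ e with hbb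
  have hev : ∀ f : MvPolynomial ((Fin n × Fin r × Fin r) ⊕ Fin r) k,
      eval (coords b₁) (aeval (rho (r₁ := r₁) (coords b₂) e) f) = eval (coords bb) f := by
    intro f
    rw [aeval_def, MvPolynomial.hom_eval₂, MvPolynomial.eval, ← MvPolynomial.coe_eval₂Hom]
    congr 2
    · ext c; simp
    · funext s; exact eval_rho b₁ b₂ e s
  have hD : ∀ B : Fin r → (Fin n →₀ ℕ), eval (coords bb) (DD X B) = DD (coords bb) B := by
    intro B
    rw [← DD_map]; congr 1; funext s; simp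
  constructor
  · rintro hJ p ⟨B, f, hf, rfl⟩
    rw [hev, map_mul, hD]
    by_cases h0 : DD (coords bb) B = 0
    · rw [h0, zero_mul]
    · have hcop : IsCoprime J₁.1 J₂.1 := coprime_of_DD _ _ bb B h0
      let K : HilbPt k n r := ⟨J₁.1 ⊓ J₂.1, Module.Finite.of_basis (bb.map (crt _ _ hcop).symm),
        by rw [Module.finrank_eq_card_basis (bb.map (crt _ _ hcop).symm), Fintype.card_fin]⟩
      have hK := hJ K hcop rfl
      have h1 := (hT K (bb.map (crt _ _ hcop).symm)).mp hK f hf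
      rw [coords_crt] at h1
      rw [h1, mul_zero]
  · intro hp K hcop hKeq
    obtain ⟨K, hK1, hK2⟩ := K
    simp only at hKeq
    subst hKeq
    set bK : Module.Basis (Fin r) k (MvPolynomial (Fin n) k ⧸ J₁.1 ⊓ J₂.1) :=
      bb.map (crt _ _ hcop).symm with hbK
    refine (hT ⟨_, hK1, hK2⟩ bK).mpr fun f hf => ?_
    obtain ⟨B, hB⟩ := exists_chart (k := k) (A := MvPolynomial (Fin n) k ⧸ J₁.1 ⊓ J₂.1)
      Ideal.Quotient.mk_surjective bK
    rw [hbK, coords_crt] at hB ⊢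
    have := hp _ ⟨B, f, hf, rfl⟩
    rw [hev, map_mul, hD] at this
    exact (mul_eq_zero.mp this).resolve_left hB

end Pool.Agent.Helper15.Hilb
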