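import Pool.Agent.Helper15.HilbClosed

/-!
# Disjoint unions of subschemes and closed sets
-/

namespace Pool.Agent.Helper15.Hilb

open MvPolynomial

universe u

variable {k : Type u} [Field k] {n : ℕ}

/-- The monomials span any quotient of the polynomial ring. -/
theorem span_xm_eq_top {A : Type*} [CommRing A] [Algebra k A] [Algebra (MvPolynomial (Fin n) k) A]
    [IsScalarTower k (MvPolynomial (Fin n) k) A]
    (hsurj : Function.Surjective (algebraMap (MvPolynomial (Fin n) k) A)) :
    Submodule.span k (Set.range (fun m => xm k A m : (Fin n →₀ ℕ) → A)) = ⊤ := by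
  rw [eq_top_iff]
  intro a _
  obtain ⟨f, rfl⟩ := hsurj a
  rw [← support_sum_monomial_coeff f, map_sum]
  refine Submodule.sum_mem _ fun m _ => ?_
  have : monomial m (coeff m f) = (coeff m f) • (monomial m 1 : MvPolynomial (Fin n) k) := by
    rw [smul_monomial, smul_eq_mul, mul_one]
  rw [this]
  have h2 : algebraMap (MvPolynomial (Fin n) k) A
      ((coeff m f) • (monomial m 1 : MvPolynomial (Fin n) k)) = (coeff m f) • xm k A m := by
    unfold xm
    rw [Algebra.algebraMap_eq_smul_one, Algebra.algebraMap_eq_smul_one, smul_assoc]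
  rw [h2]
  exact Submodule.smul_mem _ _ (Submodule.subset_span ⟨m, rfl⟩)

/-- Some chart of monomials contains a given ideal. -/
theorem exists_chart {A : Type*} [CommRing A] [Algebra k A] [Algebra (MvPolynomial (Fin n) k) A]
    [IsScalarTower k (MvPolynomial (Fin n) k) A]
    (hsurj : Function.Surjective (algebraMap (MvPolynomial (Fin n) k) A)) {r : ℕ}
    (b : Module.Basis (Fin r) k A) : ∃ B : Fin r → (Fin n →₀ ℕ), DD (coords b) B ≠ 0 := by
  classical
  have hfin : Module.Finite k A := Module.Finite.of_basis b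
  have hspan := span_xm_eq_top (k := k) hsurj
  obtain ⟨f, hf1, hf2, hf3⟩ := Submodule.exists_fun_fin_finrank_span_eq k
    (Set.range (fun m => xm k A m : (Fin n →₀ ℕ) → A))
  have hf2' := hf2.trans hspan
  have hrank : Module.finrank k ↥(Submodule.span k
      (Set.range (fun m => xm k A m : (Fin n →₀ ℕ) → A))) = r := by
    rw [hspan, finrank_top, Module.finrank_eq_card_basis b, Fintype.card_fin]
  choose g hg using hf1
  refine ⟨fun i => g (Fin.cast hrank.symm i), ?_⟩
  rw [DD_coords_ne_zero_iff]
  have e1 : (fun a => xm k A (g (Fin.cast hrank.symm a))) = f ∘ (finCongr hrank.symm) := by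
    funext a
    exact hg _
  rw [e1]
  refine ⟨hf3.comp _ (finCongr hrank.symm).injective, ?_⟩
  rw [Set.range_comp, Equiv.range_eq_univ, Set.image_univ, hf2']

/-- Coordinates are invariant under isomorphisms of algebras. -/
theorem coords_map {A A' : Type*} [CommRing A] [Algebra k A] [Algebra (MvPolynomial (Fin n) k) A]
    [CommRing A'] [Algebra k A'] [Algebra (MvPolynomial (Fin n) k) A'] {ι : Type*}
    (b : Module.Basis ι k A) (e : A ≃ₗ[k] A') (h1 : e 1 = 1)
    (hX : ∀ (l : Fin n) (a : A), e (algebraMap (MvPolynomial (Fin n) k) A (X l) * a)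
      = algebraMap (MvPolynomial (Fin n) k) A' (X l) * e a) :
    coords (n := n) (b.map e) = coords (n := n) b := by
  funext s
  match s with
  | .inl (l, i, j) =>
    show (b.map e).repr (algebraMap _ A' (X l) * (b.map e) j) i
      = b.repr (algebraMap _ A (X l) * b j) i
    rw [Module.Basis.map_apply, ← hX, Module.Basis.map_repr, LinearEquiv.trans_apply,
      LinearEquiv.symm_apply_apply]
  | .inr i =>
    show (b.map e).repr 1 i = b.repr 1 i
    rw [← h1, Module.Basis.map_repr, LinearEquiv.trans_apply, LinearEquiv.symm_apply_apply]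

section Sum

variable {r₁ r₂ r : ℕ}

/-- The basis of a product of two algebras, indexed by `Fin r`. -/
noncomputable def sumBasis {A₁ A₂ : Type*} [CommRing A₁] [Algebra k A₁] [CommRing A₂]
    [Algebra k A₂] (b₁ : Module.Basis (Fin r₁) k A₁) (b₂ : Module.Basis (Fin r₂) k A₂)
    (e : Fin r₁ ⊕ Fin r₂ ≃ Fin r) : Module.Basis (Fin r) k (A₁ × A₂) :=
  (b₁.prod b₂).reindex e

variable {A₁ A₂ : Type*} [CommRing A₁] [Algebra k A₁] [CommRing A₂] [Algebra k A₂]
  [Algebra (MvPolynomial (Fin n) k) A₁] [Algebra (MvPolynomial (Fin n) k) A₂]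
  (b₁ : Module.Basis (Fin r₁) k A₁) (b₂ : Module.Basis (Fin r₂) k A₂)
  (e : Fin r₁ ⊕ Fin r₂ ≃ Fin r)

/-- The coordinates of the product algebra: block diagonal matrices. -/
theorem coords_sum_inl (l : Fin n) (i j : Fin r) :
    coords (n := n) (sumBasis b₁ b₂ e) (.inl (l, i, j)) =
      match e.symm i, e.symm j with
      | .inl i₁, .inl j₁ => coords b₁ (.inl (l, i₁, j₁))
      | .inr i₂, .inr j₂ => coords b₂ (.inl (l, i₂, j₂))
      | _, _ => 0 := by
  show (sumBasis b₁ b₂ e).repr (algebraMap _ (A₁ × A₂) (X l) * (sumBasis b₁ b₂ e) j) i = _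
  unfold sumBasis
  rw [Module.Basis.repr_reindex_apply]
  rw [Module.Basis.reindex_apply]
  generalize e.symm i = i'
  generalize e.symm j = j'
  match i', j' with
  | .inl i₁, .inl j₁ =>
    rw [Module.Basis.prod_repr_inl]
    simp [coords, Prod.algebraMap_apply]
  | .inr i₂, .inr j₂ =>
    rw [Module.Basis.prod_repr_inr]
    simp [coords, Prod.algebraMap_apply]
  | .inl i₁, .inr j₂ =>
    rw [Module.Basis.prod_repr_inl]
    simp
  | .inr i₂, .inl j₁ =>
    rw [Module.Basis.prod_repr_inr]
    simp

theorem coords_sum_inr (i : Fin r) :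
    coords (n := n) (sumBasis b₁ b₂ e) (.inr i) =
      match e.symm i with
      | .inl i₁ => coords (n := n) b₁ (.inr i₁)
      | .inr i₂ => coords (n := n) b₂ (.inr i₂) := by
  show (sumBasis b₁ b₂ e).repr 1 i = _
  unfold sumBasis
  rw [Module.Basis.repr_reindex_apply]
  generalize e.symm i = i'
  match i' with
  | .inl i₁ => rw [Module.Basis.prod_repr_inl]; rfl
  | .inr i₂ => rw [Module.Basis.prod_repr_inr]; rfl

end Sum

end Pool.Agent.Helper15.Hilb
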