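import Pool.Agent.Helper15.EC2
import Pool.Agent.Helper15.EC3
import Pool.Agent.Helper15.EC4
import Pool.Agent.Helper15.EC5
import Pool.Agent.Helper15.CurveDer
import Pool.Agent.Helper15.Emb

/-!
# Points with large abscissa on the Jacobian of the generic fibre
-/

namespace Pool.Agent.Helper15.Curve

open Polynomial EC Filter Topology

/-- The point `δ` of the Jacobian. -/
theorem delta_eqn {F : Type*} [Field F] (h2 : (2 : F) ≠ 0) (y d c b a : F) (hy : y ≠ 0) :
    ((d ^ 2 - 4 * c * y ^ 2) / (4 * y ^ 2) * d / (2 * y) + b * y) ^ 2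
      = ((d ^ 2 - 4 * c * y ^ 2) / (4 * y ^ 2)) ^ 3 + c * ((d ^ 2 - 4 * c * y ^ 2) / (4 * y ^ 2)) ^ 2
        + jp y d b a * ((d ^ 2 - 4 * c * y ^ 2) / (4 * y ^ 2)) + jr y d c b a := by
  unfold jp jr
  have h4 : (4 : F) ≠ 0 := by
    have : (4 : F) = 2 * 2 := by norm_num
    rw [this]; exact mul_ne_zero h2 h2
  field_simp
  ring

/-- The image of a finitely generated field in the algebraic closure of `ℚ_2` lies in a locally
compact field. -/
theorem exists_local_field {K E : Type*} [Field K] [NumberField K] [Field E] [Algebra K E]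
    [Algebra K (PadicAlgCl 2)] (τ : E →ₐ[K] PadicAlgCl 2) (G : Finset E)
    (hG : IntermediateField.adjoin K (G : Set E) = ⊤) :
    ∃ M : IntermediateField ℚ_[2] (PadicAlgCl 2), FiniteDimensional ℚ_[2] M ∧ ∀ e, τ e ∈ M := by
  classical
  let b := Module.finBasis ℚ K
  let T : Set (PadicAlgCl 2) := Set.range (fun i => algebraMap K (PadicAlgCl 2) (b i)) ∪ τ '' G
  have hT : T.Finite := (Set.finite_range _).union (G.finite_toSet.image _)
  let M : IntermediateField ℚ_[2] (PadicAlgCl 2) := IntermediateField.adjoin ℚ_[2] T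
  have hMfin : FiniteDimensional ℚ_[2] M := by
    have : Finite T := hT
    exact IntermediateField.finiteDimensional_adjoin fun x _ => Algebra.IsIntegral.isIntegral x
  refine ⟨M, hMfin, ?_⟩
  have hK : ∀ k : K, algebraMap K (PadicAlgCl 2) k ∈ M := by
    intro k
    rw [← b.sum_repr k, map_sum]
    refine sum_mem fun i _ => ?_
    rw [Algebra.smul_def, map_mul]
    refine mul_mem ?_ ?_
    · rw [← IsScalarTower.algebraMap_apply ℚ K (PadicAlgCl 2)]
      have : algebraMap ℚ (PadicAlgCl 2) (b.repr k i)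
          = algebraMap ℚ_[2] (PadicAlgCl 2) ((b.repr k i : ℚ) : ℚ_[2]) := by
        rw [map_ratCast]; rfl
      rw [this]
      exact M.algebraMap_mem _
    · exact IntermediateField.subset_adjoin _ _ (Or.inl ⟨i, rfl⟩)
  let S : IntermediateField K E :=
    { carrier := {e | τ e ∈ M}
      mul_mem' := fun {a b} ha hb => by
        show τ (a * b) ∈ M
        rw [map_mul]; exact mul_mem ha hb
      one_mem' := by
        show τ 1 ∈ M
        rw [map_one]; exact one_mem _
      add_mem' := fun {a b} ha hb => by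
        show τ (a + b) ∈ M
        rw [map_add]; exact add_mem ha hb
      zero_mem' := by
        show τ 0 ∈ M
        rw [map_zero]; exact zero_mem _
      algebraMap_mem' := fun k => by
        show τ (algebraMap K E k) ∈ M
        rw [τ.commutes]; exact hK k
      inv_mem' := fun a ha => by
        show τ a⁻¹ ∈ M
        rw [map_inv₀]; exact inv_mem ha }
  have hS : (⊤ : IntermediateField K E) ≤ S := by
    rw [← hG, IntermediateField.adjoin_le_iff]
    intro g hg
    exact IntermediateField.subset_adjoin _ _ (Or.inr ⟨g, hg, rfl⟩)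
  intro e
  exact hS IntermediateField.mem_top

variable {K E : Type*} [Field K] [Field E] [Algebra K E] {B : IntermediateField K E}
    {x y : E} {q : Polynomial B}

/-- The Taylor expansion of `q` at `x`. -/
noncomputable def tay (x : E) (q : Polynomial B) : Polynomial E :=
  taylor x (q.map (algebraMap B E))

theorem tay_natDegree (x : E) (q : Polynomial B) : (tay x q).natDegree = q.natDegree := by
  unfold tay
  rw [natDegree_taylor, natDegree_map]

theorem IsQuartic.tay_sep (h : IsQuartic B x y q) : (tay x q).Separable :=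
  taylor_separable _ h.sep.map x

theorem IsQuartic.tay_zero (h : IsQuartic B x y q) : y ^ 2 = (tay x q).coeff 0 := by
  unfold tay
  rw [taylor_coeff_zero, eval_map, h.eqn']

theorem hasseDeriv_map {R S : Type*} [CommRing R] [CommRing S] (f : R →+* S) (p : Polynomial R)
    (n : ℕ) : hasseDeriv n (p.map f) = (hasseDeriv n p).map f := by
  ext k
  rw [hasseDeriv_coeff, coeff_map, coeff_map, hasseDeriv_coeff, map_mul, map_natCast]

theorem norm_two_lt : ‖(2 : PadicAlgCl 2)‖ < 1 := by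
  have h1 : (2 : PadicAlgCl 2) = algebraMap ℚ_[2] (PadicAlgCl 2) 2 := by rw [map_ofNat]
  rw [h1, norm_algebraMap']
  have h2 := Padic.norm_p (p := 2)
  push_cast at h2
  rw [h2]
  norm_num

theorem map_tay {Ω : Type*} [Field Ω] (σ : B →+* Ω) (ψ : E →+* Ω)
    (hσ : ∀ b : B, ψ b = σ b) (x : E) (q : Polynomial B) (i : ℕ) :
    ψ ((tay x q).coeff i) = (hasseDeriv i (q.map σ)).eval (ψ x) := by
  unfold tay
  rw [taylor_coeff, hasseDeriv_map, eval_map, hasseDeriv_map, eval_map, hom_eval₂]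
  congr 1
  ext b
  exact hσ b

/-- The point `δ` of the Jacobian has infinite order: no denominator of its multiples vanishes. -/
theorem IsQuartic.coords_ne_zero [CharZero K] [Countable E] (h : IsQuartic B x y q)
    (h3 : 3 ≤ q.natDegree)
    [Algebra K (PadicAlgCl 2)] (τ : E →ₐ[K] PadicAlgCl 2) (n : ℕ) :
    (coords ((tay x q).coeff 2)
      (jp y ((tay x q).coeff 1) ((tay x q).coeff 3) ((tay x q).coeff 4))
      (((tay x q).coeff 1 ^ 2 - 4 * (tay x q).coeff 2 * y ^ 2) / (4 * y ^ 2))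
      (((tay x q).coeff 1 ^ 2 - 4 * (tay x q).coeff 2 * y ^ 2) / (4 * y ^ 2)
        * (tay x q).coeff 1 / (2 * y) + (tay x q).coeff 3 * y) n).2.2 ≠ 0 := by
  classical
  let σ : B →ₐ[K] PadicAlgCl 2 := τ.comp B.val
  set qσ : Polynomial (PadicAlgCl 2) := q.map (σ : B →+* PadicAlgCl 2) with hqσ
  have hsep : qσ.Separable := h.sep.map
  have hdeg : qσ.natDegree = q.natDegree := natDegree_map _
  obtain ⟨ρ, hρ⟩ := IsAlgClosed.exists_root qσ (by
    intro h0
    have h1 : qσ.natDegree = 0 := natDegree_eq_of_degree_eq_some h0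
    omega)
  have hρ' : (hasseDeriv 0 qσ).eval ρ = 0 := by rw [hasseDeriv_zero]; exact hρ
  have hder : (hasseDeriv 1 qσ).eval ρ ≠ 0 := by
    rw [hasseDeriv_one]
    exact hsep.eval₂_derivative_ne_zero (RingHom.id _) (by rw [eval₂_id]; exact hρ)
  -- the continuous functions
  let e0 := fun t : PadicAlgCl 2 => (hasseDeriv 0 qσ).eval t
  let e1 := fun t : PadicAlgCl 2 => (hasseDeriv 1 qσ).eval t
  let e2 := fun t : PadicAlgCl 2 => (hasseDeriv 2 qσ).eval t
  let e3 := fun t : PadicAlgCl 2 => (hasseDeriv 3 qσ).eval t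
  let e4 := fun t : PadicAlgCl 2 => (hasseDeriv 4 qσ).eval t
  have c0 : Continuous e0 := Polynomial.continuous _
  have c1 : Continuous e1 := Polynomial.continuous _
  have c2 : Continuous e2 := Polynomial.continuous _
  have c3 : Continuous e3 := Polynomial.continuous _
  have c4 : Continuous e4 := Polynomial.continuous _
  let Cf := fun t : PadicAlgCl 2 => 1 + ‖e2 t‖ + ‖e3 t * e1 t - 4 * e4 t * e0 t‖
    + ‖e4 t * e1 t ^ 2 + e3 t ^ 2 * e0 t - 4 * e4 t * e2 t * e0 t‖
  have hCf : Continuous Cf := by fun_prop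
  have hlt : Cf ρ * ‖4 * e0 ρ‖ < ‖e1 ρ ^ 2 - 4 * e2 ρ * e0 ρ‖ := by
    have : e0 ρ = 0 := hρ'
    rw [this, mul_zero, norm_zero, mul_zero, mul_zero, sub_zero, norm_pos_iff]
    exact pow_ne_zero 2 hder
  have hev : ∀ᶠ t in 𝓝 ρ, Cf t * ‖4 * e0 t‖ < ‖e1 t ^ 2 - 4 * e2 t * e0 t‖ := by
    refine ContinuousAt.eventually_lt ?_ ?_ hlt
    · exact (hCf.mul ((continuous_const.mul c0).norm)).continuousAt
    · exact (((c1.pow 2).sub ((continuous_const.mul c2).mul c0)).norm).continuousAt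
  obtain ⟨ε, hε, hball⟩ := Metric.eventually_nhds_iff_ball.mp hev
  have hcB : Countable B := inferInstance
  obtain ⟨x', hx'b, hx'⟩ := Emb.exists_transcendental (σ : B →+* PadicAlgCl 2)
    (Metric.ball ρ ε) (Emb.not_countable_ball ρ ε hε)
  have hlt' := hball x' hx'b
  have he0 : e0 x' ≠ 0 := by
    intro h0
    have h1 : (hasseDeriv 0 qσ).eval x' = 0 := h0
    rw [hasseDeriv_zero] at h1
    have h2 : q.eval₂ (σ : B →+* PadicAlgCl 2) x' = 0 := by
      rw [← eval_map]; exact h1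
    exact h.sep.ne_zero (hx' q h2)
  obtain ⟨y', hy'⟩ := IsAlgClosed.exists_pow_nat_eq (e0 x') (n := 2) (by norm_num)
  have hy'q : y' ^ 2 = q.eval₂ (σ : B →+* PadicAlgCl 2) x' := by
    rw [hy', ← eval_map]
    show (hasseDeriv 0 qσ).eval x' = _
    rw [hasseDeriv_zero]; rfl
  obtain ⟨ψ, hψB, hψx, hψy⟩ := h.exists_embedding σ x' y' hx' hy'q
  have hcoef : ∀ i, ψ ((tay x q).coeff i) = (hasseDeriv i qσ).eval x' := by
    intro i
    have := map_tay (σ : B →+* PadicAlgCl 2) (ψ : E →+* PadicAlgCl 2) hψB x q i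
    rw [← hψx]
    exact this
  have hy'0 : y' ≠ 0 := by
    rintro rfl
    rw [zero_pow two_ne_zero] at hy'
    exact he0 hy'.symm
  have h2 : (2 : PadicAlgCl 2) ≠ 0 := two_ne_zero
  have h4 : (4 : PadicAlgCl 2) ≠ 0 := by norm_num
  -- the point on the Jacobian over `Ω`
  set Q := tay x q with hQ
  set d := Q.coeff 1 with hd
  set c := Q.coeff 2 with hc
  set b := Q.coeff 3 with hb
  set a := Q.coeff 4 with ha
  set Xδ := (d ^ 2 - 4 * c * y ^ 2) / (4 * y ^ 2) with hXδ
  set Yδ := Xδ * d / (2 * y) + b * y with hYδ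
  have hψd : ψ d = e1 x' := hcoef 1
  have hψc : ψ c = e2 x' := hcoef 2
  have hψb : ψ b = e3 x' := hcoef 3
  have hψa : ψ a = e4 x' := hcoef 4
  have hψp : ψ (jp y d b a) = e3 x' * e1 x' - 4 * e4 x' * e0 x' := by
    unfold jp
    rw [map_sub, map_mul, map_mul, map_mul, map_pow, hψd, hψb, hψa, hψy, hy', map_ofNat]
  have hψr : ψ (jr y d c b a) = e4 x' * e1 x' ^ 2 + e3 x' ^ 2 * e0 x' - 4 * e4 x' * e2 x' * e0 x' := by
    unfold jr
    simp only [map_sub, map_add, map_mul, map_pow, map_ofNat, hψd, hψb, hψa, hψc, hψy, hy']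
  have hψX : ψ Xδ = (e1 x' ^ 2 - 4 * e2 x' * e0 x') / (4 * e0 x') := by
    rw [hXδ]
    simp only [map_div₀, map_sub, map_mul, map_pow, map_ofNat, hψd, hψc, hψy, hy']
  have hE2 : (2 : E) ≠ 0 := by
    have : CharZero E := charZero_of_injective_algebraMap (algebraMap K E).injective
    exact two_ne_zero
  have hEeqn : Yδ ^ 2 = Xδ ^ 3 + c * Xδ ^ 2 + jp y d b a * Xδ + jr y d c b a :=
    delta_eqn hE2 y d c b a h.y_ne_zero
  have hΔE : (cub c (jp y d b a) (jr y d c b a)).Δ ≠ 0 :=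
    quartic_disc hE2 Q h.tay_sep (by rw [hQ, tay_natDegree]; exact h3)
      (by rw [hQ, tay_natDegree]; exact h.le_four) y h.tay_zero
  have hΔ : (cub (ψ c) (ψ (jp y d b a)) (ψ (jr y d c b a))).Δ ≠ 0 := by
    have := map_cub_Δ (ψ : E →+* PadicAlgCl 2) c (jp y d b a) (jr y d c b a)
    rw [RingHom.coe_coe] at this
    rw [← this]
    exact (map_ne_zero ψ).mpr hΔE
  have heqn : ψ Yδ ^ 2 = ψ Xδ ^ 3 + ψ c * ψ Xδ ^ 2 + ψ (jp y d b a) * ψ Xδ + ψ (jr y d c b a) := by
    rw [← map_pow, hEeqn]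
    simp only [map_add, map_mul, map_pow]
  let P : (cub (ψ c) (ψ (jp y d b a)) (ψ (jr y d c b a))).Point :=
    WeierstrassCurve.Affine.Point.some (ψ Xδ) (ψ Yδ) (cub_nonsingular _ _ _ _ _ hΔ heqn)
  have hP : IsAt (ψ c) (ψ (jp y d b a)) (ψ (jr y d c b a)) P (ψ Xδ) (ψ Yδ) := ⟨_, rfl⟩
  have hbound : Cf x' < ‖ψ Xδ‖ := by
    rw [hψX, norm_div, lt_div_iff₀ (norm_pos_iff.mpr (mul_ne_zero h4 he0))]
    exact hlt'
  have hn := nontorsion_of_large (C := Cf x') (c := ψ c) (p := ψ (jp y d b a))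
    (r := ψ (jr y d c b a)) ?_ ?_ ?_ ?_ h2 ?_ hP hbound
  · have h5 := coords_w_ne_zero c (jp y d b a) (jr y d c b a) Xδ Yδ (ψ : E →+* PadicAlgCl 2) h2 P hP
      (fun n hn0 => hn n hn0) n
    intro h6
    apply h5
    rw [h6, map_zero]
  · show 1 ≤ 1 + ‖e2 x'‖ + _ + _
    have p1 := norm_nonneg (e2 x')
    have p2 := norm_nonneg (e3 x' * e1 x' - 4 * e4 x' * e0 x')
    have p3 := norm_nonneg (e4 x' * e1 x' ^ 2 + e3 x' ^ 2 * e0 x' - 4 * e4 x' * e2 x' * e0 x')
    linarith
  · rw [hψc]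
    show _ ≤ 1 + ‖e2 x'‖ + _ + _
    have p2 := norm_nonneg (e3 x' * e1 x' - 4 * e4 x' * e0 x')
    have p3 := norm_nonneg (e4 x' * e1 x' ^ 2 + e3 x' ^ 2 * e0 x' - 4 * e4 x' * e2 x' * e0 x')
    linarith
  · rw [hψp]
    show _ ≤ 1 + ‖e2 x'‖ + _ + _
    have p1 := norm_nonneg (e2 x')
    have p3 := norm_nonneg (e4 x' * e1 x' ^ 2 + e3 x' ^ 2 * e0 x' - 4 * e4 x' * e2 x' * e0 x')
    linarith
  · rw [hψr]
    show _ ≤ 1 + ‖e2 x'‖ + _ + _
    have p1 := norm_nonneg (e2 x')
    have p2 := norm_nonneg (e3 x' * e1 x' - 4 * e4 x' * e0 x')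
    linarith
  · exact norm_two_lt

end Pool.Agent.Helper15.Curve
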