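import Pool.Agent.Helper15.Large

/-!
# Points with large abscissa on the Jacobian of the generic fibre, continued
-/

namespace Pool.Agent.Helper15.Curve

open Polynomial EC Filter Topology

variable {K E : Type*} [Field K] [Field E] [Algebra K E] {B : IntermediateField K E}
    {x y : E} {q : Polynomial B}

theorem IsQuartic.exists_large_point [NumberField K] (h : IsQuartic B x y q)
    [Algebra K (PadicAlgCl 2)] (τ : E →ₐ[K] PadicAlgCl 2) (G : Finset E)
    (hG : IntermediateField.adjoin K (G : Set E) = ⊤) (C : ℝ) :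
    ∃ X Y : E, Y ^ 2 = X ^ 3 + (tay x q).coeff 2 * X ^ 2
      + jp y ((tay x q).coeff 1) ((tay x q).coeff 3) ((tay x q).coeff 4) * X
      + jr y ((tay x q).coeff 1) ((tay x q).coeff 2) ((tay x q).coeff 3) ((tay x q).coeff 4) ∧
      C < ‖τ X‖ := by
  classical
  have hcz : CharZero E := charZero_of_injective_algebraMap (algebraMap K E).injective
  have hE2 : (2 : E) ≠ 0 := two_ne_zero
  set Q := tay x q with hQ
  set d := Q.coeff 1 with hd
  set c := Q.coeff 2 with hc
  set b := Q.coeff 3 with hb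
  set a := Q.coeff 4 with ha
  rcases Nat.lt_or_ge q.natDegree 3 with hlt | h3
  · -- genus zero
    have hb0 : b = 0 := coeff_eq_zero_of_natDegree_lt (by rw [hQ, tay_natDegree]; omega)
    have ha0 : a = 0 := coeff_eq_zero_of_natDegree_lt (by rw [hQ, tay_natDegree]; omega)
    have h2p : 0 < ‖(2 : PadicAlgCl 2)‖ := norm_pos_iff.mpr two_ne_zero
    have hone : 1 < ‖(2 : PadicAlgCl 2)‖⁻¹ := (one_lt_inv₀ h2p).mpr norm_two_lt
    obtain ⟨k, hk⟩ := pow_unbounded_of_one_lt (1 + |C| + ‖τ c‖) hone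
    set m : E := (2 : E)⁻¹ ^ k with hm
    have hτm : ‖τ m‖ = ‖(2 : PadicAlgCl 2)‖⁻¹ ^ k := by
      rw [hm, map_pow, map_inv₀, map_ofNat, norm_pow, norm_inv]
    refine ⟨m ^ 2 - c, m * (m ^ 2 - c), ?_, ?_⟩
    · rw [hb0, ha0]
      unfold jp jr
      ring
    · have h1 : 1 + |C| + ‖τ c‖ < ‖τ m‖ := by rw [hτm]; exact hk
      have h2 : ‖τ m‖ ≤ ‖τ m‖ ^ 2 := by
        have : 1 ≤ ‖τ m‖ := by
          have := norm_nonneg (τ c)
          have := abs_nonneg C
          linarith
        nlinarith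
      have h3 : ‖τ m‖ ^ 2 ≤ ‖τ (m ^ 2 - c)‖ + ‖τ c‖ := by
        rw [← norm_pow, ← map_pow, map_sub]
        have := norm_add_le (τ (m ^ 2) - τ c) (τ c)
        rwa [sub_add_cancel] at this
      have := le_abs_self C
      linarith
  · -- genus one
    have hcK : Countable K := Emb.countable_numberField K
    have hcE : Countable E := Emb.countable_of_fg K E G hG
    obtain ⟨M, hMfin, hτM⟩ := exists_local_field τ G hG
    have hprop : ProperSpace M := FiniteDimensional.proper ℚ_[2] M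
    let τM : E →+* M := (τ : E →+* PadicAlgCl 2).codRestrict M hτM
    have hw := h.coords_ne_zero h3 τ
    set Xδ := (d ^ 2 - 4 * c * y ^ 2) / (4 * y ^ 2) with hXδ
    set Yδ := Xδ * d / (2 * y) + b * y with hYδ
    have hEeqn : Yδ ^ 2 = Xδ ^ 3 + c * Xδ ^ 2 + jp y d b a * Xδ + jr y d c b a :=
      delta_eqn hE2 y d c b a h.y_ne_zero
    have hΔE : (cub c (jp y d b a) (jr y d c b a)).Δ ≠ 0 :=
      quartic_disc hE2 Q h.tay_sep (by rw [hQ, tay_natDegree]; exact h3)
        (by rw [hQ, tay_natDegree]; exact h.le_four) y h.tay_zero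
    have hΔ : (cub (τM c) (τM (jp y d b a)) (τM (jr y d c b a))).Δ ≠ 0 := by
      rw [← map_cub_Δ τM]
      exact (map_ne_zero τM).mpr hΔE
    have heqn : τM Yδ ^ 2 = τM Xδ ^ 3 + τM c * τM Xδ ^ 2 + τM (jp y d b a) * τM Xδ
        + τM (jr y d c b a) := by
      rw [← map_pow, hEeqn]
      simp only [map_add, map_mul, map_pow]
    let P : (cub (τM c) (τM (jp y d b a)) (τM (jr y d c b a))).Point :=
      WeierstrassCurve.Affine.Point.some (τM Xδ) (τM Yδ) (cub_nonsingular _ _ _ _ _ hΔ heqn)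
    have hP : IsAt (τM c) (τM (jp y d b a)) (τM (jr y d c b a)) P (τM Xδ) (τM Yδ) := ⟨_, rfl⟩
    have hat := fun n : ℕ => coords_isAt c (jp y d b a) (jr y d c b a) Xδ Yδ τM P hP n
      ((map_ne_zero τM).mpr (hw n))
    have hnt : ∀ n : ℕ, 0 < n → n • P ≠ 0 := by
      intro n hn
      obtain ⟨n, rfl⟩ : ∃ m, n = m + 1 := ⟨n - 1, by omega⟩
      exact (hat n).ne_zero
    have hM2 : (2 : M) ≠ 0 := two_ne_zero
    obtain ⟨n, hn0, X', Y', hXY, hlarge⟩ := exists_large hM2 (τM c) (τM (jp y d b a))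
      (τM (jr y d c b a)) hΔ P hnt C
    obtain ⟨n, rfl⟩ : ∃ m, n = m + 1 := ⟨n - 1, by omega⟩
    obtain ⟨hX, hY⟩ := hXY.unique (hat n)
    refine ⟨(coords c (jp y d b a) Xδ Yδ n).1 / (coords c (jp y d b a) Xδ Yδ n).2.2,
      (coords c (jp y d b a) Xδ Yδ n).2.1 / (coords c (jp y d b a) Xδ Yδ n).2.2, ?_, ?_⟩
    · have h1 := (hat n).eq
      apply τM.injective
      simp only [map_add, map_mul, map_pow, map_div₀]
      exact h1
    · rw [hX] at hlarge
      have h1 : (τM (coords c (jp y d b a) Xδ Yδ n).1 / τM (coords c (jp y d b a) Xδ Yδ n).2.2 : M)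
          = τM ((coords c (jp y d b a) Xδ Yδ n).1 / (coords c (jp y d b a) Xδ Yδ n).2.2) := by
        rw [map_div₀]
      rw [h1] at hlarge
      exact hlarge

end Pool.Agent.Helper15.Curve
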