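import Mathlib

/-!
# Subspaces stable under derivations are defined over the constants
-/

namespace Pool.Agent.Helper15.LemR

/-- A subspace of `E ^ (κ)` stable under derivations is generated by its vectors of constants. -/
theorem echelon {E κ : Type*} [Field E] {ι : Type*} (D : ι → E → E)
    (h1 : ∀ i, D i 1 = 0) (h0 : ∀ i, D i 0 = 0)
    (U : Submodule E (κ →₀ E))
    (hU : ∀ i, ∀ u ∈ U, Finsupp.mapRange (D i) (h0 i) u ∈ U) :
    U ≤ Submodule.span E {v | v ∈ U ∧ ∀ j i, D i (v j) = 0} := by
  classical
  -- nonzero vectors of minimal support inside a given support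
  have hmin : ∀ u ∈ U, u ≠ 0 → ∃ v ∈ U, v ≠ 0 ∧ v.support ⊆ u.support ∧
      (∀ j i, D i (v j) = 0) ∧ ∃ j, v j = 1 := by
    intro u hu hu0
    have hex : ∃ n : ℕ, ∃ v ∈ U, v ≠ 0 ∧ v.support ⊆ u.support ∧ v.support.card = n :=
      ⟨_, u, hu, hu0, subset_rfl, rfl⟩
    obtain ⟨v, hv, hv0, hvu, hvn⟩ := Nat.find_spec hex
    obtain ⟨j, hj⟩ : ∃ j, v j ≠ 0 := by
      by_contra hcon
      push Not at hcon
      exact hv0 (Finsupp.ext hcon)
    -- normalise
    set w := (v j)⁻¹ • v with hw
    have hwU : w ∈ U := U.smul_mem _ hv
    have hwsupp : w.support = v.support := by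
      rw [hw]
      exact Finsupp.support_smul_eq (inv_ne_zero hj)
    have hwj : w j = 1 := by
      rw [hw, Finsupp.smul_apply, smul_eq_mul, inv_mul_cancel₀ hj]
    have hw0 : w ≠ 0 := by
      intro h
      rw [h] at hwj
      exact zero_ne_one hwj
    refine ⟨w, hwU, hw0, by rw [hwsupp]; exact hvu, ?_, j, hwj⟩
    intro l i
    by_contra hne
    -- the derivative has smaller support
    have hDU := hU i w hwU
    set w' := Finsupp.mapRange (D i) (h0 i) w with hw'
    have hw'0 : w' ≠ 0 := by
      intro h
      apply hne
      have := DFunLike.congr_fun h l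
      rw [hw', Finsupp.mapRange_apply] at this
      exact this
    have hsub : w'.support ⊆ w.support.erase j := by
      intro m hm
      rw [Finset.mem_erase]
      constructor
      · rintro rfl
        rw [Finsupp.mem_support_iff, hw', Finsupp.mapRange_apply, hwj, h1] at hm
        exact hm rfl
      · rw [Finsupp.mem_support_iff]
        intro h
        rw [Finsupp.mem_support_iff, hw', Finsupp.mapRange_apply, h, h0] at hm
        exact hm rfl
    have hjw : j ∈ w.support := by
      rw [Finsupp.mem_support_iff, hwj]; exact one_ne_zero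
    have hcard : w'.support.card < Nat.find hex := by
      rw [← hvn, ← hwsupp]
      exact lt_of_le_of_lt (Finset.card_le_card hsub) (Finset.card_erase_lt_of_mem hjw)
    refine Nat.find_min hex hcard ⟨w', hDU, hw'0, ?_, rfl⟩
    exact (hsub.trans (Finset.erase_subset _ _)).trans (by rw [hwsupp]; exact hvu)
  -- induction on the size of the support
  have key : ∀ n : ℕ, ∀ u ∈ U, u.support.card ≤ n →
      u ∈ Submodule.span E {v | v ∈ U ∧ ∀ j i, D i (v j) = 0} := by
    intro n
    induction n with
    | zero =>
      intro u _ hn
      have : u = 0 := by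
        rw [← Finsupp.support_eq_empty, ← Finset.card_eq_zero]
        omega
      rw [this]
      exact Submodule.zero_mem _
    | succ n ih =>
      intro u hu hn
      by_cases hu0 : u = 0
      · rw [hu0]; exact Submodule.zero_mem _
      obtain ⟨v, hv, hv0, hvu, hvc, j, hj⟩ := hmin u hu hu0
      have hvmem : v ∈ Submodule.span E {v | v ∈ U ∧ ∀ j i, D i (v j) = 0} :=
        Submodule.subset_span ⟨hv, hvc⟩
      have hju : j ∈ u.support := hvu (by
        rw [Finsupp.mem_support_iff, hj]; exact one_ne_zero)
      have hdiff : u - u j • v ∈ Submodule.span E {v | v ∈ U ∧ ∀ j i, D i (v j) = 0} := by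
        apply ih _ (U.sub_mem hu (U.smul_mem _ hv))
        have hsub : (u - u j • v).support ⊆ u.support.erase j := by
          intro m hm
          rw [Finset.mem_erase]
          constructor
          · rintro rfl
            rw [Finsupp.mem_support_iff, Finsupp.sub_apply, Finsupp.smul_apply, hj, smul_eq_mul,
              mul_one, sub_self] at hm
            exact hm rfl
          · by_contra hmu
            have h2 : u m = 0 := Finsupp.notMem_support_iff.mp hmu
            have h3 : v m = 0 := Finsupp.notMem_support_iff.mp fun h => hmu (hvu h)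
            rw [Finsupp.mem_support_iff, Finsupp.sub_apply, Finsupp.smul_apply, h2, h3, smul_zero,
              sub_self] at hm
            exact hm rfl
        have := lt_of_le_of_lt (Finset.card_le_card hsub) (Finset.card_erase_lt_of_mem hju)
        omega
      have : u = (u - u j • v) + u j • v := by rw [sub_add_cancel]
      rw [this]
      exact Submodule.add_mem _ hdiff (Submodule.smul_mem _ _ hvmem)
  intro u hu
  exact key _ u hu le_rfl

end Pool.Agent.Helper15.LemR
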