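import Pool.Agent.Helper15.LemR1

/-!
# Chains of embeddings
-/

namespace Pool.Agent.Helper15.LemR

open scoped TensorProduct

universe u

variable {k : Type*} {E : Type u} {Ω : Type*} [Field k] [Field E] [Algebra k E] [Field Ω]
  [Algebra k Ω]

/-- `σ` has an extension `σ'` of its restriction to `B` that is generic over the images of `σ` and
`σ₀`. -/
def GenExt (B : IntermediateField k E) (D : Derivation k E E) (σ₀ σ : E →ₐ[k] Ω) : Prop :=
  ∃ σ' : E →ₐ[k] Ω, (∀ b ∈ B, σ' b = σ b) ∧
    ∀ (κ : Type u) (s : Finset κ) (a e : κ → E), ∑ j ∈ s, σ' (e j) * σ₀ (a j) = 0 →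
      ∑ j ∈ s, σ (e j) * σ₀ (a j) = 0 ∧ ∑ j ∈ s, σ' (D (e j)) * σ₀ (a j) = 0

/-- The embeddings that can be reached from `σ₀` by moving along the fibrations. -/
inductive Reach {ι : Type*} (B : ι → IntermediateField k E) (σ₀ : E →ₐ[k] Ω) :
    (E →ₐ[k] Ω) → Prop
  | refl : Reach B σ₀ σ₀
  | step {σ σ' : E →ₐ[k] Ω} (i : ι) : Reach B σ₀ σ → (∀ b ∈ B i, σ' b = σ b) → Reach B σ₀ σ'

/-- Some embedding that can be reached from `σ₀` is independent of `σ₀`. -/
theorem exists_reach [Algebra.EssFiniteType k E] {ι : Type*} (B : ι → IntermediateField k E)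
    (D : ι → Derivation k E E) (σ₀ : E →ₐ[k] Ω)
    (hgen : ∀ i (σ : E →ₐ[k] Ω), GenExt (B i) (D i) σ₀ σ)
    (hconst : ∀ e, (∀ i, D i e = 0) → e ∈ Set.range (algebraMap k E)) :
    ∃ σ : E →ₐ[k] Ω, Reach B σ₀ σ ∧
      Function.Injective (Algebra.TensorProduct.productMap σ σ₀ : E ⊗[k] E →ₐ[k] Ω) := by
  classical
  have hN : IsNoetherianRing (E ⊗[k] E) := Algebra.EssFiniteType.isNoetherianRing E (E ⊗[k] E)
  let q : (E →ₐ[k] Ω) → Ideal (E ⊗[k] E) := fun σ =>
    RingHom.ker ((Algebra.TensorProduct.productMap σ σ₀ : E ⊗[k] E →ₐ[k] Ω) : E ⊗[k] E →+* Ω)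
  have hqp : ∀ σ, (q σ).IsPrime := fun σ => RingHom.ker_isPrime _
  -- a reachable embedding of minimal height
  obtain ⟨σ, hσ, hmin⟩ : ∃ σ, Reach B σ₀ σ ∧ ∀ σ', Reach B σ₀ σ' →
      (q σ).height ≤ (q σ').height := by
    have hwf : WellFounded ((· < ·) : ℕ∞ → ℕ∞ → Prop) := wellFounded_lt
    obtain ⟨n, ⟨σ, hσ, hn⟩, hm⟩ := hwf.has_min {n | ∃ σ, Reach B σ₀ σ ∧ (q σ).height = n}
      ⟨_, σ₀, Reach.refl, rfl⟩
    refine ⟨σ, hσ, fun σ' hσ' => ?_⟩
    rw [hn]
    exact not_lt.mp (hm _ ⟨σ', hσ', rfl⟩)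
  refine ⟨σ, hσ, ?_⟩
  let b := Module.Basis.ofVectorSpace k E
  let κ := Module.Basis.ofVectorSpaceIndex k E
  let bE : Module.Basis κ E (E ⊗[k] E) := Algebra.TensorProduct.basis E b
  -- the value in coordinates
  have hval : ∀ (σ : E →ₐ[k] Ω) (ξ : E ⊗[k] E),
      Algebra.TensorProduct.productMap σ σ₀ ξ
        = ∑ j ∈ (bE.repr ξ).support, σ (bE.repr ξ j) * σ₀ (b j) := by
    intro σ ξ
    conv_lhs => rw [← bE.linearCombination_repr ξ, Finsupp.linearCombination_apply, Finsupp.sum]
    rw [map_sum]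
    refine Finset.sum_congr rfl fun j _ => ?_
    have h1 : bE.repr ξ j • bE j = bE.repr ξ j ⊗ₜ[k] b j := by
      show bE.repr ξ j • (Algebra.TensorProduct.basis E b) j = _
      rw [Algebra.TensorProduct.basis_apply, TensorProduct.smul_tmul', smul_eq_mul, mul_one]
    rw [h1, Algebra.TensorProduct.productMap_apply_tmul]
  -- stability
  have hstab : ∀ (i : ι) (ξ : E ⊗[k] E), Algebra.TensorProduct.productMap σ σ₀ ξ = 0 →
      ∑ j ∈ (bE.repr ξ).support, σ (D i (bE.repr ξ j)) * σ₀ (b j) = 0 := by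
    intro i ξ hξ
    obtain ⟨σ', hσ'B, hσ'⟩ := hgen i σ
    have hle : q σ' ≤ q σ := by
      intro ζ hζ
      rw [RingHom.mem_ker] at hζ ⊢
      have h1 : Algebra.TensorProduct.productMap σ' σ₀ ζ = 0 := hζ
      show Algebra.TensorProduct.productMap σ σ₀ ζ = 0
      rw [hval] at h1 ⊢
      exact (hσ' κ _ (fun j => b j) (fun j => bE.repr ζ j) h1).1
    have heq : q σ' = q σ := by
      have := hqp σ'
      exact Ideal.eq_of_le_of_height_le _ hle (hmin σ' (Reach.step i hσ hσ'B))
    have hξ' : Algebra.TensorProduct.productMap σ' σ₀ ξ = 0 := by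
      have : ξ ∈ q σ' := by
        rw [heq, RingHom.mem_ker]
        exact hξ
      exact this
    have h2 : ∑ j ∈ (bE.repr ξ).support, σ' (D i (bE.repr ξ j)) * σ₀ (b j) = 0 := by
      rw [hval] at hξ'
      exact (hσ' κ _ (fun j => b j) (fun j => bE.repr ξ j) hξ').2
    -- the element with these coordinates
    have h3 : (∑ j ∈ (bE.repr ξ).support, (D i (bE.repr ξ j)) ⊗ₜ[k] b j) ∈ q σ' := by
      rw [RingHom.mem_ker, map_sum]
      rw [← h2]
      refine Finset.sum_congr rfl fun j _ => ?_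
      exact Algebra.TensorProduct.productMap_apply_tmul _ _ _ _
    rw [heq, RingHom.mem_ker, map_sum] at h3
    rw [← h3]
    refine Finset.sum_congr rfl fun j _ => ?_
    exact (Algebra.TensorProduct.productMap_apply_tmul _ _ _ _).symm
  -- the kernel as a subspace
  let Φ : (κ →₀ E) → Ω := fun u => ∑ j ∈ u.support, σ (u j) * σ₀ (b j)
  have hΦ : ∀ u : κ →₀ E, Φ u = Algebra.TensorProduct.productMap σ σ₀ (bE.repr.symm u) := by
    intro u
    rw [hval, LinearEquiv.apply_symm_apply]
  let U : Submodule E (κ →₀ E) :=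
    { carrier := {u | Φ u = 0}
      add_mem' := by
        intro u v hu hv
        show Φ (u + v) = 0
        have hu' : Φ u = 0 := hu
        have hv' : Φ v = 0 := hv
        rw [hΦ, map_add, map_add, ← hΦ, ← hΦ, hu', hv', add_zero]
      zero_mem' := by
        show Φ 0 = 0
        rw [hΦ, map_zero, map_zero]
      smul_mem' := by
        intro c u hu
        show Φ (c • u) = 0
        have hu' : Φ u = 0 := hu
        have h1 : ∀ ζ : E ⊗[k] E, Algebra.TensorProduct.productMap σ σ₀ (c • ζ)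
            = σ c * Algebra.TensorProduct.productMap σ σ₀ ζ := by
          intro ζ
          have : c • ζ = (c ⊗ₜ[k] (1 : E)) * ζ := by
            rw [Algebra.smul_def]; rfl
          rw [this, map_mul, Algebra.TensorProduct.productMap_apply_tmul, map_one, mul_one]
        rw [hΦ, map_smul, h1, ← hΦ, hu', mul_zero] }
  have hU : U = ⊥ := by
    rw [eq_bot_iff]
    refine le_trans (echelon (fun i => D i) (fun i => (D i).map_one_eq_zero)
      (fun i => map_zero (D i)) U ?_) ?_
    · intro i u hu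
      show Φ _ = 0
      have hu' : Algebra.TensorProduct.productMap σ σ₀ (bE.repr.symm u) = 0 := by
        rw [← hΦ]; exact hu
      have h1 := hstab i _ hu'
      rw [LinearEquiv.apply_symm_apply] at h1
      rw [← h1]
      show ∑ j ∈ (Finsupp.mapRange (D i) _ u).support, _ = _
      refine Finset.sum_subset (Finsupp.support_mapRange) ?_
      intro j _ hj
      rw [Finsupp.notMem_support_iff] at hj
      rw [hj, map_zero, zero_mul]
    · rw [Submodule.span_le]
      rintro v ⟨hv, hvc⟩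
      show v ∈ (⊥ : Submodule E (κ →₀ E))
      rw [Submodule.mem_bot]
      have h1 : ∀ j, ∃ c : k, algebraMap k E c = v j := fun j => hconst (v j) (hvc j)
      choose c hc using h1
      have h2 : Φ v = σ₀ (∑ j ∈ v.support, c j • b j) := by
        rw [map_sum]
        refine Finset.sum_congr rfl fun j _ => ?_
        rw [← hc j, σ.commutes, map_smul, Algebra.smul_def]
      have h3 : σ₀ (∑ j ∈ v.support, c j • b j) = 0 := by
        rw [← h2]; exact hv
      have h4 : ∑ j ∈ v.support, c j • b j = 0 := (map_eq_zero σ₀).mp h3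
      have h5 := (linearIndependent_iff'.mp b.linearIndependent) v.support c h4
      ext j
      by_cases hj : j ∈ v.support
      · rw [← hc j, h5 j hj, map_zero]; rfl
      · exact Finsupp.notMem_support_iff.mp hj
  rw [injective_iff_map_eq_zero]
  intro ξ hξ
  have h1 : bE.repr ξ ∈ U := by
    show Φ _ = 0
    rw [hΦ, LinearEquiv.symm_apply_apply]
    exact hξ
  rw [hU, Submodule.mem_bot] at h1
  exact (map_eq_zero_iff bE.repr bE.repr.injective).mp h1

end Pool.Agent.Helper15.LemR
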