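import Pool.Agent.Helper15.LemR2
import Pool.Agent.Helper15.Engine4

/-!
# Transport of tangent spaces along chains of embeddings
-/

namespace Pool.Agent.Helper15.LemR

open scoped TensorProduct
open Engine

universe u

variable {k : Type*} {E : Type u} {Ω : Type*} [Field k] [Field E] [Algebra k E] [Field Ω]
  [Algebra k Ω]

/-- If the product map is injective, elements of `E` independent over `k` become independent over
the image of the other embedding. -/
theorem algebraicIndependent_of_injective (σ₀ σ : E →ₐ[k] Ω)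
    (hinj : Function.Injective (Algebra.TensorProduct.productMap σ σ₀ : E ⊗[k] E →ₐ[k] Ω))
    {ι : Type*} (t : ι → E) (ht : AlgebraicIndependent k t) :
    letI : Algebra E Ω := σ₀.toRingHom.toAlgebra
    AlgebraicIndependent E (fun i => σ (t i)) := by
  let _ : Algebra E Ω := σ₀.toRingHom.toAlgebra
  have hst : IsScalarTower k E Ω := IsScalarTower.of_algebraMap_eq fun x => (σ₀.commutes x).symm
  let P : E ⊗[k] E →ₐ[E] Ω :=
    Algebra.TensorProduct.productLeftAlgHom (Algebra.ofId E Ω) σ
  have hP : ∀ ξ, P ξ = Algebra.TensorProduct.productMap σ σ₀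
      (Algebra.TensorProduct.comm k E E ξ) := by
    intro ξ
    induction ξ using TensorProduct.induction_on with
    | zero => rw [map_zero, map_zero, map_zero]
    | tmul a b =>
      rw [Algebra.TensorProduct.comm_tmul, Algebra.TensorProduct.productMap_apply_tmul]
      show (Algebra.TensorProduct.productLeftAlgHom (Algebra.ofId E Ω) σ) (a ⊗ₜ b) = _
      rw [Algebra.TensorProduct.lift_tmul, mul_comm]
      rfl
    | add x y hx hy => rw [map_add, map_add, map_add, hx, hy]
  have hPinj : Function.Injective P := by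
    intro ξ ζ h
    rw [hP, hP] at h
    exact (Algebra.TensorProduct.comm k E E).injective (hinj h)
  let f : MvPolynomial ι k →ₐ[k] E := MvPolynomial.aeval t
  let F : E ⊗[k] MvPolynomial ι k →ₐ[E] E ⊗[k] E :=
    Algebra.TensorProduct.map (AlgHom.id E E) f
  have hF : Function.Injective F := by
    have h1 := Module.Flat.lTensor_preserves_injective_linearMap (M := E) f.toLinearMap ht
    exact h1
  let g : MvPolynomial ι E →ₐ[E] Ω :=
    (P.comp F).comp (MvPolynomial.algebraTensorAlgEquiv k E).symm.toAlgHom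
  have hg : Function.Injective g :=
    (hPinj.comp hF).comp (MvPolynomial.algebraTensorAlgEquiv k E).symm.injective
  have hgeq : g = MvPolynomial.aeval (fun i => σ (t i)) := by
    apply MvPolynomial.algHom_ext
    intro i
    rw [MvPolynomial.aeval_X]
    show P (F ((MvPolynomial.algebraTensorAlgEquiv k E).symm (MvPolynomial.X i))) = _
    rw [MvPolynomial.algebraTensorAlgEquiv_symm_X]
    show P (1 ⊗ₜ MvPolynomial.aeval t (MvPolynomial.X i)) = _
    rw [MvPolynomial.aeval_X]
    show (Algebra.TensorProduct.productLeftAlgHom (Algebra.ofId E Ω) σ) (1 ⊗ₜ t i) = _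
    rw [Algebra.TensorProduct.lift_tmul, map_one, one_mul]
  show Function.Injective (MvPolynomial.aeval (fun i => σ (t i)) : MvPolynomial ι E →ₐ[E] Ω)
  rw [← hgeq]
  exact hg

section Transport

variable [CharZero k] {ι : Type*} (D : ι → Derivation k E E)

/-- The `Ω`-span of the tangent vectors at `σ` in the Lie algebra. -/
def V (σ : E →ₐ[k] Ω) : Submodule Ω (E → Ω) :=
  Submodule.span Ω {g | ∃ Θ, Gen D Θ ∧ g = fun e => σ (Θ e)}

/-- The `Ω`-span of the restrictions to `B` of the elements of the Lie algebra preserving `B`. -/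
def VB (B : IntermediateField k E) (σ : E →ₐ[k] Ω) : Submodule Ω (B → Ω) :=
  Submodule.span Ω {g | ∃ Θ, Gen D Θ ∧ (∀ b ∈ B, Θ b ∈ B) ∧ g = fun b : B => σ (Θ b)}

/-- A derivation with values in `B` on a transcendence basis of `B` preserves `B`. -/
theorem preserves (B : IntermediateField k E) {κ : Type*} (t : κ → B)
    (ht : IsTranscendenceBasis k t) (Θ : Derivation k E E) (hΘ : ∀ l, Θ (t l) ∈ B) :
    ∀ b ∈ B, Θ b ∈ B := by
  have hB : CharZero B := charZero_of_injective_algebraMap (algebraMap k B).injective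
  obtain ⟨θ, hθ⟩ := Der.exists_derivation t ht.1 (fun l => (⟨Θ (t l), hΘ l⟩ : B))
  have key : ∀ b : B, Θ b - (θ b : E) = 0 := by
    intro b
    refine Der.derivation_eq_zero (k := k) (algebraMap B E) (fun b : B => Θ b - (θ b : E)) ?_ ?_ ?_
      (Set.range t) ?_ ht.isAlgebraic_field b
    · intro a b
      rw [map_add θ]
      push_cast
      rw [map_add]; ring
    · intro a b
      rw [θ.leibniz]
      push_cast
      rw [Θ.leibniz, smul_eq_mul, smul_eq_mul, smul_eq_mul, smul_eq_mul]
      push_cast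
      show _ = (a : E) * _ + (b : E) * _
      ring
    · intro c
      rw [θ.map_algebraMap]
      have : ((algebraMap k B c : B) : E) = algebraMap k E c := rfl
      rw [this, Θ.map_algebraMap]
      simp
    · rintro _ ⟨l, rfl⟩
      rw [hθ, sub_self]
  intro b hb
  have := key ⟨b, hb⟩
  rw [sub_eq_zero] at this
  have h2 : Θ b = (θ ⟨b, hb⟩ : E) := this
  rw [h2]
  exact SetLike.coe_mem _

/-- The restriction to `B` of an element of the Lie algebra is a combination of restrictions of
elements preserving `B`. -/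
theorem restrict_mem [Algebra.EssFiniteType k E] (B : IntermediateField k E)
    (i : ι) (hB : ∀ e, D i e = 0 ↔ e ∈ B) (σ : E →ₐ[k] Ω) (Θ : Derivation k E E)
    (hΘ : Gen D Θ) : (fun b : B => σ (Θ b)) ∈ VB D B σ := by
  classical
  obtain ⟨T, hT⟩ := exists_isTranscendenceBasis k B
  have hTE : AlgebraicIndependent k (fun l : T => ((l : B) : E)) :=
    hT.1.map' (f := B.val) (RingHom.injective _)
  have hTf : Finite T := finite_of_algebraicIndependent (K := k) (L := E) hTE
  -- the subspace of values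
  let U : Submodule E (T →₀ E) :=
    { carrier := {u | ∃ Θ, Gen D Θ ∧ ∀ l : T, u l = Θ (l : B)}
      add_mem' := by
        rintro u v ⟨Θ, h, hu⟩ ⟨Θ', h', hv⟩
        refine ⟨Θ + Θ', h.add h', fun l => ?_⟩
        rw [Finsupp.add_apply, hu, hv]; rfl
      zero_mem' := ⟨0, Gen.zero, fun l => rfl⟩
      smul_mem' := by
        rintro c u ⟨Θ, h, hu⟩
        refine ⟨c • Θ, h.smul c, fun l => ?_⟩
        rw [Finsupp.smul_apply, hu]; rfl }
  have hech := echelon (ι := Unit) (fun _ => D i) (fun _ => (D i).map_one_eq_zero)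
    (fun _ => map_zero (D i)) U (by
      rintro _ u ⟨Θ, h, hu⟩
      refine ⟨⁅D i, Θ⁆, (Gen.of i).lie h, fun l => ?_⟩
      rw [Finsupp.mapRange_apply, hu, Derivation.commutator_apply]
      have : D i ((l : B) : E) = 0 := (hB _).mpr (l : B).2
      rw [this, map_zero, sub_zero])
  -- every element of the span comes from a good element
  have key : ∀ w ∈ Submodule.span E {v | v ∈ U ∧ ∀ j (_ : Unit), D i (v j) = 0},
      ∃ Θ, Gen D Θ ∧ (∀ l : T, w l = Θ (l : B)) ∧ (fun b : B => σ (Θ b)) ∈ VB D B σ := by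
    intro w hw
    induction hw using Submodule.span_induction with
    | mem v hv =>
      obtain ⟨⟨Θ, h, hv1⟩, hv2⟩ := hv
      refine ⟨Θ, h, hv1, Submodule.subset_span ⟨Θ, h, ?_, rfl⟩⟩
      refine preserves B (fun l : T => (l : B)) hT Θ (fun l => ?_)
      rw [← hv1, ← hB]
      exact hv2 l ()
    | zero => exact ⟨0, Gen.zero, fun l => rfl, by
        have : (fun b : B => σ ((0 : Derivation k E E) b)) = 0 := by
          funext b; show σ 0 = 0; rw [map_zero]
        rw [this]; exact Submodule.zero_mem _⟩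
    | add x y _ _ hx hy =>
      obtain ⟨Θ, h, h1, h2⟩ := hx
      obtain ⟨Θ', h', h1', h2'⟩ := hy
      refine ⟨Θ + Θ', h.add h', fun l => ?_, ?_⟩
      · rw [Finsupp.add_apply, h1, h1']; rfl
      · have : (fun b : B => σ ((Θ + Θ') b)) = (fun b : B => σ (Θ b)) + fun b : B => σ (Θ' b) := by
          funext b
          show σ (Θ b + Θ' b) = σ (Θ b) + σ (Θ' b)
          rw [map_add]
        rw [this]; exact Submodule.add_mem _ h2 h2'
    | smul c x _ hx =>
      obtain ⟨Θ, h, h1, h2⟩ := hx
      refine ⟨c • Θ, h.smul c, fun l => ?_, ?_⟩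
      · rw [Finsupp.smul_apply, h1]; rfl
      · have : (fun b : B => σ ((c • Θ) b)) = σ c • fun b : B => σ (Θ b) := by
          funext b
          show σ (c • Θ b) = σ c * σ (Θ b)
          rw [smul_eq_mul, map_mul]
        rw [this]; exact Submodule.smul_mem _ _ h2
  obtain ⟨Θ', h', h1, h2⟩ := key (Finsupp.equivFunOnFinite.symm fun l : T => Θ ((l : B) : E))
    (hech ⟨Θ, hΘ, fun l => rfl⟩)
  have heq : (fun b : B => σ (Θ b)) = fun b : B => σ (Θ' b) := by
    funext b
    congr 1
    rw [← sub_eq_zero]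
    refine Der.derivation_eq_zero (k := k) (algebraMap B E) (fun b : B => Θ b - Θ' b) ?_ ?_ ?_
      (Set.range fun l : T => (l : B)) ?_ hT.isAlgebraic_field b
    · intro a b
      push_cast
      rw [map_add, map_add]; ring
    · intro a b
      push_cast
      rw [Θ.leibniz, Θ'.leibniz, smul_eq_mul, smul_eq_mul, smul_eq_mul, smul_eq_mul]
      show _ = (a : E) * _ + (b : E) * _
      ring
    · intro c
      have : ((algebraMap k B c : B) : E) = algebraMap k E c := rfl
      rw [this, Θ.map_algebraMap, Θ'.map_algebraMap, sub_zero]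
    · rintro _ ⟨l, rfl⟩
      rw [sub_eq_zero]
      exact h1 l
  rw [heq]
  exact h2

omit [CharZero k] in
theorem VB_mono (B : IntermediateField k E) (σ σ' : E →ₐ[k] Ω) (h : ∀ b ∈ B, σ' b = σ b) :
    VB D B σ ≤ VB D B σ' := by
  unfold VB
  rw [Submodule.span_le]
  rintro _ ⟨Θ, hΘ, hΘB, rfl⟩
  refine Submodule.subset_span ⟨Θ, hΘ, hΘB, ?_⟩
  funext b
  exact (h _ (hΘB b b.2)).symm

omit [CharZero k] in
/-- Elements of `V σ` are derivations. -/
theorem V_derivation (σ : E →ₐ[k] Ω) (g : E → Ω) (hg : g ∈ V D σ) :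
    (∀ a b, g (a + b) = g a + g b) ∧ (∀ a b, g (a * b) = σ a * g b + σ b * g a) := by
  unfold V at hg
  induction hg using Submodule.span_induction with
  | mem v hv =>
    obtain ⟨Θ, -, rfl⟩ := hv
    refine ⟨fun a b => ?_, fun a b => ?_⟩
    · show σ (Θ (a + b)) = σ (Θ a) + σ (Θ b)
      rw [map_add, map_add]
    · show σ (Θ (a * b)) = σ a * σ (Θ b) + σ b * σ (Θ a)
      rw [Θ.leibniz, map_add, smul_eq_mul, smul_eq_mul, map_mul, map_mul]
  | zero => exact ⟨fun a b => by simp, fun a b => by simp⟩
  | add x y _ _ hx hy =>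
    refine ⟨fun a b => ?_, fun a b => ?_⟩
    · simp only [Pi.add_apply]; rw [hx.1, hy.1]; ring
    · simp only [Pi.add_apply]; rw [hx.2, hy.2]; ring
  | smul c x _ hx =>
    refine ⟨fun a b => ?_, fun a b => ?_⟩
    · simp only [Pi.smul_apply, smul_eq_mul]; rw [hx.1]; ring
    · simp only [Pi.smul_apply, smul_eq_mul]; rw [hx.2]; ring

/-- Tangent vectors of chains of fibres lie in the Lie algebra. -/
theorem transport [Algebra.EssFiniteType k E] (B : ι → IntermediateField k E)
    (hB : ∀ i e, D i e = 0 ↔ e ∈ B i) (x : ι → E) (hx : ∀ i, D i (x i) = 1)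
    (hder : ∀ i (σ : E →ₐ[k] Ω) (d : E → Ω), (∀ a b, d (a + b) = d a + d b) →
      (∀ a b, d (a * b) = σ a * d b + σ b * d a) → (∀ b ∈ B i, d b = 0) → d (x i) = 0 →
      ∀ e, d e = 0)
    (σ₀ : E →ₐ[k] Ω) (Δ : Ω → Ω) (hadd : ∀ a b, Δ (a + b) = Δ a + Δ b)
    (hmul : ∀ a b, Δ (a * b) = a * Δ b + b * Δ a) (h0 : ∀ e, Δ (σ₀ e) = 0)
    (σ : E →ₐ[k] Ω) (hσ : Reach B σ₀ σ) : (fun e => Δ (σ e)) ∈ V D σ := by
  induction hσ with
  | refl =>
    have : (fun e => Δ (σ₀ e)) = 0 := by funext e; exact h0 e
    rw [this]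
    exact Submodule.zero_mem _
  | @step σ σ' i hσ hσσ' ih =>
    -- restriction to `B i`
    let res : (E → Ω) →ₗ[Ω] (B i → Ω) :=
      { toFun := fun g b => g b
        map_add' := fun _ _ => rfl
        map_smul' := fun _ _ => rfl }
    have h1 : V D σ ≤ (VB D (B i) σ).comap res := by
      unfold V
      rw [Submodule.span_le]
      rintro _ ⟨Θ, hΘ, rfl⟩
      exact restrict_mem D (B i) i (hB i) σ Θ hΘ
    have h2 : (fun b : B i => Δ (σ' b)) ∈ VB D (B i) σ' := by
      have h3 := VB_mono D (B i) σ σ' hσσ' (h1 ih)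
      have h4 : res (fun e => Δ (σ e)) = fun b : B i => Δ (σ' b) := by
        funext b
        show Δ (σ b) = Δ (σ' b)
        rw [hσσ' b b.2]
      rwa [h4] at h3
    have h3 : VB D (B i) σ' ≤ (V D σ').map res := by
      unfold VB
      rw [Submodule.span_le]
      rintro _ ⟨Θ, hΘ, -, rfl⟩
      exact ⟨fun e => σ' (Θ e), Submodule.subset_span ⟨Θ, hΘ, rfl⟩, rfl⟩
    obtain ⟨g, hg, hres⟩ := h3 h2
    obtain ⟨ga, gm⟩ := V_derivation D σ' g hg
    have hgb : ∀ b ∈ B i, g b = Δ (σ' b) := fun b hb => congrFun hres ⟨b, hb⟩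
    set c : Ω := Δ (σ' (x i)) - g (x i) with hc
    have hzero : ∀ e, Δ (σ' e) - g e - c * σ' (D i e) = 0 := by
      refine hder i σ' (fun e => Δ (σ' e) - g e - c * σ' (D i e)) ?_ ?_ ?_ ?_
      · intro a b
        rw [map_add, hadd, ga, map_add, map_add]; ring
      · intro a b
        rw [map_mul, hmul, gm, (D i).leibniz, map_add, smul_eq_mul, smul_eq_mul, map_mul, map_mul]
        ring
      · intro b hb
        rw [hgb b hb, (hB i b).mpr hb, map_zero]; ring
      · rw [hx, map_one, hc]; ring
    have heq : (fun e => Δ (σ' e)) = g + c • fun e => σ' (D i e) := by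
      funext e
      have := hzero e
      show Δ (σ' e) = g e + c * σ' (D i e)
      linear_combination this
    rw [heq]
    exact Submodule.add_mem _ hg (Submodule.smul_mem _ _
      (Submodule.subset_span ⟨D i, Gen.of i, rfl⟩))

/-- **Bracket generation.**  If the only common constants of the derivations `D i` are the
elements of `k`, and each fibration has generic points in the field `Ω`, then the `D i` generate
all derivations. -/
theorem gen_all [Algebra.EssFiniteType k E] (B : ι → IntermediateField k E)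
    (hB : ∀ i e, D i e = 0 ↔ e ∈ B i) (x : ι → E) (hx : ∀ i, D i (x i) = 1)
    (hder : ∀ i (σ : E →ₐ[k] Ω) (d : E → Ω), (∀ a b, d (a + b) = d a + d b) →
      (∀ a b, d (a * b) = σ a * d b + σ b * d a) → (∀ b ∈ B i, d b = 0) → d (x i) = 0 →
      ∀ e, d e = 0)
    (σ₀ : E →ₐ[k] Ω) (hgen : ∀ i (σ : E →ₐ[k] Ω), GenExt (B i) (D i) σ₀ σ)
    (hconst : ∀ e, (∀ i, e ∈ B i) → e ∈ Set.range (algebraMap k E)) (D' : Derivation k E E) :
    Gen D D' := by
  classical
  have hcE : CharZero E := charZero_of_injective_algebraMap (algebraMap k E).injective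
  obtain ⟨σ, hσ, hinj⟩ := exists_reach B D σ₀ hgen
    (fun e he => hconst e fun i => (hB i e).mp (he i))
  obtain ⟨T, hT⟩ := exists_isTranscendenceBasis k E
  have hTf : Finite T := finite_of_algebraicIndependent (K := k) (L := E) hT.1
  cases nonempty_fintype T
  -- the values on the transcendence basis
  let U : Submodule E (T → E) :=
    { carrier := {u | ∃ Θ, Gen D Θ ∧ ∀ l : T, u l = Θ l}
      add_mem' := by
        rintro u v ⟨Θ, h, hu⟩ ⟨Θ', h', hv⟩
        refine ⟨Θ + Θ', h.add h', fun l => ?_⟩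
        rw [Pi.add_apply, hu, hv]; rfl
      zero_mem' := ⟨0, Gen.zero, fun l => rfl⟩
      smul_mem' := by
        rintro c u ⟨Θ, h, hu⟩
        refine ⟨c • Θ, h.smul c, fun l => ?_⟩
        rw [Pi.smul_apply, hu]; rfl }
  have hU : U = ⊤ := by
    by_contra hne
    obtain ⟨f, hf0, hfU⟩ := Submodule.exists_le_ker_of_lt_top U (lt_top_iff_ne_top.mpr hne)
    have hfsum : ∀ w : T → E, f w = ∑ l, w l * f (Pi.single l 1) := by
      intro w
      conv_lhs => rw [← Finset.univ_sum_single w, map_sum]
      refine Finset.sum_congr rfl fun l _ => ?_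
      have : (Pi.single l (w l) : T → E) = w l • Pi.single l (1 : E) := by
        rw [← Pi.single_smul, smul_eq_mul, mul_one]
      rw [this, map_smul, smul_eq_mul]
    obtain ⟨l₀, hl₀⟩ : ∃ l, f (Pi.single l 1) ≠ 0 := by
      by_contra hcon
      push Not at hcon
      apply hf0
      apply LinearMap.ext
      intro w
      rw [hfsum]
      simp [hcon]
    -- a derivation of `Ω`
    have hind := algebraicIndependent_of_injective σ₀ σ hinj (fun l : T => (l : E)) hT.1
    let _ : Algebra E Ω := σ₀.toRingHom.toAlgebra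
    obtain ⟨Δ, hΔ⟩ := Der.exists_derivation (k := E) (E := Ω) (fun l : T => σ l) hind
      (fun l => if l = l₀ then 1 else 0)
    have hV := transport D B hB x hx hder σ₀ Δ (map_add Δ)
      (fun a b => by rw [Δ.leibniz, smul_eq_mul, smul_eq_mul])
      (fun e => Δ.map_algebraMap e) σ hσ
    have hkill : ∀ g ∈ V D σ, ∑ l : T, g (l : E) * σ (f (Pi.single l 1)) = 0 := by
      intro g hg
      unfold V at hg
      induction hg using Submodule.span_induction with
      | mem v hv =>
        obtain ⟨Θ, hΘ, rfl⟩ := hv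
        have h1 : f (fun l : T => Θ l) = 0 := hfU ⟨Θ, hΘ, fun l => rfl⟩
        rw [hfsum] at h1
        have h2 := congrArg σ h1
        rw [map_sum, map_zero] at h2
        rw [← h2]
        refine Finset.sum_congr rfl fun l _ => ?_
        rw [map_mul]
      | zero => simp
      | add y z _ _ hy hz =>
        simp only [Pi.add_apply, add_mul, Finset.sum_add_distrib, hy, hz, add_zero]
      | smul c y _ hy =>
        simp only [Pi.smul_apply, smul_eq_mul, mul_assoc]
        rw [← Finset.mul_sum, hy, mul_zero]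
    have h3 := hkill _ hV
    simp only [hΔ, ite_mul, one_mul, zero_mul, Finset.sum_ite_eq', Finset.mem_univ, if_true] at h3
    exact hl₀ ((map_eq_zero σ).mp h3)
  obtain ⟨Θ, hΘ, hΘl⟩ : (fun l : T => D' l) ∈ U := by rw [hU]; exact Submodule.mem_top
  have heq : D' = Θ := by
    apply Derivation.ext
    intro e
    rw [← sub_eq_zero]
    refine Der.derivation_eq_zero (k := k) (RingHom.id E) (fun e => D' e - Θ e) ?_ ?_ ?_
      (Set.range fun l : T => (l : E)) ?_ hT.isAlgebraic_field e
    · intro a b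
      rw [map_add, map_add]; ring
    · intro a b
      rw [D'.leibniz, Θ.leibniz, smul_eq_mul, smul_eq_mul, smul_eq_mul, smul_eq_mul]
      show _ = a * _ + b * _
      ring
    · intro c
      rw [D'.map_algebraMap, Θ.map_algebraMap, sub_zero]
    · rintro _ ⟨l, rfl⟩
      rw [sub_eq_zero]
      exact hΘl l
  rw [heq]
  exact hΘ

end Transport

end Pool.Agent.Helper15.LemR
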