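import Pool.Agent.Helper15.LemR3
import Pool.Agent.Helper15.CurveDer
import Pool.Agent.Helper15.Emb

/-!
# Generic extensions along fibrations in curves `y ^ 2 = q(x)`
-/

namespace Pool.Agent.Helper15.LemR

open Polynomial Curve

universe u

variable {k : Type*} {E : Type u} {Ω : Type*} [Field k] [Field E] [Algebra k E] [Field Ω]
  [Algebra k Ω] {B : IntermediateField k E} {x y : E} {q : Polynomial B}

/-- A common denominator. -/
theorem common_denominator (h : IsQuartic B x y q) {κ : Type*} (S : Finset κ) (e : κ → E) :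
    ∃ s : MvPolynomial (Fin 2) B, MvPolynomial.aeval ![x, y] s ≠ (0 : E) ∧
      ∀ j ∈ S, ∃ g : MvPolynomial (Fin 2) B,
        e j * MvPolynomial.aeval ![x, y] s = MvPolynomial.aeval ![x, y] g := by
  classical
  induction S using Finset.induction_on with
  | empty => exact ⟨1, by rw [map_one]; exact one_ne_zero, by simp⟩
  | insert j S _ ih =>
    obtain ⟨s, hs, hS⟩ := ih
    obtain ⟨f, t, hft, ht⟩ := h.frac (e j)
    refine ⟨s * t, by rw [map_mul]; exact mul_ne_zero hs ht, ?_⟩
    intro i hi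
    rcases Finset.mem_insert.mp hi with rfl | hi
    · refine ⟨s * f, ?_⟩
      rw [map_mul, map_mul, ← hft]; ring
    · obtain ⟨g, hg⟩ := hS i hi
      refine ⟨g * t, ?_⟩
      rw [map_mul, map_mul, ← hg]; ring

theorem genExt [CharZero k] [Countable E] [IsAlgClosed Ω] [Uncountable Ω]
    (h : IsQuartic B x y q) (D : Derivation k E E) (hDB : ∀ b ∈ B, D b = 0) (hDx : D x = 1)
    (σ₀ σ : E →ₐ[k] Ω) : GenExt B D σ₀ σ := by
  classical
  let F : Subfield Ω := Subfield.closure (Set.range σ₀ ∪ Set.range σ)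
  have hFc : Countable F := by
    rw [← Cardinal.mk_le_aleph0_iff]
    refine le_trans (Subfield.cardinalMk_closure_le_max _) ?_
    rw [sup_le_iff]
    refine ⟨?_, le_rfl⟩
    have : (Set.range σ₀ ∪ Set.range σ).Countable :=
      (Set.countable_range σ₀).union (Set.countable_range σ)
    exact Cardinal.le_aleph0_iff_set_countable.mpr this
  have hσ₀F : ∀ e, σ₀ e ∈ F := fun e => Subfield.subset_closure (Or.inl ⟨e, rfl⟩)
  have hσF : ∀ e, σ e ∈ F := fun e => Subfield.subset_closure (Or.inr ⟨e, rfl⟩)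
  obtain ⟨x', -, hx'⟩ := Emb.exists_transcendental F.subtype (Set.univ : Set Ω)
    Set.not_countable_univ
  let ρ : B →+* F := ((σ : E →+* Ω).codRestrict F hσF).comp (algebraMap B E)
  let σB : B →ₐ[k] Ω := σ.comp B.val
  have hρ : ∀ p : Polynomial B, (p.map ρ).eval₂ F.subtype x' = p.eval₂ (σB : B →+* Ω) x' := by
    intro p
    rw [eval₂_map]; rfl
  have hx'B : ∀ f : Polynomial B, f.eval₂ (σB : B →+* Ω) x' = 0 → f = 0 := by
    intro f hf
    rw [← hρ] at hf
    exact (Polynomial.map_eq_zero_iff ρ.injective).mp (hx' _ hf)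
  obtain ⟨y', hy'⟩ := IsAlgClosed.exists_pow_nat_eq (q.eval₂ (σB : B →+* Ω) x') (n := 2)
    (by norm_num)
  obtain ⟨σ', hσ'B, hσ'x, hσ'y⟩ := h.exists_embedding σB x' y' hx'B hy'
  refine ⟨σ', fun b hb => hσ'B ⟨b, hb⟩, ?_⟩
  intro κ S a e hsum
  obtain ⟨s, hs, hS⟩ := common_denominator h S e
  choose! g hg using hS
  set w : E := MvPolynomial.aeval ![x, y] s with hw
  -- the polynomials over `F`
  let aF : κ → F := fun j => ⟨σ₀ (a j), hσ₀F _⟩
  let PA : Polynomial F := ∑ j ∈ S, C (aF j) * (redA q (g j)).map ρ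
  let PB : Polynomial F := ∑ j ∈ S, C (aF j) * (redB q (g j)).map ρ
  -- evaluation of the elements `e j * w`
  have hred : ∀ j ∈ S, e j * w = (redA q (g j)).eval₂ (algebraMap B E) x
      + (redB q (g j)).eval₂ (algebraMap B E) x * y := by
    intro j hj
    rw [hw, hg j hj]
    exact eval_red (algebraMap B E) q x y h.eqn' (g j)
  have hτ : ∀ (τ : E →ₐ[k] Ω), (∀ b ∈ B, τ b = σ b) → ∀ p : Polynomial B,
      τ (p.eval₂ (algebraMap B E) x) = (p.map ρ).eval₂ F.subtype (τ x) := by
    intro τ hτB p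
    rw [← AlgHom.coe_toRingHom, hom_eval₂, eval₂_map]
    congr 1
    ext b
    exact hτB b b.2
  have hPAeval : ∀ (τ : E →ₐ[k] Ω), (∀ b ∈ B, τ b = σ b) →
      PA.eval₂ F.subtype (τ x) + PB.eval₂ F.subtype (τ x) * τ y
        = ∑ j ∈ S, σ₀ (a j) * τ (e j * w) := by
    intro τ hτB
    simp only [PA, PB, eval₂_finsetSum, eval₂_mul, eval₂_C, Finset.sum_mul]
    rw [← Finset.sum_add_distrib]
    refine Finset.sum_congr rfl fun j hj => ?_
    rw [hred j hj, map_add, map_mul, hτ τ hτB, hτ τ hτB]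
    show σ₀ (a j) * _ + σ₀ (a j) * _ * _ = _
    ring
  have hzero : PA.eval₂ F.subtype x' + PB.eval₂ F.subtype x' * y' = 0 := by
    have h1 := hPAeval σ' (fun b hb => hσ'B ⟨b, hb⟩)
    rw [hσ'x, hσ'y] at h1
    rw [h1]
    have h2 : ∑ j ∈ S, σ₀ (a j) * σ' (e j * w) = σ' w * ∑ j ∈ S, σ' (e j) * σ₀ (a j) := by
      rw [Finset.mul_sum]
      refine Finset.sum_congr rfl fun j _ => ?_
      rw [map_mul]; ring
    rw [h2, hsum, mul_zero]
  obtain ⟨hA0, hB0⟩ := indep F.subtype (q.map ρ) h.sep.map (by rw [natDegree_map]; exact h.one_le)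
    x' y' hx' (by rw [hρ]; exact hy') PA PB hzero
  constructor
  · -- specialisation to `σ`
    have h1 := hPAeval σ (fun b _ => rfl)
    rw [hA0, hB0] at h1
    simp only [eval₂_zero, zero_mul, add_zero] at h1
    have h2 : ∑ j ∈ S, σ₀ (a j) * σ (e j * w) = σ w * ∑ j ∈ S, σ (e j) * σ₀ (a j) := by
      rw [Finset.mul_sum]
      refine Finset.sum_congr rfl fun j _ => ?_
      rw [map_mul]; ring
    rw [h2] at h1
    have hw0 : σ w ≠ 0 := (map_ne_zero σ).mpr hs
    exact (mul_eq_zero.mp h1.symm).resolve_left hw0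
  · -- the derivative
    have hDpoly : ∀ p : Polynomial B, D (p.eval₂ (algebraMap B E) x)
        = (derivative p).eval₂ (algebraMap B E) x := by
      intro p
      induction p using Polynomial.induction_on' with
      | add p r hp hr => rw [eval₂_add, map_add, hp, hr, derivative_add, eval₂_add]
      | monomial n b =>
        rw [eval₂_monomial, D.leibniz, D.leibniz_pow, hDx, derivative_monomial, eval₂_monomial]
        have : D (algebraMap B E b) = 0 := hDB _ b.2
        rw [this, smul_zero, add_zero, map_mul, map_natCast]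
        simp only [smul_eq_mul, nsmul_eq_mul, mul_one]
        ring
    have hDj : ∀ j ∈ S, σ' (D (e j * w)) = ((redA q (g j)).derivative.map ρ).eval₂ F.subtype x'
        + ((redB q (g j)).derivative.map ρ).eval₂ F.subtype x' * y'
        + ((redB q (g j)).map ρ).eval₂ F.subtype x' * σ' (D y) := by
      intro j hj
      rw [hred j hj, map_add, D.leibniz, hDpoly, hDpoly, smul_eq_mul, smul_eq_mul]
      rw [map_add, map_add, map_mul, map_mul, hτ σ' (fun b hb => hσ'B ⟨b, hb⟩),
        hτ σ' (fun b hb => hσ'B ⟨b, hb⟩), hτ σ' (fun b hb => hσ'B ⟨b, hb⟩), hσ'x, hσ'y]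
      ring
    have h1 : ∑ j ∈ S, σ₀ (a j) * σ' (D (e j * w))
        = PA.derivative.eval₂ F.subtype x' + PB.derivative.eval₂ F.subtype x' * y'
          + PB.eval₂ F.subtype x' * σ' (D y) := by
      simp only [PA, PB, derivative_sum, derivative_mul, derivative_C, zero_mul, zero_add,
        derivative_map, eval₂_finsetSum, eval₂_mul, eval₂_C, Finset.sum_mul]
      rw [← Finset.sum_add_distrib, ← Finset.sum_add_distrib]
      refine Finset.sum_congr rfl fun j hj => ?_
      rw [hDj j hj]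
      show σ₀ (a j) * _ = σ₀ (a j) * _ + σ₀ (a j) * _ * _ + σ₀ (a j) * _ * _
      ring
    rw [hA0, hB0] at h1
    simp only [derivative_zero, eval₂_zero, zero_mul, add_zero] at h1
    have h2 : ∑ j ∈ S, σ₀ (a j) * σ' (D (e j * w))
        = σ' w * ∑ j ∈ S, σ' (D (e j)) * σ₀ (a j)
          + σ' (D w) * ∑ j ∈ S, σ' (e j) * σ₀ (a j) := by
      rw [Finset.mul_sum, Finset.mul_sum, ← Finset.sum_add_distrib]
      refine Finset.sum_congr rfl fun j _ => ?_
      rw [D.leibniz, smul_eq_mul, smul_eq_mul, map_add, map_mul, map_mul]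
      ring
    rw [h2, hsum, mul_zero, add_zero] at h1
    have hw0 : σ' w ≠ 0 := (map_ne_zero σ').mpr hs
    exact (mul_eq_zero.mp h1).resolve_left hw0

end Pool.Agent.Helper15.LemR
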