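import Mathlib

/-!
# Restricting a polynomial to lines
-/

namespace Pool.Agent.Helper15

open MvPolynomial

section Algebra

variable {R ι : Type*} [CommRing R]

/-- The restriction `s ↦ f (x + s w)` of `f` to a line, as a polynomial in `s`. -/
noncomputable def lineP (x w : ι → R) (f : MvPolynomial ι R) : Polynomial R :=
  aeval (fun i => Polynomial.C (x i) + Polynomial.C (w i) * Polynomial.X) f

theorem lineP_C (x w : ι → R) (r : R) : lineP x w (C r) = Polynomial.C r := by
  unfold lineP
  simp

theorem lineP_add (x w : ι → R) (f g : MvPolynomial ι R) :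
    lineP x w (f + g) = lineP x w f + lineP x w g := by
  unfold lineP
  simp

theorem lineP_mul (x w : ι → R) (f g : MvPolynomial ι R) :
    lineP x w (f * g) = lineP x w f * lineP x w g := by
  unfold lineP
  simp

theorem lineP_X (x w : ι → R) (i : ι) :
    lineP x w (X i) = Polynomial.C (x i) + Polynomial.C (w i) * Polynomial.X := by
  unfold lineP
  simp

theorem lineP_eval (x w : ι → R) (f : MvPolynomial ι R) (s : R) :
    (lineP x w f).eval s = eval (x + s • w) f := by
  induction f using MvPolynomial.induction_on with
  | C r => rw [lineP_C]; simp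
  | add p q hp hq => rw [lineP_add, Polynomial.eval_add, hp, hq, map_add]
  | mul_X p i hp =>
    rw [lineP_mul, Polynomial.eval_mul, hp, lineP_X, map_mul, eval_X]
    simp only [Polynomial.eval_add, Polynomial.eval_C, Polynomial.eval_mul, Polynomial.eval_X,
      Pi.add_apply, Pi.smul_apply, smul_eq_mul]
    ring

theorem lineP_natDegree_le [Nontrivial R] (x w : ι → R) (f : MvPolynomial ι R) :
    (lineP x w f).natDegree ≤ f.totalDegree := by
  unfold lineP
  rw [aeval_def, eval₂_eq]
  refine Polynomial.natDegree_sum_le_of_forall_le _ _ (fun m hm => ?_)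
  refine le_trans (Polynomial.natDegree_C_mul_le _ _) ?_
  refine le_trans (Polynomial.natDegree_prod_le _ _) ?_
  refine le_trans ?_ (le_totalDegree hm)
  rw [Finsupp.sum]
  refine Finset.sum_le_sum fun i _ => ?_
  refine le_trans (Polynomial.natDegree_pow_le) ?_
  have : (Polynomial.C (x i) + Polynomial.C (w i) * Polynomial.X).natDegree ≤ 1 := by
    rw [add_comm]
    exact Polynomial.natDegree_linear_le
  calc m i * _ ≤ m i * 1 := Nat.mul_le_mul_left _ this
    _ = m i := Nat.mul_one _

theorem lineP_coeff_zero (x w : ι → R) (f : MvPolynomial ι R) :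
    (lineP x w f).coeff 0 = eval x f := by
  rw [Polynomial.coeff_zero_eq_eval_zero, lineP_eval]
  simp

theorem lineP_mul_X_coeff_succ (x w : ι → R) (f : MvPolynomial ι R) (i : ι) (j : ℕ) :
    (lineP x w (f * X i)).coeff (j + 1)
      = (lineP x w f).coeff (j + 1) * x i + (lineP x w f).coeff j * w i := by
  rw [lineP_mul, lineP_X, mul_add, Polynomial.coeff_add, Polynomial.coeff_mul_C, ← mul_assoc,
    Polynomial.coeff_mul_X, Polynomial.coeff_mul_C]

/-- The first coefficient is linear in the direction. -/
theorem lineP_coeff_one_add_smul (x w u : ι → R) (c : R) (f : MvPolynomial ι R) :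
    (lineP x (w + c • u) f).coeff 1 = (lineP x w f).coeff 1 + c * (lineP x u f).coeff 1 := by
  induction f using MvPolynomial.induction_on with
  | C r => simp [lineP_C]
  | add p q hp hq => rw [lineP_add, Polynomial.coeff_add, hp, hq, lineP_add, lineP_add,
      Polynomial.coeff_add, Polynomial.coeff_add]; ring
  | mul_X p i hp =>
    rw [lineP_mul_X_coeff_succ, lineP_mul_X_coeff_succ, lineP_mul_X_coeff_succ, hp,
      lineP_coeff_zero, lineP_coeff_zero, lineP_coeff_zero]
    simp only [Pi.add_apply, Pi.smul_apply, smul_eq_mul]
    ring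

/-- The restriction `f (b + τ d + s w)` to a plane, as a polynomial in `s` over `R[τ]`. -/
noncomputable def planeP (b d w : ι → R) (f : MvPolynomial ι R) : Polynomial (Polynomial R) :=
  aeval (fun i => Polynomial.C (Polynomial.C (b i) + Polynomial.C (d i) * Polynomial.X)
    + Polynomial.C (Polynomial.C (w i)) * Polynomial.X) f

theorem planeP_coeff_eval (b d w : ι → R) (f : MvPolynomial ι R) (j : ℕ) (t : R) :
    ((planeP b d w f).coeff j).eval t = (lineP (b + t • d) w f).coeff j := by
  have key : (planeP b d w f).map (Polynomial.evalRingHom t) = lineP (b + t • d) w f := by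
    unfold planeP lineP
    induction f using MvPolynomial.induction_on with
    | C r => simp [Polynomial.algebraMap_apply]
    | add p q hp hq => rw [map_add, Polynomial.map_add, hp, hq, map_add]
    | mul_X p i hp =>
      rw [map_mul, Polynomial.map_mul, hp, map_mul, aeval_X, aeval_X]
      congr 1
      simp only [Polynomial.map_add, Polynomial.map_C, Polynomial.coe_evalRingHom,
        Polynomial.eval_add, Polynomial.eval_C, Polynomial.eval_mul, Polynomial.eval_X,
        Polynomial.map_mul, Polynomial.map_X, Pi.add_apply, Pi.smul_apply, smul_eq_mul]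
      congr 2
      ring
  rw [← key, Polynomial.coeff_map, Polynomial.coe_evalRingHom]

/-- The substitution `τ = t + a s`. -/
noncomputable def shear (t a : R) : Polynomial (Polynomial R) →+* Polynomial R :=
  Polynomial.eval₂RingHom
    (Polynomial.aeval (Polynomial.C t + Polynomial.C a * Polynomial.X) :
      Polynomial R →ₐ[R] Polynomial R).toRingHom Polynomial.X

theorem shear_planeP (b d w : ι → R) (f : MvPolynomial ι R) (t a : R) :
    shear t a (planeP b d w f) = lineP (b + t • d) (w + a • d) f := by
  unfold planeP lineP shear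
  induction f using MvPolynomial.induction_on with
  | C r => simp [Polynomial.algebraMap_apply]
  | add p q hp hq => rw [map_add, map_add, hp, hq, map_add]
  | mul_X p i hp =>
    rw [map_mul, map_mul, hp, map_mul, aeval_X, aeval_X]
    congr 1
    simp only [map_add, map_mul, Polynomial.coe_eval₂RingHom, Polynomial.eval₂_C,
      Polynomial.eval₂_X, AlgHom.toRingHom_eq_coe, RingHom.coe_coe, Polynomial.aeval_C,
      Polynomial.aeval_X, Pi.add_apply, Pi.smul_apply, smul_eq_mul, Polynomial.algebraMap_apply,
      Algebra.algebraMap_self, RingHom.id_apply]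
    ring

theorem shear_coeff_zero (t a : R) (g : Polynomial R) :
    (Polynomial.aeval (Polynomial.C t + Polynomial.C a * Polynomial.X) g
      : Polynomial R).coeff 0 = g.eval t := by
  rw [Polynomial.coeff_zero_eq_eval_zero, Polynomial.aeval_def, ← Polynomial.coe_evalRingHom,
    Polynomial.hom_eval₂]
  simp [Polynomial.eval₂_eq_eval_map, Polynomial.algebraMap_eq]
  congr 1
  ext n
  simp

theorem shear_coeff_one (t a : R) (g : Polynomial R) :
    (Polynomial.aeval (Polynomial.C t + Polynomial.C a * Polynomial.X) g
      : Polynomial R).coeff 1 = a * g.derivative.eval t := by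
  induction g using Polynomial.induction_on' with
  | add p q hp hq =>
    rw [map_add, Polynomial.coeff_add, hp, hq, Polynomial.derivative_add, Polynomial.eval_add]
    ring
  | monomial n r =>
    induction n with
    | zero => simp
    | succ n ih =>
      have h1 : Polynomial.monomial (n + 1) r = Polynomial.monomial n r * Polynomial.X := by
        rw [Polynomial.monomial_mul_X]
      rw [h1, map_mul, Polynomial.aeval_X, mul_add, Polynomial.coeff_add, Polynomial.coeff_mul_C,
        ih, ← mul_assoc, Polynomial.coeff_mul_X, Polynomial.coeff_mul_C, shear_coeff_zero,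
        Polynomial.derivative_mul, Polynomial.derivative_X, Polynomial.eval_add,
        Polynomial.eval_mul, Polynomial.eval_mul, Polynomial.eval_X, Polynomial.eval_one]
      ring

/-- The second coefficient of the restriction to the line through `b + t d` in direction
`w + a d`, when `f` vanishes on the line `b + τ d`. -/
theorem lineP_coeff_two_shear (b d w : ι → R) (f : MvPolynomial ι R) (t a : R)
    (h0 : (planeP b d w f).coeff 0 = 0) :
    (lineP (b + t • d) (w + a • d) f).coeff 2
      = (lineP (b + t • d) w f).coeff 2 + a * ((planeP b d w f).coeff 1).derivative.eval t := by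
  have key : ∀ a' : R, (lineP (b + t • d) (w + a' • d) f).coeff 2
      = a' * ((planeP b d w f).coeff 1).derivative.eval t
        + ((planeP b d w f).coeff 2).eval t := by
    intro a'
    rw [← shear_planeP]
    set P := planeP b d w f with hP
    obtain ⟨Q, hQ⟩ : ∃ Q, P = Polynomial.X * Q := by
      rw [← Polynomial.X_dvd_iff] at h0
      exact h0
    obtain ⟨Q', hQ'⟩ : ∃ Q', Q = Polynomial.C (Q.coeff 0) + Polynomial.X * Q' := by
      refine ⟨Q.divX, ?_⟩
      conv_lhs => rw [← Polynomial.X_mul_divX_add Q]
      ring
    obtain ⟨Q'', hQ''⟩ : ∃ Q'', Q' = Polynomial.C (Q'.coeff 0) + Polynomial.X * Q'' := by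
      refine ⟨Q'.divX, ?_⟩
      conv_lhs => rw [← Polynomial.X_mul_divX_add Q']
      ring
    have e1 : P.coeff 1 = Q.coeff 0 := by
      rw [hQ, Polynomial.coeff_X_mul]
    have e2 : P.coeff 2 = Q'.coeff 0 := by
      rw [hQ, Polynomial.coeff_X_mul]
      conv_lhs => rw [hQ']
      rw [Polynomial.coeff_add, Polynomial.coeff_X_mul, Polynomial.coeff_C]
      simp
    have hX : shear t a' (Polynomial.X) = Polynomial.X := by
      unfold shear; simp
    have hC : ∀ g : Polynomial R, shear t a' (Polynomial.C g)
        = Polynomial.aeval (Polynomial.C t + Polynomial.C a' * Polynomial.X) g := by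
      intro g; unfold shear; simp
    rw [e1, e2, hQ]
    generalize Q.coeff 0 = q0 at hQ' ⊢
    generalize Q'.coeff 0 = q1 at hQ'' ⊢
    rw [map_mul, hX, Polynomial.coeff_X_mul, hQ', map_add, Polynomial.coeff_add, hC,
      shear_coeff_one, map_mul, hX, Polynomial.coeff_X_mul, hQ'', map_add, Polynomial.coeff_add,
      hC, shear_coeff_zero, map_mul, hX]
    simp
  rw [key a]
  have h := key 0
  rw [zero_smul, add_zero, zero_mul, zero_add] at h
  rw [h]
  ring

end Algebra

end Pool.Agent.Helper15
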