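import Pool.Agent.Helper15.Line
import Pool.Agent.Helper15.DirDeriv

namespace Pool.Agent.Helper15

open MvPolynomial

section Deriv

variable {R ι : Type*} [CommRing R] [Fintype ι]

theorem dirDeriv_C (w : ι → R) (r : R) : dirDeriv w (C r) = 0 := by
  unfold dirDeriv; simp

theorem dirDeriv_add (w : ι → R) (f g : MvPolynomial ι R) :
    dirDeriv w (f + g) = dirDeriv w f + dirDeriv w g := by
  unfold dirDeriv
  simp [mul_add, Finset.sum_add_distrib]

theorem dirDeriv_X (w : ι → R) (i : ι) : dirDeriv w (X i) = C (w i) := by
  classical
  unfold dirDeriv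
  rw [Finset.sum_eq_single i]
  · simp
  · intro j _ hj
    rw [pderiv_X_of_ne (Ne.symm hj)]; simp
  · intro h; exact absurd (Finset.mem_univ i) h

theorem dirDeriv_mul (w : ι → R) (f g : MvPolynomial ι R) :
    dirDeriv w (f * g) = dirDeriv w f * g + f * dirDeriv w g := by
  unfold dirDeriv
  rw [Finset.sum_mul, Finset.mul_sum, ← Finset.sum_add_distrib]
  refine Finset.sum_congr rfl fun i _ => ?_
  rw [pderiv_mul]
  ring

/-- The chain rule for the restriction to a line. -/
theorem lineP_derivative (x w : ι → R) (f : MvPolynomial ι R) :
    (lineP x w f).derivative = lineP x w (dirDeriv w f) := by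
  induction f using MvPolynomial.induction_on with
  | C r => rw [dirDeriv_C, lineP_C, Polynomial.derivative_C]; unfold lineP; simp
  | add p q hp hq => rw [lineP_add, Polynomial.derivative_add, hp, hq, dirDeriv_add, lineP_add]
  | mul_X p i hp =>
    rw [lineP_mul, Polynomial.derivative_mul, hp, dirDeriv_mul, lineP_add, lineP_mul, lineP_mul,
      dirDeriv_X, lineP_C, lineP_X]
    simp

theorem lineP_coeff_one (x w : ι → R) (f : MvPolynomial ι R) :
    (lineP x w f).coeff 1 = eval x (dirDeriv w f) := by
  rw [← lineP_coeff_zero x w, ← lineP_derivative, Polynomial.coeff_derivative]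
  simp

theorem lineP_coeff_two (x w : ι → R) (f : MvPolynomial ι R) :
    2 * (lineP x w f).coeff 2 = eval x (dirDeriv w (dirDeriv w f)) := by
  rw [← lineP_coeff_one, ← lineP_derivative, Polynomial.coeff_derivative]
  push_cast
  ring

theorem lineP_coeff_three (x w : ι → R) (f : MvPolynomial ι R) :
    6 * (lineP x w f).coeff 3 = eval x (dirDeriv w (dirDeriv w (dirDeriv w f))) := by
  rw [← lineP_coeff_two, ← lineP_derivative, Polynomial.coeff_derivative]
  push_cast
  ring

/-- The derivative of the first coefficient along the line. -/
theorem planeP_coeff_one_derivative (b d w : ι → R) [IsDomain R] [Infinite R]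
    (f : MvPolynomial ι R) (t : R) :
    ((planeP b d w f).coeff 1).derivative.eval t
      = eval (b + t • d) (dirDeriv d (dirDeriv w f)) := by
  have h1 : (planeP b d w f).coeff 1 = lineP b d (dirDeriv w f) := by
    apply Polynomial.funext
    intro t
    rw [planeP_coeff_eval, lineP_coeff_one, lineP_eval]
  rw [h1, lineP_derivative, lineP_eval]

end Deriv

section Topology

variable {L ι : Type*} [NormedField L]

theorem continuous_lineP_coeff (f : MvPolynomial ι L) (j : ℕ) :
    Continuous fun p : (ι → L) × (ι → L) => (lineP p.1 p.2 f).coeff j := by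
  induction f using MvPolynomial.induction_on generalizing j with
  | C r =>
    simp only [lineP_C]
    exact continuous_const
  | add p q hp hq =>
    simp only [lineP_add, Polynomial.coeff_add]
    exact (hp j).add (hq j)
  | mul_X p i hp =>
    cases j with
    | zero =>
      simp only [lineP_coeff_zero, map_mul, eval_X]
      have h := hp 0
      simp only [lineP_coeff_zero] at h
      exact h.mul ((continuous_apply i).comp continuous_fst)
    | succ j =>
      simp only [lineP_mul_X_coeff_succ]
      exact ((hp (j + 1)).mul ((continuous_apply i).comp continuous_fst)).add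
        ((hp j).mul ((continuous_apply i).comp continuous_snd))

end Topology

end Pool.Agent.Helper15
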