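import Pool.Agent.Helper15.Triple

/-!
# Local density

Let `L` be a field with a valuation `v` such that `v 3 < 1`, and let `F` be a polynomial with
`v`-integral coefficients, of degree at most four in each variable.  If `w ^ 2 = F a` with `w`
nonzero and small compared to all partial derivatives of `F` at `a`, then the set of points of
`L ^ n` at which `F` is a nonzero square is Zariski dense.
-/

namespace Pool.Agent.Helper15

open NNReal MvPolynomial

/-- Taylor expansion in one coordinate direction, for a polynomial of degree at most four in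
that direction. -/
theorem taylor_four {R ι : Type*} [CommRing R] [DecidableEq ι] (F : MvPolynomial ι R) (j : ι)
    (hdeg : F.degreeOf j ≤ 4) (x : ι → R) :
    ∃ f2 f3 f4 : R, ∀ s : R, eval (Function.update x j (x j + s)) F
      = eval x F + eval x (pderiv j F) * s + f2 * s ^ 2 + f3 * s ^ 3 + f4 * s ^ 4 := by
  classical
  have hmon : ∀ m ∈ F.support, m j ≤ 4 := fun m hm =>
    le_trans (monomial_le_degreeOf j hm) hdeg
  have key : ∀ T : Finset (ι →₀ ℕ), T ⊆ F.support →
      ∃ f2 f3 f4 : R, ∀ s : R,
        eval (Function.update x j (x j + s)) (∑ m ∈ T, monomial m (coeff m F))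
        = eval x (∑ m ∈ T, monomial m (coeff m F))
          + eval x (pderiv j (∑ m ∈ T, monomial m (coeff m F))) * s
          + f2 * s ^ 2 + f3 * s ^ 3 + f4 * s ^ 4 := by
    intro T
    induction T using Finset.induction_on with
    | empty =>
      intro _
      exact ⟨0, 0, 0, fun s => by simp⟩
    | insert m T hm ih =>
      intro hsub
      obtain ⟨g2, g3, g4, hg⟩ := ih (fun a ha => hsub (Finset.mem_insert_of_mem ha))
      have hm4 : m j ≤ 4 := hmon m (hsub (Finset.mem_insert_self m T))
      -- the single monomial
      obtain ⟨c, hc⟩ : ∃ c : R, c = coeff m F := ⟨_, rfl⟩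
      obtain ⟨P, hP⟩ : ∃ P : R, P = (m.erase j).prod fun i k => x i ^ k := ⟨_, rfl⟩
      have hsplit : ∀ (k : ℕ) (y : R), eval (Function.update x j y)
          (monomial (Finsupp.single j k + m.erase j) c) = c * (y ^ k * P) := by
        intro k y
        rw [eval_monomial, Finsupp.prod_add_index' (by simp) (by intros; rw [pow_add])]
        rw [Finsupp.prod_single_index (by simp), Function.update_self, hP]
        congr 2
        apply Finsupp.prod_congr
        intro i hi
        have : i ≠ j := by
          rw [Finsupp.support_erase] at hi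
          exact (Finset.mem_erase.mp hi).1
        rw [Function.update_of_ne this]
      have hmj : Finsupp.single j (m j) + m.erase j = m := Finsupp.single_add_erase j m
      have e0 : ∀ y : R, eval (Function.update x j y) (monomial m c) = c * (y ^ (m j) * P) := by
        intro y
        have := hsplit (m j) y
        rwa [hmj] at this
      have e0' : eval x (monomial m c) = c * (x j ^ (m j) * P) := by
        have := e0 (x j)
        rwa [Function.update_eq_self] at this
      have e1 : eval x (pderiv j (monomial m c)) = c * ((m j : R) * x j ^ (m j - 1) * P) := by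
        rw [pderiv_monomial]
        have hmj' : m - Finsupp.single j 1 = Finsupp.single j (m j - 1) + m.erase j := by
          ext i
          by_cases h : i = j
          · subst h; simp
          · simp [Finsupp.erase_ne h, Finsupp.single_eq_of_ne h]
        have e2 : ∀ d : R, eval x (monomial (Finsupp.single j (m j - 1) + m.erase j) d)
            = d * (x j ^ (m j - 1) * P) := by
          intro d
          rw [eval_monomial, Finsupp.prod_add_index' (by simp) (by intros; rw [pow_add])]
          rw [Finsupp.prod_single_index (by simp), hP]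
        rw [hmj', e2]
        ring
      have hone : ∃ h2 h3 h4 : R, ∀ s : R,
          eval (Function.update x j (x j + s)) (monomial m c)
          = eval x (monomial m c) + eval x (pderiv j (monomial m c)) * s
            + h2 * s ^ 2 + h3 * s ^ 3 + h4 * s ^ 4 := by
        simp only [e0, e0', e1]
        generalize hk : m j = k at hm4
        interval_cases k
        · exact ⟨0, 0, 0, fun s => by push_cast; ring⟩
        · exact ⟨0, 0, 0, fun s => by push_cast; simp only [pow_zero]; ring⟩
        · exact ⟨c * P, 0, 0, fun s => by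
            push_cast; ring⟩
        · exact ⟨3 * c * x j * P, c * P, 0, fun s => by
            push_cast; ring⟩
        · exact ⟨6 * c * x j ^ 2 * P, 4 * c * x j * P, c * P, fun s => by
            push_cast; ring⟩
      obtain ⟨h2, h3, h4, hh⟩ := hone
      refine ⟨g2 + h2, g3 + h3, g4 + h4, fun s => ?_⟩
      rw [Finset.sum_insert hm, ← hc, map_add, map_add, map_add, map_add, hg s, hh s]
      ring
  have := key F.support (le_refl _)
  rwa [support_sum_monomial_coeff] at this

/-- If moving each coordinate infinitely often is possible inside a nonempty set `S`, then `S`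
is Zariski dense in affine space. -/
theorem eq_zero_of_coordwise {R ι : Type*} [CommRing R] [IsDomain R] [Infinite R]
    [Finite ι] [DecidableEq ι] (S : Set (ι → R)) (hne : S.Nonempty)
    (hS : ∀ x ∈ S, ∀ j, {t | Function.update x j t ∈ S}.Infinite)
    (G : MvPolynomial ι R) (hG : ∀ x ∈ S, eval x G = 0) : G = 0 := by
  classical
  cases nonempty_fintype ι
  have claim : ∀ T : Finset ι, ∀ x ∈ S, ∀ z : ι → R,
      eval (fun i => if i ∈ T then z i else x i) G = 0 := by
    intro T
    induction T using Finset.induction_on with
    | empty =>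
      intro x hx z
      simpa using hG x hx
    | insert j T hj ih =>
      intro x hx z
      -- the univariate polynomial in the coordinate `j`
      set p : Polynomial R := aeval (fun i => if i = j then Polynomial.X
        else Polynomial.C (if i ∈ T then z i else x i)) G with hp
      have hev : ∀ t : R, p.eval t
          = eval (fun i => if i = j then t else if i ∈ T then z i else x i) G := by
        intro t
        rw [hp, ← Polynomial.coe_evalRingHom, aeval_def, MvPolynomial.hom_eval₂, MvPolynomial.eval,
          ← MvPolynomial.coe_eval₂Hom]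
        congr 2
        · ext r; simp
        · funext i
          by_cases h : i = j <;> simp [h]
      have hroots : {t | Polynomial.IsRoot p t}.Infinite := by
        refine (hS x hx j).mono ?_
        intro t ht
        show p.eval t = 0
        rw [hev t]
        have := ih _ ht z
        rw [← this]
        congr 2
        funext i
        by_cases h : i = j
        · subst h; simp [hj]
        · simp [h]
      have hp0 : p = 0 := Polynomial.eq_zero_of_infinite_isRoot p hroots
      have := hev (z j)
      rw [hp0, Polynomial.eval_zero] at this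
      rw [this]
      congr 2
      funext i
      by_cases h : i = j
      · subst h; simp
      · simp [h, Finset.mem_insert]
  obtain ⟨x, hx⟩ := hne
  apply MvPolynomial.funext
  intro z
  have := claim Finset.univ x hx z
  simpa using this

/-- The ideal of elements of valuation at most `ρ`. -/
def ballIdeal {L : Type*} [Field L] (v : Valuation L ℝ≥0) (ρ : ℝ≥0) : Ideal v.integer where
  carrier := {z | v (z : L) ≤ ρ}
  zero_mem' := by simp
  add_mem' := by
    intro a b ha hb
    show v ((a + b : v.integer) : L) ≤ ρ
    push_cast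
    exact Valuation.map_add_le v ha hb
  smul_mem' := by
    intro c a ha
    show v ((c • a : v.integer) : L) ≤ ρ
    rw [smul_eq_mul]
    push_cast
    rw [map_mul]
    calc v (c : L) * v (a : L) ≤ 1 * ρ := mul_le_mul' c.2 ha
      _ = ρ := one_mul _

theorem lipschitz {L ι : Type*} [Field L] (v : Valuation L ℝ≥0) (G : MvPolynomial ι v.integer)
    (ρ : ℝ≥0) (x a : ι → v.integer) (h : ∀ i, v ((x i - a i : v.integer) : L) ≤ ρ) :
    v ((eval x G - eval a G : v.integer) : L) ≤ ρ := by
  have : eval x G - eval a G ∈ ballIdeal v ρ := by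
    rw [← Ideal.Quotient.eq, ← MvPolynomial.eval₂_id, ← MvPolynomial.eval₂_id,
      MvPolynomial.hom_eval₂, MvPolynomial.hom_eval₂]
    congr 1
    funext i
    show Ideal.Quotient.mk (ballIdeal v ρ) (x i) = Ideal.Quotient.mk (ballIdeal v ρ) (a i)
    rw [Ideal.Quotient.eq]
    exact h i
  exact this

/-- **Local density.**  If `F` has integral coefficients and degree at most four in each
variable, and `w ^ 2 = F a` with `w ≠ 0` small compared with all partial derivatives of `F` at
`a`, then the set of points where `F` is a nonzero square is Zariski dense. -/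
theorem dense_local {L ι : Type*} [Field L] [Infinite L] [Finite ι] [DecidableEq ι]
    (v : Valuation L ℝ≥0) (h3 : v 3 < 1)
    (F : MvPolynomial ι v.integer) (hdeg : ∀ j, F.degreeOf j ≤ 4) (a : ι → v.integer)
    (w : L) (hw0 : w ≠ 0) (hw : w ^ 2 = ((eval a F : v.integer) : L)) (c : ℝ≥0)
    (hc : ∀ j, c ≤ v ((eval a (pderiv j F) : v.integer) : L))
    (hsmall : v w ^ 2 < v 3 * c ^ 8) (G : MvPolynomial ι L)
    (hG : ∀ x : ι → L, (∃ u : L, u ≠ 0 ∧ u ^ 2 = eval x (map v.integer.subtype F)) →
      eval x G = 0) : G = 0 := by
  classical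
  have hevmap : ∀ x : ι → v.integer, eval (fun i => (x i : L)) (map v.integer.subtype F)
      = ((eval x F : v.integer) : L) := by
    intro x
    rw [eval_map, ← Subring.subtype_apply, ← MvPolynomial.eval₂_id, MvPolynomial.hom_eval₂]
    rfl
  have hc0 : 0 < c := by
    rcases eq_or_lt_of_le (zero_le : (0 : ℝ≥0) ≤ c) with h | h
    · rw [← h] at hsmall
      simp at hsmall
    · exact h
  set ρ : ℝ≥0 := v w ^ 2 / c ^ 4 with hρ
  let S : Set (ι → L) := {x | ∃ x' : ι → v.integer, (∀ i, x i = (x' i : L)) ∧
    (∀ i, v ((x' i - a i : v.integer) : L) ≤ ρ) ∧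
    ∃ u : L, u ≠ 0 ∧ u ^ 2 = ((eval x' F : v.integer) : L) ∧ v u ≤ v w}
  have hSne : S.Nonempty := ⟨fun i => (a i : L), a, fun i => rfl, fun i => by simp,
    w, hw0, hw, le_rfl⟩
  refine eq_zero_of_coordwise S hSne ?_ G ?_
  swap
  · rintro x ⟨x', hxx', -, u, hu0, hu, -⟩
    apply hG
    refine ⟨u, hu0, ?_⟩
    have : x = fun i => (x' i : L) := funext hxx'
    rw [this, hevmap, hu]
  intro x hx j hfin
  have hTfin : {t | Function.update x j t ∈ S}.Finite := hfin
  -- bound on `ρ`
  obtain ⟨hc1, hρc⟩ : c ≤ 1 ∧ ρ < c := by
    have hc1 : c ≤ 1 := le_trans (hc j) (eval a (pderiv j F)).2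
    refine ⟨hc1, ?_⟩
    rw [hρ, div_lt_iff₀ (pow_pos hc0 4)]
    calc v w ^ 2 < v 3 * c ^ 8 := hsmall
      _ ≤ 1 * c ^ 5 := mul_le_mul' h3.le (pow_le_pow_of_le_one zero_le hc1 (by norm_num))
      _ = c * c ^ 4 := by ring
  have hTne : {t | Function.update x j t ∈ S}.Nonempty :=
    ⟨x j, by show Function.update x j (x j) ∈ S; rwa [Function.update_eq_self]⟩
  obtain ⟨t0, ht0, hmin⟩ := Set.exists_min_image _
    (fun t => v (eval (Function.update x j t) (map v.integer.subtype F))) hTfin hTne
  obtain ⟨y, hxy, hya, u, hu0, hu, huw⟩ := ht0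
  have hval0 : v (eval (Function.update x j t0) (map v.integer.subtype F)) = v u ^ 2 := by
    have : Function.update x j t0 = fun i => (y i : L) := funext hxy
    rw [this, hevmap, ← hu, map_pow]
  have hyj : t0 = (y j : L) := by
    have := hxy j
    rwa [Function.update_self] at this
  -- the Taylor expansion at `y` in direction `j`
  obtain ⟨f2, f3, f4, hf⟩ := taylor_four F j (hdeg j) y
  set f1 : v.integer := eval y (pderiv j F) with hf1
  have hvf1 : c ≤ v (f1 : L) := by
    have h1 : v ((f1 - eval a (pderiv j F) : v.integer) : L) ≤ ρ := lipschitz v _ ρ y a hya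
    have h2 : v ((f1 - eval a (pderiv j F) : v.integer) : L)
        < v ((eval a (pderiv j F) : v.integer) : L) :=
      lt_of_le_of_lt h1 (lt_of_lt_of_le hρc (hc j))
    have h3 : (f1 : L) = ((eval a (pderiv j F) : v.integer) : L)
        + ((f1 - eval a (pderiv j F) : v.integer) : L) := by
      push_cast; ring
    rw [h3, Valuation.map_add_eq_of_lt_left v h2]
    exact hc j
  have hustep : v u ^ 2 < v 3 * v (f1 : L) ^ 8 := by
    calc v u ^ 2 ≤ v w ^ 2 := pow_le_pow_left₀ zero_le huw 2
      _ < v 3 * c ^ 8 := hsmall
      _ ≤ v 3 * v (f1 : L) ^ 8 := mul_le_mul' le_rfl (pow_le_pow_left₀ zero_le hvf1 8)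
  obtain ⟨s, Y, hY, hvY, hvs⟩ := parabola_step v (f1 : L) f2 f3 f4 u f1.2 f2.2 f3.2 f4.2 hustep
  have hf1pos : 0 < v (f1 : L) := lt_of_lt_of_le hc0 hvf1
  have hvsρ : v s ≤ ρ := by
    rw [hρ, le_div_iff₀ (pow_pos hc0 4)]
    calc v s * c ^ 4 ≤ v s * v (f1 : L) ^ 4 :=
          mul_le_mul' le_rfl (pow_le_pow_left₀ zero_le hvf1 4)
      _ ≤ v u ^ 2 := hvs
      _ ≤ v w ^ 2 := pow_le_pow_left₀ zero_le huw 2
  have hs1 : v s ≤ 1 := le_trans hvsρ (le_trans hρc.le hc1)
  obtain ⟨s', hs'⟩ : ∃ s' : v.integer, (s' : L) = s := ⟨⟨s, hs1⟩, rfl⟩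
  have hv3ne : v (3 : L) ≠ 0 := by
    intro h
    rw [h] at hsmall
    simp at hsmall
  have hvu : v u ≠ 0 := (Valuation.ne_zero_iff v).mpr hu0
  have hY0 : Y ≠ 0 := by
    rw [← Valuation.ne_zero_iff v, hvY]
    exact mul_ne_zero hv3ne hvu
  have hYu : v Y < v u := by
    rw [hvY]
    calc v 3 * v u < 1 * v u := by
          exact mul_lt_mul_of_pos_right h3 (pos_iff_ne_zero.mpr hvu)
      _ = v u := one_mul _
  set y1 : ι → v.integer := Function.update y j (y j + s') with hy1
  have hY1 : Y ^ 2 = ((eval y1 F : v.integer) : L) := by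
    rw [hy1, hf s', hY]
    push_cast
    rw [hs', hu]
  have hxy1 : Function.update x j (t0 + s) = fun i => (y1 i : L) := by
    funext i
    by_cases h : i = j
    · subst h
      rw [Function.update_self, hy1, Function.update_self, hyj]
      push_cast
      rw [hs']
    · rw [Function.update_of_ne h, hy1, Function.update_of_ne h]
      have := hxy i
      rwa [Function.update_of_ne h] at this
  have ht1 : t0 + s ∈ {t | Function.update x j t ∈ S} := by
    show Function.update x j (t0 + s) ∈ S
    refine ⟨y1, fun i => congrFun hxy1 i, ?_, Y, hY0, hY1, le_trans hYu.le huw⟩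
    intro i
    by_cases h : i = j
    · subst h
      rw [hy1, Function.update_self]
      have : ((y i + s' - a i : v.integer) : L) = ((y i - a i : v.integer) : L) + s := by
        push_cast; rw [hs']; ring
      rw [this]
      exact Valuation.map_add_le v (hya i) hvsρ
    · rw [hy1, Function.update_of_ne h]
      exact hya i
  have hle := hmin _ ht1
  rw [hval0, hxy1, hevmap, ← hY1, map_pow] at hle
  exact absurd hle (not_le.mpr (pow_lt_pow_left₀ hYu zero_le (by norm_num)))

end Pool.Agent.Helper15
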