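import Pool.Agent.Helper15.Global

/-!
# Potential density: the number field statement in affine form
-/

namespace Pool.Agent.Helper15

open NNReal MvPolynomial

/-- Every field that is algebraic over `ℚ` carries a valuation `v` with `0 < v p < 1`. -/
theorem exists_valuation (p : ℕ) [hp : Fact p.Prime] (Ω : Type*) [Field Ω] [CharZero Ω]
    [Algebra.IsAlgebraic ℚ Ω] : ∃ v : Valuation Ω ℝ≥0, v (p : Ω) < 1 ∧ v (p : Ω) ≠ 0 := by
  let φ : Ω →ₐ[ℚ] PadicAlgCl p := IsAlgClosed.lift
  refine ⟨(Valued.v : Valuation (PadicAlgCl p) ℝ≥0).comap (φ : Ω →+* PadicAlgCl p), ?_, ?_⟩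
  · rw [Valuation.comap_apply, map_natCast, PadicAlgCl.valuation_p]
    rw [div_lt_one (by exact_mod_cast hp.out.pos)]
    exact_mod_cast hp.out.one_lt
  · rw [Valuation.comap_apply, map_natCast, PadicAlgCl.valuation_p]
    have : (p : ℝ≥0) ≠ 0 := by exact_mod_cast hp.out.ne_zero
    positivity

/-- If `F` has degree at most four in each variable and has a zero over the algebraic closure at
which no partial derivative vanishes, then there is a finite extension `L` of `K` such that the
set of `L`-points at which `F` is a nonzero square in `L` is Zariski dense. -/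
theorem numberField_dense (K : Type*) [Field K] [NumberField K] {ι : Type*} [Finite ι]
    [Nonempty ι] (F : MvPolynomial ι K) (hdeg : ∀ j, F.degreeOf j ≤ 4)
    (a : ι → AlgebraicClosure K) (h0 : aeval a F = 0) (h1 : ∀ j, aeval a (pderiv j F) ≠ 0) :
    ∃ L : IntermediateField K (AlgebraicClosure K), FiniteDimensional K L ∧
      ∀ G : MvPolynomial ι L, (∀ x : ι → L, (∃ u : L, u ≠ 0 ∧ u ^ 2 = aeval x F) →
        eval x G = 0) → G = 0 := by
  classical
  have : Algebra.IsAlgebraic ℚ (AlgebraicClosure K) :=
    Algebra.IsAlgebraic.trans ℚ K (AlgebraicClosure K)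
  have : CharZero (AlgebraicClosure K) :=
    charZero_of_injective_algebraMap (algebraMap K (AlgebraicClosure K)).injective
  have : Fact (Nat.Prime 3) := ⟨Nat.prime_three⟩
  obtain ⟨v, h3, h30⟩ := exists_valuation 3 (AlgebraicClosure K)
  push_cast at h3 h30
  obtain ⟨j0⟩ := (inferInstance : Nonempty ι)
  set F' : MvPolynomial ι (AlgebraicClosure K) := map (algebraMap K _) F with hF'
  have hdeg' : ∀ j, F'.degreeOf j ≤ 4 := fun j => by
    rw [degreeOf_le_iff]
    intro m hm
    have hmF : m ∈ F.support := support_map_subset _ _ hm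
    exact (degreeOf_le_iff.mp (hdeg j)) m hmF
  have hev : ∀ Q : MvPolynomial ι K, eval a (map (algebraMap K _) Q) = aeval a Q := by
    intro Q
    rw [eval_map, aeval_def]
  have h0' : eval a F' = 0 := by rw [hF', hev, h0]
  have h1' : ∀ j, eval a (pderiv j F') ≠ 0 := fun j => by
    rw [hF', pderiv_map, hev]; exact h1 j
  obtain ⟨k, N, w, c, hw0, hint, hw, hc, hsmall⟩ := exists_data v h3 h30 F' hdeg' a h0' h1' j0
  set L : IntermediateField K (AlgebraicClosure K) :=
    IntermediateField.adjoin K (Set.range a ∪ {w}) with hL
  have haL : ∀ i, a i ∈ L := fun i =>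
    IntermediateField.subset_adjoin _ _ (Or.inl ⟨i, rfl⟩)
  have hwL : w ∈ L := IntermediateField.subset_adjoin _ _ (Or.inr rfl)
  have hfin : FiniteDimensional K L := by
    rw [hL]
    have : Finite ↥(Set.range a ∪ {w}) := ((Set.finite_range a).union (Set.finite_singleton w))
    refine IntermediateField.finiteDimensional_adjoin fun x _ => ?_
    exact Algebra.IsIntegral.isIntegral x
  refine ⟨L, hfin, fun G hG => ?_⟩
  let vL : Valuation L ℝ≥0 := v.comap (algebraMap L (AlgebraicClosure K))
  let aL : ι → L := fun i => ⟨a i, haL i⟩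
  let wL : L := ⟨w, hwL⟩
  let FL : MvPolynomial ι L := map (algebraMap K L) F
  have hmapFL : map (algebraMap L (AlgebraicClosure K)) FL = F' := by
    show map _ (map _ F) = _
    rw [map_map, hF', ← IsScalarTower.algebraMap_eq]
  have hmapR : map (algebraMap L (AlgebraicClosure K)) (rescaled k aL FL) = rescaled k a F' := by
    rw [rescaled_map, hmapFL]
    rfl
  have hbase : (fun i => algebraMap L (AlgebraicClosure K) ((basePt j0 N : ι → L) i))
      = basePt j0 N := by
    funext i
    unfold basePt
    by_cases h : i = j0
    · subst h; rw [Function.update_self, Function.update_self, map_pow, map_ofNat]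
    · rw [Function.update_of_ne h, Function.update_of_ne h]; simp
  have hevL : ∀ Q : MvPolynomial ι L, algebraMap L (AlgebraicClosure K) (eval (basePt j0 N) Q)
      = eval (basePt j0 N) (map (algebraMap L (AlgebraicClosure K)) Q) := by
    intro Q
    rw [← hbase, eval_map, ← MvPolynomial.eval₂_id, MvPolynomial.hom_eval₂]
    rfl
  have h3L : (3 : AlgebraicClosure K) ≠ 0 := by norm_num
  have hG' : translate aL G = 0 := by
    refine dense_local' vL ?_ (rescaled k aL FL) ?_ ?_ (basePt j0 N) ?_ wL ?_ ?_ c ?_ ?_ _ ?_
    · show v (algebraMap L (AlgebraicClosure K) 3) < 1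
      rw [map_ofNat]; exact h3
    · intro m
      show v (algebraMap L (AlgebraicClosure K) _) ≤ 1
      rw [← coeff_map, hmapR]
      exact hint m
    · intro j
      rw [rescaled]
      refine le_trans (degreeOf_C_mul_le _ _ _) (le_trans (degreeOf_translate_le _ _ _) ?_)
      rw [degreeOf_le_iff]
      intro m hm
      have hmF : m ∈ F.support := support_map_subset _ _ hm
      exact (degreeOf_le_iff.mp (hdeg j)) m hmF
    · intro i
      show v (algebraMap L (AlgebraicClosure K) _) ≤ 1
      unfold basePt
      by_cases h : i = j0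
      · subst h
        rw [Function.update_self, map_pow, map_ofNat, map_pow]
        exact pow_le_one₀ zero_le h3.le
      · rw [Function.update_of_ne h, Pi.zero_apply, map_zero, map_zero]; exact zero_le
    · intro h
      apply hw0
      exact congrArg Subtype.val h
    · apply (algebraMap L (AlgebraicClosure K)).injective
      rw [hevL, hmapR, map_pow]
      exact hw
    · intro j
      show c ≤ v (algebraMap L (AlgebraicClosure K) _)
      rw [hevL, ← pderiv_map, hmapR]
      exact hc j
    · show v (algebraMap L (AlgebraicClosure K) wL) ^ 2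
        < v (algebraMap L (AlgebraicClosure K) 3) * c ^ 8
      rw [map_ofNat]
      exact hsmall
    · rintro x ⟨u, hu0, hu⟩
      rw [eval_translate]
      apply hG
      have h3L' : (3 : L) ≠ 0 := by
        intro h
        apply h3L
        have := congrArg (algebraMap L (AlgebraicClosure K)) h
        simp at this
      refine ⟨u / 3 ^ k, div_ne_zero hu0 (pow_ne_zero k h3L'), ?_⟩
      rw [rescaled, map_mul, eval_C, eval_translate] at hu
      rw [div_pow, hu]
      have e1 : eval (x + aL) FL = aeval (x + aL) F := by
        show eval (x + aL) (map _ F) = _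
        rw [eval_map, aeval_def]
      rw [e1]
      have e2 : ((3 : L) ^ k) ^ 2 = 9 ^ k := by
        rw [← pow_mul, mul_comm, pow_mul]; norm_num
      rw [e2]
      have h9 : (9 : L) ^ k ≠ 0 := by
        rw [← e2]; exact pow_ne_zero 2 (pow_ne_zero k h3L')
      field_simp
  apply MvPolynomial.funext
  intro z
  have := eval_translate aL (z - aL) G
  rw [hG', sub_add_cancel] at this
  rw [← this]
  simp

end Pool.Agent.Helper15
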