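import Pool.Agent.Helper15.Sextic
import Pool.Agent.Helper15.NumField

/-!
# Sextics containing a line: number fields
-/

namespace Pool.Agent.Helper15

open MvPolynomial

theorem dirDeriv_map {R S ι : Type*} [CommRing R] [CommRing S] [Fintype ι] (φ : R →+* S)
    (w : ι → R) (f : MvPolynomial ι R) :
    map φ (dirDeriv w f) = dirDeriv (fun i => φ (w i)) (map φ f) := by
  unfold dirDeriv
  rw [map_sum]
  refine Finset.sum_congr rfl fun i _ => ?_
  rw [map_mul, map_C, pderiv_map]

theorem dirDeriv_single {R ι : Type*} [CommRing R] [Fintype ι] [DecidableEq ι] (i : ι)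
    (f : MvPolynomial ι R) : dirDeriv (Pi.single i 1) f = pderiv i f := by
  unfold dirDeriv
  rw [Finset.sum_eq_single i]
  · simp
  · intro j _ hj
    simp [Pi.single_eq_of_ne hj]
  · intro h; exact absurd (Finset.mem_univ i) h

theorem hom_eval' {R S ι : Type*} [CommRing R] [CommRing S] (φ : R →+* S)
    (x : ι → R) (f : MvPolynomial ι R) :
    φ (eval x f) = eval (fun i => φ (x i)) (map φ f) := by
  rw [eval_map, ← MvPolynomial.eval₂_id, MvPolynomial.hom_eval₂]
  rfl

/-- A sextic `f` over a number field that contains a line, and is sufficiently general at one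
point of it, takes square values at a Zariski dense set of points over a finite extension. -/
theorem sextic_numberField (K : Type*) [Field K] [NumberField K] {ι : Type*} [Fintype ι]
    (f : MvPolynomial ι K) (hdeg : f.totalDegree ≤ 6)
    (b d v : ι → AlgebraicClosure K)
    (hline : ∀ t : AlgebraicClosure K, eval (b + t • d) (map (algebraMap K (AlgebraicClosure K)) f) = 0)
    (hb : ∃ i, eval b (pderiv i (map (algebraMap K (AlgebraicClosure K)) f)) ≠ 0)
    (h1 : eval b (dirDeriv v (map (algebraMap K (AlgebraicClosure K)) f)) = 0)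
    (h2 : eval b (dirDeriv v (dirDeriv v (map (algebraMap K (AlgebraicClosure K)) f))) = 0)
    (h3 : eval b (dirDeriv v (dirDeriv v (dirDeriv v
      (map (algebraMap K (AlgebraicClosure K)) f)))) ≠ 0)
    (h4 : eval b (dirDeriv d (dirDeriv v (map (algebraMap K (AlgebraicClosure K)) f))) ≠ 0) :
    ∃ L : IntermediateField K (AlgebraicClosure K), FiniteDimensional K L ∧
      ∀ G : MvPolynomial ι L, (∀ x : ι → L, (∃ u : L, u ≠ 0 ∧ u ^ 2 = aeval x f) →
        eval x G = 0) → G = 0 := by
  classical
  have : Algebra.IsAlgebraic ℚ (AlgebraicClosure K) :=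
    Algebra.IsAlgebraic.trans ℚ K (AlgebraicClosure K)
  have : CharZero (AlgebraicClosure K) :=
    charZero_of_injective_algebraMap (algebraMap K (AlgebraicClosure K)).injective
  have : Fact (Nat.Prime 3) := ⟨Nat.prime_three⟩
  set F : MvPolynomial ι (AlgebraicClosure K) := map (algebraMap K _) f with hF
  set L : IntermediateField K (AlgebraicClosure K) :=
    IntermediateField.adjoin K ((Set.range b ∪ Set.range d) ∪ Set.range v) with hL
  have hbL : ∀ i, b i ∈ L := fun i =>
    IntermediateField.subset_adjoin _ _ (Or.inl (Or.inl ⟨i, rfl⟩))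
  have hdL : ∀ i, d i ∈ L := fun i =>
    IntermediateField.subset_adjoin _ _ (Or.inl (Or.inr ⟨i, rfl⟩))
  have hvL : ∀ i, v i ∈ L := fun i =>
    IntermediateField.subset_adjoin _ _ (Or.inr ⟨i, rfl⟩)
  have hfin : FiniteDimensional K L := by
    rw [hL]
    have : Finite ↥((Set.range b ∪ Set.range d) ∪ Set.range v) :=
      ((Set.finite_range b).union (Set.finite_range d)).union (Set.finite_range v)
    refine IntermediateField.finiteDimensional_adjoin fun x _ => ?_
    exact Algebra.IsIntegral.isIntegral x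
  refine ⟨L, hfin, fun G hG => ?_⟩
  let bL : ι → L := fun i => ⟨b i, hbL i⟩
  let dL : ι → L := fun i => ⟨d i, hdL i⟩
  let vL : ι → L := fun i => ⟨v i, hvL i⟩
  set φ : L →+* AlgebraicClosure K := algebraMap L (AlgebraicClosure K) with hφ
  let fL : MvPolynomial ι L := map (algebraMap K L) f
  have hmapf : map φ fL = F := by
    show map _ (map _ f) = _
    rw [map_map, hF, hφ, ← IsScalarTower.algebraMap_eq]
  have hevb : ∀ Q : MvPolynomial ι L, φ (eval bL Q) = eval b (map φ Q) := fun Q => hom_eval' φ bL Q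
  have hzero : ∀ Q : MvPolynomial ι L, eval bL Q = 0 ↔ eval b (map φ Q) = 0 := by
    intro Q
    rw [← hevb, map_eq_zero_iff _ φ.injective]
  have hLchar : CharZero L := charZero_of_injective_algebraMap (algebraMap K L).injective
  -- the conditions over `L`
  have hline' : ∀ t : L, eval (bL + t • dL) fL = 0 := by
    intro t
    apply φ.injective
    rw [hom_eval' φ, hmapf, map_zero]
    have := hline (φ t)
    rw [← this]
    congr 2
  have h1' : eval bL (dirDeriv vL fL) = 0 := by
    rw [hzero, dirDeriv_map, hmapf]; exact h1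
  have h2' : eval bL (dirDeriv vL (dirDeriv vL fL)) = 0 := by
    rw [hzero, dirDeriv_map, dirDeriv_map, hmapf]; exact h2
  have h3' : eval bL (dirDeriv vL (dirDeriv vL (dirDeriv vL fL))) ≠ 0 := by
    rw [Ne, hzero, dirDeriv_map, dirDeriv_map, dirDeriv_map, hmapf]; exact h3
  have h4' : eval bL (dirDeriv dL (dirDeriv vL fL)) ≠ 0 := by
    rw [Ne, hzero, dirDeriv_map, dirDeriv_map, hmapf]; exact h4
  obtain ⟨i, hi⟩ := hb
  have hu' : eval bL (dirDeriv (Pi.single i 1) fL) ≠ 0 := by
    rw [dirDeriv_single, Ne, hzero, ← pderiv_map, hmapf]; exact hi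
  have hdegL : fL.totalDegree ≤ 6 := by
    refine le_trans (Finset.sup_le fun m hm => ?_) hdeg
    exact le_totalDegree (support_map_subset _ _ hm)
  have hG' : ∀ x : ι → L, (∃ w : L, w ≠ 0 ∧ w ^ 2 = eval x fL) → eval x G = 0 := by
    rintro x ⟨w, hw0, hw⟩
    apply hG
    refine ⟨w, hw0, ?_⟩
    rw [hw]
    show eval x (map _ f) = _
    rw [eval_map, aeval_def]
  have hinfL : Infinite L := inferInstance
  have c1 : (lineP bL vL fL).coeff 1 = 0 := by rw [lineP_coeff_one]; exact h1'
  have c2 : (lineP bL vL fL).coeff 2 = 0 := by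
    have := lineP_coeff_two bL vL fL
    rw [h2'] at this
    exact (mul_eq_zero.mp this).resolve_left two_ne_zero
  have c3 : (lineP bL vL fL).coeff 3 ≠ 0 := by
    intro h
    have := lineP_coeff_three bL vL fL
    rw [h, mul_zero] at this
    exact h3' this.symm
  have c4 : ((planeP bL dL vL fL).coeff 1).derivative.eval 0 ≠ 0 := by
    rw [planeP_coeff_one_derivative, zero_smul, add_zero]; exact h4'
  have c5 : (lineP bL (Pi.single i 1) fL).coeff 1 ≠ 0 := by
    rw [lineP_coeff_one]; exact hu'
  -- the `3`-adic norm on `L`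
  let ψ : AlgebraicClosure K →ₐ[ℚ] PadicAlgCl 3 := IsAlgClosed.lift
  let χ : L →+* PadicAlgCl 3 := (ψ : AlgebraicClosure K →+* PadicAlgCl 3).comp φ
  let inst : NormedField L := NormedField.induced L (PadicAlgCl 3) χ χ.injective
  have hnorm : ∀ x : L, ‖x‖ = ‖χ x‖ := fun x => rfl
  have : IsUltrametricDist L := by
    refine IsUltrametricDist.isUltrametricDist_of_forall_norm_add_le_max_norm fun x y => ?_
    rw [hnorm, hnorm, hnorm, map_add]
    exact PadicAlgCl.isNonarchimedean 3 _ _
  have h3n : ‖(3 : L)‖ < 1 := by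
    rw [hnorm, map_ofNat]
    have h : ‖((3 : ℕ) : PadicAlgCl 3)‖₊ < 1 := by
      rw [← PadicAlgCl.valuation_def, PadicAlgCl.valuation_p]
      rw [div_lt_one (by norm_num)]
      norm_num
    have h' : ‖((3 : ℕ) : PadicAlgCl 3)‖ < 1 := by exact_mod_cast h
    exact_mod_cast h'
  exact sextic_local h3n fL hdegL bL dL vL (Pi.single i 1) hline' c1 c2 c3 c4 c5 G hG'

end Pool.Agent.Helper15
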