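import Mathlib

/-!
# Presentations of finitely generated fields in characteristic zero
-/

namespace Pool.Agent.Helper15.Pres

open Polynomial

/-- A finitely generated field of characteristic zero is given by independent elements `t` and one
more element `z`, integral over the polynomials in `t`. -/
theorem exists_presentation (K E : Type*) [Field K] [CharZero K] [Field E] [Algebra K E]
    (G : Finset E) (hG : IntermediateField.adjoin K (G : Set E) = ⊤) :
    ∃ (t : Set E) (_ : Finite t) (z : E) (m : (MvPolynomial t K)[X]),
      IsTranscendenceBasis K ((↑) : t → E) ∧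
      m.Monic ∧ (∀ f : (MvPolynomial t K)[X],
        f.eval₂ (MvPolynomial.aeval ((↑) : t → E) : MvPolynomial t K →ₐ[K] E) z = 0 ↔ m ∣ f) ∧
      ∀ e : E, ∃ (f : (MvPolynomial t K)[X]) (D : MvPolynomial t K),
        MvPolynomial.aeval ((↑) : t → E) D ≠ 0 ∧
        e * MvPolynomial.aeval ((↑) : t → E) D
          = f.eval₂ (MvPolynomial.aeval ((↑) : t → E) : MvPolynomial t K →ₐ[K] E) z := by
  classical
  -- a finite transcendence basis of `E`
  have halg : Algebra.IsAlgebraic (Algebra.adjoin K (G : Set E)) E := by
    constructor
    intro e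
    have he : e ∈ IntermediateField.adjoin K (G : Set E) := by rw [hG]; exact IntermediateField.mem_top
    obtain ⟨a, ha, b, hb, hab⟩ := IntermediateField.mem_adjoin_iff_div.mp he
    by_cases hb0 : b = 0
    · rw [hb0, div_zero] at hab
      rw [hab]
      exact isAlgebraic_zero
    · refine ⟨C ⟨b, hb⟩ * X - C ⟨a, ha⟩, ?_, ?_⟩
      · intro h0
        have := congrArg (fun p => p.coeff 1) h0
        simp only [coeff_sub, coeff_C_mul, coeff_X_one, mul_one, coeff_zero] at this
        rw [coeff_C_of_ne_zero one_ne_zero, sub_zero] at this
        exact hb0 (congrArg Subtype.val this)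
      · rw [map_sub, map_mul, aeval_C, aeval_C, aeval_X]
        show b * e - a = 0
        rw [hab, mul_div_cancel₀ _ hb0, sub_self]
  obtain ⟨t, htG, ht⟩ := exists_isTranscendenceBasis_subset (R := K) (A := E) (G : Set E)
  have htf : Finite t := (G.finite_toSet.subset htG)
  let R := MvPolynomial t K
  let algE : Algebra R E := (MvPolynomial.aeval ((↑) : t → E) : R →ₐ[K] E).toRingHom.toAlgebra
  have hE : Module.IsTorsionFree R E := by
    rw [Module.isTorsionFree_iff_algebraMap_injective]
    exact ht.1
  have hRalg : Algebra.IsAlgebraic R E := by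
    have h1 := ht.isAlgebraic
    refine Algebra.IsAlgebraic.of_ringHom_of_comp_eq
      (ht.1.aevalEquiv : R →+* Algebra.adjoin K (Set.range ((↑) : t → E))) (RingHom.id E)
      ht.1.aevalEquiv.surjective Function.injective_id ?_
    ext p
    · rfl
    · rfl
  -- the primitive element
  set F := IntermediateField.adjoin K (Set.range ((↑) : t → E)) with hF
  have hFalg : Algebra.IsAlgebraic F E := ht.isAlgebraic_field
  have hFG : IntermediateField.adjoin F (G : Set E) = ⊤ := by
    rw [eq_top_iff]
    have h1 : (⊤ : IntermediateField K E)
        ≤ (IntermediateField.adjoin F (G : Set E)).restrictScalars K := by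
      rw [← hG, IntermediateField.adjoin_le_iff]
      exact IntermediateField.subset_adjoin _ _
    intro z _
    exact h1 IntermediateField.mem_top
  have hfd : FiniteDimensional F E := by
    have h1 : FiniteDimensional F (IntermediateField.adjoin F (G : Set E)) :=
      IntermediateField.finiteDimensional_adjoin fun x _ => Algebra.IsIntegral.isIntegral x
    rw [hFG] at h1
    exact Module.Finite.equiv (IntermediateField.topEquiv (F := F) (E := E)).toLinearEquiv
  have hcF : CharZero F := charZero_of_injective_algebraMap (algebraMap K F).injective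
  obtain ⟨z₀, hz₀⟩ := Field.exists_primitive_element F E
  obtain ⟨y, hy0, hyint⟩ := (hRalg.isAlgebraic z₀).exists_integral_multiple
  set z : E := y • z₀ with hz
  have hyE : algebraMap R E y ≠ 0 := by
    intro h
    exact hy0 (ht.1 (by rw [map_zero]; exact h))
  have hRF : ∀ r : R, algebraMap R E r ∈ F := by
    intro r
    have h1 : algebraMap R E r ∈ Algebra.adjoin K (Set.range ((↑) : t → E)) := by
      have e : ((ht.1.aevalEquiv r : Algebra.adjoin K (Set.range ((↑) : t → E))) : E)
          = algebraMap R E r := ht.1.algebraMap_aevalEquiv r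
      rw [← e]
      exact SetLike.coe_mem _
    exact IntermediateField.algebra_adjoin_le_adjoin K _ h1
  have hzF : IntermediateField.adjoin F {z} = ⊤ := by
    rw [eq_top_iff, ← hz₀, IntermediateField.adjoin_simple_le_iff]
    have h1 : z₀ = (algebraMap R E y)⁻¹ * z := by
      rw [hz, Algebra.smul_def, ← mul_assoc, inv_mul_cancel₀ hyE, one_mul]
    rw [h1]
    refine mul_mem ?_ (IntermediateField.mem_adjoin_simple_self F z)
    exact (IntermediateField.adjoin F {z}).algebraMap_mem
      (⟨(algebraMap R E y)⁻¹, F.inv_mem (hRF y)⟩ : F)
  refine ⟨t, htf, z, minpoly R z, ht, minpoly.monic hyint, ?_, ?_⟩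
  · intro f
    exact minpoly.isIntegrallyClosed_dvd_iff hyint f
  · -- the fractions form a subalgebra containing `F` and `z`
    let θ : R[X] →+* E := eval₂RingHom (algebraMap R E) z
    have hθ : ∀ f : R[X], θ f = f.eval₂ (algebraMap R E) z := fun f => rfl
    let S : Subalgebra F E :=
      { carrier := {e | ∃ (f : R[X]) (D : R), algebraMap R E D ≠ 0 ∧ e * algebraMap R E D = θ f}
        mul_mem' := by
          rintro a b ⟨f, D, h1, h2⟩ ⟨f', D', h1', h2'⟩
          refine ⟨f * f', D * D', ?_, ?_⟩
          · rw [map_mul]; exact mul_ne_zero h1 h1'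
          · rw [map_mul, map_mul, ← h2, ← h2']; ring
        add_mem' := by
          rintro a b ⟨f, D, h1, h2⟩ ⟨f', D', h1', h2'⟩
          refine ⟨f * C D' + f' * C D, D * D', ?_, ?_⟩
          · rw [map_mul]; exact mul_ne_zero h1 h1'
          · have e1 : θ (C D) = algebraMap R E D := eval₂_C _ _
            have e2 : θ (C D') = algebraMap R E D' := eval₂_C _ _
            rw [map_mul, map_add, map_mul, map_mul, ← h2, ← h2', e1, e2]; ring
        algebraMap_mem' := by
          intro c
          obtain ⟨a, ha, b, hb, hab⟩ := IntermediateField.mem_adjoin_iff_div.mp c.2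
          obtain ⟨a', ha'⟩ := ht.1.aevalEquiv.surjective ⟨a, ha⟩
          obtain ⟨b', hb'⟩ := ht.1.aevalEquiv.surjective ⟨b, hb⟩
          have ha'' : algebraMap R E a' = a := by
            have := ht.1.algebraMap_aevalEquiv a'
            rw [ha'] at this
            exact this.symm
          have hb'' : algebraMap R E b' = b := by
            have := ht.1.algebraMap_aevalEquiv b'
            rw [hb'] at this
            exact this.symm
          show ∃ (f : R[X]) (D : R), algebraMap R E D ≠ 0 ∧ (c : E) * algebraMap R E D = θ f
          by_cases hb0 : b = 0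
          · refine ⟨0, 1, ?_, ?_⟩
            · rw [map_one]; exact one_ne_zero
            · rw [hab, hb0, div_zero, zero_mul, map_zero]
          · refine ⟨C a', b', ?_, ?_⟩
            · rw [hb'']; exact hb0
            · have e1 : θ (C a') = algebraMap R E a' := eval₂_C _ _
              rw [e1, ha'', hb'', hab, div_mul_cancel₀ _ hb0] }
    have hzS : z ∈ S := by
      refine ⟨X, 1, ?_, ?_⟩
      · rw [map_one]; exact one_ne_zero
      · have e1 : θ X = z := eval₂_X _ _
        rw [e1, map_one, mul_one]
    have hzint : IsIntegral F z := Algebra.IsIntegral.isIntegral z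
    have htop : (⊤ : Subalgebra F E) ≤ S := by
      have h1 := IntermediateField.adjoin_simple_toSubalgebra_of_isAlgebraic hzint.isAlgebraic
      rw [hzF, IntermediateField.top_toSubalgebra] at h1
      rw [h1]
      exact Algebra.adjoin_le (by
        intro w hw
        rw [Set.mem_singleton_iff.mp hw]
        exact hzS)
    intro e
    exact htop (Algebra.mem_top (x := e))

end Pool.Agent.Helper15.Pres
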