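import Pool.Agent.Helper15.Global

/-!
# A one-variable quartic with a small square constant term has infinitely many square values
-/

namespace Pool.Agent.Helper15

open NNReal MvPolynomial

/-- The quartic `c0 + c1 s + c2 s ^ 2 + c3 s ^ 3 + c4 s ^ 4` as a polynomial in one variable. -/
noncomputable def quartic {R : Type*} [CommRing R] (c0 c1 c2 c3 c4 : R) : MvPolynomial Unit R :=
  C c0 + C c1 * X () + C c2 * X () ^ 2 + C c3 * X () ^ 3 + C c4 * X () ^ 4

theorem eval_quartic {R : Type*} [CommRing R] (c0 c1 c2 c3 c4 : R) (x : Unit → R) :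
    eval x (quartic c0 c1 c2 c3 c4)
      = c0 + c1 * x () + c2 * x () ^ 2 + c3 * x () ^ 3 + c4 * x () ^ 4 := by
  unfold quartic; simp

theorem quartic_map {R S : Type*} [CommRing R] [CommRing S] (φ : R →+* S) (c0 c1 c2 c3 c4 : R) :
    map φ (quartic c0 c1 c2 c3 c4) = quartic (φ c0) (φ c1) (φ c2) (φ c3) (φ c4) := by
  unfold quartic; simp

theorem degreeOf_quartic {R : Type*} [CommRing R] [Nontrivial R] (c0 c1 c2 c3 c4 : R) (j : Unit) :
    (quartic c0 c1 c2 c3 c4).degreeOf j ≤ 4 := by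
  unfold quartic
  have hX : ∀ n : ℕ, degreeOf j (X () ^ n : MvPolynomial Unit R) ≤ n := by
    intro n
    refine le_trans (degreeOf_pow_le _ _ _) ?_
    rw [show (j : Unit) = () from rfl, degreeOf_X_self]
    omega
  have hC : ∀ (c : R) (n : ℕ), n ≤ 4 → degreeOf j (C c * X () ^ n : MvPolynomial Unit R) ≤ 4 :=
    fun c n hn => le_trans (degreeOf_C_mul_le _ _ _) (le_trans (hX n) hn)
  have h1 : degreeOf j (C c1 * X () : MvPolynomial Unit R) ≤ 4 := by
    have := hC c1 1 (by norm_num)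
    rwa [pow_one] at this
  refine le_trans (degreeOf_add_le _ _ _) (max_le ?_ (hC _ _ (by norm_num)))
  refine le_trans (degreeOf_add_le _ _ _) (max_le ?_ (hC _ _ (by norm_num)))
  refine le_trans (degreeOf_add_le _ _ _) (max_le ?_ (hC _ _ (by norm_num)))
  refine le_trans (degreeOf_add_le _ _ _) (max_le ?_ h1)
  rw [degreeOf_C]
  norm_num

theorem coeff_quartic_mem {R : Type*} [CommRing R] (c0 c1 c2 c3 c4 : R) (S : Subring R)
    (h0 : c0 ∈ S) (h1 : c1 ∈ S) (h2 : c2 ∈ S) (h3 : c3 ∈ S) (h4 : c4 ∈ S) (m : Unit →₀ ℕ) :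
    coeff m (quartic c0 c1 c2 c3 c4) ∈ S := by
  have : quartic c0 c1 c2 c3 c4
      = map S.subtype (quartic ⟨c0, h0⟩ ⟨c1, h1⟩ ⟨c2, h2⟩ ⟨c3, h3⟩ ⟨c4, h4⟩) := by
    rw [quartic_map]; rfl
  rw [this, coeff_map]
  exact Subtype.mem _

/-- **Quartics with a small nonzero square as constant term take infinitely many square
values.** -/
theorem quartic_infinite {L : Type*} [Field L] [Infinite L] (v : Valuation L ℝ≥0) (h3 : v 3 < 1)
    (h30 : v 3 ≠ 0) (k : ℕ) (c : ℝ≥0) (hc : 0 < c) :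
    ∃ η : ℝ≥0, 0 < η ∧ ∀ c1 c2 c3 c4 r : L, v 9 ^ k * v c1 ≤ 1 → v 9 ^ k * v c2 ≤ 1 →
      v 9 ^ k * v c3 ≤ 1 → v 9 ^ k * v c4 ≤ 1 → c ≤ v c1 → r ≠ 0 → v r < η →
      {s : L | ∃ w : L, w ≠ 0 ∧
        w ^ 2 = r ^ 2 + c1 * s + c2 * s ^ 2 + c3 * s ^ 3 + c4 * s ^ 4}.Infinite := by
  classical
  have h9 : v (9 : L) = v 3 ^ 2 := by
    rw [← map_pow]; norm_num
  have h90 : v (9 : L) ≠ 0 := by rw [h9]; exact pow_ne_zero 2 h30
  have h3ne : (3 : L) ≠ 0 := (Valuation.ne_zero_iff v).mp h30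
  -- the threshold for `y = 3 ^ k r`
  have hpos : 0 < v 3 * (v 9 ^ k * c) ^ 8 :=
    mul_pos (pos_iff_ne_zero.mpr h30)
      (pow_pos (mul_pos (pow_pos (pos_iff_ne_zero.mpr h90) k) hc) 8)
  refine ⟨min 1 (v 3 * (v 9 ^ k * c) ^ 8), lt_min one_pos hpos, ?_⟩
  intro c1 c2 c3 c4 r hc1 hc2 hc3 hc4 hcc1 hr0 hr hfin
  have hr1 : v r < 1 := lt_of_lt_of_le hr (min_le_left _ _)
  have hr2 : v r < v 3 * (v 9 ^ k * c) ^ 8 := lt_of_lt_of_le hr (min_le_right _ _)
  have hint : ∀ z : L, v 9 ^ k * v z ≤ 1 → (9 : L) ^ k * z ∈ v.integer := by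
    intro z hz
    show v ((9 : L) ^ k * z) ≤ 1
    rwa [map_mul, map_pow]
  set w0 : L := 3 ^ k * r with hw0
  have hw0sq : w0 ^ 2 = 9 ^ k * r ^ 2 := by
    rw [hw0, mul_pow, ← pow_mul, mul_comm k 2, pow_mul]; norm_num
  have hvw0 : v w0 ≤ v r := by
    rw [hw0, map_mul, map_pow]
    calc v 3 ^ k * v r ≤ 1 * v r := mul_le_mul' (pow_le_one₀ zero_le h3.le) le_rfl
      _ = v r := one_mul _
  set F : MvPolynomial Unit L := quartic (9 ^ k * r ^ 2) (9 ^ k * c1) (9 ^ k * c2) (9 ^ k * c3)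
    (9 ^ k * c4) with hF
  set T : Set L := {s : L | ∃ w : L, w ≠ 0 ∧
        w ^ 2 = r ^ 2 + c1 * s + c2 * s ^ 2 + c3 * s ^ 3 + c4 * s ^ 4} with hT
  set G : MvPolynomial Unit L := ∏ s ∈ hfin.toFinset, (X () - C s) with hG
  have hG0 : G = 0 := by
    refine dense_local' v h3 F ?_ (fun j => degreeOf_quartic _ _ _ _ _ j) 0 ?_ w0 ?_ ?_
      (v 9 ^ k * c) ?_ ?_ G ?_
    · intro m
      refine coeff_quartic_mem _ _ _ _ _ v.integer ?_ (hint _ hc1) (hint _ hc2) (hint _ hc3)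
        (hint _ hc4) m
      rw [← hw0sq]
      show v (w0 ^ 2) ≤ 1
      rw [map_pow]
      exact pow_le_one₀ zero_le (le_trans hvw0 hr1.le)
    · intro i; simp
    · exact mul_ne_zero (pow_ne_zero k h3ne) hr0
    · rw [hF, eval_quartic, hw0sq]; simp
    · intro j
      have : eval (0 : Unit → L) (pderiv j F) = 9 ^ k * c1 := by
        rw [hF, quartic]
        have hj : j = () := rfl
        subst hj
        simp
      rw [this, map_mul, map_pow]
      exact mul_le_mul' le_rfl hcc1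
    · calc v w0 ^ 2 ≤ v r ^ 2 := pow_le_pow_left₀ zero_le hvw0 2
        _ = v r * v r := sq _
        _ ≤ v r * 1 := mul_le_mul' le_rfl hr1.le
        _ = v r := mul_one _
        _ < _ := hr2
    · rintro x ⟨u, hu0, hu⟩
      rw [hF, eval_quartic] at hu
      have hx : x () ∈ T := by
        refine ⟨u / 3 ^ k, div_ne_zero hu0 (pow_ne_zero k h3ne), ?_⟩
        rw [div_pow, hu]
        have e2 : ((3 : L) ^ k) ^ 2 = 9 ^ k := by
          rw [← pow_mul, mul_comm, pow_mul]; norm_num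
        rw [e2]
        have h9' : (9 : L) ^ k ≠ 0 := by
          rw [← e2]; exact pow_ne_zero 2 (pow_ne_zero k h3ne)
        field_simp
      rw [hG, map_prod]
      refine Finset.prod_eq_zero (hfin.mem_toFinset.mpr hx) ?_
      simp
  rw [hG, Finset.prod_eq_zero_iff] at hG0
  obtain ⟨s, -, hs⟩ := hG0
  have := congrArg (eval (fun _ => s + 1)) hs
  simp at this

end Pool.Agent.Helper15
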