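import Pool.Agent.Helper15.LineTop
import Pool.Agent.Helper15.Quartic

/-!
# Sextics containing a line: the local density theorem
-/

namespace Pool.Agent.Helper15

open MvPolynomial Filter Topology

variable {L : Type*} [NormedField L]

theorem infinite_small (h3 : ‖(3 : L)‖ < 1) (h30 : (3 : L) ≠ 0) {ε : ℝ} (hε : 0 < ε) :
    {t : L | t ≠ 0 ∧ ‖t‖ < ε}.Infinite := by
  obtain ⟨N, hN⟩ := exists_pow_lt_of_lt_one hε h3
  have h3p : 0 < ‖(3 : L)‖ := norm_pos_iff.mpr h30
  refine Set.infinite_of_injective_forall_mem (f := fun n : ℕ => (3 : L) ^ (N + n)) ?_ ?_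
  · intro a b hab
    have h1 : ‖(3 : L)‖ ^ (N + a) = ‖(3 : L)‖ ^ (N + b) := by
      rw [← norm_pow, ← norm_pow]; exact congrArg norm hab
    have h2 := (pow_right_strictAnti₀ h3p h3).injective h1
    omega
  · intro n
    refine ⟨pow_ne_zero _ h30, ?_⟩
    rw [norm_pow, pow_add]
    calc ‖(3 : L)‖ ^ N * ‖(3 : L)‖ ^ n ≤ ‖(3 : L)‖ ^ N * 1 :=
          mul_le_mul_of_nonneg_left (pow_le_one₀ h3p.le h3.le) (pow_nonneg h3p.le N)
      _ = ‖(3 : L)‖ ^ N := mul_one _
      _ < ε := hN

/-- If `G` vanishes at infinitely many points of a line, it vanishes on the line. -/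
theorem eval_line_eq_zero {R ι : Type*} [CommRing R] [IsDomain R] (x w : ι → R)
    (G : MvPolynomial ι R) (h : {s : R | eval (x + s • w) G = 0}.Infinite) (s : R) :
    eval (x + s • w) G = 0 := by
  have : lineP x w G = 0 := by
    apply Polynomial.eq_zero_of_infinite_isRoot
    refine h.mono ?_
    intro s hs
    show (lineP x w G).eval s = 0
    rw [lineP_eval]; exact hs
  rw [← lineP_eval, this, Polynomial.eval_zero]

/-- If `G` vanishes on a ball, it is zero. -/
theorem eq_zero_of_ball {ι : Type*} [Fintype ι] (h3 : ‖(3 : L)‖ < 1) (h30 : (3 : L) ≠ 0)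
    (x0 : ι → L) {ε : ℝ} (hε : 0 < ε) (G : MvPolynomial ι L)
    (hG : ∀ z : ι → L, ‖z‖ < ε → eval (x0 + z) G = 0) : G = 0 := by
  classical
  have : Infinite L := Set.infinite_coe_iff.mpr (infinite_small h3 h30 one_pos) |>.of_injective
    (fun t => (t : L)) Subtype.val_injective
  refine eq_zero_of_coordwise {x | ∀ i, ‖x i - x0 i‖ < ε} ⟨x0, fun i => by simpa using hε⟩ ?_ G ?_
  · intro x hx j
    have h1 := (infinite_small h3 h30 hε).image (f := fun t => x0 j + t)
      (fun a _ b _ hab => add_left_cancel hab)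
    refine h1.mono ?_
    rintro _ ⟨t, ⟨-, ht⟩, rfl⟩
    intro i
    by_cases hij : i = j
    · subst hij; simpa using ht
    · rw [Function.update_of_ne hij]; exact hx i
  · intro x hx
    have := hG (x - x0) ((pi_norm_lt_iff hε).mpr fun i => hx i)
    rwa [add_sub_cancel] at this

theorem sextic_local [CharZero L] [IsUltrametricDist L] {ι : Type*} [Fintype ι]
    (h3 : ‖(3 : L)‖ < 1)
    (f : MvPolynomial ι L) (hdeg : f.totalDegree ≤ 6) (b d w0 u : ι → L)
    (hline : ∀ t : L, eval (b + t • d) f = 0)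
    (h1 : (lineP b w0 f).coeff 1 = 0) (h2 : (lineP b w0 f).coeff 2 = 0)
    (h33 : (lineP b w0 f).coeff 3 ≠ 0)
    (h11 : ((planeP b d w0 f).coeff 1).derivative.eval 0 ≠ 0)
    (hu : (lineP b u f).coeff 1 ≠ 0)
    (G : MvPolynomial ι L)
    (hG : ∀ x : ι → L, (∃ w : L, w ≠ 0 ∧ w ^ 2 = eval x f) → eval x G = 0) : G = 0 := by
  classical
  have h30 : (3 : L) ≠ 0 := by norm_num
  -- the plane polynomial has no constant term
  have hplane0 : ∀ w : ι → L, (planeP b d w f).coeff 0 = 0 := by
    intro w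
    apply Polynomial.funext
    intro t
    rw [planeP_coeff_eval, lineP_coeff_zero, hline, Polynomial.eval_zero]
  -- the relevant functions
  set X : Type _ := L × (ι → L) × L with hX
  let bt : X → ι → L := fun p => b + p.1 • d
  let β : X → L := fun p => (lineP (bt p) u f).coeff 1
  let α : X → L := fun p => (lineP (bt p) (w0 + p.2.1) f).coeff 1
  let Y : X → L := fun p => -(α p / β p)
  let W : X → ι → L := fun p => w0 + p.2.1 + Y p • u
  let q : X → L := fun p => (lineP (bt p) (W p) f).coeff 2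
  let m : X → L := fun p => (lineP (bt p) (W p + d) f).coeff 2 - q p
  let A : X → L := fun p => (p.2.2 ^ 2 - q p) / m p
  let V : X → ι → L := fun p => W p + A p • d
  let c : ℕ → X → L := fun j p => (lineP (bt p) (V p) f).coeff (2 + j)
  have hbt0 : bt 0 = b := by
    show b + (0 : L) • d = b
    rw [zero_smul, add_zero]
  have hα0 : α 0 = 0 := by
    show (lineP (bt 0) (w0 + 0) f).coeff 1 = 0
    rw [hbt0, add_zero, h1]
  have hβ0 : β 0 ≠ 0 := by
    show (lineP (bt 0) u f).coeff 1 ≠ 0
    rw [hbt0]; exact hu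
  have hY0 : Y 0 = 0 := by
    show -(α 0 / β 0) = 0
    rw [hα0, zero_div, neg_zero]
  have hW0 : W 0 = w0 := by
    show w0 + 0 + Y 0 • u = w0
    rw [hY0, zero_smul, add_zero, add_zero]
  have hq0 : q 0 = 0 := by
    show (lineP (bt 0) (W 0) f).coeff 2 = 0
    rw [hbt0, hW0, h2]
  -- the mixed second derivative
  have hm : ∀ p : X, m p = ((planeP b d (W p) f).coeff 1).derivative.eval p.1 := by
    intro p
    have h := lineP_coeff_two_shear b d (W p) f p.1 1 (hplane0 _)
    rw [one_smul, one_mul] at h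
    show (lineP (b + p.1 • d) (W p + d) f).coeff 2 - (lineP (b + p.1 • d) (W p) f).coeff 2 = _
    rw [h]; ring
  have hm0 : m 0 ≠ 0 := by
    rw [hm, hW0]; exact h11
  have hA0 : A 0 = 0 := by
    show ((0 : L) ^ 2 - q 0) / m 0 = 0
    rw [hq0]; simp
  have hV0 : V 0 = w0 := by
    show W 0 + A 0 • d = w0
    rw [hA0, hW0, zero_smul, add_zero]
  have hc0 : c 1 0 ≠ 0 := by
    show (lineP (bt 0) (V 0) f).coeff (2 + 1) ≠ 0
    rw [hbt0, hV0]; exact h33
  -- continuity
  have hbtc : ContinuousAt bt 0 :=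
    continuousAt_const.add (continuousAt_fst.smul continuousAt_const)
  have hlc : ∀ (j : ℕ) (g : X → ι → L), ContinuousAt g 0 →
      ContinuousAt (fun p => (lineP (bt p) (g p) f).coeff j) 0 := by
    intro j g hg
    exact ContinuousAt.comp (f := fun x => (bt x, g x))
      (continuous_lineP_coeff f j).continuousAt (hbtc.prodMk hg)
  have hz : ContinuousAt (fun p : X => p.2.1) 0 := continuousAt_fst.comp continuousAt_snd
  have hr : ContinuousAt (fun p : X => p.2.2) 0 := continuousAt_snd.comp continuousAt_snd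
  have hβc : ContinuousAt β 0 := hlc 1 _ continuousAt_const
  have hαc : ContinuousAt α 0 := hlc 1 _ (continuousAt_const.add hz)
  have hYc : ContinuousAt Y 0 := (hαc.div hβc hβ0).neg
  have hWc : ContinuousAt W 0 :=
    (continuousAt_const.add hz).add (hYc.smul continuousAt_const)
  have hqc : ContinuousAt q 0 := hlc 2 _ hWc
  have hmc : ContinuousAt m 0 := (hlc 2 _ (hWc.add continuousAt_const)).sub hqc
  have hAc : ContinuousAt A 0 := ((hr.pow 2).sub hqc).div hmc hm0
  have hVc : ContinuousAt V 0 := hWc.add (hAc.smul continuousAt_const)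
  have hcc : ∀ j, ContinuousAt (c j) 0 := fun j => hlc (2 + j) _ hVc
  -- bounds
  have hc0' : 0 < ‖c 1 0‖ := norm_pos_iff.mpr hc0
  obtain ⟨B, hB⟩ : ∃ B : ℝ, ∀ j ∈ ({1, 2, 3, 4} : Finset ℕ), ‖c j 0‖ < B := by
    refine ⟨∑ j ∈ ({1, 2, 3, 4} : Finset ℕ), ‖c j 0‖ + 1, fun j hj => ?_⟩
    have : ‖c j 0‖ ≤ ∑ j ∈ ({1, 2, 3, 4} : Finset ℕ), ‖c j 0‖ :=
      Finset.single_le_sum (f := fun j => ‖c j 0‖) (fun i _ => norm_nonneg _) hj
    linarith
  have hBpos : 0 < B := lt_of_le_of_lt (norm_nonneg _) (hB 1 (by simp))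
  have h9lt : ‖(9 : L)‖ < 1 := by
    have : (9 : L) = 3 * 3 := by norm_num
    rw [this, norm_mul]
    have h3' := norm_nonneg (3 : L)
    nlinarith
  obtain ⟨k, hk⟩ := exists_pow_lt_of_lt_one (inv_pos.mpr hBpos) h9lt
  have hkB : ‖(9 : L)‖ ^ k * B ≤ 1 := by
    have := mul_lt_mul_of_pos_right hk hBpos
    rw [inv_mul_cancel₀ hBpos.ne'] at this
    exact this.le
  have hinfL : Infinite L := Set.infinite_coe_iff.mpr (infinite_small h3 h30 one_pos)
    |>.of_injective (fun t => (t : L)) Subtype.val_injective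
  have hv3 : NormedField.valuation (3 : L) < 1 := by
    rw [NormedField.valuation_apply]
    exact_mod_cast h3
  have hv30 : NormedField.valuation (3 : L) ≠ 0 := by
    rw [NormedField.valuation_apply]
    simp
  obtain ⟨η, hη, hquart⟩ := quartic_infinite (NormedField.valuation (K := L)) hv3 hv30 k
    (‖c 1 0‖₊ / 2) (by
      have : 0 < ‖c 1 0‖₊ := by exact_mod_cast hc0'
      exact half_pos this)
  -- a neighbourhood of zero where everything is fine
  have hgood : ∀ᶠ p : X in 𝓝 0, β p ≠ 0 ∧ m p ≠ 0 ∧ ‖c 1 0‖ / 2 < ‖c 1 p‖ ∧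
      (∀ j ∈ ({1, 2, 3, 4} : Finset ℕ), ‖c j p‖ < B) := by
    refine (hβc.eventually_ne hβ0).and ((hmc.eventually_ne hm0).and (Filter.Eventually.and ?_ ?_))
    · exact (hcc 1).norm.eventually (lt_mem_nhds (half_lt_self hc0'))
    · rw [Filter.eventually_all_finset]
      intro j hj
      exact (hcc j).norm.eventually (gt_mem_nhds (hB j hj))
  obtain ⟨ε, hε, hball⟩ := Metric.eventually_nhds_iff.mp hgood
  have hball' : ∀ (t : L) (z : ι → L) (r : L), ‖t‖ < ε → ‖z‖ < ε → ‖r‖ < ε →
      β (t, z, r) ≠ 0 ∧ m (t, z, r) ≠ 0 ∧ ‖c 1 0‖ / 2 < ‖c 1 (t, z, r)‖ ∧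
      (∀ j ∈ ({1, 2, 3, 4} : Finset ℕ), ‖c j (t, z, r)‖ < B) := by
    intro t z r ht hz hr
    apply hball
    rw [dist_zero_right, Prod.norm_def, Prod.norm_def]
    exact max_lt ht (max_lt hz hr)
  -- step A
  have stepA : ∀ (t : L) (z : ι → L) (r : L), ‖t‖ < ε → ‖z‖ < ε → ‖r‖ < ε → ‖r‖ < η → r ≠ 0 →
      ∀ s : L, eval (b + t • d + s • V (t, z, r)) G = 0 := by
    intro t z r ht hz hr hrη hr0
    obtain ⟨hβ, hm', hc1, hcB⟩ := hball' t z r ht hz hr
    set p : X := (t, z, r) with hp
    apply eval_line_eq_zero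
    -- coefficients of the restriction of `f`
    have e0 : (lineP (bt p) (V p) f).coeff 0 = 0 := by
      rw [lineP_coeff_zero]; exact hline t
    have e1 : (lineP (bt p) (V p) f).coeff 1 = 0 := by
      have hd1 : (lineP (bt p) d f).coeff 1 = 0 := by
        have : lineP (bt p) d f = 0 := by
          apply Polynomial.funext
          intro s
          rw [lineP_eval, Polynomial.eval_zero]
          have := hline (t + s)
          rw [add_smul, ← add_assoc] at this
          exact this
        rw [this, Polynomial.coeff_zero]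
      show (lineP (bt p) (W p + A p • d) f).coeff 1 = 0
      rw [lineP_coeff_one_add_smul, hd1, mul_zero, add_zero]
      show (lineP (bt p) (w0 + z + Y p • u) f).coeff 1 = 0
      rw [lineP_coeff_one_add_smul]
      show α p + -(α p / β p) * β p = 0
      field_simp
      ring
    have e2 : (lineP (bt p) (V p) f).coeff 2 = r ^ 2 := by
      have h := lineP_coeff_two_shear b d (W p) f t (A p) (hplane0 _)
      show (lineP (b + t • d) (W p + A p • d) f).coeff 2 = r ^ 2
      rw [h, ← hm p]
      show q p + (r ^ 2 - q p) / m p * m p = r ^ 2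
      field_simp
      ring
    have hvk : ∀ j ∈ ({1, 2, 3, 4} : Finset ℕ),
        NormedField.valuation (9 : L) ^ k * NormedField.valuation (c j p) ≤ 1 := by
      intro j hj
      have h9 : ‖(9 : L)‖ ^ k * ‖c j p‖ ≤ 1 := by
        refine le_trans ?_ hkB
        exact mul_le_mul_of_nonneg_left (hcB j hj).le (pow_nonneg (norm_nonneg _) k)
      rw [NormedField.valuation_apply, NormedField.valuation_apply]
      exact_mod_cast h9
    have hinf := hquart (c 1 p) (c 2 p) (c 3 p) (c 4 p) r (hvk 1 (by simp)) (hvk 2 (by simp))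
      (hvk 3 (by simp)) (hvk 4 (by simp)) (by
        rw [NormedField.valuation_apply]
        exact_mod_cast hc1.le) hr0 (by
        rw [NormedField.valuation_apply]
        exact_mod_cast hrη)
    refine (hinf.sdiff (Set.finite_singleton (0 : L))).mono ?_
    rintro s ⟨⟨w, hw0', hw⟩, hs0⟩
    have hs0' : s ≠ 0 := hs0
    apply hG
    refine ⟨s * w, mul_ne_zero hs0' hw0', ?_⟩
    have hexp : (lineP (bt p) (V p) f).eval s = s ^ 2 * (r ^ 2 + c 1 p * s + c 2 p * s ^ 2
        + c 3 p * s ^ 3 + c 4 p * s ^ 4) := by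
      have hnat : (lineP (bt p) (V p) f).natDegree < 7 :=
        lt_of_le_of_lt (le_trans (lineP_natDegree_le _ _ _) hdeg) (by norm_num)
      rw [Polynomial.eval_eq_sum_range' hnat]
      simp only [Finset.sum_range_succ, Finset.sum_range_zero, e0, e1, e2]
      show _ = s ^ 2 * (r ^ 2 + (lineP (bt p) (V p) f).coeff 3 * s
        + (lineP (bt p) (V p) f).coeff 4 * s ^ 2
        + (lineP (bt p) (V p) f).coeff 5 * s ^ 3 + (lineP (bt p) (V p) f).coeff 6 * s ^ 4)
      ring
    rw [mul_pow, hw, ← hexp, lineP_eval]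
  -- step B
  have stepB : ∀ (t : L) (z : ι → L), ‖t‖ < ε → ‖z‖ < ε → ∀ a : L,
      eval (b + W (t, z, 0) + a • d) G = 0 := by
    intro t z ht hz
    -- `W`, `q`, `m` do not depend on `r`
    have hinfa : {a : L | eval (b + t • d + W (t, z, 0) + a • d) G = 0}.Infinite := by
      set ε' : ℝ := min 1 (min ε η) with hε'
      have hε'pos : 0 < ε' := lt_min one_pos (lt_min hε (by exact_mod_cast hη))
      have hS : ∀ r : L, r ≠ 0 → ‖r‖ < ε' →
          eval (b + t • d + W (t, z, 0) + ((r ^ 2 - q (t, z, 0)) / m (t, z, 0)) • d) G = 0 := by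
        intro r hr0 hr
        have hrε : ‖r‖ < ε := lt_of_lt_of_le hr (le_trans (min_le_right _ _) (min_le_left _ _))
        have hrη : ‖r‖ < η := lt_of_lt_of_le hr (le_trans (min_le_right _ _) (min_le_right _ _))
        have := stepA t z r ht hz hrε hrη hr0 1
        rw [one_smul] at this
        have e : b + t • d + V (t, z, r) = b + t • d + W (t, z, 0)
            + ((r ^ 2 - q (t, z, 0)) / m (t, z, 0)) • d := by
          show b + t • d + (W (t, z, 0) + ((r ^ 2 - q (t, z, 0)) / m (t, z, 0)) • d) = _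
          rw [← add_assoc]
        rwa [e] at this
      have hm' : m (t, z, 0) ≠ 0 := (hball' t z 0 ht hz (by simpa using hε)).2.1
      have hsq : ((fun r : L => (r ^ 2 - q (t, z, 0)) / m (t, z, 0)) ''
          {r : L | r ≠ 0 ∧ ‖r‖ < ε'}).Infinite := by
        refine Set.Infinite.of_image (fun a => a * m (t, z, 0) + q (t, z, 0)) ?_
        rw [← Set.image_comp]
        have hsub : {r : L | r ≠ 0 ∧ ‖r‖ < ε'} ⊆ {r : L | r ≠ 0 ∧ ‖r‖ < ε'} := subset_rfl
        intro hfin
        apply infinite_small h3 h30 hε'pos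
        have : {r : L | r ≠ 0 ∧ ‖r‖ < ε'} ⊆ (fun r : L => r ^ 2) ⁻¹'
            (((fun a => a * m (t, z, 0) + q (t, z, 0)) ∘
              fun r => (r ^ 2 - q (t, z, 0)) / m (t, z, 0)) '' {r : L | r ≠ 0 ∧ ‖r‖ < ε'}) := by
          intro r hr
          refine ⟨r, hr, ?_⟩
          show (r ^ 2 - q (t, z, 0)) / m (t, z, 0) * m (t, z, 0) + q (t, z, 0) = r ^ 2
          field_simp
          ring
        refine Set.Finite.subset (Set.Finite.preimage' hfin ?_) this
        intro y _
        have hfin' : {r : L | r ^ 2 = y}.Finite := by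
          by_cases hy : ∃ r0 : L, r0 ^ 2 = y
          · obtain ⟨r0, hr0⟩ := hy
            refine Set.Finite.subset (Set.toFinite {r0, -r0}) ?_
            intro r hr
            have : r ^ 2 = r0 ^ 2 := by rw [hr0]; exact hr
            rcases sq_eq_sq_iff_eq_or_eq_neg.mp this with h | h
            · left; exact h
            · right; exact h
          · refine Set.Finite.subset Set.finite_empty ?_
            intro r hr
            exact absurd ⟨r, hr⟩ hy
        exact hfin'
      refine hsq.mono ?_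
      rintro _ ⟨r, ⟨hr0, hr⟩, rfl⟩
      exact hS r hr0 hr
    intro a
    have := eval_line_eq_zero (b + t • d + W (t, z, 0)) d G hinfa (a - t)
    have e : b + t • d + W (t, z, 0) + (a - t) • d = b + W (t, z, 0) + a • d := by
      rw [sub_smul]; abel
    rwa [e] at this
  -- step C
  have stepC : ∀ z : ι → L, ‖z‖ < ε → eval (b + w0 + z) G = 0 := by
    intro z hz
    have hinfY : {y : L | eval (b + (w0 + z) + y • u) G = 0}.Infinite := by
      intro hfin
      have hmem : ∀ t : L, ‖t‖ < ε → Y (t, z, 0) ∈ {y : L | eval (b + (w0 + z) + y • u) G = 0} := by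
        intro t ht
        have := stepB t z ht hz 0
        rw [zero_smul, add_zero] at this
        have e : b + W (t, z, 0) = b + (w0 + z) + Y (t, z, 0) • u := by
          show b + (w0 + z + Y (t, z, 0) • u) = _
          rw [← add_assoc]
        rw [e] at this
        exact this
      have hTinf : Infinite {t : L | t ≠ 0 ∧ ‖t‖ < ε} :=
        Set.infinite_coe_iff.mpr (infinite_small h3 h30 hε)
      have hRfin : Finite {y : L | eval (b + (w0 + z) + y • u) G = 0} := hfin
      obtain ⟨y, hy⟩ := Finite.exists_infinite_fiber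
        (fun t : {t : L | t ≠ 0 ∧ ‖t‖ < ε} =>
          (⟨Y (t, z, 0), hmem t t.2.2⟩ : {y : L | eval (b + (w0 + z) + y • u) G = 0}))
      set P1 : Polynomial L := (planeP b d (w0 + z + (y : L) • u) f).coeff 1 with hP1
      have hroot : ∀ t : L, ‖t‖ < ε → Y (t, z, 0) = y → P1.eval t = 0 := by
        intro t ht hty
        have hβ := (hball' t z 0 ht hz (by simpa using hε)).1
        rw [hP1, planeP_coeff_eval, lineP_coeff_one_add_smul, ← hty]
        show α (t, z, 0) + -(α (t, z, 0) / β (t, z, 0)) * β (t, z, 0) = 0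
        field_simp
        ring
      have hP10 : P1 = 0 := by
        apply Polynomial.eq_zero_of_infinite_isRoot
        have hinj := Set.infinite_coe_iff.mp hy
        have himg := hinj.image (f := fun t : {t : L | t ≠ 0 ∧ ‖t‖ < ε} => (t : L))
          (fun a _ b _ hab => Subtype.ext hab)
        refine himg.mono ?_
        rintro _ ⟨t, ht, rfl⟩
        refine hroot t t.2.2 ?_
        exact congrArg Subtype.val ht
      obtain ⟨t, ht⟩ := hy.nonempty
      have htY : Y ((t : L), z, 0) = y := congrArg Subtype.val ht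
      have hm' := (hball' t z 0 t.2.2 hz (by simpa using hε)).2.1
      apply hm'
      rw [hm]
      have hWy : W ((t : L), z, 0) = w0 + z + (y : L) • u := by
        show w0 + z + Y ((t : L), z, 0) • u = _
        rw [htY]
      rw [hWy, ← hP1, hP10]
      simp
    have := eval_line_eq_zero (b + (w0 + z)) u G hinfY 0
    rw [zero_smul, add_zero, ← add_assoc] at this
    exact this
  exact eq_zero_of_ball h3 h30 (b + w0) hε G stepC

end Pool.Agent.Helper15
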