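import Mathlib

/-!
# Moving a specialisation along a curve `y ^ 2 = q(x)`
-/

namespace Pool.Agent.Helper15.Spec

open Polynomial

/-- Let `x`, `y` be elements of the field `E` with `y ^ 2 = q(x)` and no other relation over the
subalgebra `R`, let `φ` be a homomorphism from `R` to `L` and let `(x', y')` be a point over `L` of
the curve `y ^ 2 = q(x)` specialised by `φ`.  Then `φ` extends to every subalgebra `R'` whose
elements are fractions `(α(x) + β(x) y) / γ(x)` with `γ(x')` nonzero. -/
theorem exists_move {K E L : Type*} [Field K] [Field E] [Field L] [Algebra K E] [Algebra K L]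
    (R : Subalgebra K E) (φ : R →ₐ[K] L) (x y : E) (q : Polynomial R) (hy : y ^ 2 = aeval x q)
    (hind : ∀ α β : Polynomial R, aeval x α + aeval x β * y = 0 → α = 0 ∧ β = 0)
    (x' y' : L) (hy' : y' ^ 2 = q.eval₂ (φ : R →+* L) x')
    (R' : Subalgebra K E)
    (hR' : ∀ g ∈ R', ∃ α β γ : Polynomial R, g * aeval x γ = aeval x α + aeval x β * y ∧
      γ.eval₂ (φ : R →+* L) x' ≠ 0) :
    ∃ φ' : R' →ₐ[K] L, ∀ (g : R') (α β γ : Polynomial R),
      (g : E) * aeval x γ = aeval x α + aeval x β * y →
      φ' g * γ.eval₂ (φ : R →+* L) x'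
        = α.eval₂ (φ : R →+* L) x' + β.eval₂ (φ : R →+* L) x' * y' := by
  classical
  have hex : ∀ g : R', ∃ t : Polynomial R × Polynomial R × Polynomial R,
      (g : E) * aeval x t.2.2 = aeval x t.1 + aeval x t.2.1 * y ∧
      t.2.2.eval₂ (φ : R →+* L) x' ≠ 0 := by
    intro g
    obtain ⟨α, β, γ, h1, h2⟩ := hR' g g.2
    exact ⟨(α, β, γ), h1, h2⟩
  choose T hT1 hT2 using hex
  let ev : Polynomial R → L := fun f => f.eval₂ (φ : R →+* L) x'
  have ev_add : ∀ f g, ev (f + g) = ev f + ev g := fun f g => eval₂_add _ _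
  have ev_mul : ∀ f g, ev (f * g) = ev f * ev g := fun f g => eval₂_mul _ _
  have ev_sub : ∀ f g, ev (f - g) = ev f - ev g := fun f g => eval₂_sub _
  have ev_one : ev 1 = 1 := eval₂_one _ _
  have ev_zero : ev 0 = 0 := eval₂_zero _ _
  have hT2' : ∀ g, ev (T g).2.2 ≠ 0 := hT2
  have hyq : y' ^ 2 = ev q := hy'
  let ψ : R' → L := fun g => (ev (T g).1 + ev (T g).2.1 * y') / ev (T g).2.2
  have key : ∀ (g : R') (α β γ : Polynomial R), (g : E) * aeval x γ = aeval x α + aeval x β * y →
      ψ g * ev γ = ev α + ev β * y' := by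
    intro g α β γ h
    have h1 := hT1 g
    have h2 := hT2' g
    have h3 : aeval x (α * (T g).2.2 - (T g).1 * γ)
        + aeval x (β * (T g).2.2 - (T g).2.1 * γ) * y = 0 := by
      simp only [map_sub, map_mul]
      linear_combination (aeval x (T g).2.2) * (-h) + (aeval x γ) * h1
    obtain ⟨h4, h5⟩ := hind _ _ h3
    have h6 := congrArg ev h4
    have h7 := congrArg ev h5
    rw [ev_sub, ev_mul, ev_mul, ev_zero] at h6 h7
    show (ev (T g).1 + ev (T g).2.1 * y') / ev (T g).2.2 * _ = _
    field_simp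
    linear_combination -h6 - y' * h7
  have cancel : ∀ (a b t : L), t ≠ 0 → a * t = b * t → a = b := fun a b t ht h =>
    mul_right_cancel₀ ht h
  have h1 : ψ 1 = 1 := by
    have := key 1 1 0 1 (by simp)
    rw [ev_one, ev_zero] at this
    simpa using this
  have h2 : ∀ a b, ψ (a * b) = ψ a * ψ b := by
    intro a b
    have h := key (a * b) ((T a).1 * (T b).1 + (T a).2.1 * (T b).2.1 * q)
      ((T a).1 * (T b).2.1 + (T a).2.1 * (T b).1) ((T a).2.2 * (T b).2.2) (by
        have ha := hT1 a
        have hb := hT1 b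
        simp only [map_mul, map_add]
        push_cast
        rw [← hy]
        linear_combination (b : E) * (aeval x (T b).2.2) * ha
          + (aeval x (T a).1 + aeval x (T a).2.1 * y) * hb)
    rw [ev_mul, ev_add, ev_mul, ev_mul, ev_mul, ev_add, ev_mul, ev_mul] at h
    have ha := key a _ _ _ (hT1 a)
    have hb := key b _ _ _ (hT1 b)
    refine cancel _ _ _ (mul_ne_zero (hT2' a) (hT2' b)) ?_
    rw [h, ← hyq]
    linear_combination -(ψ b * ev (T b).2.2) * ha
      - (ev (T a).1 + ev (T a).2.1 * y') * hb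
  have h0 : ψ 0 = 0 := by
    have := key 0 0 0 1 (by simp)
    rw [ev_one, ev_zero] at this
    simpa using this
  have h3 : ∀ a b, ψ (a + b) = ψ a + ψ b := by
    intro a b
    have h := key (a + b) ((T a).1 * (T b).2.2 + (T b).1 * (T a).2.2)
      ((T a).2.1 * (T b).2.2 + (T b).2.1 * (T a).2.2) ((T a).2.2 * (T b).2.2) (by
        have ha := hT1 a
        have hb := hT1 b
        simp only [map_mul, map_add]
        push_cast
        linear_combination (aeval x (T b).2.2) * ha + (aeval x (T a).2.2) * hb)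
    rw [ev_mul, ev_add, ev_mul, ev_mul, ev_add, ev_mul, ev_mul] at h
    have ha := key a _ _ _ (hT1 a)
    have hb := key b _ _ _ (hT1 b)
    refine cancel _ _ _ (mul_ne_zero (hT2' a) (hT2' b)) ?_
    rw [h]
    linear_combination -(ev (T b).2.2) * ha - (ev (T a).2.2) * hb
  have h4 : ∀ r : K, ψ (algebraMap K R' r) = algebraMap K L r := by
    intro r
    have h := key (algebraMap K R' r) (C (algebraMap K R r)) 0 1 (by
      simp only [map_one, mul_one, aeval_C, map_zero, zero_mul, add_zero]
      rfl)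
    rw [ev_one, ev_zero, mul_one, zero_mul, add_zero] at h
    rw [h]
    show (C (algebraMap K R r)).eval₂ (φ : R →+* L) x' = _
    rw [eval₂_C]
    exact φ.commutes r
  let ρ : R' →+* L :=
    { toFun := ψ
      map_one' := h1
      map_mul' := h2
      map_zero' := h0
      map_add' := h3 }
  exact ⟨{ ρ with commutes' := h4 }, key⟩

end Pool.Agent.Helper15.Spec
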