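import Mathlib

/-!
# The tangent parabola construction, and its 3-adic behaviour

For a quartic `f(s) = y ^ 2 + f1 s + f2 s ^ 2 + f3 s ^ 3 + f4 s ^ 4` the parabola
`Y = y + α s + β s ^ 2` that meets `Y ^ 2 = f(s)` to order three at `s = 0` meets it again in
exactly one point.  This is the map `P ↦ - 3 P`, with respect to a ramification point.
-/

namespace Pool.Agent.Helper15

open NNReal

/-- The algebraic identity behind the tangent parabola construction. -/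
theorem parabola_identity {L : Type*} [Field L] (f1 f2 f3 f4 y A N D s Y : L)
    (hA : A = 4 * y ^ 2 * f2 - f1 ^ 2) (hN : N = 8 * y ^ 4 * f3 - f1 * A)
    (hDdef : D = A ^ 2 - 64 * y ^ 6 * f4) (hD : D ≠ 0)
    (hs : s = 8 * y ^ 2 * N / D)
    (hY : Y = y * (D ^ 2 + 4 * f1 * N * D + 8 * A * N ^ 2) / D ^ 2) :
    Y ^ 2 = y ^ 2 + f1 * s + f2 * s ^ 2 + f3 * s ^ 3 + f4 * s ^ 4 := by
  have h1 : D ^ 4 * (Y ^ 2) = D ^ 4 * (y ^ 2 + f1 * s + f2 * s ^ 2 + f3 * s ^ 3 + f4 * s ^ 4) := by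
    have e1 : D ^ 4 * (Y ^ 2) = y ^ 2 * (D ^ 2 + 4 * f1 * N * D + 8 * A * N ^ 2) ^ 2 := by
      rw [hY]; field_simp
    have e2 : D ^ 4 * (y ^ 2 + f1 * s + f2 * s ^ 2 + f3 * s ^ 3 + f4 * s ^ 4)
        = D ^ 4 * y ^ 2 + f1 * (8 * y ^ 2 * N) * D ^ 3 + f2 * (8 * y ^ 2 * N) ^ 2 * D ^ 2
          + f3 * (8 * y ^ 2 * N) ^ 3 * D + f4 * (8 * y ^ 2 * N) ^ 4 := by
      rw [hs]; field_simp
    rw [e1, e2]
    have k1 : 4 * y ^ 2 * f2 - f1 ^ 2 - A = 0 := by rw [hA]; ring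
    have k2 : 8 * y ^ 4 * f3 - f1 * A - N = 0 := by rw [hN]; ring
    have k3 : A ^ 2 - 64 * y ^ 6 * f4 - D = 0 := by rw [hDdef]; ring
    linear_combination (-16 * y ^ 2 * N ^ 2 * D ^ 2) * k1 + (-64 * y ^ 2 * N ^ 3 * D) * k2
      + (64 * y ^ 2 * N ^ 4) * k3
  exact mul_left_cancel₀ (pow_ne_zero 4 hD) h1

/-- The tangent parabola construction for a valuation `v` and a quartic with integral
coefficients: a sufficiently small ordinate `y` is replaced by an ordinate `Y` with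
`v Y = v 3 * v y`. -/
theorem parabola_step {L : Type*} [Field L] (v : Valuation L ℝ≥0) (f1 f2 f3 f4 y : L)
    (h1 : v f1 ≤ 1) (h2 : v f2 ≤ 1) (h3 : v f3 ≤ 1) (h4 : v f4 ≤ 1)
    (hy : v y ^ 2 < v 3 * v f1 ^ 8) :
    ∃ s Y : L, Y ^ 2 = y ^ 2 + f1 * s + f2 * s ^ 2 + f3 * s ^ 3 + f4 * s ^ 4 ∧
      v Y = v 3 * v y ∧ v s * v f1 ^ 4 ≤ v y ^ 2 := by
  have hint : ∀ n : ℕ, ((n : L)) ∈ v.integer := fun n => natCast_mem _ n
  have m1 : f1 ∈ v.integer := h1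
  have m2 : f2 ∈ v.integer := h2
  have m3 : f3 ∈ v.integer := h3
  have m4 : f4 ∈ v.integer := h4
  have hv3 : v (3 : L) ≤ 1 := by
    have := hint 3
    exact_mod_cast this
  have hf1ne : v f1 ≠ 0 := by
    intro h
    rw [h] at hy
    simp at hy
  have hle8 : v f1 ^ 8 ≤ 1 := pow_le_one₀ zero_le h1
  have hy2 : v y ^ 2 ≤ 1 := by
    calc v y ^ 2 ≤ v 3 * v f1 ^ 8 := hy.le
      _ ≤ 1 * 1 := mul_le_mul' hv3 hle8
      _ = 1 := one_mul 1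
  have my : y ∈ v.integer := by
    show v y ≤ 1
    by_contra hcon
    push Not at hcon
    exact absurd hy2 (not_le.mpr (one_lt_pow₀ hcon (by norm_num)))
  -- work in the subring of integers
  obtain ⟨g1, hg1⟩ : ∃ g : v.integer, (g : L) = f1 := ⟨⟨f1, m1⟩, rfl⟩
  obtain ⟨g2, hg2⟩ : ∃ g : v.integer, (g : L) = f2 := ⟨⟨f2, m2⟩, rfl⟩
  obtain ⟨g3, hg3⟩ : ∃ g : v.integer, (g : L) = f3 := ⟨⟨f3, m3⟩, rfl⟩
  obtain ⟨g4, hg4⟩ : ∃ g : v.integer, (g : L) = f4 := ⟨⟨f4, m4⟩, rfl⟩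
  obtain ⟨z, hz⟩ : ∃ g : v.integer, (g : L) = y := ⟨⟨y, my⟩, rfl⟩
  have c2 : ((2 : v.integer) : L) = 2 := rfl
  have c4 : ((4 : v.integer) : L) = 4 := rfl
  have c8 : ((8 : v.integer) : L) = 8 := rfl
  have c16 : ((16 : v.integer) : L) = 16 := rfl
  have c64 : ((64 : v.integer) : L) = 64 := rfl
  set A : L := 4 * y ^ 2 * f2 - f1 ^ 2 with hA
  set N : L := 8 * y ^ 4 * f3 - f1 * A with hN
  set D : L := A ^ 2 - 64 * y ^ 6 * f4 with hD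
  obtain ⟨A', hA'⟩ : ∃ A' : v.integer, A' = 4 * g2 := ⟨_, rfl⟩
  obtain ⟨N', hN'⟩ : ∃ N' : v.integer, N' = 8 * z ^ 2 * g3 - 4 * g1 * g2 := ⟨_, rfl⟩
  obtain ⟨D', hD'⟩ : ∃ D' : v.integer,
    D' = -8 * g1 ^ 2 * g2 + 16 * z ^ 2 * g2 ^ 2 - 64 * z ^ 4 * g4 := ⟨_, rfl⟩
  obtain ⟨Q, hQ⟩ : ∃ Q : v.integer,
    Q = 2 * g1 ^ 4 * D' + z ^ 2 * D' ^ 2 + 4 * g1 * (g1 ^ 3 * D' + N' * g1 ^ 4 + z ^ 2 * N' * D')
      + 8 * (A' * (g1 ^ 3 + z ^ 2 * N') ^ 2 - g1 ^ 2 * (2 * g1 ^ 3 * N' + z ^ 2 * N' ^ 2)) :=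
    ⟨_, rfl⟩
  have eA : A = -f1 ^ 2 + y ^ 2 * (A' : L) := by
    rw [hA, hA']; push_cast; rw [hg2, c4]; ring
  have eN : N = f1 ^ 3 + y ^ 2 * (N' : L) := by
    rw [hN, hA, hN']; push_cast; rw [hg2, hg3, hg1, hz, c8, c4]; ring
  have eD : D = f1 ^ 4 + y ^ 2 * (D' : L) := by
    rw [hD, hA, hD']; push_cast; rw [hg2, hg4, hg1, hz, c8, c16, c64]; ring
  have eQ : D ^ 2 + 4 * f1 * N * D + 8 * A * N ^ 2 = -3 * f1 ^ 8 + y ^ 2 * (Q : L) := by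
    rw [eA, eN, eD, hQ]; push_cast; rw [hg1, hz, c2, c4, c8]; ring
  have vint : ∀ g : v.integer, v (g : L) ≤ 1 := fun g => g.2
  have hy4 : v y ^ 2 < v f1 ^ 4 := by
    calc v y ^ 2 < v 3 * v f1 ^ 8 := hy
      _ ≤ 1 * v f1 ^ 4 := by
        refine mul_le_mul' hv3 ?_
        exact pow_le_pow_of_le_one zero_le h1 (by norm_num)
      _ = v f1 ^ 4 := one_mul _
  have vD : v D = v f1 ^ 4 := by
    rw [eD, Valuation.map_add_eq_of_lt_left, map_pow]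
    rw [map_mul, map_pow, map_pow]
    calc v y ^ 2 * v (D' : L) ≤ v y ^ 2 * 1 := mul_le_mul' le_rfl (vint D')
      _ < v f1 ^ 4 := by rwa [mul_one]
  have hDne : D ≠ 0 := by
    intro h
    rw [h, map_zero] at vD
    exact (pow_ne_zero 4 hf1ne) vD.symm
  have hv3ne : v (3 : L) ≠ 0 := by
    intro h
    rw [h] at hy
    simp at hy
  have vU : v (D ^ 2 + 4 * f1 * N * D + 8 * A * N ^ 2) = v 3 * v f1 ^ 8 := by
    rw [eQ, Valuation.map_add_eq_of_lt_left]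
    · rw [map_mul, Valuation.map_neg, map_pow]
    · rw [map_mul, map_pow, map_mul, Valuation.map_neg, map_pow]
      calc v y ^ 2 * v (Q : L) ≤ v y ^ 2 * 1 := mul_le_mul' le_rfl (vint Q)
        _ < v 3 * v f1 ^ 8 := by rwa [mul_one]
  have vN : v N ≤ 1 := by
    have : N ∈ v.integer := by
      have e : N = ((g1 ^ 3 + z ^ 2 * N' : v.integer) : L) := by
        rw [eN]; push_cast; rw [hg1, hz]
      rw [e]; exact Subtype.mem _
    exact this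
  have v8 : v (8 : L) ≤ 1 := by
    have := hint 8
    exact_mod_cast this
  refine ⟨8 * y ^ 2 * N / D, y * (D ^ 2 + 4 * f1 * N * D + 8 * A * N ^ 2) / D ^ 2,
    parabola_identity f1 f2 f3 f4 y A N D _ _ rfl rfl rfl hDne rfl rfl, ?_, ?_⟩
  · rw [map_div₀, map_mul, vU, map_pow, vD]
    have : v f1 ^ 8 = (v f1 ^ 4) ^ 2 := by ring
    rw [this]
    field_simp
  · rw [map_div₀, vD, map_mul, map_mul, map_pow, div_mul_cancel₀ _ (pow_ne_zero 4 hf1ne)]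
    calc v 8 * v y ^ 2 * v N ≤ 1 * v y ^ 2 * 1 := mul_le_mul' (mul_le_mul' v8 le_rfl) vN
      _ = v y ^ 2 := by ring

end Pool.Agent.Helper15
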