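import Mathlib

/-!
# Functions on a Weierstrass curve and the valuation at infinity
-/

namespace Pool.Agent.Helper15.WE

open Polynomial

variable {k N : Type*} [Field k] [Field N] [Algebra k N]

/-- The valuation subring contains the ground field but not `X`. -/
structure AtInf (k : Type*) {N : Type*} [Field k] [Field N] [Algebra k N] (V : ValuationSubring N)
    (X : N) : Prop where
  base : ∀ a : k, algebraMap k N a ∈ V
  notMem : X ∉ V

section Val

variable {V : ValuationSubring N} {X : N}

theorem AtInf.one_lt (h : AtInf k V X) : 1 < V.valuation X := by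
  rw [← not_le, V.valuation_le_one_iff]
  exact h.notMem

theorem AtInf.val_const (h : AtInf k V X) (a : k) (ha : a ≠ 0) :
    V.valuation (algebraMap k N a) = 1 := by
  apply le_antisymm
  · rw [V.valuation_le_one_iff]; exact h.base a
  · have h1 : V.valuation (algebraMap k N a⁻¹) ≤ 1 := by
      rw [V.valuation_le_one_iff]; exact h.base _
    rw [map_inv₀, map_inv₀] at h1
    have hne : V.valuation (algebraMap k N a) ≠ 0 := by
      rw [Ne, map_eq_zero, map_eq_zero]; exact ha
    rw [inv_le_one₀ (zero_lt_iff.mpr hne)] at h1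
    exact h1

theorem AtInf.val_le (h : AtInf k V X) (p : Polynomial k) (m : ℕ) (hm : p.natDegree ≤ m) :
    V.valuation (aeval X p) ≤ V.valuation X ^ m := by
  rw [aeval_eq_sum_range]
  refine Valuation.map_sum_le _ fun i hi => ?_
  rw [Finset.mem_range] at hi
  rw [Algebra.smul_def, map_mul, map_pow]
  by_cases hc : p.coeff i = 0
  · rw [hc, map_zero, map_zero, zero_mul]
    exact zero_le
  · rw [h.val_const _ hc, one_mul]
    exact pow_le_pow_right₀ h.one_lt.le (by omega)

theorem AtInf.val_eq (h : AtInf k V X) (p : Polynomial k) (hp : p ≠ 0) :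
    V.valuation (aeval X p) = V.valuation X ^ p.natDegree := by
  by_cases h0 : p.natDegree = 0
  · obtain ⟨a, rfl⟩ := natDegree_eq_zero.mp h0
    rw [natDegree_C, pow_zero, aeval_C]
    exact h.val_const a (by rintro rfl; exact hp (by simp))
  have h1 : aeval X p = aeval X p.eraseLead + algebraMap k N p.leadingCoeff * X ^ p.natDegree := by
    conv_lhs => rw [← p.eraseLead_add_monomial_natDegree_leadingCoeff]
    rw [map_add, aeval_monomial]
  have h2 : V.valuation (algebraMap k N p.leadingCoeff * X ^ p.natDegree)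
      = V.valuation X ^ p.natDegree := by
    rw [map_mul, map_pow, h.val_const _ (leadingCoeff_ne_zero.mpr hp), one_mul]
  have h3 : V.valuation (aeval X p.eraseLead) < V.valuation X ^ p.natDegree := by
    refine lt_of_le_of_lt (h.val_le _ (p.natDegree - 1) (eraseLead_natDegree_le p)) ?_
    exact pow_lt_pow_right₀ h.one_lt (by omega)
  rw [h1, Valuation.map_add_eq_of_lt_right (v := V.valuation) (by rw [h2]; exact h3), h2]

/-- Elements outside of the valuation ring are transcendental over the ground field. -/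
theorem AtInf.transcendental (h : AtInf k V X) : Transcendental k X := by
  rintro ⟨p, hp, h0⟩
  have h1 := h.val_eq p hp
  rw [h0, map_zero] at h1
  have : V.valuation X ≠ 0 := by
    intro h2
    have := h.one_lt
    rw [h2] at this
    exact not_lt_zero this
  exact (pow_ne_zero _ this) h1.symm

open Classical in
/-- The order at infinity of `g₀(X) + g₁(X) Y`. -/
noncomputable def pord (g₀ g₁ : Polynomial k) : ℕ :=
  max (2 * g₀.natDegree) (if g₁ = 0 then 0 else 2 * g₁.natDegree + 3)

variable {Y : N} {A B : k}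

theorem AtInf.val_Y (h : AtInf k V X)
    (hE : Y ^ 2 = X ^ 3 + algebraMap k N A * X + algebraMap k N B) :
    V.valuation Y ^ 2 = V.valuation X ^ 3 := by
  have h1 : Y ^ 2 = aeval X (Polynomial.X ^ 3 + C A * Polynomial.X + C B : Polynomial k) := by
    rw [hE]; simp
  have h2 : (Polynomial.X ^ 3 + C A * Polynomial.X + C B : Polynomial k).natDegree = 3 := by
    compute_degree!
  rw [← map_pow, h1, h.val_eq _ (by
    intro h0
    rw [h0] at h2
    simp at h2), h2]

theorem AtInf.val_pair (h : AtInf k V X)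
    (hE : Y ^ 2 = X ^ 3 + algebraMap k N A * X + algebraMap k N B) (g₀ g₁ : Polynomial k)
    (hg : ¬ (g₀ = 0 ∧ g₁ = 0)) :
    V.valuation (aeval X g₀ + aeval X g₁ * Y) ^ 2 = V.valuation X ^ pord g₀ g₁ := by
  have hY := h.val_Y hE
  have h1 := h.one_lt
  unfold pord
  by_cases hg1 : g₁ = 0
  · rw [if_pos hg1, hg1, map_zero, zero_mul, add_zero, max_eq_left (Nat.zero_le _),
      h.val_eq g₀ (fun h0 => hg ⟨h0, hg1⟩), ← pow_mul]
    congr 1
    ring
  have hv1 : V.valuation (aeval X g₁ * Y) ^ 2 = V.valuation X ^ (2 * g₁.natDegree + 3) := by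
    rw [map_mul, mul_pow, hY, h.val_eq g₁ hg1, ← pow_mul, ← pow_add]
    congr 1
    ring
  rw [if_neg hg1]
  by_cases hg0 : g₀ = 0
  · rw [hg0, map_zero, zero_add, natDegree_zero, mul_zero, max_eq_right (Nat.zero_le _)]
    exact hv1
  have hv0 : V.valuation (aeval X g₀) ^ 2 = V.valuation X ^ (2 * g₀.natDegree) := by
    rw [h.val_eq g₀ hg0, ← pow_mul]
    congr 1
    ring
  have key : ∀ a b : V.ValueGroup, a ^ 2 < b ^ 2 → a < b := by
    intro a b hab
    by_contra hcon
    exact absurd hab (not_lt.mpr (pow_le_pow_left₀ zero_le (not_lt.mp hcon) 2))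
  rcases lt_trichotomy (2 * g₀.natDegree) (2 * g₁.natDegree + 3) with hlt | heq | hgt
  · rw [max_eq_right hlt.le]
    have h2 : V.valuation (aeval X g₀) < V.valuation (aeval X g₁ * Y) := by
      apply key
      rw [hv0, hv1]
      exact pow_lt_pow_right₀ h1 hlt
    rw [Valuation.map_add_eq_of_lt_right (v := V.valuation) h2, hv1]
  · omega
  · rw [max_eq_left hgt.le]
    have h2 : V.valuation (aeval X g₁ * Y) < V.valuation (aeval X g₀) := by
      apply key
      rw [hv0, hv1]
      exact pow_lt_pow_right₀ h1 hgt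
    rw [Valuation.map_add_eq_of_lt_left (v := V.valuation) h2, hv0]

theorem AtInf.indep (h : AtInf k V X)
    (hE : Y ^ 2 = X ^ 3 + algebraMap k N A * X + algebraMap k N B) (g₀ g₁ : Polynomial k)
    (h0 : aeval X g₀ + aeval X g₁ * Y = 0) : g₀ = 0 ∧ g₁ = 0 := by
  by_contra hg
  have h1 := h.val_pair hE g₀ g₁ hg
  rw [h0, map_zero, zero_pow two_ne_zero] at h1
  have : V.valuation X ≠ 0 := by
    intro h2
    have := h.one_lt
    rw [h2] at this
    exact not_lt_zero this
  exact (pow_ne_zero _ this) h1.symm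

/-- Fractions. -/
def IsRep (k : Type*) {N : Type*} [Field k] [Field N] [Algebra k N] (X Y f : N) : Prop :=
  ∃ g₀ g₁ d : Polynomial k, d ≠ 0 ∧ aeval X d ≠ 0 ∧
    f * aeval X d = aeval X g₀ + aeval X g₁ * Y

theorem AtInf.mem_iff (h : AtInf k V X)
    (hE : Y ^ 2 = X ^ 3 + algebraMap k N A * X + algebraMap k N B) (f : N)
    (g₀ g₁ d : Polynomial k) (hd : d ≠ 0)
    (hf : f * aeval X d = aeval X g₀ + aeval X g₁ * Y) (hg : ¬ (g₀ = 0 ∧ g₁ = 0)) :
    f ∈ V ↔ pord g₀ g₁ ≤ 2 * d.natDegree := by
  have h1 := h.val_pair hE g₀ g₁ hg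
  have h2 := h.val_eq d hd
  rw [← hf, map_mul, mul_pow, h2, ← pow_mul] at h1
  have hX := h.one_lt
  have hX0 : 0 < V.valuation X := lt_trans zero_lt_one hX
  have hpos : 0 < V.valuation X ^ (d.natDegree * 2) := pow_pos hX0 _
  have h3 : f ∈ V ↔ V.valuation f ^ 2 ≤ 1 := by
    rw [← V.valuation_le_one_iff]
    constructor
    · intro h4; exact pow_le_one' h4 2
    · intro h4
      by_contra hcon
      exact absurd h4 (not_le.mpr (one_lt_pow₀ (not_le.mp hcon) two_ne_zero))
  rw [h3]
  have h5 : V.valuation f ^ 2 ≤ 1 ↔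
      V.valuation f ^ 2 * V.valuation X ^ (d.natDegree * 2) ≤ V.valuation X ^ (d.natDegree * 2) := by
    constructor
    · intro h4
      calc V.valuation f ^ 2 * V.valuation X ^ (d.natDegree * 2)
          ≤ 1 * V.valuation X ^ (d.natDegree * 2) := mul_le_mul_left h4 _
        _ = _ := one_mul _
    · intro h4
      by_contra hcon
      rw [not_le] at hcon
      have h6 : 1 * V.valuation X ^ (d.natDegree * 2)
          < V.valuation f ^ 2 * V.valuation X ^ (d.natDegree * 2) :=
        mul_lt_mul_of_pos_right hcon hpos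
      rw [one_mul] at h6
      exact absurd h4 (not_le.mpr h6)
  rw [h5, h1, mul_comm d.natDegree 2]
  exact pow_le_pow_iff_right₀ hX

/-- The valuation at infinity is determined on the field generated by `X` and `Y`. -/
theorem AtInf.unique {V' : ValuationSubring N} (h : AtInf k V X) (h' : AtInf k V' X)
    (hE : Y ^ 2 = X ^ 3 + algebraMap k N A * X + algebraMap k N B) (f : N)
    (hf : IsRep k X Y f) : f ∈ V ↔ f ∈ V' := by
  obtain ⟨g₀, g₁, d, hd, hdX, hf⟩ := hf
  by_cases hg : g₀ = 0 ∧ g₁ = 0
  · rw [hg.1, hg.2, map_zero, zero_mul, add_zero] at hf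
    have : f = 0 := (mul_eq_zero.mp hf).resolve_right hdX
    rw [this]
    exact ⟨fun _ => zero_mem _, fun _ => zero_mem _⟩
  · rw [h.mem_iff hE f g₀ g₁ d hd hf hg, h'.mem_iff hE f g₀ g₁ d hd hf hg]

end Val

end Pool.Agent.Helper15.WE
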