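import Pool.Agent.Helper15.WE9

/-!
# The second embedding is defined over the descended Weierstrass curve
-/

namespace Pool.Agent.Helper15.WE

open Polynomial Curve LemR EC

universe u

variable {K E : Type*} {M : Type u} {Ω : Type*} [Field K] [Field E] [Field M] [Algebra K E]
  [Algebra K M] [Algebra E M] [IsScalarTower K E M] [Field Ω]
  [Algebra K Ω] [Algebra M Ω] [Algebra E Ω] [IsScalarTower E M Ω]
  {B₀ : IntermediateField K E} {C₀ : IntermediateField K M}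
  {x y A B : M} {V : ValuationSubring Ω} {i₂ : M →ₐ[K] Ω}

theorem exists_points [CharZero K] (h : IsEll C₀ x y A B) (hu : Univ C₀ V i₂) :
    (cub 0 (algebraMap M Ω A) (algebraMap M Ω B)).Δ ≠ 0 ∧
    ∃ P₁ P₂ : (cub 0 (algebraMap M Ω A) (algebraMap M Ω B)).Point,
        IsAt 0 _ _ P₁ (algebraMap M Ω x) (algebraMap M Ω y) ∧ IsAt 0 _ _ P₂ (i₂ x) (i₂ y) := by
  have hczΩ : CharZero Ω := charZero_of_injective_algebraMap (algebraMap K Ω).injective
  set ι := algebraMap M Ω with hι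
  have hdiscΩ : 4 * ι A ^ 3 + 27 * ι B ^ 2 ≠ 0 := by
    have := (_root_.map_ne_zero ι).mpr h.disc
    rwa [map_add, map_mul, map_mul, map_pow, map_pow, map_ofNat, map_ofNat] at this
  have hΔ : (cub 0 (ι A) (ι B)).Δ ≠ 0 := disc_iff two_ne_zero _ _ hdiscΩ
  have hE1 : ι y ^ 2 = ι x ^ 3 + 0 * ι x ^ 2 + ι A * ι x + ι B := by
    rw [← map_pow, h.eqn]; simp
  have hE2 : i₂ y ^ 2 = i₂ x ^ 3 + 0 * i₂ x ^ 2 + ι A * i₂ x + ι B := by
    rw [← map_pow, h.eqn, map_add, map_add, map_mul, map_pow, hu.fixC A h.memA,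
      hu.fixC B h.memB]
    ring
  exact ⟨hΔ, .some _ _ (cub_nonsingular _ _ _ _ _ hΔ hE1),
    .some _ _ (cub_nonsingular _ _ _ _ _ hΔ hE2), ⟨_, rfl⟩, ⟨_, rfl⟩⟩

theorem mem_adjoin_pair [CharZero K] [DecidableEq Ω] [IsGalois E M] (hdes : Descent B₀ C₀)
    (h : IsEll C₀ x y A B)
    (hu : Univ C₀ V i₂) {X₁ Y₁ : Ω} (D : Derivation K M M) (hDC : ∀ c ∈ C₀, D c = 0)
    (hDx : D x = 2 * y) (e₀ : E)
    (hd : IsDiff V i₂ x y A B (algebraMap M Ω (D (algebraMap E M e₀)) ^ 2 * X₁)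
      (algebraMap M Ω (D (algebraMap E M e₀)) ^ 3 * Y₁))
    (hgal : IsGalois (IntermediateField.adjoin E {X₁, Y₁}) Ω) (e : E) :
    i₂ (algebraMap E M e) ∈ IntermediateField.adjoin E {X₁, Y₁} := by
  have hczM : CharZero M := charZero_of_injective_algebraMap (algebraMap K M).injective
  have hczΩ : CharZero Ω := charZero_of_injective_algebraMap (algebraMap K Ω).injective
  set κ := D (algebraMap E M e₀) with hκ
  set ι := algebraMap M Ω with hι
  set F₁ := IntermediateField.adjoin E {X₁, Y₁} with hF₁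
  have hfix : ∀ ρ : Ω ≃ₐ[F₁] Ω, ρ (i₂ (algebraMap E M e)) = i₂ (algebraMap E M e) := by
    intro ρ
    let ρE : Ω ≃ₐ[E] Ω := ρ.restrictScalars E
    let γ : M ≃ₐ[E] M := ρE.restrictNormal M
    have hγ : ∀ m, ι (γ m) = ρ (ι m) := fun m => AlgEquiv.restrictNormal_commutes ρE M m
    have hρX : ρ X₁ = X₁ := by
      have : X₁ = algebraMap F₁ Ω ⟨X₁, IntermediateField.subset_adjoin _ _ (by simp)⟩ := rfl
      rw [this]; exact ρ.commutes _
    have hρY : ρ Y₁ = Y₁ := by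
      have : Y₁ = algebraMap F₁ Ω ⟨Y₁, IntermediateField.subset_adjoin _ _ (by simp)⟩ := rfl
      rw [this]; exact ρ.commutes _
    obtain ⟨u, huC, hu0, hA, hB, hγD, h', hd'⟩ := scale hdes h hu hd D hDC hDx γ
    have hγκ : γ κ = u * κ := hγD e₀
    obtain ⟨hΔ, P₁, P₂, hP₁, hP₂⟩ := exists_points h hu
    obtain ⟨hΔ', P₁', P₂', hP₁', hP₂'⟩ := exists_points h' hu
    obtain ⟨f, hf⟩ := exists_mapPt (ρ : Ω →+* Ω) 1 one_ne_zero (ι A) (ι B) (ι (γ A)) (ι (γ B))
      (by rw [hγ]; simp) (by rw [hγ]; simp) two_ne_zero hΔ'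
    have hQ := hd.isAt P₁ P₂ hP₁ hP₂
    have hQ' := hd'.isAt P₁' P₂' hP₁' hP₂'
    have f1 : f P₁ = P₁' := by
      have h1 := hf _ _ _ hP₁
      rw [one_pow, one_mul, one_pow, one_mul, RingHom.coe_coe, ← hγ, ← hγ] at h1
      exact h1.eq_of_isAt hP₁'
    have f2 : f (P₂ - P₁) = P₂' - P₁' := by
      have h1 := hf _ _ _ hQ
      have e1 : (1 : Ω) ^ 2 * (ρ : Ω →+* Ω) (ι κ ^ 2 * X₁) = ι u ^ 2 * (ι κ ^ 2 * X₁) := by
        rw [RingHom.coe_coe, map_mul, map_pow, ← hγ, hγκ, hρX, map_mul]; ring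
      have e2 : (1 : Ω) ^ 3 * (ρ : Ω →+* Ω) (ι κ ^ 3 * Y₁) = ι u ^ 3 * (ι κ ^ 3 * Y₁) := by
        rw [RingHom.coe_coe, map_mul, map_pow, ← hγ, hγκ, hρY, map_mul]; ring
      rw [e1, e2] at h1
      exact h1.eq_of_isAt hQ'
    have f3 : f P₂ = P₂' := by
      have : P₂ = (P₂ - P₁) + P₁ := by rw [sub_add_cancel]
      rw [this, map_add, f1, f2, sub_add_cancel]
    have h3 := hf _ _ _ hP₂
    rw [one_pow, one_mul, one_pow, one_mul, RingHom.coe_coe, f3] at h3
    obtain ⟨g1, g2⟩ := hP₂'.unique h3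
    have key : ∀ m : M, ρ (i₂ m) = i₂ (γ m) := by
      intro m
      have hm : m ∈ IntermediateField.adjoin C₀ {x, y} := by
        rw [h.top]; exact IntermediateField.mem_top
      induction hm using IntermediateField.adjoin_induction with
      | mem z hz =>
        rcases hz with rfl | hz
        · exact g1.symm
        · rw [Set.mem_singleton_iff] at hz
          rw [hz]; exact g2.symm
      | algebraMap c =>
        have h4 : i₂ (algebraMap C₀ M c) = ι (algebraMap C₀ M c) := hu.fixC _ c.2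
        have h5 : i₂ (γ (algebraMap C₀ M c)) = ι (γ (algebraMap C₀ M c)) :=
          hu.fixC _ (hdes.stable γ _ c.2)
        rw [h4, h5, hγ]
      | add z w _ _ hz hw => rw [map_add, map_add, map_add, map_add, hz, hw]
      | inv z _ hz => rw [map_inv₀, map_inv₀, map_inv₀, map_inv₀, hz]
      | mul z w _ _ hz hw => rw [map_mul, map_mul, map_mul, map_mul, hz, hw]
    rw [key, γ.commutes]
  obtain ⟨z, hz⟩ := (InfiniteGalois.mem_range_algebraMap_iff_fixed (k := F₁) _).mpr hfix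
  rw [← hz]
  exact z.2

end Pool.Agent.Helper15.WE
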