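import Pool.Agent.Helper15.WE2

/-!
# Two Weierstrass equations of the same function field with the same place at infinity
-/

namespace Pool.Agent.Helper15.WE

open Polynomial

variable {k N : Type*} [Field k] [Field N] [Algebra k N]

theorem isIntegralElem_of_forall (X f : N)
    (hf : ∀ V' : ValuationSubring N, (∀ a : k, algebraMap k N a ∈ V') → X ∈ V' → f ∈ V') :
    (aeval X : Polynomial k →ₐ[k] N).toRingHom.IsIntegralElem f := by
  classical
  let s : Set N := Set.range (algebraMap k N) ∪ {X}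
  have h1 : f ∈ (⨅ V : {V : ValuationSubring N // s ⊆ V.toSubring}, V.1.toSubring) := by
    rw [Subring.mem_iInf]
    rintro ⟨V', hV'⟩
    exact hf V' (fun a => hV' (Or.inl ⟨a, rfl⟩)) (hV' (Or.inr rfl))
  rw [iInf_valuationSubring_superset] at h1
  obtain ⟨P, hP, hPf⟩ := (h1 : IsIntegral (Subring.closure s) f)
  have hle : Subring.closure s ≤ (aeval X : Polynomial k →ₐ[k] N).toRingHom.range := by
    rw [Subring.closure_le]
    rintro z (⟨a, rfl⟩ | hz)
    · exact ⟨C a, by simp⟩
    · rw [Set.mem_singleton_iff] at hz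
      subst hz
      exact ⟨Polynomial.X, by simp⟩
  have hlift : P.map (algebraMap (Subring.closure s) N) ∈
      lifts (aeval X : Polynomial k →ₐ[k] N).toRingHom := by
    rw [lifts_iff_coeff_lifts]
    intro n
    rw [coeff_map]
    exact hle (P.coeff n).2
  obtain ⟨Q, hQ, -, hQm⟩ := lifts_and_natDegree_eq_and_monic hlift (hP.map _)
  refine ⟨Q, hQm, ?_⟩
  rw [← eval_map, hQ, eval_map]
  exact hPf

variable {V : ValuationSubring N} {X Y X' Y' : N} {A B A' B' : k}

theorem pord_ne_one (a b : Polynomial k) : pord a b ≠ 1 := by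
  unfold pord
  split_ifs
  · rw [max_eq_left (Nat.zero_le _)]; omega
  · intro h
    have := le_max_right (2 * a.natDegree) (2 * b.natDegree + 3)
    omega

theorem pord_eq_two (a b : Polynomial k) (h : pord a b = 2) : b = 0 ∧ a.natDegree = 1 := by
  unfold pord at h
  split_ifs at h with hb
  · rw [max_eq_left (Nat.zero_le _)] at h
    exact ⟨hb, by omega⟩
  · have := le_max_right (2 * a.natDegree) (2 * b.natDegree + 3)
    omega

theorem pord_eq_three (a b : Polynomial k) (h : pord a b = 3) :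
    b ≠ 0 ∧ b.natDegree = 0 ∧ a.natDegree ≤ 1 := by
  unfold pord at h
  split_ifs at h with hb
  · rw [max_eq_left (Nat.zero_le _)] at h
    omega
  · have h1 := le_max_right (2 * a.natDegree) (2 * b.natDegree + 3)
    have h2 := le_max_left (2 * a.natDegree) (2 * b.natDegree + 3)
    exact ⟨hb, by omega, by omega⟩

theorem AtInf.isIntegralElem (hV : AtInf k V X) (hV' : AtInf k V X')
    (hE' : Y' ^ 2 = aeval X' (cubic A' B')) (hX : IsRep k X' Y' X) :
    (aeval X : Polynomial k →ₐ[k] N).toRingHom.IsIntegralElem X' := by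
  apply isIntegralElem_of_forall
  intro W hWk hWX
  by_contra hWX'
  have hW : AtInf k W X' := ⟨hWk, hWX'⟩
  have h1 := hV'.unique hW (by rw [hE', aeval_cubic]) X hX
  exact hV.notMem (h1.mpr hWX)

theorem pow_inj_of_one_lt {V : ValuationSubring N} {g : V.ValueGroup} (hg : 1 < g) {m n : ℕ}
    (h : g ^ m = g ^ n) : m = n := by
  rcases lt_trichotomy m n with h1 | h1 | h1
  · exact absurd h (pow_lt_pow_right₀ hg h1).ne
  · exact h1
  · exact absurd h (pow_lt_pow_right₀ hg h1).ne'

theorem coeffs_of_eq_zero (a b c d : k)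
    (h : (C a * Polynomial.X ^ 3 + C b * Polynomial.X ^ 2 + C c * Polynomial.X + C d
      : Polynomial k) = 0) : a = 0 ∧ b = 0 ∧ c = 0 ∧ d = 0 := by
  refine ⟨?_, ?_, ?_, ?_⟩
  · have := congrArg (fun p => p.coeff 3) h
    simpa [coeff_X, coeff_C] using this
  · have := congrArg (fun p => p.coeff 2) h
    simpa [coeff_X, coeff_C] using this
  · have := congrArg (fun p => p.coeff 1) h
    simpa [coeff_X, coeff_C] using this
  · have := congrArg (fun p => p.coeff 0) h
    simpa [coeff_X, coeff_C] using this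

/-- Two Weierstrass equations of the same function field with the same place at infinity differ
by a scaling. -/
theorem lemmaW (h2 : (2 : k) ≠ 0) (h3 : (3 : k) ≠ 0)
    (hE : Y ^ 2 = aeval X (cubic A B)) (hE' : Y' ^ 2 = aeval X' (cubic A' B'))
    (hΔ : 4 * A ^ 3 + 27 * B ^ 2 ≠ 0) (hΔ' : 4 * A' ^ 3 + 27 * B' ^ 2 ≠ 0)
    (hV : AtInf k V X) (hV' : AtInf k V X')
    (hadj : IntermediateField.adjoin k {X, Y} = IntermediateField.adjoin k {X', Y'}) :
    ∃ u : k, u ≠ 0 ∧ X' = algebraMap k N u ^ 2 * X ∧ Y' = algebraMap k N u ^ 3 * Y ∧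
      A' = u ^ 4 * A ∧ B' = u ^ 6 * B := by
  have hEE : Y ^ 2 = X ^ 3 + algebraMap k N A * X + algebraMap k N B := by rw [hE, aeval_cubic]
  have hEE' : Y' ^ 2 = X' ^ 3 + algebraMap k N A' * X' + algebraMap k N B' := by
    rw [hE', aeval_cubic]
  have m1 : X' ∈ IntermediateField.adjoin k {X, Y} := by
    rw [hadj]; exact IntermediateField.subset_adjoin _ _ (by simp)
  have m2 : Y' ∈ IntermediateField.adjoin k {X, Y} := by
    rw [hadj]; exact IntermediateField.subset_adjoin _ _ (by simp)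
  have m3 : X ∈ IntermediateField.adjoin k {X', Y'} := by
    rw [← hadj]; exact IntermediateField.subset_adjoin _ _ (by simp)
  have r1 : IsRep k X Y X' := isRep_of_mem_adjoin hV hE X' m1
  have r2 : IsRep k X Y Y' := isRep_of_mem_adjoin hV hE Y' m2
  have r3 : IsRep k X' Y' X := isRep_of_mem_adjoin hV' hE' X m3
  have i1 := hV.isIntegralElem hV' hE' r3
  have i3 := hV'.isIntegralElem hV hE r1
  have i2 : (aeval X : Polynomial k →ₐ[k] N).toRingHom.IsIntegralElem Y' := by
    let _ : Algebra (Polynomial k) N := (aeval X : Polynomial k →ₐ[k] N).toRingHom.toAlgebra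
    have j1 : IsIntegral (Polynomial k) X' := i1
    have jc : ∀ a : k, IsIntegral (Polynomial k) (algebraMap k N a) := fun a => by
      have : algebraMap k N a = algebraMap (Polynomial k) N (C a) := by
        show _ = aeval X (C a)
        rw [aeval_C]
      rw [this]
      exact isIntegral_algebraMap
    have j2 : IsIntegral (Polynomial k) (Y' ^ 2) := by
      rw [hEE']
      exact ((j1.pow 3).add ((jc A').mul j1)).add (jc B')
    exact IsIntegral.of_pow (by norm_num) j2
  obtain ⟨a, b, hab⟩ := exists_of_isIntegral h2 hV hE hΔ X' r1 i1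
  obtain ⟨a', b', hab'⟩ := exists_of_isIntegral h2 hV' hE' hΔ' X r3 i3
  obtain ⟨c, d, hcd⟩ := exists_of_isIntegral h2 hV hE hΔ Y' r2 i2
  have hX0 : X' ≠ 0 := by rintro rfl; exact hV'.notMem (zero_mem _)
  have hXX0 : X ≠ 0 := by rintro rfl; exact hV.notMem (zero_mem _)
  have v1 : V.valuation X' ^ 2 = V.valuation X ^ pord a b := by
    rw [← hV.val_pair hEE a b (by
      rintro ⟨rfl, rfl⟩
      apply hX0; rw [hab]; simp), ← hab]
  have v2 : V.valuation X ^ 2 = V.valuation X' ^ pord a' b' := by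
    rw [← hV'.val_pair hEE' a' b' (by
      rintro ⟨rfl, rfl⟩
      apply hXX0; rw [hab']; simp), ← hab']
  have v3 : pord a b * pord a' b' = 4 := by
    apply pow_inj_of_one_lt hV.one_lt
    calc V.valuation X ^ (pord a b * pord a' b') = (V.valuation X' ^ 2) ^ pord a' b' := by
          rw [v1, ← pow_mul]
      _ = (V.valuation X ^ 2) ^ 2 := by rw [v2, ← pow_mul, ← pow_mul, mul_comm]
      _ = V.valuation X ^ 4 := by rw [← pow_mul]
  have n1 := pord_ne_one a b
  have n2 := pord_ne_one a' b'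
  have hp : pord a b = 2 := by
    have hle : pord a b ≤ 4 := Nat.le_of_dvd (by norm_num) ⟨_, v3.symm⟩
    interval_cases hpp : pord a b <;> omega
  obtain ⟨hb0, hda⟩ := pord_eq_two a b hp
  have hXv : V.valuation X' = V.valuation X := by
    rw [hp] at v1
    have key : ∀ a b : V.ValueGroup, a ^ 2 = b ^ 2 → a = b := by
      intro a b hab
      rcases lt_trichotomy a b with h | h | h
      · exact absurd hab (pow_lt_pow_left₀ h zero_le two_ne_zero).ne
      · exact h
      · exact absurd hab (pow_lt_pow_left₀ h zero_le two_ne_zero).ne'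
    exact key _ _ v1
  have hY0 : Y' ≠ 0 := by
    rintro rfl
    have h4 := hV'.val_Y hEE'
    rw [map_zero, zero_pow two_ne_zero] at h4
    have h5 : V.valuation X' ≠ 0 := by
      rw [Ne, map_eq_zero]; exact hX0
    exact pow_ne_zero 3 h5 h4.symm
  have v4 : V.valuation Y' ^ 2 = V.valuation X ^ pord c d := by
    rw [← hV.val_pair hEE c d (by
      rintro ⟨rfl, rfl⟩
      apply hY0; rw [hcd]; simp), ← hcd]
  have hq : pord c d = 3 := by
    apply pow_inj_of_one_lt hV.one_lt
    rw [← v4, hV'.val_Y hEE', hXv]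
  obtain ⟨hd0, hdd, hcc⟩ := pord_eq_three c d hq
  obtain ⟨β, α, rfl⟩ : ∃ β α : k, a = C α * Polynomial.X + C β :=
    ⟨a.coeff 0, a.coeff 1, eq_X_add_C_of_natDegree_le_one (by omega)⟩
  obtain ⟨κ, γ, rfl⟩ : ∃ κ γ : k, c = C γ * Polynomial.X + C κ :=
    ⟨c.coeff 0, c.coeff 1, eq_X_add_C_of_natDegree_le_one hcc⟩
  obtain ⟨δ, rfl⟩ : ∃ δ : k, d = C δ := ⟨d.coeff 0, eq_C_of_natDegree_eq_zero hdd⟩
  subst hb0
  have hα : α ≠ 0 := by
    rintro rfl
    simp at hda
  have hδ : δ ≠ 0 := by
    rintro rfl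
    simp at hd0
  -- comparison of the equations
  have hpoly : aeval X ((C δ ^ 2 * cubic A B + (C γ * Polynomial.X + C κ) ^ 2)
      - ((C α * Polynomial.X + C β) ^ 3 + C A' * (C α * Polynomial.X + C β) + C B') : Polynomial k)
      + aeval X (2 * C δ * (C γ * Polynomial.X + C κ) : Polynomial k) * Y = 0 := by
    rw [hab, hcd] at hEE'
    simp only [map_zero, zero_mul, add_zero] at hEE'
    simp only [map_add, map_sub, map_mul, map_pow, aeval_C, aeval_X, map_ofNat] at hEE' ⊢
    rw [← hE]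
    linear_combination hEE'
  obtain ⟨e1, e2⟩ := hV.indep hEE _ _ hpoly
  have hγκ : γ = 0 ∧ κ = 0 := by
    have e3 : (C γ * Polynomial.X + C κ : Polynomial k) = 0 := by
      have h4 : (2 * C δ : Polynomial k) ≠ 0 := by
        have : (2 * C δ : Polynomial k) = C (2 * δ) := by rw [C_mul, map_ofNat]
        rw [this, Ne, C_eq_zero]
        exact mul_ne_zero h2 hδ
      exact (mul_eq_zero.mp e2).resolve_left h4
    constructor
    · have := congrArg (fun p => p.coeff 1) e3
      simpa using this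
    · have := congrArg (fun p => p.coeff 0) e3
      simpa using this
  obtain ⟨rfl, rfl⟩ := hγκ
  have e4 : (C (δ ^ 2 - α ^ 3) * Polynomial.X ^ 3 + C (-(3 * α ^ 2 * β)) * Polynomial.X ^ 2
      + C (δ ^ 2 * A - 3 * α * β ^ 2 - A' * α) * Polynomial.X
      + C (δ ^ 2 * B - β ^ 3 - A' * β - B') : Polynomial k) = 0 := by
    rw [← e1]
    unfold cubic
    simp only [map_sub, map_mul, map_pow, map_neg, map_ofNat, map_zero]
    ring
  obtain ⟨f3, f2', f1, f0⟩ := coeffs_of_eq_zero _ _ _ _ e4
  have f2 : 3 * α ^ 2 * β = 0 := neg_eq_zero.mp f2'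
  have hβ : β = 0 := (mul_eq_zero.mp f2).resolve_left (mul_ne_zero h3 (pow_ne_zero 2 hα))
  subst hβ
  have hu2 : (δ / α) ^ 2 = α := by
    rw [div_pow, div_eq_iff (pow_ne_zero 2 hα)]
    linear_combination f3
  have hu3 : (δ / α) ^ 3 = δ := by
    rw [div_pow, div_eq_iff (pow_ne_zero 3 hα)]
    linear_combination δ * f3
  refine ⟨δ / α, div_ne_zero hδ hα, ?_, ?_, ?_, ?_⟩
  · rw [← map_pow, hu2, hab]
    simp
  · rw [← map_pow, hu3, hcd]
    simp
  · have h4 : (δ / α) ^ 4 = α ^ 2 := by
      calc (δ / α) ^ 4 = ((δ / α) ^ 2) ^ 2 := by ring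
        _ = α ^ 2 := by rw [hu2]
    rw [h4]
    apply mul_right_cancel₀ hα
    linear_combination -f1 + A * f3
  · have h4 : (δ / α) ^ 6 = δ ^ 2 := by
      calc (δ / α) ^ 6 = ((δ / α) ^ 3) ^ 2 := by ring
        _ = δ ^ 2 := by rw [hu3]
    rw [h4]
    linear_combination -f0

end Pool.Agent.Helper15.WE
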