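import Pool.Agent.Helper15.WE4
import Pool.Agent.Helper15.WE3

/-!
# Points near infinity have infinite order in residue characteristic zero
-/

namespace Pool.Agent.Helper15.WE

open Polynomial EC

variable {k N : Type*} [Field k] [CharZero k] [Field N] [Algebra k N] [DecidableEq N]
  {V : ValuationSubring N} {A B : k}

omit [CharZero k] [DecidableEq N] in
theorem AtInf.of_lt {X Z : N} (h : AtInf k V X) (hZ : V.valuation X ≤ V.valuation Z) :
    AtInf k V Z :=
  ⟨h.base, fun hm => absurd ((V.valuation_le_one_iff _).mpr hm)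
    (not_le.mpr (lt_of_lt_of_le h.one_lt hZ))⟩

theorem AtInf.double {P : (cub 0 (algebraMap k N A) (algebraMap k N B)).Point} {X Y : N}
    (h : AtInf k V X) (hP : IsAt 0 _ _ P X Y) :
    ∃ X' Y', IsAt 0 (algebraMap k N A) (algebraMap k N B) (P + P) X' Y' ∧
      V.valuation (4 * X' - X) < V.valuation X := by
  have hczN : CharZero N := charZero_of_injective_algebraMap (algebraMap k N).injective
  set ι := algebraMap k N with hι
  have hE := hP.eq
  have hEE : Y ^ 2 = X ^ 3 + ι A * X + ι B := by rw [hE]; ring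
  have hX1 := h.one_lt
  have hvY := h.val_Y hEE
  have hY0 : Y ≠ 0 := by
    rintro rfl
    rw [map_zero, zero_pow two_ne_zero] at hvY
    exact pow_ne_zero 3 (ne_of_gt (lt_trans zero_lt_one hX1)) hvY.symm
  refine ⟨_, _, hP.double two_ne_zero hY0 _ rfl, ?_⟩
  have hcub : X ^ 3 + ι A * X + ι B ≠ 0 := by
    rw [← hEE]; exact pow_ne_zero 2 hY0
  have h1 : 4 * (((3 * X ^ 2 + 2 * 0 * X + ι A) / (2 * Y)) ^ 2 - 0 - X - X) - X
      = (-(3 * ι A) * X ^ 2 - 9 * ι B * X + ι A ^ 2) / (X ^ 3 + ι A * X + ι B) := by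
    have e1 : ((3 * X ^ 2 + 2 * 0 * X + ι A) / (2 * Y)) ^ 2
        = (3 * X ^ 2 + ι A) ^ 2 / (4 * (X ^ 3 + ι A * X + ι B)) := by
      rw [div_pow, mul_pow, hEE]
      congr 1
      · ring
      · ring
    have e2 : (3 * X ^ 2 + ι A) ^ 2 / (4 * (X ^ 3 + ι A * X + ι B))
        * (4 * (X ^ 3 + ι A * X + ι B)) = (3 * X ^ 2 + ι A) ^ 2 :=
      div_mul_cancel₀ _ (mul_ne_zero (by norm_num) hcub)
    rw [e1, eq_div_iff hcub]
    linear_combination e2
  rw [h1, map_div₀]
  have hden : V.valuation (X ^ 3 + ι A * X + ι B) = V.valuation X ^ 3 := by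
    rw [← hEE, map_pow, hvY]
  let p : Polynomial k := C (-(3 * A)) * Polynomial.X ^ 2 + C (-(9 * B)) * Polynomial.X + C (A ^ 2)
  have hp : p.natDegree ≤ 2 := by
    simp only [p]; compute_degree
  have hnum : V.valuation (-(3 * ι A) * X ^ 2 - 9 * ι B * X + ι A ^ 2) ≤ V.valuation X ^ 2 := by
    have := h.val_le p 2 hp
    refine le_trans (le_of_eq ?_) this
    congr 1
    simp only [p, map_add, map_mul, map_pow, map_neg, aeval_C, aeval_X, map_ofNat]
    ring
  rw [hden, div_lt_iff₀ (pow_pos (lt_trans zero_lt_one hX1) 3)]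
  calc _ ≤ V.valuation X ^ 2 := hnum
    _ < V.valuation X ^ 4 := pow_lt_pow_right₀ hX1 (by norm_num)
    _ = V.valuation X * V.valuation X ^ 3 := by rw [← pow_succ']

theorem AtInf.iterate {P : (cub 0 (algebraMap k N A) (algebraMap k N B)).Point} {X Y : N}
    (h : AtInf k V X) (hP : IsAt 0 _ _ P X Y) (n : ℕ) :
    ∃ X' Y', IsAt 0 (algebraMap k N A) (algebraMap k N B) (2 ^ n • P) X' Y' ∧
      V.valuation X' = V.valuation X ∧ V.valuation (4 ^ n * X' - X) < V.valuation X := by
  have hczN : CharZero N := charZero_of_injective_algebraMap (algebraMap k N).injective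
  have hX1 := h.one_lt
  have hX0 : 0 < V.valuation X := lt_trans zero_lt_one hX1
  have h4 : ∀ n : ℕ, V.valuation ((4 : N) ^ n) = 1 := by
    intro n
    have := h.val_const ((4 : k) ^ n) (pow_ne_zero n (by norm_num))
    rwa [map_pow, map_ofNat] at this
  induction n with
  | zero =>
    refine ⟨X, Y, by simpa using hP, rfl, ?_⟩
    rw [pow_zero, one_mul, sub_self, map_zero]
    exact hX0
  | succ n ih =>
    obtain ⟨X', Y', h1, h2, h3⟩ := ih
    have hA : AtInf k V X' := h.of_lt h2.ge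
    obtain ⟨X'', Y'', h5, h6⟩ := hA.double h1
    have h7 : V.valuation (4 ^ (n + 1) * X'' - X) < V.valuation X := by
      have e : (4 : N) ^ (n + 1) * X'' - X = 4 ^ n * (4 * X'' - X') + (4 ^ n * X' - X) := by ring
      rw [e]
      refine lt_of_le_of_lt (Valuation.map_add _ _ _) (max_lt ?_ h3)
      rw [map_mul, h4, one_mul, ← h2]
      exact h6
    refine ⟨X'', Y'', ?_, ?_, h7⟩
    · have : 2 ^ (n + 1) • P = 2 ^ n • P + 2 ^ n • P := by
        rw [pow_succ, mul_comm, mul_smul, two_smul]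
      rw [this]; exact h5
    · have e : (4 : N) ^ (n + 1) * X'' = (4 ^ (n + 1) * X'' - X) + X := by ring
      have h8 : V.valuation ((4 : N) ^ (n + 1) * X'') = V.valuation X := by
        rw [e, Valuation.map_add_eq_of_lt_right _ h7]
      rwa [map_mul, h4, one_mul] at h8

/-- A point whose abscissa has a pole at a place trivial on the constants has infinite order. -/
theorem AtInf.nontorsion {P : (cub 0 (algebraMap k N A) (algebraMap k N B)).Point} {X Y : N}
    (h : AtInf k V X) (hP : IsAt 0 _ _ P X Y) (n : ℕ) (hn : 0 < n) : n • P ≠ 0 := by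
  intro h0
  have hczN : CharZero N := charZero_of_injective_algebraMap (algebraMap k N).injective
  have hne : NeZero n := ⟨hn.ne'⟩
  obtain ⟨i, j, hij, hmod⟩ := Finite.exists_ne_map_eq_of_infinite
    (fun k : ℕ => ((2 ^ k : ℕ) : ZMod n))
  have heq : (2 ^ i) • P = (2 ^ j) • P := by
    have hm : 2 ^ i ≡ 2 ^ j [MOD n] := (ZMod.natCast_eq_natCast_iff _ _ _).mp hmod
    have key : ∀ m : ℕ, m • P = (m % n) • P := by
      intro m
      conv_lhs => rw [← Nat.div_add_mod m n]
      rw [add_smul, mul_comm, mul_smul, h0, smul_zero, zero_add]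
    rw [key (2 ^ i), key (2 ^ j), hm]
  obtain ⟨x1, y1, h1, n1, m1⟩ := h.iterate hP i
  obtain ⟨x2, y2, h2, n2, m2⟩ := h.iterate hP j
  rw [heq] at h1
  have hxx := (h1.unique h2).1
  subst hxx
  have e : (4 ^ i - 4 ^ j : N) * x1 = (4 ^ i * x1 - X) - (4 ^ j * x1 - X) := by ring
  have h3 : V.valuation ((4 ^ i - 4 ^ j : N) * x1) < V.valuation X := by
    rw [e]
    exact lt_of_le_of_lt (Valuation.map_sub _ _ _) (max_lt m1 m2)
  have h4 : V.valuation (4 ^ i - 4 ^ j : N) = 1 := by
    have hne' : (4 ^ i - 4 ^ j : k) ≠ 0 := by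
      rw [sub_ne_zero]
      intro h5
      have h6 : (4 : ℕ) ^ i = 4 ^ j := by exact_mod_cast h5
      exact hij (Nat.pow_right_injective (by norm_num) h6)
    have := h.val_const _ hne'
    rwa [map_sub, map_pow, map_pow, map_ofNat] at this
  rw [map_mul, h4, one_mul, n1] at h3
  exact lt_irrefl _ h3

end Pool.Agent.Helper15.WE
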