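import Pool.Agent.Helper15.WE10
import Pool.Agent.Helper15.WE11

/-!
# A point of infinite order on the descended curve
-/

namespace Pool.Agent.Helper15.WE

open Polynomial Curve LemR EC

universe u

variable {K E : Type*} {M : Type u} {Ω : Type*} [Field K] [Field E] [Field M] [Algebra K E]
  [Algebra K M] [Algebra E M] [IsScalarTower K E M] [Field Ω]
  [Algebra K Ω] [Algebra M Ω]
  {B₀ : IntermediateField K E} {C₀ : IntermediateField K M}
  {x y A B : M} {V : ValuationSubring Ω} {i₂ : M →ₐ[K] Ω}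

theorem exists_delta [CharZero K] [DecidableEq E] [IsGalois E M]
    (hdes : Descent B₀ C₀) (h : IsEll C₀ x y A B) (hu : Univ C₀ V i₂)
    (D : Derivation K M M) (hDC : ∀ c ∈ C₀, D c = 0) (hDx : D x = 2 * y) (e₀ : E)
    (he₀ : D (algebraMap E M e₀) ≠ 0) (a b : E)
    (hA : A = D (algebraMap E M e₀) ^ 4 * algebraMap E M a)
    (hB : B = D (algebraMap E M e₀) ^ 6 * algebraMap E M b) :
    (cub 0 a b).Δ ≠ 0 ∧ ∃ P : (cub 0 a b).Point, ∀ n : ℕ, 0 < n → n • P ≠ 0 := by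
  classical
  have hczE : CharZero E := charZero_of_injective_algebraMap (algebraMap K E).injective
  have hczM : CharZero M := charZero_of_injective_algebraMap (algebraMap K M).injective
  have hczΩ : CharZero Ω := charZero_of_injective_algebraMap (algebraMap K Ω).injective
  obtain ⟨X, Y, hd⟩ := h.exists_isDiff hu
  set κ := D (algebraMap E M e₀) with hκ
  set ι := algebraMap M Ω with hι
  have hdisc : 4 * a ^ 3 + 27 * b ^ 2 ≠ 0 := by
    intro h0
    apply h.disc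
    have h1 := congrArg (algebraMap E M) h0
    rw [map_add, map_mul, map_mul, map_pow, map_pow, map_ofNat, map_ofNat, map_zero] at h1
    rw [hA, hB]
    linear_combination κ ^ 12 * h1
  have hΔ : (cub 0 a b).Δ ≠ 0 := disc_iff two_ne_zero _ _ hdisc
  refine ⟨hΔ, ?_⟩
  -- the finite Galois extension
  let Mf : FiniteGaloisIntermediateField E M :=
    FiniteGaloisIntermediateField.adjoin E {x / κ ^ 2, y / κ ^ 3}
  have hMx : x / κ ^ 2 ∈ Mf.toIntermediateField :=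
    FiniteGaloisIntermediateField.subset_adjoin E _ (by simp)
  have hMy : y / κ ^ 3 ∈ Mf.toIntermediateField :=
    FiniteGaloisIntermediateField.subset_adjoin E _ (by simp)
  let M' : IntermediateField E M := Mf.toIntermediateField
  have hfin : FiniteDimensional E M' := Mf.finiteDimensional
  have hgal : IsGalois E M' := Mf.isGalois
  let x₁ : M' := ⟨x / κ ^ 2, hMx⟩
  let y₁ : M' := ⟨y / κ ^ 3, hMy⟩
  set a' : M' := algebraMap E M' a with ha'
  set b' : M' := algebraMap E M' b with hb'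
  have hczM' : CharZero M' := charZero_of_injective_algebraMap (algebraMap E M').injective
  have hΔ' : (cub 0 a' b').Δ ≠ 0 := by
    have h1 := (map_ne_zero (algebraMap E M')).mpr hdisc
    apply disc_iff two_ne_zero
    rwa [map_add, map_mul, map_mul, map_pow, map_pow, map_ofNat, map_ofNat] at h1
  have hΔM : (cub 0 A B).Δ ≠ 0 := disc_iff two_ne_zero _ _ h.disc
  have hEq : y₁ ^ 2 = x₁ ^ 3 + 0 * x₁ ^ 2 + a' * x₁ + b' := by
    apply Subtype.ext
    show (y / κ ^ 3) ^ 2 = (x / κ ^ 2) ^ 3 + 0 * (x / κ ^ 2) ^ 2 + algebraMap E M a * (x / κ ^ 2)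
      + algebraMap E M b
    have h1 := h.eqn
    rw [hA, hB] at h1
    rw [div_pow, h1]
    field_simp
    ring
  let p : (cub 0 a' b').Point := .some x₁ y₁ (cub_nonsingular _ _ _ _ _ hΔ' hEq)
  have hp : IsAt 0 a' b' p x₁ y₁ := ⟨_, rfl⟩
  -- the action of the Galois group
  have hg : ∀ g : M' ≃ₐ[E] M', ∃ f : (cub 0 a' b').Point →+ (cub 0 a' b').Point,
      ∀ P x y, IsAt 0 a' b' P x y → IsAt 0 a' b' (f P) (g x) (g y) := by
    intro g
    obtain ⟨f, hf⟩ := exists_mapPt (g : M' →+* M') 1 one_ne_zero a' b' a' b'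
      (by rw [one_pow, one_mul]; exact (g.commutes a).symm)
      (by rw [one_pow, one_mul]; exact (g.commutes b).symm) two_ne_zero hΔ'
    refine ⟨f, fun P x y hP => ?_⟩
    have := hf P x y hP
    rwa [one_pow, one_mul, one_pow, one_mul] at this
  choose f hf using hg
  have hcomp : ∀ g g' : M' ≃ₐ[E] M', f g (f g' p) = f (g * g') p := by
    intro g g'
    exact (hf g _ _ _ (hf g' _ _ _ hp)).eq_of_isAt (hf (g * g') _ _ _ hp)
  let δ : (cub 0 a' b').Point := ∑ g : M' ≃ₐ[E] M', f g p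
  have hδ : ∀ g, f g δ = δ := by
    intro g
    show f g (∑ g' : M' ≃ₐ[E] M', f g' p) = _
    rw [map_sum]
    simp only [hcomp]
    exact Equiv.sum_comp (Equiv.mulLeft g) (fun g' => f g' p)
  -- infinite order
  obtain ⟨hΔΩ, P₁, P₂, hP₁, hP₂⟩ := exists_points h hu
  obtain ⟨θ, hθ⟩ := exists_mapPt (algebraMap M' M) κ he₀ a' b' A B hA hB two_ne_zero hΔM
  obtain ⟨J₂, hJ₂⟩ := exists_mapPt (i₂ : M →+* Ω) 1 one_ne_zero A B (ι A) (ι B)
    (by rw [one_pow, one_mul]; exact (hu.fixC _ h.memA).symm)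
    (by rw [one_pow, one_mul]; exact (hu.fixC _ h.memB).symm) two_ne_zero hΔΩ
  obtain ⟨J₁, hJ₁⟩ := exists_mapPt ι 1 one_ne_zero A B (ι A) (ι B)
    (by rw [one_pow, one_mul]) (by rw [one_pow, one_mul]) two_ne_zero hΔΩ
  have hQ := hd.isAt P₁ P₂ hP₁ hP₂
  have hR : ∀ g : M' ≃ₐ[E] M', J₂ (θ (f g p)) - J₁ (θ (f g p)) = P₂ - P₁ := by
    intro g
    let γ : M ≃ₐ[E] M := g.liftNormal M
    have hγ : ∀ z : M', γ (z : M) = (g z : M) := fun z => AlgEquiv.liftNormal_commutes g M z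
    obtain ⟨u, huC, hu0, hγA, hγB, hγD, h', hd'⟩ := scale hdes h hu hd D hDC hDx γ
    have hγκ : γ κ = u * κ := hγD e₀
    have hιu : ι u ≠ 0 := (map_ne_zero ι).mpr hu0
    have hi₂u : i₂ u = ι u := hu.fixC u huC
    obtain ⟨-, P₁', P₂', hP₁', hP₂'⟩ := exists_points h' hu
    have hQ' := hd'.isAt P₁' P₂' hP₁' hP₂'
    have hgx : ((g x₁ : M') : M) = γ x / (u * κ) ^ 2 := by
      rw [← hγ]
      show γ (x / κ ^ 2) = _
      rw [map_div₀, map_pow, hγκ]
    have hgy : ((g y₁ : M') : M) = γ y / (u * κ) ^ 3 := by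
      rw [← hγ]
      show γ (y / κ ^ 3) = _
      rw [map_div₀, map_pow, hγκ]
    have hθp := hθ _ _ _ (hf g _ _ _ hp)
    have e1 : κ ^ 2 * algebraMap M' M (g x₁) = γ x / u ^ 2 := by
      show κ ^ 2 * ((g x₁ : M') : M) = _
      rw [hgx]; field_simp
    have e2 : κ ^ 3 * algebraMap M' M (g y₁) = γ y / u ^ 3 := by
      show κ ^ 3 * ((g y₁ : M') : M) = _
      rw [hgy]; field_simp
    rw [e1, e2] at hθp
    obtain ⟨S, hS⟩ := exists_mapPt (RingHom.id Ω) (ι u)⁻¹ (inv_ne_zero hιu) (ι (γ A)) (ι (γ B))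
      (ι A) (ι B) (by rw [hγA, map_mul, map_pow, RingHom.id_apply]; field_simp)
      (by rw [hγB, map_mul, map_pow, RingHom.id_apply]; field_simp) two_ne_zero hΔΩ
    have s1 : S P₁' = J₁ (θ (f g p)) := by
      have h1 := hS _ _ _ hP₁'
      have h2 := hJ₁ _ _ _ hθp
      have e3 : (ι u)⁻¹ ^ 2 * (RingHom.id Ω) (ι (γ x)) = 1 ^ 2 * ι (γ x / u ^ 2) := by
        rw [map_div₀, map_pow, RingHom.id_apply]; field_simp
      have e4 : (ι u)⁻¹ ^ 3 * (RingHom.id Ω) (ι (γ y)) = 1 ^ 3 * ι (γ y / u ^ 3) := by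
        rw [map_div₀, map_pow, RingHom.id_apply]; field_simp
      rw [e3, e4] at h1
      exact h1.eq_of_isAt h2
    have s2 : S P₂' = J₂ (θ (f g p)) := by
      have h1 := hS _ _ _ hP₂'
      have h2 := hJ₂ _ _ _ hθp
      have e3 : (ι u)⁻¹ ^ 2 * (RingHom.id Ω) (i₂ (γ x)) = 1 ^ 2 * (i₂ : M →+* Ω) (γ x / u ^ 2) := by
        rw [map_div₀, map_pow, RingHom.id_apply, RingHom.coe_coe, hi₂u]; field_simp
      have e4 : (ι u)⁻¹ ^ 3 * (RingHom.id Ω) (i₂ (γ y)) = 1 ^ 3 * (i₂ : M →+* Ω) (γ y / u ^ 3) := by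
        rw [map_div₀, map_pow, RingHom.id_apply, RingHom.coe_coe, hi₂u]; field_simp
      rw [e3, e4] at h1
      exact h1.eq_of_isAt h2
    have s3 : S (P₂' - P₁') = P₂ - P₁ := by
      have h1 := hS _ _ _ hQ'
      have e3 : (ι u)⁻¹ ^ 2 * (RingHom.id Ω) (ι u ^ 2 * X) = X := by
        rw [RingHom.id_apply]; field_simp
      have e4 : (ι u)⁻¹ ^ 3 * (RingHom.id Ω) (ι u ^ 3 * Y) = Y := by
        rw [RingHom.id_apply]; field_simp
      rw [e3, e4] at h1
      exact h1.eq_of_isAt hQ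
    rw [← s3, map_sub, s1, s2]
  have hsum : J₂ (θ δ) - J₁ (θ δ) = Fintype.card (M' ≃ₐ[E] M') • (P₂ - P₁) := by
    show J₂ (θ (∑ g, f g p)) - J₁ (θ (∑ g, f g p)) = _
    rw [map_sum, map_sum, map_sum, ← Finset.sum_sub_distrib]
    rw [Finset.sum_congr rfl (fun g _ => hR g), Finset.sum_const, Finset.card_univ]
  have hord : ∀ n : ℕ, 0 < n → n • δ ≠ 0 := by
    intro n hn h0
    have h1 : (n * Fintype.card (M' ≃ₐ[E] M')) • (P₂ - P₁) = 0 := by
      rw [mul_smul, ← hsum, smul_sub, ← map_nsmul, ← map_nsmul, ← map_nsmul, ← map_nsmul, h0,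
        map_zero, map_zero, map_zero, sub_zero]
    exact hd.atInf.nontorsion hQ _ (Nat.mul_pos hn Fintype.card_pos) h1
  have hδ0 : δ ≠ 0 := by
    have := hord 1 one_pos
    rwa [one_smul] at this
  -- the coordinates of `δ` lie in `E`
  obtain ⟨xδ, yδ, hδat⟩ := exists_isAt hδ0
  have hfix : ∀ g : M' ≃ₐ[E] M', g xδ = xδ ∧ g yδ = yδ := by
    intro g
    have h1 := hf g _ _ _ hδat
    rw [hδ g] at h1
    obtain ⟨h2, h3⟩ := hδat.unique h1
    exact ⟨h2.symm, h3.symm⟩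
  obtain ⟨X₀, hX₀⟩ := (IsGalois.mem_range_algebraMap_iff_fixed xδ).mpr fun g => (hfix g).1
  obtain ⟨Y₀, hY₀⟩ := (IsGalois.mem_range_algebraMap_iff_fixed yδ).mpr fun g => (hfix g).2
  have hE0 : Y₀ ^ 2 = X₀ ^ 3 + 0 * X₀ ^ 2 + a * X₀ + b := by
    apply (algebraMap E M').injective
    have h1 := hδat.eq
    rw [← hX₀, ← hY₀] at h1
    simp only [map_pow, map_add, map_mul, map_zero]
    exact h1
  obtain ⟨T, hT⟩ := exists_mapPt (algebraMap E M') 1 one_ne_zero a b a' b'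
    (by rw [one_pow, one_mul]) (by rw [one_pow, one_mul]) two_ne_zero hΔ'
  let P : (cub 0 a b).Point := .some X₀ Y₀ (cub_nonsingular _ _ _ _ _ hΔ hE0)
  have hTP : T P = δ := by
    have h1 := hT P X₀ Y₀ ⟨_, rfl⟩
    rw [one_pow, one_mul, one_pow, one_mul, hX₀, hY₀] at h1
    exact h1.eq_of_isAt hδat
  refine ⟨P, fun n hn h0 => hord n hn ?_⟩
  rw [← hTP, ← map_nsmul, h0, map_zero]

end Pool.Agent.Helper15.WE
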