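import Pool.Agent.Helper15.WE12

/-!
# Existence of the universal point
-/

namespace Pool.Agent.Helper15.WE

open Polynomial Curve LemR EC

universe u

/-- An algebraic closure of the rational function field. -/
theorem exists_closure (M : Type u) [Field M] :
    ∃ (Ω : Type u) (_ : Field Ω) (_ : Algebra M Ω) (t : Ω), IsAlgClosed Ω ∧ Transcendental M t ∧
      ∀ z : Ω, IsAlgebraic (IntermediateField.adjoin M {t}) z := by
  let R := RatFunc M
  let Ω := AlgebraicClosure R
  let t : Ω := algebraMap R Ω RatFunc.X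
  refine ⟨Ω, inferInstance, inferInstance, t, inferInstance, ?_, ?_⟩
  · have h1 : Transcendental M (RatFunc.X : RatFunc M) := by
      rintro ⟨p, hp, hpX⟩
      apply hp
      have h2 : algebraMap (Polynomial M) (RatFunc M) p = 0 := by
        rw [← hpX]
        conv_lhs => rw [← Polynomial.aeval_X_left_apply p]
        rw [← Polynomial.aeval_algebraMap_apply, RatFunc.algebraMap_X]
      exact (IsFractionRing.to_map_eq_zero_iff).mp h2
    intro h2
    exact h1 ((isAlgebraic_algebraMap_iff (algebraMap R Ω).injective).mp h2)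
  · intro z
    have h1 : IsAlgebraic R z := Algebra.IsAlgebraic.isAlgebraic z
    obtain ⟨p, hp, hpz⟩ := h1
    have hmem : ∀ r : R, algebraMap R Ω r ∈ IntermediateField.adjoin M {t} := by
      intro r
      induction r using RatFunc.induction_on with
      | f a b hb =>
        rw [map_div₀]
        have key : ∀ a : Polynomial M,
            algebraMap R Ω (algebraMap (Polynomial M) R a) ∈ IntermediateField.adjoin M {t} := by
          intro a
          have h2 : algebraMap R Ω (algebraMap (Polynomial M) R a) = aeval t a := by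
            conv_lhs => rw [← Polynomial.aeval_X_left_apply a]
            rw [← Polynomial.aeval_algebraMap_apply, ← Polynomial.aeval_algebraMap_apply,
              RatFunc.algebraMap_X]
          rw [h2]
          exact IntermediateField.algebra_adjoin_le_adjoin M {t}
            (Polynomial.aeval_mem_adjoin_singleton M t)
        exact div_mem (key a) (key b)
    let f : R →+* IntermediateField.adjoin M {t} :=
      (algebraMap R Ω).codRestrict (IntermediateField.adjoin M {t}).toSubring hmem
    refine ⟨p.map f, (Polynomial.map_ne_zero_iff f.injective).mpr hp, ?_⟩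
    rw [aeval_def, eval₂_map]
    exact hpz

variable {K : Type*} {M : Type u} [Field K] [Field M] [Algebra K M]
  {C₀ : IntermediateField K M} {x y A B : M}

theorem exists_univ [CharZero K] (h : IsEll C₀ x y A B) :
    ∃ (Ω : Type u) (_ : Field Ω) (_ : Algebra K Ω) (_ : Algebra M Ω) (_ : IsScalarTower K M Ω)
      (V : ValuationSubring Ω) (i₂ : M →ₐ[K] Ω), IsAlgClosed Ω ∧ Univ C₀ V i₂ ∧
      ∀ z : Ω, IsAlgebraic (IntermediateField.adjoin M {i₂ x}) z := by
  obtain ⟨Ω, iF, iA, t, hcl, ht, halg⟩ := exists_closure M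
  let _ : Algebra K Ω := ((algebraMap M Ω).comp (algebraMap K M)).toAlgebra
  have hst : IsScalarTower K M Ω := IsScalarTower.of_algebraMap_eq fun _ => rfl
  let σ : C₀ →ₐ[K] Ω := (IsScalarTower.toAlgHom K M Ω).comp C₀.val
  set q := cubic (⟨A, h.memA⟩ : C₀) ⟨B, h.memB⟩ with hq
  obtain ⟨y', hy'⟩ := IsAlgClosed.exists_pow_nat_eq (q.eval₂ (σ : C₀ →+* Ω) t) (n := 2)
    (by norm_num)
  have ht' : ∀ f : Polynomial C₀, f.eval₂ (σ : C₀ →+* Ω) t = 0 → f = 0 := by
    intro f hf
    by_contra hne
    apply ht
    refine ⟨f.map (algebraMap C₀ M), (Polynomial.map_ne_zero_iff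
      (algebraMap C₀ M).injective).mpr hne, ?_⟩
    rw [aeval_def, eval₂_map]
    exact hf
  obtain ⟨i₂, hi₂C, hi₂x, -⟩ := h.isQuartic.exists_embedding σ t y' ht' hy'
  have htx : Transcendental M (i₂ x) := by rw [hi₂x]; exact ht
  have hfix : ∀ c ∈ C₀, i₂ c = algebraMap M Ω c := fun c hc => hi₂C ⟨c, hc⟩
  obtain ⟨V, hV1, hV2⟩ := exists_place h.isQuartic i₂ hfix htx
  refine ⟨Ω, iF, inferInstance, iA, hst, V, i₂, hcl, ⟨hV1, hV2, hfix, ?_⟩, ?_⟩
  · exact fun m hm => fixed_mem h.isQuartic i₂ hfix htx m hm
  · rw [hi₂x]; exact halg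

end Pool.Agent.Helper15.WE
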