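import Pool.Agent.Helper15.WE13

/-!
# The Weierstrass data of a genus one fibration
-/

namespace Pool.Agent.Helper15.WE

open Polynomial Curve LemR EC

universe u

/-- The Weierstrass model over `E` of the fibre through the generic point: `j` is the generic
point of the fibre. -/
structure WData {K E : Type*} [Field K] [Field E] [Algebra K E] (B₀ : IntermediateField K E)
    (DE : Derivation K E E) {Ω : Type*} [Field Ω] [Algebra E Ω] (V : ValuationSubring Ω)
    (X₁ Y₁ : Ω) (j : E →+* Ω) (a b : E) : Prop where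
  atInf : AtInf E V X₁
  eqn : Y₁ ^ 2 = aeval X₁ (cubic a b)
  fixB : ∀ c ∈ B₀, j c = algebraMap E Ω c
  rep : ∀ e, IsRep E X₁ Y₁ (j e)
  res : ∀ e, V.valuation ((j e - algebraMap E Ω e) * (Y₁ / X₁) + algebraMap E Ω (DE e)) < 1

theorem isGalois_adjoin {E M Ω : Type*} [Field E] [Field M] [Field Ω] [Algebra E M] [Algebra E Ω]
    [Algebra M Ω] [IsScalarTower E M Ω] [CharZero Ω] [IsAlgClosed Ω] [Algebra.IsAlgebraic E M]
    (X₁ Y₁ t : Ω) (ht : t ∈ IntermediateField.adjoin M {X₁, Y₁})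
    (halg : ∀ z : Ω, IsAlgebraic (IntermediateField.adjoin M {t}) z) :
    IsGalois (IntermediateField.adjoin E {X₁, Y₁}) Ω := by
  set F₁ := IntermediateField.adjoin E {X₁, Y₁} with hF₁
  -- the relative algebraic closure
  let L : IntermediateField F₁ Ω := algebraicClosure F₁ Ω
  have hL : ∀ z : Ω, z ∈ L ↔ IsAlgebraic F₁ z := fun z => mem_algebraicClosure_iff
  have hM : ∀ m : M, algebraMap M Ω m ∈ L := by
    intro m
    rw [hL]
    have h1 : IsAlgebraic E m := Algebra.IsAlgebraic.isAlgebraic m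
    have h2 : IsAlgebraic E (algebraMap M Ω m) := h1.algebraMap
    exact h2.tower_top F₁
  let L' : IntermediateField M Ω :=
    { L.toSubfield with
      algebraMap_mem' := hM }
  have hX₁ : X₁ ∈ L' := by
    show X₁ ∈ L
    rw [hL]
    exact isAlgebraic_algebraMap (⟨X₁, IntermediateField.subset_adjoin _ _ (by simp)⟩ : F₁)
  have hY₁ : Y₁ ∈ L' := by
    show Y₁ ∈ L
    rw [hL]
    exact isAlgebraic_algebraMap (⟨Y₁, IntermediateField.subset_adjoin _ _ (by simp)⟩ : F₁)
  have h1 : IntermediateField.adjoin M {X₁, Y₁} ≤ L' := by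
    rw [IntermediateField.adjoin_le_iff]
    rintro z (rfl | hz)
    · exact hX₁
    · rw [Set.mem_singleton_iff] at hz
      rw [hz]; exact hY₁
  have h2 : IntermediateField.adjoin M {t} ≤ L' := by
    rw [IntermediateField.adjoin_le_iff]
    rintro z hz
    rw [Set.mem_singleton_iff] at hz
    rw [hz]; exact h1 ht
  have halgF : ∀ z : Ω, IsAlgebraic F₁ z := by
    intro z
    obtain ⟨p, hp, hpz⟩ := halg z
    let f : IntermediateField.adjoin M {t} →+* L :=
      (algebraMap (IntermediateField.adjoin M {t}) Ω).codRestrict L.toSubring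
        (fun w => h2 w.2)
    have h3 : IsAlgebraic L z := by
      refine ⟨p.map f, (Polynomial.map_ne_zero_iff f.injective).mpr hp, ?_⟩
      rw [aeval_def, eval₂_map]
      exact hpz
    exact h3.restrictScalars F₁
  have : Algebra.IsAlgebraic F₁ Ω := ⟨halgF⟩
  have hczF : CharZero F₁ := by
    refine charZero_of_injective_algebraMap (R := ℚ) (A := F₁) (algebraMap ℚ F₁).injective
  have hcl : IsAlgClosure F₁ Ω := ⟨inferInstance, inferInstance⟩
  have : Normal F₁ Ω := IsAlgClosure.normal F₁ Ω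
  exact ⟨⟩

variable {K E : Type*} {M : Type u} [Field K] [Field E] [Field M] [Algebra K E]
  [Algebra K M] [Algebra E M] [IsScalarTower K E M]
  {B₀ : IntermediateField K E} {C₀ : IntermediateField K M} {x y A B : M}

theorem exists_wdata [CharZero K] [DecidableEq E] [IsGalois E M] (hdes : Descent B₀ C₀)
    (h : IsEll C₀ x y A B) :
    ∃ (DE : Derivation K E E) (e₀ a b : E) (Ω : Type u) (_ : Field Ω) (_ : Algebra E Ω)
      (V : ValuationSubring Ω) (X₁ Y₁ : Ω) (j : E →+* Ω), WData B₀ DE V X₁ Y₁ j a b ∧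
      (∀ e, DE e = 0 ↔ e ∈ B₀) ∧ DE e₀ = 1 ∧ (cub 0 a b).Δ ≠ 0 ∧
      ∃ P : (cub 0 a b).Point, ∀ n : ℕ, 0 < n → n • P ≠ 0 := by
  classical
  have hczE : CharZero E := charZero_of_injective_algebraMap (algebraMap K E).injective
  have hczM : CharZero M := charZero_of_injective_algebraMap (algebraMap K M).injective
  obtain ⟨D₀, hD₀x, hD₀C, -⟩ := h.isQuartic.exists_der
  let D : Derivation K M M := (2 * y) • D₀
  have hDx : D x = 2 * y := by
    show (2 * y) • D₀ x = _
    rw [hD₀x, smul_eq_mul, mul_one]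
  have hDC : ∀ m, D m = 0 ↔ m ∈ C₀ := by
    intro m
    rw [← hD₀C]
    show (2 * y) • D₀ m = 0 ↔ _
    rw [smul_eq_mul, mul_eq_zero, or_iff_right (mul_ne_zero two_ne_zero h.y_ne_zero)]
  -- an element of `E` that is not constant
  obtain ⟨e₀, he₀⟩ : ∃ e₀ : E, D (algebraMap E M e₀) ≠ 0 := by
    by_contra hcon
    push Not at hcon
    apply h.notMem
    apply h.isQuartic.mem_of_isAlgebraic
    obtain ⟨p, hp, hpx⟩ : IsAlgebraic E x := Algebra.IsAlgebraic.isAlgebraic x
    let f : E →+* C₀ := (algebraMap E M).codRestrict C₀.toSubring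
      (fun e => (hDC _).mp (hcon e))
    refine ⟨p.map f, (Polynomial.map_ne_zero_iff f.injective).mpr hp, ?_⟩
    rw [aeval_def, eval₂_map]
    exact hpx
  obtain ⟨Ω, iF, iK, iM, iT, V, i₂, hcl, hu, halg⟩ := exists_univ h
  have hczΩ : CharZero Ω := charZero_of_injective_algebraMap (algebraMap K Ω).injective
  let iE : Algebra E Ω := ((algebraMap M Ω).comp (algebraMap E M)).toAlgebra
  have hst : IsScalarTower E M Ω := IsScalarTower.of_algebraMap_eq fun _ => rfl
  obtain ⟨X, Y, hd⟩ := h.exists_isDiff hu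
  obtain ⟨DE, a, b, hDE, hA, hB, hDE0, hDE1⟩ := exists_descent hdes h hu hd D hDC hDx e₀ he₀
  have hDC' : ∀ c ∈ C₀, D c = 0 := fun c hc => (hDC c).mpr hc
  obtain ⟨hΔ, P, hP⟩ := exists_delta hdes h hu D hDC' hDx e₀ he₀ a b hA hB
  set κ := D (algebraMap E M e₀) with hκ
  set ι := algebraMap M Ω with hι
  have hικ : ι κ ≠ 0 := (_root_.map_ne_zero ι).mpr he₀
  have hvκ : V.valuation (ι κ) = 1 := hu.val_one κ he₀
  have hX0 : X ≠ 0 := by
    intro h0
    exact hd.atInf.notMem (h0 ▸ zero_mem _)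
  let X₁ : Ω := X / ι κ ^ 2
  let Y₁ : Ω := Y / ι κ ^ 3
  have eX : ι κ ^ 2 * X₁ = X := by
    show ι κ ^ 2 * (X / ι κ ^ 2) = X
    field_simp
  have eY : ι κ ^ 3 * Y₁ = Y := by
    show ι κ ^ 3 * (Y / ι κ ^ 3) = Y
    field_simp
  have hd' : IsDiff V i₂ x y A B (ι κ ^ 2 * X₁) (ι κ ^ 3 * Y₁) := by
    rw [eX, eY]; exact hd
  have hadjle : IntermediateField.adjoin M {X, Y} ≤ IntermediateField.adjoin M {X₁, Y₁} := by
    rw [IntermediateField.adjoin_le_iff]
    have hX₁m : X₁ ∈ IntermediateField.adjoin M {X₁, Y₁} :=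
      IntermediateField.subset_adjoin _ _ (by simp)
    have hY₁m : Y₁ ∈ IntermediateField.adjoin M {X₁, Y₁} :=
      IntermediateField.subset_adjoin _ _ (by simp)
    have hκm : ι κ ∈ IntermediateField.adjoin M {X₁, Y₁} := IntermediateField.algebraMap_mem _ _
    rintro z (rfl | hz)
    · rw [← eX]; exact mul_mem (pow_mem hκm 2) hX₁m
    · rw [Set.mem_singleton_iff] at hz
      rw [hz, ← eY]; exact mul_mem (pow_mem hκm 3) hY₁m
  have hgal : IsGalois (IntermediateField.adjoin E {X₁, Y₁}) Ω := by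
    refine isGalois_adjoin (M := M) X₁ Y₁ (i₂ x) (hadjle ?_) halg
    rw [hd.adj]
    exact IntermediateField.subset_adjoin _ _ ⟨x, rfl⟩
  have hmem : ∀ e : E, i₂ (algebraMap E M e) ∈ IntermediateField.adjoin E {X₁, Y₁} := fun e =>
    mem_adjoin_pair hdes h hu D hDC' hDx e₀ hd' hgal e
  have hvX₁ : V.valuation X₁ = V.valuation X := by
    rw [← eX, map_mul, map_pow, hvκ, one_pow, one_mul]
  have hAt : AtInf E V X₁ := by
    refine ⟨fun e => (V.valuation_le_one_iff _).mp (hu.le_one (algebraMap E M e)), fun hmem => ?_⟩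
    have h1 := (V.valuation_le_one_iff _).mpr hmem
    rw [hvX₁] at h1
    exact absurd h1 (not_le.mpr hd.atInf.one_lt)
  have hE1 : Y₁ ^ 2 = aeval X₁ (cubic a b) := by
    have h1 := hd.eqn
    rw [aeval_cubic, ← eX, ← eY, hA, hB] at h1
    rw [aeval_cubic]
    have ea : algebraMap E Ω a = ι (algebraMap E M a) := rfl
    have eb : algebraMap E Ω b = ι (algebraMap E M b) := rfl
    rw [ea, eb]
    apply mul_left_cancel₀ (pow_ne_zero 6 hικ)
    simp only [map_mul, map_pow] at h1
    rw [← hι] at h1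
    linear_combination h1
  refine ⟨DE, e₀, a, b, Ω, iF, iE, V, X₁, Y₁, (i₂ : M →+* Ω).comp (algebraMap E M),
    ⟨hAt, hE1, ?_, ?_, ?_⟩, hDE0, hDE1, hΔ, P, hP⟩
  · intro c hc
    exact hu.fixC _ ((hdes.mem_iff c).mpr hc)
  · intro e
    exact isRep_of_mem_adjoin hAt hE1 _ (hmem e)
  · intro e
    have h1 := residue h hu hd.atInf hd.eqn hd.x_eq D hDC' hDx (algebraMap E M e)
    have h2 : (i₂ (algebraMap E M e) - ι (algebraMap E M e)) * (Y / X)
        + ι (D (algebraMap E M e))
        = ι κ * ((i₂ (algebraMap E M e) - ι (algebraMap E M e)) * (Y₁ / X₁)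
          + ι (algebraMap E M (DE e))) := by
      rw [hDE, map_mul]
      have h3 : Y / X = ι κ * (Y₁ / X₁) := by
        rw [← eX, ← eY]
        have hX₁0 : X₁ ≠ 0 := div_ne_zero hX0 (pow_ne_zero 2 hικ)
        field_simp
      rw [h3]
      ring
    rw [h2, map_mul, hvκ, one_mul] at h1
    exact h1

end Pool.Agent.Helper15.WE
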