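import Pool.Agent.Helper15.WE14

/-!
# Pole orders and limits
-/

namespace Pool.Agent.Helper15.WE

open Polynomial Filter Topology

/-- The limit of `p(X) / X ^ n` for large `X`. -/
theorem tendsto_eval_mul {Ω : Type*} [NormedField Ω] (p : Polynomial Ω) (n : ℕ)
    (hn : p.natDegree ≤ n) (X : ℕ → Ω) (hX0 : ∀ k, X k ≠ 0)
    (ht : Tendsto (fun k => (X k)⁻¹) atTop (𝓝 0)) :
    Tendsto (fun k => p.eval (X k) * (X k)⁻¹ ^ n) atTop (𝓝 (p.coeff n)) := by
  have h1 : ∀ k, p.eval (X k) * (X k)⁻¹ ^ n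
      = ∑ i ∈ Finset.range (n + 1), p.coeff i * (X k)⁻¹ ^ (n - i) := by
    intro k
    rw [eval_eq_sum_range' (n := n + 1) (by omega), Finset.sum_mul]
    refine Finset.sum_congr rfl fun i hi => ?_
    have hi' : i ≤ n := by
      rw [Finset.mem_range] at hi; omega
    have h2 : (X k)⁻¹ ^ n = (X k)⁻¹ ^ (n - i) * (X k)⁻¹ ^ i := by
      rw [← pow_add, Nat.sub_add_cancel hi']
    rw [h2]
    have h3 : X k ^ i * (X k)⁻¹ ^ i = 1 := by
      rw [← mul_pow, mul_inv_cancel₀ (hX0 k), one_pow]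
    calc p.coeff i * X k ^ i * ((X k)⁻¹ ^ (n - i) * (X k)⁻¹ ^ i)
        = p.coeff i * (X k)⁻¹ ^ (n - i) * (X k ^ i * (X k)⁻¹ ^ i) := by ring
      _ = _ := by rw [h3, mul_one]
  simp only [h1]
  have h2 : p.coeff n = ∑ i ∈ Finset.range (n + 1), p.coeff i * (0 : Ω) ^ (n - i) := by
    rw [Finset.sum_eq_single n]
    · rw [Nat.sub_self, pow_zero, mul_one]
    · intro i hi hin
      have : n - i ≠ 0 := by
        rw [Finset.mem_range] at hi; omega
      rw [zero_pow this, mul_zero]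
    · intro h; simp at h
  rw [h2]
  exact tendsto_finsetSum _ fun i _ => (ht.pow (n - i)).const_mul _

/-- The limit of a function on the Weierstrass curve with a zero at infinity. -/
theorem tendsto_quot {Ω : Type*} [NormedField Ω] (a b : Ω) (p q v : Polynomial Ω) (n : ℕ)
    (hp : p.natDegree ≤ n) (hq : q = 0 ∨ q.natDegree + 1 ≤ n) (hv : v.natDegree ≤ n)
    (hlc : v.coeff n ≠ 0) (X Y : ℕ → Ω) (hX0 : ∀ k, X k ≠ 0)
    (ht : Tendsto (fun k => (X k)⁻¹) atTop (𝓝 0))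
    (hE : ∀ k, Y k ^ 2 = X k ^ 3 + a * X k + b) :
    Tendsto (fun k => (p.eval (X k) + q.eval (X k) * Y k) / (X k * v.eval (X k))) atTop (𝓝 0) := by
  have hY : Tendsto (fun k => Y k * (X k)⁻¹ ^ 2) atTop (𝓝 0) := by
    have h1 : Tendsto (fun k => (Y k * (X k)⁻¹ ^ 2) ^ 2) atTop (𝓝 0) := by
      have h2 : ∀ k, (Y k * (X k)⁻¹ ^ 2) ^ 2
          = (X k)⁻¹ + a * (X k)⁻¹ ^ 3 + b * (X k)⁻¹ ^ 4 := by
        intro k
        have := hX0 k
        rw [mul_pow, hE]
        field_simp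
      simp only [h2]
      have h3 := ((ht.add ((ht.pow 3).const_mul a)).add ((ht.pow 4).const_mul b))
      simpa using h3
    rw [tendsto_zero_iff_norm_tendsto_zero] at h1 ⊢
    have h4 := h1.sqrt
    rw [Real.sqrt_zero] at h4
    refine h4.congr fun k => ?_
    rw [norm_pow, Real.sqrt_sq (norm_nonneg _)]
  have h1 := tendsto_eval_mul p n hp X hX0 ht
  have h3 := tendsto_eval_mul v n hv X hX0 ht
  have hev : ∀ᶠ k in atTop, v.eval (X k) ≠ 0 := by
    have h5 := h3.eventually_ne hlc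
    filter_upwards [h5] with k hk h0
    apply hk
    rw [h0, zero_mul]
  rcases hq with rfl | hq
  · have h4 : Tendsto (fun k => (p.eval (X k) * (X k)⁻¹ ^ n * (X k)⁻¹)
        / (v.eval (X k) * (X k)⁻¹ ^ n)) atTop (𝓝 ((p.coeff n * 0) / v.coeff n)) :=
      (h1.mul ht).div h3 hlc
    rw [mul_zero, zero_div] at h4
    refine h4.congr' ?_
    filter_upwards [hev] with k hk
    have hX := hX0 k
    simp only [eval_zero, zero_mul, add_zero]
    field_simp
  · have h2 := tendsto_eval_mul q (n - 1) (by omega) X hX0 ht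
    have h4 : Tendsto (fun k => (p.eval (X k) * (X k)⁻¹ ^ n * (X k)⁻¹
        + q.eval (X k) * (X k)⁻¹ ^ (n - 1) * (Y k * (X k)⁻¹ ^ 2))
        / (v.eval (X k) * (X k)⁻¹ ^ n)) atTop
        (𝓝 ((p.coeff n * 0 + q.coeff (n - 1) * 0) / v.coeff n)) :=
      ((h1.mul ht).add (h2.mul hY)).div h3 hlc
    rw [mul_zero, mul_zero, add_zero, zero_div] at h4
    refine h4.congr' ?_
    filter_upwards [hev] with k hk
    have hX := hX0 k
    have hn : (X k)⁻¹ ^ n = (X k)⁻¹ ^ (n - 1) * (X k)⁻¹ := by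
      rw [← pow_succ]
      congr 1
      omega
    rw [hn]
    field_simp

end Pool.Agent.Helper15.WE
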