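import Pool.Agent.Helper15.WE15
import Pool.Agent.Helper15.SupplyQ

/-!
# Points near the generic point of a genus one fibration
-/

namespace Pool.Agent.Helper15.WE

open Polynomial Curve LemR EC Filter Topology Engine

section Order

variable {K E : Type*} [Field K] [Field E] [Algebra K E] {B₀ : IntermediateField K E}
    {DE : Derivation K E E} {Ω : Type*} [Field Ω] [Algebra E Ω] {V : ValuationSubring Ω}
    {X₁ Y₁ : Ω} {j : E →+* Ω} {a b : E}

theorem WData.order (w : WData B₀ DE V X₁ Y₁ j a b) (e : E) (u₀ u₁ d : Polynomial E) (hd : d ≠ 0)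
    (hdX : aeval X₁ d ≠ 0) (hrep : j e * aeval X₁ d = aeval X₁ u₀ + aeval X₁ u₁ * Y₁) :
    (u₁ * cubic a b + C (DE e) * X * d).natDegree ≤ d.natDegree ∧
      (u₀ - C e * d = 0 ∨ (u₀ - C e * d).natDegree + 1 ≤ d.natDegree) := by
  set p := u₁ * cubic a b + C (DE e) * X * d with hp
  set q := u₀ - C e * d with hq
  by_cases hpq : p = 0 ∧ q = 0
  · rw [hpq.1, hpq.2]
    exact ⟨by simp, Or.inl rfl⟩
  have hX₁0 : X₁ ≠ 0 := by
    intro h0
    exact w.atInf.notMem (h0 ▸ zero_mem _)
  have hE' : Y₁ ^ 2 = X₁ ^ 3 + algebraMap E Ω a * X₁ + algebraMap E Ω b := by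
    rw [w.eqn, aeval_cubic]
  have h1 : ((j e - algebraMap E Ω e) * (Y₁ / X₁) + algebraMap E Ω (DE e)) * (X₁ * aeval X₁ d)
      = aeval X₁ p + aeval X₁ q * Y₁ := by
    have e1 : (j e - algebraMap E Ω e) * (Y₁ / X₁) * (X₁ * aeval X₁ d)
        = (j e * aeval X₁ d - algebraMap E Ω e * aeval X₁ d) * Y₁ := by
      field_simp
    rw [add_mul, e1, hrep, hp, hq]
    simp only [map_add, map_sub, map_mul, aeval_C, aeval_X]
    rw [← w.eqn]
    ring
  have h2 := w.atInf.val_pair hE' p q hpq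
  have hX1 := w.atInf.one_lt
  have hX0 : 0 < V.valuation X₁ := lt_trans zero_lt_one hX1
  rw [← h1, map_mul, mul_pow] at h2
  have h3 : V.valuation (X₁ * aeval X₁ d) ^ 2 = V.valuation X₁ ^ (2 + 2 * d.natDegree) := by
    rw [map_mul, w.atInf.val_eq d hd, ← pow_succ', ← pow_mul]
    congr 1; ring
  rw [h3] at h2
  have hres := w.res e
  have h4 : V.valuation X₁ ^ pord p q < V.valuation X₁ ^ (2 + 2 * d.natDegree) := by
    rw [← h2]
    have h5 : V.valuation ((j e - algebraMap E Ω e) * (Y₁ / X₁) + algebraMap E Ω (DE e)) ^ 2 < 1 :=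
      pow_lt_one₀ zero_le hres two_ne_zero
    calc _ < 1 * V.valuation X₁ ^ (2 + 2 * d.natDegree) :=
          mul_lt_mul_of_pos_right h5 (pow_pos hX0 _)
      _ = _ := one_mul _
  have h5 : pord p q < 2 + 2 * d.natDegree := by
    by_contra hcon
    exact absurd h4 (not_lt.mpr (pow_le_pow_right₀ hX1.le (not_lt.mp hcon)))
  unfold pord at h5
  constructor
  · have := lt_of_le_of_lt (le_max_left _ _) h5
    omega
  · by_cases hq0 : q = 0
    · exact Or.inl hq0
    · right
      rw [if_neg hq0] at h5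
      have := lt_of_le_of_lt (le_max_right _ _) h5
      omega

end Order

/-- Polynomials with coefficients in a subalgebra. -/
theorem exists_lift {K E : Type*} [Field K] [Field E] [Algebra K E] (A : Subalgebra K E)
    (p : Polynomial E) (hp : ∀ c ∈ p.coeffs, c ∈ A) :
    ∃ p' : Polynomial A, p'.map (algebraMap A E) = p ∧ p'.natDegree = p.natDegree := by
  have h1 : p ∈ lifts (algebraMap A E) := by
    rw [lifts_iff_coeff_lifts]
    intro n
    by_cases hn : p.coeff n = 0
    · rw [hn]; exact ⟨0, map_zero _⟩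
    · exact ⟨⟨p.coeff n, hp _ (coeff_mem_coeffs hn)⟩, rfl⟩
  obtain ⟨p', hp'⟩ := (mem_lifts _).mp h1
  refine ⟨p', hp', ?_⟩
  rw [← hp']
  exact (natDegree_map_eq_of_injective Subtype.val_injective p').symm

end Pool.Agent.Helper15.WE
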