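import Pool.Agent.Helper15.WE16

/-!
# Points near the generic point of a genus one fibration: the specialised relations
-/

namespace Pool.Agent.Helper15.WE

open Polynomial Curve LemR EC Filter Topology Engine

/-- Points going to infinity on an elliptic curve over a `2`-adic field. -/
theorem large_points {L : Type*} [NormedField L] [IsUltrametricDist L] [DecidableEq L]
    (h2 : (2 : L) ≠ 0) (h2lt : ‖(2 : L)‖ < 1) {a b X₀ Y₀ : L} {C : ℝ} (hC : 1 ≤ C) (ha : ‖a‖ ≤ C)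
    (hb : ‖b‖ ≤ C) (hE : Y₀ ^ 2 = X₀ ^ 3 + a * X₀ + b) (hX : C < ‖X₀‖) :
    ∃ X Y : ℕ → L, (∀ k, Y k ^ 2 = X k ^ 3 + a * X k + b) ∧ (∀ k, X k ≠ 0) ∧ (∀ k, Y k ≠ 0) ∧
      Tendsto (fun k => (X k)⁻¹) atTop (𝓝 0) ∧ Tendsto (fun k => X k / Y k) atTop (𝓝 0) := by
  have h0 : ‖(0 : L)‖ ≤ C := by rw [norm_zero]; linarith
  have hE' : Y₀ ^ 2 = X₀ ^ 3 + 0 * X₀ ^ 2 + a * X₀ + b := by rw [hE]; ring
  have hns := nonsingular_of_large h2 hC h0 ha hb hE' hX
  have hP : IsAt 0 a b (WeierstrassCurve.Affine.Point.some X₀ Y₀ hns) X₀ Y₀ := ⟨_, rfl⟩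
  have hk := fun k => iterate_double hC h0 ha hb h2 h2lt hP hX k
  choose X Y hXY hXn using hk
  have h2p : 0 < ‖(2 : L)‖ := norm_pos_iff.mpr h2
  have hX0p : 0 < ‖X₀‖ := by linarith
  have hpow : ∀ k : ℕ, 0 < (‖(2 : L)‖ ^ 2) ^ k := fun k => by positivity
  have hle : ∀ k, ‖X₀‖ ≤ ‖X k‖ := by
    intro k
    rw [hXn, le_div_iff₀ (hpow k)]
    calc ‖X₀‖ * (‖(2 : L)‖ ^ 2) ^ k ≤ ‖X₀‖ * 1 := by
          gcongr
          exact pow_le_one₀ (by positivity) (pow_le_one₀ h2p.le h2lt.le)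
      _ = ‖X₀‖ := mul_one _
  have hXk : ∀ k, C < ‖X k‖ := fun k => lt_of_lt_of_le hX (hle k)
  have hpos : ∀ k, 0 < ‖X k‖ := fun k => by linarith [hXk k]
  have hY2 : ∀ k, ‖Y k‖ ^ 2 = ‖X k‖ ^ 3 := fun k =>
    norm_y_sq hC h0 ha hb (hXY k).eq (hXk k)
  have hX0 : ∀ k, X k ≠ 0 := fun k => norm_pos_iff.mp (hpos k)
  have hY0 : ∀ k, Y k ≠ 0 := by
    intro k h
    have h1 := hY2 k
    rw [h, norm_zero, zero_pow two_ne_zero] at h1
    have := pow_pos (hpos k) 3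
    linarith
  have hinv : ∀ k, ‖(X k)⁻¹‖ = ‖X₀‖⁻¹ * (‖(2 : L)‖ ^ 2) ^ k := by
    intro k
    rw [norm_inv, hXn, inv_div, div_eq_mul_inv, mul_comm]
  have hlim : Tendsto (fun k => ‖(X k)⁻¹‖) atTop (𝓝 0) := by
    simp only [hinv]
    have h3 := (tendsto_pow_atTop_nhds_zero_of_lt_one (r := ‖(2 : L)‖ ^ 2) (by positivity)
      (pow_lt_one₀ h2p.le h2lt (by norm_num))).const_mul (‖X₀‖⁻¹)
    rwa [mul_zero] at h3
  refine ⟨X, Y, fun k => ?_, hX0, hY0, tendsto_zero_iff_norm_tendsto_zero.mpr hlim, ?_⟩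
  · rw [(hXY k).eq]; ring
  · rw [tendsto_zero_iff_norm_tendsto_zero]
    have h4 := hlim.sqrt
    rw [Real.sqrt_zero] at h4
    refine h4.congr fun k => ?_
    have h5 : ‖(X k)⁻¹‖ = ‖X k / Y k‖ ^ 2 := by
      rw [norm_div, div_pow, hY2, norm_inv]
      have := (hpos k).ne'
      field_simp
    rw [h5, Real.sqrt_sq (norm_nonneg _)]

/-- Relations satisfied by the translates of the generic point are satisfied by their
specialisations. -/
theorem transfer {K E N L : Type*} [Field K] [Field E] [Field N] [Field L] [Algebra K E]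
    [Algebra E N] [Algebra K L] {B₀ : IntermediateField K E} {V : ValuationSubring N}
    {DE : Derivation K E E} {X₁ Y₁ : N} {j : E →+* N} {a b : E}
    (w : WData B₀ DE V X₁ Y₁ j a b) (A : Subalgebra K E) (φ : A →ₐ[K] L) (haA : a ∈ A)
    (hbA : b ∈ A) (X Y : L) (hXY : Y ^ 2 = X ^ 3 + φ ⟨a, haA⟩ * X + φ ⟨b, hbA⟩)
    {r : ℕ} (z : Fin r → E) (u₀ u₁ d : Fin r → Polynomial A)
    (hrep : ∀ i, j (z i) * aeval X₁ ((d i).map (algebraMap A E))
      = aeval X₁ ((u₀ i).map (algebraMap A E)) + aeval X₁ ((u₁ i).map (algebraMap A E)) * Y₁)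
    (hd : ∀ i, (d i).eval₂ (φ : A →+* L) X ≠ 0) (z' : Fin r → L)
    (hz' : ∀ i, z' i * (d i).eval₂ (φ : A →+* L) X
      = (u₀ i).eval₂ (φ : A →+* L) X + (u₁ i).eval₂ (φ : A →+* L) X * Y)
    (f : MvPolynomial (Fin r) (A ⊓ B₀.toSubalgebra : Subalgebra K E))
    (hf : MvPolynomial.eval₂ (algebraMap (A ⊓ B₀.toSubalgebra : Subalgebra K E) E) z f = 0) :
    MvPolynomial.eval₂ ((φ : A →+* L).comp
      (Subalgebra.inclusion (inf_le_left : A ⊓ B₀.toSubalgebra ≤ A) :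
      (A ⊓ B₀.toSubalgebra : Subalgebra K E) →+* A)) z' f = 0 := by
  classical
  let _ : Algebra K N := ((algebraMap E N).comp (algebraMap K E)).toAlgebra
  let ι : A →+* N := (algebraMap E N).comp (algebraMap A E)
  let θ : MvPolynomial (Fin 2) A →+* N := MvPolynomial.eval₂Hom ι ![X₁, Y₁]
  let ev : MvPolynomial (Fin 2) A →+* L := MvPolynomial.eval₂Hom (φ : A →+* L) ![X, Y]
  let qA : Polynomial A := Polynomial.X ^ 3 + C ⟨a, haA⟩ * Polynomial.X + C ⟨b, hbA⟩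
  have hmap : ∀ p : Polynomial A, p.eval₂ ι X₁ = aeval X₁ (p.map (algebraMap A E)) := by
    intro p
    rw [aeval_def, eval₂_map]
  have hqA : qA.map (algebraMap A E) = cubic a b := by
    simp only [qA, cubic, Polynomial.map_add, Polynomial.map_mul, Polynomial.map_pow, map_X, map_C]
    rfl
  have hY₁ : Y₁ ^ 2 = qA.eval₂ ι X₁ := by rw [hmap, hqA, w.eqn]
  have hYk : Y ^ 2 = qA.eval₂ (φ : A →+* L) X := by
    rw [hXY]
    simp only [qA, eval₂_add, eval₂_mul, eval₂_pow, eval₂_X, eval₂_C]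
    rfl
  have hE' : Y₁ ^ 2 = X₁ ^ 3 + algebraMap E N a * X₁ + algebraMap E N b := by
    rw [w.eqn, aeval_cubic]
  have hinjA : Function.Injective (algebraMap A E) := Subtype.val_injective
  have hker : ∀ g, θ g = 0 → ev g = 0 := by
    intro g hg
    have h1 : θ g = _ := eval_red ι qA X₁ Y₁ hY₁ g
    have h2 : ev g = _ := eval_red (φ : A →+* L) qA X Y hYk g
    rw [hg, hmap, hmap] at h1
    obtain ⟨h3, h4⟩ := w.atInf.indep hE' _ _ h1.symm
    have h5 : redA qA g = 0 := (Polynomial.map_eq_zero_iff hinjA).mp h3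
    have h6 : redB qA g = 0 := (Polynomial.map_eq_zero_iff hinjA).mp h4
    rw [h2, h5, h6]
    simp
  have hθC : ∀ c : A, θ (MvPolynomial.C c) = ι c := fun c => MvPolynomial.eval₂Hom_C _ _ _
  have hevC : ∀ c : A, ev (MvPolynomial.C c) = φ c := fun c => MvPolynomial.eval₂Hom_C _ _ _
  have hK : ∀ r : K, ∃ p : MvPolynomial (Fin 2) A, θ p = algebraMap K N r ∧
      ev p = algebraMap K L r := by
    intro r
    refine ⟨MvPolynomial.C (algebraMap K A r), ?_, ?_⟩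
    · rw [hθC]; rfl
    · rw [hevC]; exact φ.commutes r
  let S : Submonoid (MvPolynomial (Fin 2) A) :=
    { carrier := {s | ev s ≠ 0}
      one_mem' := by
        show ev 1 ≠ 0
        rw [map_one]; exact one_ne_zero
      mul_mem' := by
        intro s t hs ht
        show ev (s * t) ≠ 0
        rw [map_mul]; exact mul_ne_zero hs ht }
  let R' : Subalgebra K N := Spec.fracs θ (fun r => (hK r).imp fun _ h => h.1) S
  obtain ⟨φ', hφ'⟩ := Spec.exists_ext θ ev hker R' (fun g hg => hg) hK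
  -- polynomials in the first variable
  let toMv : Polynomial A → MvPolynomial (Fin 2) A := fun p =>
    p.eval₂ MvPolynomial.C (MvPolynomial.X 0)
  have hθp : ∀ p, θ (toMv p) = aeval X₁ (p.map (algebraMap A E)) := by
    intro p
    show θ (p.eval₂ MvPolynomial.C (MvPolynomial.X 0)) = _
    rw [hom_eval₂, ← hmap]
    have h1 : θ.comp MvPolynomial.C = ι := RingHom.ext hθC
    have h2 : θ (MvPolynomial.X 0) = X₁ := MvPolynomial.eval₂Hom_X' _ _ _
    rw [h1, h2]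
  have hevp : ∀ p, ev (toMv p) = p.eval₂ (φ : A →+* L) X := by
    intro p
    show ev (p.eval₂ MvPolynomial.C (MvPolynomial.X 0)) = _
    rw [hom_eval₂]
    have h1 : ev.comp MvPolynomial.C = (φ : A →+* L) := RingHom.ext hevC
    have h2 : ev (MvPolynomial.X 0) = X := MvPolynomial.eval₂Hom_X' _ _ _
    rw [h1, h2]
  have hθY : θ (MvPolynomial.X 1) = Y₁ := MvPolynomial.eval₂Hom_X' _ _ _
  have hevY : ev (MvPolynomial.X 1) = Y := MvPolynomial.eval₂Hom_X' _ _ _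
  -- the generators
  have hzfrac : ∀ i, j (z i) * θ (toMv (d i))
      = θ (toMv (u₀ i) + toMv (u₁ i) * MvPolynomial.X 1) := by
    intro i
    rw [map_add, map_mul, hθp, hθp, hθp, hθY, hrep]
  have hzR : ∀ i, j (z i) ∈ R' := by
    intro i
    refine Spec.mem_fracs.mpr ⟨_, _, hzfrac i, ?_⟩
    show ev (toMv (d i)) ≠ 0
    rw [hevp]; exact hd i
  have hzφ : ∀ i, φ' ⟨j (z i), hzR i⟩ = z' i := by
    intro i
    have h1 := hφ' ⟨j (z i), hzR i⟩ _ _ (hzfrac i)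
    rw [map_add, map_mul, hevp, hevp, hevp, hevY, ← hz' i] at h1
    exact mul_right_cancel₀ (hd i) h1
  -- the constants
  have hcfrac : ∀ c : (A ⊓ B₀.toSubalgebra : Subalgebra K E), j (c : E) * θ 1
      = θ (MvPolynomial.C ⟨c, c.2.1⟩) := by
    intro c
    rw [map_one, mul_one, hθC, w.fixB _ c.2.2]
    rfl
  have hcR : ∀ c : (A ⊓ B₀.toSubalgebra : Subalgebra K E), j (c : E) ∈ R' := by
    intro c
    refine Spec.mem_fracs.mpr ⟨_, _, hcfrac c, ?_⟩
    show ev 1 ≠ 0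
    rw [map_one]; exact one_ne_zero
  have hcφ : ∀ c : (A ⊓ B₀.toSubalgebra : Subalgebra K E), φ' ⟨j (c : E), hcR c⟩
      = φ ⟨c, c.2.1⟩ := by
    intro c
    have h1 := hφ' ⟨j (c : E), hcR c⟩ _ _ (hcfrac c)
    rwa [map_one, mul_one, hevC] at h1
  let jR : (A ⊓ B₀.toSubalgebra : Subalgebra K E) →+* R' :=
    (j.comp (algebraMap (A ⊓ B₀.toSubalgebra : Subalgebra K E) E)).codRestrict R' hcR
  have h1 : (MvPolynomial.eval₂ jR (fun i => (⟨j (z i), hzR i⟩ : R')) f) = 0 := by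
    apply Subtype.ext
    have h2 : (((MvPolynomial.eval₂ jR (fun i => (⟨j (z i), hzR i⟩ : R')) f) : R') : N)
        = j (MvPolynomial.eval₂ (algebraMap (A ⊓ B₀.toSubalgebra : Subalgebra K E) E) z f) := by
      have h3 := MvPolynomial.eval₂_comp_left (algebraMap R' N) jR
        (fun i => (⟨j (z i), hzR i⟩ : R')) f
      have h4 := MvPolynomial.eval₂_comp_left j
        (algebraMap (A ⊓ B₀.toSubalgebra : Subalgebra K E) E) z f
      rw [h4]
      exact h3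
    rw [h2, hf, map_zero]; rfl
  have h2 := congrArg φ' h1
  have h3 := MvPolynomial.eval₂_comp_left (φ' : R' →+* L) jR
        (fun i => (⟨j (z i), hzR i⟩ : R')) f
  rw [map_zero] at h2
  have h4 : (φ' : R' →+* L) (MvPolynomial.eval₂ jR (fun i => (⟨j (z i), hzR i⟩ : R')) f) = 0 := h2
  rw [h3] at h4
  have h5 : (φ' : R' →+* L).comp jR = (φ : A →+* L).comp
      (Subalgebra.inclusion (inf_le_left : A ⊓ B₀.toSubalgebra ≤ A) :
      (A ⊓ B₀.toSubalgebra : Subalgebra K E) →+* A) := RingHom.ext hcφ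
  have h6 : (⇑(φ' : R' →+* L) ∘ fun i => (⟨j (z i), hzR i⟩ : R')) = z' := funext hzφ
  rw [h5, h6] at h4
  exact h4

end Pool.Agent.Helper15.WE
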