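import Pool.Agent.Helper15.WE17

/-!
# Supply of points on a genus one fibration
-/

namespace Pool.Agent.Helper15.WE

open Polynomial Curve LemR EC Filter Topology Engine

theorem adjoin_range_eq_top {K E : Type*} [Field K] [Field E] [Algebra K E]
    (B₀ : IntermediateField K E) (G : Finset E)
    (hG : IntermediateField.adjoin K (G : Set E) = ⊤) {r : ℕ} (z : Fin r → E)
    (hz : Set.range z = (G : Set E)) : IntermediateField.adjoin B₀ (Set.range z) = ⊤ := by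
  rw [hz, eq_top_iff]
  intro e _
  have h1 : e ∈ IntermediateField.adjoin K (G : Set E) := by
    rw [hG]; exact IntermediateField.mem_top
  have h2 : IntermediateField.adjoin K (G : Set E)
      ≤ (IntermediateField.adjoin B₀ (G : Set E)).restrictScalars K := by
    rw [IntermediateField.adjoin_le_iff]
    exact IntermediateField.subset_adjoin _ _
  exact h2 h1

theorem WData.supply {K E N : Type*} [Field K] [Field E] [Field N] [Algebra K E] [Algebra E N]
    [Algebra K (PadicAlgCl 2)] {B₀ : IntermediateField K E} {V : ValuationSubring N}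
    {DE : Derivation K E E} {X₁ Y₁ : N} {j : E →+* N} {a b : E}
    (w : WData B₀ DE V X₁ Y₁ j a b) (hDB : ∀ c ∈ B₀, DE c = 0) (τ : E →ₐ[K] PadicAlgCl 2)
    (G : Finset E) (hG : IntermediateField.adjoin K (G : Set E) = ⊤)
    (hlarge : ∀ C : ℝ, ∃ X Y : E, Y ^ 2 = X ^ 3 + a * X + b ∧ C < ‖τ X‖) :
    Supply τ B₀ DE := by
  classical
  set C₀ := 1 + ‖τ a‖ + ‖τ b‖ with hC₀
  have hn1 := norm_nonneg (τ a)
  have hn2 := norm_nonneg (τ b)
  have hC1 : 1 ≤ C₀ := by rw [hC₀]; linarith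
  obtain ⟨X₀, Y₀, hXY, hXlarge⟩ := hlarge C₀
  have hrep := fun e => w.rep e
  choose u₀ u₁ d hd0 hdX hju using hrep
  let eq := G.equivFin
  let z : Fin G.card → E := fun i => (eq.symm i : E)
  have hzG : ∀ i, z i ∈ G := fun i => (eq.symm i).2
  have hzr : Set.range z = (G : Set E) := by
    ext e
    constructor
    · rintro ⟨i, rfl⟩
      exact hzG i
    · intro he
      exact ⟨eq ⟨e, he⟩, by simp [z]⟩
  refine ⟨hDB, G.card, z, ({a, b, X₀, Y₀} : Finset E) ∪ (G ∪ (G.image DE ∪ (G.biUnion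
    (fun e => (u₀ e).coeffs) ∪ (G.biUnion (fun e => (u₁ e).coeffs) ∪ (G.biUnion
    (fun e => (d e).coeffs) ∪ G.image (fun e => ((d e).leadingCoeff)⁻¹)))))),
    adjoin_range_eq_top B₀ G hG z hzr, ?_⟩
  intro A hFA L φ hφL hφF
  have haA : a ∈ A := hFA _ (by simp)
  have hbA : b ∈ A := hFA _ (by simp)
  have hX₀A : X₀ ∈ A := hFA _ (by simp)
  have hY₀A : Y₀ ∈ A := hFA _ (by simp)
  have hGA : ∀ e ∈ G, e ∈ A := fun e he => hFA _ (by simp [he])
  have hDA : ∀ e ∈ G, DE e ∈ A := fun e he => hFA _ (by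
    simp only [Finset.mem_union, Finset.mem_image]
    exact Or.inr (Or.inr (Or.inl ⟨e, he, rfl⟩)))
  have hu₀A : ∀ e ∈ G, ∀ c ∈ (u₀ e).coeffs, c ∈ A := fun e he c hc => hFA _ (by
    simp only [Finset.mem_union, Finset.mem_biUnion]
    exact Or.inr (Or.inr (Or.inr (Or.inl ⟨e, he, hc⟩))))
  have hu₁A : ∀ e ∈ G, ∀ c ∈ (u₁ e).coeffs, c ∈ A := fun e he c hc => hFA _ (by
    simp only [Finset.mem_union, Finset.mem_biUnion]
    exact Or.inr (Or.inr (Or.inr (Or.inr (Or.inl ⟨e, he, hc⟩)))))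
  have hdA : ∀ e ∈ G, ∀ c ∈ (d e).coeffs, c ∈ A := fun e he c hc => hFA _ (by
    simp only [Finset.mem_union, Finset.mem_biUnion]
    exact Or.inr (Or.inr (Or.inr (Or.inr (Or.inr (Or.inl ⟨e, he, hc⟩))))))
  have hlA : ∀ e ∈ G, ((d e).leadingCoeff)⁻¹ ∈ A := fun e he => hFA _ (by
    simp only [Finset.mem_union, Finset.mem_image]
    exact Or.inr (Or.inr (Or.inr (Or.inr (Or.inr (Or.inr ⟨e, he, rfl⟩))))))
  -- specialisation
  let φL : A →+* L := (φ : A →+* PadicAlgCl 2).codRestrict L hφL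
  have hnear : ∀ (e : E) (he : e ∈ A), e ∈ ({a, b, X₀, Y₀} : Finset E) →
      ‖φ ⟨e, he⟩ - τ e‖ < 1 := fun e he heF => hφF ⟨e, he⟩ (Finset.mem_union_left _ heF)
  have hle : ∀ (e : E) (he : e ∈ A), ‖φ ⟨e, he⟩ - τ e‖ < 1 → ‖φ ⟨e, he⟩‖ ≤ 1 + ‖τ e‖ := by
    intro e he h1
    have := norm_add_le (φ ⟨e, he⟩ - τ e) (τ e)
    rw [sub_add_cancel] at this
    linarith
  let a0 : L := φL ⟨a, haA⟩
  let b0 : L := φL ⟨b, hbA⟩
  let X0 : L := φL ⟨X₀, hX₀A⟩
  let Y0 : L := φL ⟨Y₀, hY₀A⟩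
  have haC : ‖a0‖ ≤ C₀ := by
    have h1 : ‖a0‖ = ‖φ ⟨a, haA⟩‖ := rfl
    rw [h1]
    have := hle a haA (hnear a haA (by simp))
    rw [hC₀]; linarith
  have hbC : ‖b0‖ ≤ C₀ := by
    have h1 : ‖b0‖ = ‖φ ⟨b, hbA⟩‖ := rfl
    rw [h1]
    have := hle b hbA (hnear b hbA (by simp))
    rw [hC₀]; linarith
  have hX0 : C₀ < ‖X0‖ := by
    have h1 : ‖X0‖ = ‖φ ⟨X₀, hX₀A⟩‖ := rfl
    have h2 : φ ⟨X₀, hX₀A⟩ = τ X₀ + (φ ⟨X₀, hX₀A⟩ - τ X₀) := by ring
    rw [h1, h2, norm_add_of_lt]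
    · exact hXlarge
    · exact lt_trans (hnear X₀ hX₀A (by simp)) (lt_of_le_of_lt hC1 hXlarge)
  have heqn0 : Y0 ^ 2 = X0 ^ 3 + a0 * X0 + b0 := by
    have h1 : (⟨Y₀, hY₀A⟩ : A) ^ 2 = ⟨X₀, hX₀A⟩ ^ 3 + ⟨a, haA⟩ * ⟨X₀, hX₀A⟩ + ⟨b, hbA⟩ :=
      Subtype.ext hXY
    have h2 := congrArg φL h1
    rw [map_pow, map_add, map_add, map_mul, map_pow] at h2
    exact h2
  obtain ⟨Xs, Ys, hXYs, hXs0, hYs0, hXlim, hslim⟩ := large_points (L := L) two_ne_zero
    norm_two_lt hC1 haC hbC heqn0 hX0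
  -- polynomials over `A`
  have hU₀ := fun i : Fin G.card => exists_lift A (u₀ (z i)) (hu₀A _ (hzG i))
  have hU₁ := fun i : Fin G.card => exists_lift A (u₁ (z i)) (hu₁A _ (hzG i))
  have hD := fun i : Fin G.card => exists_lift A (d (z i)) (hdA _ (hzG i))
  choose U₀ hU₀ hU₀n using hU₀
  choose U₁ hU₁ hU₁n using hU₁
  choose D hD hDn using hD
  let Xp : ℕ → PadicAlgCl 2 := fun k => (Xs k : PadicAlgCl 2)
  let Yp : ℕ → PadicAlgCl 2 := fun k => (Ys k : PadicAlgCl 2)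
  have hXp0 : ∀ k, Xp k ≠ 0 := fun k h => hXs0 k (Subtype.ext h)
  have hYp0 : ∀ k, Yp k ≠ 0 := fun k h => hYs0 k (Subtype.ext h)
  have hXplim : Tendsto (fun k => (Xp k)⁻¹) atTop (𝓝 0) := by
    rw [tendsto_zero_iff_norm_tendsto_zero] at hXlim ⊢
    exact hXlim
  have hsplim : Tendsto (fun k => Xp k / Yp k) atTop (𝓝 0) := by
    rw [tendsto_zero_iff_norm_tendsto_zero] at hslim ⊢
    exact hslim
  have hXYp : ∀ k, Yp k ^ 2 = Xp k ^ 3 + φ ⟨a, haA⟩ * Xp k + φ ⟨b, hbA⟩ := by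
    intro k
    exact congrArg (fun t : L => (t : PadicAlgCl 2)) (hXYs k)
  let φr : A →+* PadicAlgCl 2 := (φ : A →+* PadicAlgCl 2)
  -- the leading coefficient of the denominators
  have hlc : ∀ i, ((D i).map φr).coeff (D i).natDegree ≠ 0 := by
    intro i
    rw [coeff_map]
    have h1 : ((D i).coeff (D i).natDegree : E) = (d (z i)).leadingCoeff := by
      have h2 : (D i).natDegree = (d (z i)).natDegree := hDn i
      rw [h2, leadingCoeff, ← hD i, coeff_map]; rfl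
    have h3 : (D i).coeff (D i).natDegree * ⟨_, hlA _ (hzG i)⟩ = 1 := by
      apply Subtype.ext
      show ((D i).coeff (D i).natDegree : E) * ((d (z i)).leadingCoeff)⁻¹ = 1
      rw [h1, mul_inv_cancel₀]
      exact leadingCoeff_ne_zero.mpr (hd0 _)
    intro h4
    have h5 := congrArg φr h3
    rw [map_mul, h4, zero_mul, map_one] at h5
    exact zero_ne_one h5
  have hDev : ∀ᶠ k in atTop, ∀ i, (D i).eval₂ φr (Xp k) ≠ 0 := by
    rw [eventually_all]
    intro i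
    have h1 := tendsto_eval_mul ((D i).map φr) (D i).natDegree natDegree_map_le Xp hXp0 hXplim
    have h2 := h1.eventually_ne (hlc i)
    filter_upwards [h2] with k hk h0
    apply hk
    rw [eval_map, h0, zero_mul]
  obtain ⟨k₀, hk₀⟩ := eventually_atTop.mp hDev
  -- the shifted sequences
  let Xq : ℕ → PadicAlgCl 2 := fun k => Xp (k + k₀)
  let Yq : ℕ → PadicAlgCl 2 := fun k => Yp (k + k₀)
  have hXqlim : Tendsto (fun k => (Xq k)⁻¹) atTop (𝓝 0) :=
    hXplim.comp (tendsto_add_atTop_nat k₀)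
  have hsqlim : Tendsto (fun k => Xq k / Yq k) atTop (𝓝 0) :=
    hsplim.comp (tendsto_add_atTop_nat k₀)
  have hDq : ∀ k i, (D i).eval₂ φr (Xq k) ≠ 0 := fun k i => hk₀ (k + k₀) (by omega) i
  let zq : ℕ → Fin G.card → PadicAlgCl 2 := fun k i =>
    ((U₀ i).eval₂ φr (Xq k) + (U₁ i).eval₂ φr (Xq k) * Yq k) / (D i).eval₂ φr (Xq k)
  have hevL : ∀ (p : Polynomial A) (t : L), p.eval₂ φr (t : PadicAlgCl 2) ∈ L := by
    intro p t
    have h1 : p.eval₂ φr (t : PadicAlgCl 2) = ((p.eval₂ φL t : L) : PadicAlgCl 2) := by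
      have := hom_eval₂ p φL (algebraMap L (PadicAlgCl 2)) t
      exact this.symm
    rw [h1]; exact (p.eval₂ φL t).2
  -- the quotients
  have hquot : ∀ i, Tendsto (fun k => (zq k i - φ ⟨z i, hGA _ (hzG i)⟩) / (-(Xq k / Yq k))) atTop
      (𝓝 (φ ⟨DE (z i), hDA _ (hzG i)⟩)) := by
    intro i
    set zA : A := ⟨z i, hGA _ (hzG i)⟩ with hzA
    set eA : A := ⟨DE (z i), hDA _ (hzG i)⟩ with heA
    let cA : Polynomial A := Polynomial.X ^ 3 + C ⟨a, haA⟩ * Polynomial.X + C ⟨b, hbA⟩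
    have hcA : cA.map (algebraMap A E) = cubic a b := by
      simp only [cA, cubic, Polynomial.map_add, Polynomial.map_mul, Polynomial.map_pow, map_X,
        map_C]
      rfl
    let pA : Polynomial A := U₁ i * cA + C eA * Polynomial.X * D i
    let qA : Polynomial A := U₀ i - C zA * D i
    have hinjA : Function.Injective (algebraMap A E) := Subtype.val_injective
    have hpA : pA.map (algebraMap A E) = u₁ (z i) * cubic a b
        + C (DE (z i)) * Polynomial.X * d (z i) := by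
      simp only [pA, Polynomial.map_add, Polynomial.map_mul, map_X, map_C, hcA, hU₁, hD]
      rfl
    have hqA : qA.map (algebraMap A E) = u₀ (z i) - C (z i) * d (z i) := by
      simp only [qA, Polynomial.map_sub, Polynomial.map_mul, map_C, hU₀, hD]
      rfl
    obtain ⟨ho1, ho2⟩ := w.order (z i) (u₀ (z i)) (u₁ (z i)) (d (z i)) (hd0 _) (hdX _) (hju _)
    have hpn : (pA.map φr).natDegree ≤ (D i).natDegree := by
      refine natDegree_map_le.trans ?_
      rw [hDn i, ← natDegree_map_eq_of_injective hinjA, hpA]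
      exact ho1
    have hqn : (qA.map φr) = 0 ∨ (qA.map φr).natDegree + 1 ≤ (D i).natDegree := by
      rcases ho2 with h0 | h1
      · left
        have : qA = 0 := by
          rw [← hqA] at h0
          exact (Polynomial.map_eq_zero_iff hinjA).mp h0
        rw [this, Polynomial.map_zero]
      · right
        rw [← hqA, natDegree_map_eq_of_injective hinjA] at h1
        have h2 : (qA.map φr).natDegree ≤ qA.natDegree := natDegree_map_le
        have h3 := hDn i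
        omega
    have hlim := tendsto_quot (φ ⟨a, haA⟩) (φ ⟨b, hbA⟩) (pA.map φr) (qA.map φr) ((D i).map φr)
      (D i).natDegree hpn hqn natDegree_map_le (hlc i) Xq Yq (fun k => hXp0 _) hXqlim
      (fun k => hXYp _)
    have h3 := tendsto_const_nhds.sub hlim (a := φ eA)
    rw [sub_zero] at h3
    refine h3.congr fun k => ?_
    have hD0 := hDq k i
    have hX0' : Xq k ≠ 0 := hXp0 _
    have hY0' : Yq k ≠ 0 := hYp0 _
    have hcub : Yq k ^ 2 = Xq k ^ 3 + φ ⟨a, haA⟩ * Xq k + φ ⟨b, hbA⟩ := hXYp _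
    rw [eval_map, eval_map, eval_map]
    have e1 : pA.eval₂ φr (Xq k) = (U₁ i).eval₂ φr (Xq k) * Yq k ^ 2
        + φ eA * Xq k * (D i).eval₂ φr (Xq k) := by
      simp only [pA, cA, eval₂_add, eval₂_mul, eval₂_pow, eval₂_X, eval₂_C]
      rw [hcub]
      rfl
    have e2 : qA.eval₂ φr (Xq k) = (U₀ i).eval₂ φr (Xq k)
        - φ zA * (D i).eval₂ φr (Xq k) := by
      simp only [qA, eval₂_sub, eval₂_mul, eval₂_C]
      rfl
    rw [e1, e2]
    show _ = ((((U₀ i).eval₂ φr (Xq k) + (U₁ i).eval₂ φr (Xq k) * Yq k)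
      / (D i).eval₂ φr (Xq k)) - φ zA) / (-(Xq k / Yq k))
    field_simp
    ring
  refine ⟨zq, fun k => -(Xq k / Yq k), ?_, ?_, ?_, ?_⟩
  · intro k i
    exact div_mem (add_mem (hevL _ (Xs (k + k₀))) (mul_mem (hevL _ (Xs (k + k₀)))
      (Ys (k + k₀)).2)) (hevL _ (Xs (k + k₀)))
  · intro k
    exact neg_ne_zero.mpr (div_ne_zero (hXp0 _) (hYp0 _))
  · intro i a' b' ha' hb'
    have ea : a' = ⟨z i, hGA _ (hzG i)⟩ := Subtype.ext ha'
    have eb : b' = ⟨DE (z i), hDA _ (hzG i)⟩ := Subtype.ext hb'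
    rw [ea, eb]
    refine ⟨?_, hquot i⟩
    have h1 := (hquot i).mul hsqlim.neg
    rw [neg_zero, mul_zero] at h1
    have h2 : Tendsto (fun k => zq k i - φ ⟨z i, hGA _ (hzG i)⟩) atTop (𝓝 0) := by
      refine h1.congr fun k => ?_
      have hX0' : Xq k ≠ 0 := hXp0 _
      have hY0' : Yq k ≠ 0 := hYp0 _
      field_simp
    have h3 := h2.add_const (φ ⟨z i, hGA _ (hzG i)⟩)
    rw [zero_add] at h3
    exact h3.congr fun k => by ring
  · intro k f hf
    exact transfer w A φ haA hbA (Xq k) (Yq k) (hXYp _) z U₀ U₁ D (fun i => by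
      rw [hD, hU₀, hU₁]; exact hju _) (fun i => hDq k i) (zq k) (fun i => by
        show _ / _ * _ = _
        rw [div_mul_cancel₀ _ (hDq k i)]) f hf

end Pool.Agent.Helper15.WE
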