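import Pool.Agent.Helper15.WE18

/-!
# Large points from a point of infinite order
-/

namespace Pool.Agent.Helper15.WE

open Polynomial Curve LemR EC Filter Topology Engine

theorem large_of_nontorsion {K E : Type*} [Field K] [NumberField K] [Field E] [Algebra K E]
    [DecidableEq E] [Algebra K (PadicAlgCl 2)] (τ : E →ₐ[K] PadicAlgCl 2) (G : Finset E)
    (hG : IntermediateField.adjoin K (G : Set E) = ⊤) (a b : E) (hΔE : (cub 0 a b).Δ ≠ 0)
    (P : (cub 0 a b).Point) (hP : ∀ n : ℕ, 0 < n → n • P ≠ 0) (C : ℝ) :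
    ∃ X Y : E, Y ^ 2 = X ^ 3 + a * X + b ∧ C < ‖τ X‖ := by
  classical
  have hcz : CharZero E := charZero_of_injective_algebraMap (algebraMap K E).injective
  obtain ⟨M, hMfin, hτM⟩ := exists_local_field τ G hG
  have hprop : ProperSpace M := FiniteDimensional.proper ℚ_[2] M
  let τM : E →+* M := (τ : E →+* PadicAlgCl 2).codRestrict M hτM
  have hΔ : (cub 0 (τM a) (τM b)).Δ ≠ 0 := by
    have h1 := map_cub_Δ τM 0 a b
    rw [map_zero] at h1
    rw [← h1]
    exact (map_ne_zero τM).mpr hΔE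
  obtain ⟨f, hf⟩ := exists_mapPt τM 1 one_ne_zero a b (τM a) (τM b) (by ring) (by ring)
    two_ne_zero hΔ
  have hnt : ∀ n : ℕ, 0 < n → n • f P ≠ 0 := by
    intro n hn
    rw [← map_nsmul]
    obtain ⟨x, y, h⟩ := exists_isAt (hP n hn)
    exact (hf _ _ _ h).ne_zero
  obtain ⟨n, hn0, X', Y', hXY, hlarge⟩ := exists_large two_ne_zero 0 (τM a) (τM b) hΔ (f P) hnt C
  obtain ⟨X, Y, h⟩ := exists_isAt (hP n hn0)
  have h1 := hf _ _ _ h
  rw [map_nsmul] at h1
  obtain ⟨h2, h3⟩ := hXY.unique h1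
  refine ⟨X, Y, ?_, ?_⟩
  · rw [h.eq]; ring
  · rw [h2, one_pow, one_mul] at hlarge
    exact hlarge

end Pool.Agent.Helper15.WE
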