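import Pool.Agent.Helper15.WE1

/-!
# Integral functions on a Weierstrass curve
-/

namespace Pool.Agent.Helper15.WE

open Polynomial

section Sep

variable {k : Type*} [Field k]

/-- The cubic of a short Weierstrass equation. -/
noncomputable def cubic (A B : k) : Polynomial k := Polynomial.X ^ 3 + C A * Polynomial.X + C B

theorem cubic_natDegree (A B : k) : (cubic A B).natDegree = 3 := by
  unfold cubic
  compute_degree!

theorem cubic_ne_zero (A B : k) : cubic A B ≠ 0 := by
  intro h
  have := cubic_natDegree A B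
  rw [h] at this
  simp at this

theorem aeval_cubic {N : Type*} [Field N] [Algebra k N] (A B : k) (X : N) :
    aeval X (cubic A B) = X ^ 3 + algebraMap k N A * X + algebraMap k N B := by
  simp [cubic]

theorem cubic_separable (A B : k) (hΔ : 4 * A ^ 3 + 27 * B ^ 2 ≠ 0) : (cubic A B).Separable := by
  rw [separable_def']
  refine ⟨C (4 * A ^ 3 + 27 * B ^ 2)⁻¹ * (C (-18 * A) * Polynomial.X + C (27 * B)),
    C (4 * A ^ 3 + 27 * B ^ 2)⁻¹ * (C (6 * A) * Polynomial.X ^ 2 - C (9 * B) * Polynomial.X
      + C (4 * A ^ 2)), ?_⟩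
  have hd : derivative (cubic A B) = C 3 * Polynomial.X ^ 2 + C A := by
    unfold cubic
    have h3 : (3 : k) = 2 + 1 := by norm_num
    rw [h3, C_add, C_1]
    simp
  rw [hd]
  unfold cubic
  have h1 : (C (4 * A ^ 3 + 27 * B ^ 2)⁻¹ : Polynomial k) * C (4 * A ^ 3 + 27 * B ^ 2) = 1 := by
    rw [← C_mul, inv_mul_cancel₀ hΔ, C_1]
  calc _ = C (4 * A ^ 3 + 27 * B ^ 2)⁻¹ * C (4 * A ^ 3 + 27 * B ^ 2) := by
        simp only [map_mul, map_add, map_pow, map_neg, map_ofNat]
        ring
    _ = 1 := h1

theorem dvd_of_sq_dvd (d g q : Polynomial k) (hq : Squarefree q) (h : d ^ 2 ∣ g ^ 2 * q) :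
    d ∣ g := by
  classical
  by_cases hd : d = 0
  · subst hd
    rw [zero_pow two_ne_zero, zero_dvd_iff] at h
    rw [zero_dvd_iff]
    rcases mul_eq_zero.mp h with h | h
    · exact pow_eq_zero_iff two_ne_zero |>.mp h
    · exact absurd h hq.ne_zero
  obtain ⟨d', hd'⟩ := EuclideanDomain.gcd_dvd_left d g
  obtain ⟨g', hg'⟩ := EuclideanDomain.gcd_dvd_right d g
  have hab := EuclideanDomain.gcd_eq_gcd_ab d g
  generalize EuclideanDomain.gcdA d g = u at hab
  generalize EuclideanDomain.gcdB d g = v at hab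
  generalize EuclideanDomain.gcd d g = c at hd' hg' hab
  have hc : c ≠ 0 := by
    rintro rfl
    rw [zero_mul] at hd'
    exact hd hd'
  subst hd' hg'
  have hcop : IsCoprime d' g' := by
    refine ⟨u, v, ?_⟩
    apply mul_left_cancel₀ hc
    linear_combination -hab
  have h1 : d' ^ 2 ∣ g' ^ 2 * q := by
    obtain ⟨w, hw⟩ := h
    refine ⟨w, ?_⟩
    apply mul_left_cancel₀ (pow_ne_zero 2 hc)
    linear_combination hw
  have h2 : d' ^ 2 ∣ q := (hcop.pow (m := 2) (n := 2)).dvd_of_dvd_mul_left h1
  have h3 : IsUnit d' := hq d' (by rw [← sq]; exact h2)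
  exact mul_dvd_mul_left _ h3.dvd

end Sep

variable {k N : Type*} [Field k] [Field N] [Algebra k N]

variable {V : ValuationSubring N} {X Y : N} {A B : k}

theorem IsRep.zero : IsRep k X Y (0 : N) := ⟨0, 0, 1, one_ne_zero, by simp, by simp⟩

theorem IsRep.const (a : k) : IsRep k X Y (algebraMap k N a) :=
  ⟨C a, 0, 1, one_ne_zero, by simp, by simp⟩

theorem isRep_X : IsRep k X Y X := ⟨Polynomial.X, 0, 1, one_ne_zero, by simp, by simp⟩

theorem isRep_Y : IsRep k X Y Y := ⟨0, 1, 1, one_ne_zero, by simp, by simp⟩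

theorem IsRep.add {f g : N} (hf : IsRep k X Y f) (hg : IsRep k X Y g) : IsRep k X Y (f + g) := by
  obtain ⟨a, b, d, hd, hd', h⟩ := hf
  obtain ⟨a', b', e, he, he', h'⟩ := hg
  refine ⟨a * e + a' * d, b * e + b' * d, d * e, mul_ne_zero hd he, by
    rw [map_mul]; exact mul_ne_zero hd' he', ?_⟩
  simp only [map_mul, map_add]
  linear_combination aeval X e * h + aeval X d * h'

theorem IsRep.mul {f g : N} (hE : Y ^ 2 = aeval X (cubic A B))
    (hf : IsRep k X Y f) (hg : IsRep k X Y g) : IsRep k X Y (f * g) := by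
  obtain ⟨a, b, d, hd, hd', h⟩ := hf
  obtain ⟨a', b', e, he, he', h'⟩ := hg
  refine ⟨a * a' + b * b' * cubic A B, a * b' + a' * b, d * e, mul_ne_zero hd he, by
    rw [map_mul]; exact mul_ne_zero hd' he', ?_⟩
  simp only [map_mul, map_add]
  rw [← hE]
  linear_combination g * aeval X e * h + (aeval X a + aeval X b * Y) * h'

theorem IsRep.inv {f : N} (h : AtInf k V X) (hE : Y ^ 2 = aeval X (cubic A B))
    (hf : IsRep k X Y f) : IsRep k X Y f⁻¹ := by
  by_cases hf0 : f = 0
  · rw [hf0, inv_zero]; exact IsRep.zero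
  obtain ⟨a, b, d, hd, hd', hfd⟩ := hf
  have hE' : Y ^ 2 = X ^ 3 + algebraMap k N A * X + algebraMap k N B := by
    rw [hE, aeval_cubic]
  have hne : aeval X a + aeval X b * Y ≠ 0 := by
    rw [← hfd]; exact mul_ne_zero hf0 hd'
  have hab : ¬ (a = 0 ∧ b = 0) := by
    rintro ⟨rfl, rfl⟩
    apply hne; simp
  have hne' : aeval X a - aeval X b * Y ≠ 0 := by
    intro h0
    have h1 : aeval X a + aeval X (-b) * Y = 0 := by
      rw [map_neg]; linear_combination h0
    obtain ⟨h2, h3⟩ := h.indep hE' a (-b) h1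
    exact hab ⟨h2, neg_eq_zero.mp h3⟩
  have hnorm : aeval X (a ^ 2 - b ^ 2 * cubic A B)
      = (aeval X a + aeval X b * Y) * (aeval X a - aeval X b * Y) := by
    simp only [map_sub, map_mul, map_pow]
    rw [← hE]; ring
  refine ⟨d * a, -(d * b), a ^ 2 - b ^ 2 * cubic A B, ?_, ?_, ?_⟩
  · intro h0
    rw [h0, map_zero] at hnorm
    exact mul_ne_zero hne hne' hnorm.symm
  · rw [hnorm]; exact mul_ne_zero hne hne'
  · rw [hnorm, ← hfd]
    simp only [map_mul, map_neg]
    field_simp
    ring

theorem isRep_of_mem_adjoin (h : AtInf k V X) (hE : Y ^ 2 = aeval X (cubic A B)) (f : N)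
    (hf : f ∈ IntermediateField.adjoin k {X, Y}) : IsRep k X Y f := by
  induction hf using IntermediateField.adjoin_induction with
  | mem z hz =>
    rcases hz with rfl | hz
    · exact isRep_X
    · rw [Set.mem_singleton_iff] at hz
      subst hz
      exact isRep_Y
  | algebraMap a => exact IsRep.const a
  | add z w _ _ hz hw => exact hz.add hw
  | inv z _ hz => exact hz.inv h hE
  | mul z w _ _ hz hw => exact hz.mul hE hw

/-- The integral functions are the polynomials in `X` and `Y`. -/
theorem exists_of_isIntegral (h2 : (2 : k) ≠ 0) (h : AtInf k V X)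
    (hE : Y ^ 2 = aeval X (cubic A B)) (hΔ : 4 * A ^ 3 + 27 * B ^ 2 ≠ 0) (f : N)
    (hf : IsRep k X Y f) (hint : (aeval X : Polynomial k →ₐ[k] N).toRingHom.IsIntegralElem f) :
    ∃ a b : Polynomial k, f = aeval X a + aeval X b * Y := by
  classical
  have hE' : Y ^ 2 = X ^ 3 + algebraMap k N A * X + algebraMap k N B := by
    rw [hE, aeval_cubic]
  let _ : Algebra (Polynomial k) N := (aeval X : Polynomial k →ₐ[k] N).toRingHom.toAlgebra
  have hmap : ∀ p : Polynomial k, algebraMap (Polynomial k) N p = aeval X p := fun p => rfl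
  have hinj : Function.Injective (algebraMap (Polynomial k) N) := by
    rw [injective_iff_map_eq_zero]
    intro p hp
    by_contra hne
    exact h.transcendental ⟨p, hne, hp⟩
  have : FaithfulSMul (Polynomial k) N := (faithfulSMul_iff_algebraMap_injective _ _).mpr hinj
  let _ : Algebra (FractionRing (Polynomial k)) N := FractionRing.liftAlgebra (Polynomial k) N
  have hst : IsScalarTower (Polynomial k) (FractionRing (Polynomial k)) N :=
    FractionRing.isScalarTower_liftAlgebra (Polynomial k) N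
  have hint' : IsIntegral (Polynomial k) f := hint
  obtain ⟨g₀, g₁, d, hd, hdX, hfd⟩ := hf
  set F := FractionRing (Polynomial k) with hF
  have hFinj : Function.Injective (algebraMap F N) := (algebraMap F N).injective
  have hdF : algebraMap (Polynomial k) F d ≠ 0 := by
    rw [Ne, IsFractionRing.to_map_eq_zero_iff]; exact hd
  have hmapF : ∀ p : Polynomial k, algebraMap F N (algebraMap (Polynomial k) F p) = aeval X p :=
    fun p => by rw [← IsScalarTower.algebraMap_apply]; rfl
  by_cases hg1 : g₁ = 0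
  · rw [hg1, map_zero, zero_mul, add_zero] at hfd
    have hf' : f = algebraMap F N (algebraMap (Polynomial k) F g₀ / algebraMap (Polynomial k) F d) := by
      rw [map_div₀, hmapF, hmapF, ← hfd, mul_div_cancel_right₀ _ hdX]
    rw [hf'] at hint'
    have h3 : IsIntegral (Polynomial k)
        (algebraMap (Polynomial k) F g₀ / algebraMap (Polynomial k) F d) :=
      (isIntegral_algebraMap_iff hFinj).mp hint'
    obtain ⟨p, hp⟩ := IsIntegrallyClosed.isIntegral_iff.mp h3
    refine ⟨p, 0, ?_⟩
    rw [hf', ← hp, hmapF]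
    simp
  -- the minimal polynomial
  set t : F := algebraMap (Polynomial k) F (2 * g₀) / algebraMap (Polynomial k) F d with ht
  set n : F := algebraMap (Polynomial k) F (g₀ ^ 2 - g₁ ^ 2 * cubic A B)
    / algebraMap (Polynomial k) F d ^ 2 with hn
  have hroot : aeval f (Polynomial.X ^ 2 - C t * Polynomial.X + C n : Polynomial F) = 0 := by
    simp only [map_add, map_sub, map_mul, map_pow, aeval_X, aeval_C]
    rw [ht, hn, map_div₀, map_div₀, map_pow, hmapF, hmapF, hmapF]
    simp only [map_sub, map_mul, map_pow, map_ofNat]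
    field_simp
    rw [← hE]
    linear_combination (f * aeval X d - aeval X g₀ + aeval X g₁ * Y) * hfd
  have hmonic : (Polynomial.X ^ 2 - C t * Polynomial.X + C n : Polynomial F).Monic := by
    monicity!
  have hdeg : (Polynomial.X ^ 2 - C t * Polynomial.X + C n : Polynomial F).natDegree = 2 := by
    compute_degree!
  have hintF : IsIntegral F f := hint'.tower_top
  have hnotin : f ∉ (algebraMap F N).range := by
    rintro ⟨r, hr⟩
    obtain ⟨p, e, he, hpe⟩ := IsFractionRing.div_surjective (A := Polynomial k) r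
    have he0 : e ≠ 0 := nonZeroDivisors.ne_zero he
    have heX : aeval X e ≠ (0 : N) := fun h0 => h.transcendental ⟨e, he0, h0⟩
    have hfe : f * aeval X e = aeval X p := by
      rw [← hr, ← hpe, map_div₀, hmapF, hmapF, div_mul_cancel₀ _ heX]
    have h3 : aeval X (g₀ * e - p * d) + aeval X (g₁ * e) * Y = 0 := by
      simp only [map_sub, map_mul]
      linear_combination -(aeval X e) * hfd + aeval X d * hfe
    have h4 := (h.indep hE' _ _ h3).2
    rcases mul_eq_zero.mp h4 with h5 | h5
    · exact hg1 h5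
    · exact he0 h5
  have hmin : minpoly F f = Polynomial.X ^ 2 - C t * Polynomial.X + C n := by
    have hdvd : minpoly F f ∣ Polynomial.X ^ 2 - C t * Polynomial.X + C n := minpoly.dvd F f hroot
    refine (Polynomial.eq_of_monic_of_dvd_of_natDegree_le (minpoly.monic hintF) hmonic hdvd ?_).symm
    rw [hdeg]
    have h3 : (minpoly F f).natDegree ≠ 1 := by
      intro h3
      exact hnotin (minpoly.natDegree_eq_one_iff.mp h3)
    have h4 : 0 < (minpoly F f).natDegree := minpoly.natDegree_pos hintF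
    omega
  have hcl := minpoly.isIntegrallyClosed_eq_field_fractions' F hint'
  have hc1 : algebraMap (Polynomial k) F (-(minpoly (Polynomial k) f).coeff 1) = t := by
    have h3 : (minpoly F f).coeff 1 = -t := by
      rw [hmin]; simp [coeff_C]
    rw [hcl, coeff_map] at h3
    rw [map_neg, h3, neg_neg]
  have hc0 : algebraMap (Polynomial k) F ((minpoly (Polynomial k) f).coeff 0) = n := by
    have h3 : (minpoly F f).coeff 0 = n := by
      rw [hmin]; simp [coeff_C]
    rw [hcl, coeff_map] at h3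
    exact h3
  have hFR : Function.Injective (algebraMap (Polynomial k) F) := IsFractionRing.injective _ _
  have hdg0 : d ∣ g₀ := by
    have h3 : algebraMap (Polynomial k) F (-(minpoly (Polynomial k) f).coeff 1 * d)
        = algebraMap (Polynomial k) F (2 * g₀) := by
      rw [map_mul, hc1, ht, div_mul_cancel₀ _ hdF]
    have h4 := hFR h3
    have h5 : d ∣ 2 * g₀ := ⟨-(minpoly (Polynomial k) f).coeff 1, by rw [← h4]; ring⟩
    have hu : IsUnit (2 : Polynomial k) := by
      have : (2 : Polynomial k) = C 2 := by rw [map_ofNat]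
      rw [this]
      exact (IsUnit.mk0 _ h2).map C
    exact (hu.dvd_mul_left).mp h5
  have hdg1 : d ∣ g₁ := by
    apply dvd_of_sq_dvd d g₁ (cubic A B) (cubic_separable A B hΔ).squarefree
    have h3 : algebraMap (Polynomial k) F ((minpoly (Polynomial k) f).coeff 0 * d ^ 2)
        = algebraMap (Polynomial k) F (g₀ ^ 2 - g₁ ^ 2 * cubic A B) := by
      rw [map_mul, hc0, hn, map_pow, div_mul_cancel₀ _ (pow_ne_zero 2 hdF)]
    have h4 := hFR h3
    have h5 : d ^ 2 ∣ g₀ ^ 2 - g₁ ^ 2 * cubic A B := ⟨(minpoly (Polynomial k) f).coeff 0, by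
      rw [← h4]; ring⟩
    have h6 : d ^ 2 ∣ g₀ ^ 2 := pow_dvd_pow_of_dvd hdg0 2
    have h7 : g₁ ^ 2 * cubic A B = g₀ ^ 2 - (g₀ ^ 2 - g₁ ^ 2 * cubic A B) := by ring
    rw [h7]
    exact dvd_sub h6 h5
  obtain ⟨a, ha⟩ := hdg0
  obtain ⟨b, hb⟩ := hdg1
  refine ⟨a, b, ?_⟩
  have h3 : (f - (aeval X a + aeval X b * Y)) * aeval X d = 0 := by
    rw [sub_mul, hfd, ha, hb, map_mul, map_mul]
    ring
  have h4 := (mul_eq_zero.mp h3).resolve_right hdX
  exact sub_eq_zero.mp h4

end Pool.Agent.Helper15.WE
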