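import Pool.Agent.Helper15.WE19
import Pool.Agent.Helper15.LemR4

/-!
# Generic extensions along genus one fibrations
-/

namespace Pool.Agent.Helper15.WE

open Polynomial Curve LemR EC Filter Topology Engine

universe u

/-- Generic extensions, without a base field. -/
def GenExtR {E : Type u} {Ω : Type*} [Field E] [Field Ω] (B : Set E) (D : E → E)
    (σ₀ σ : E →+* Ω) : Prop :=
  ∃ σ' : E →+* Ω, (∀ b ∈ B, σ' b = σ b) ∧
    ∀ (κ : Type u) (s : Finset κ) (a e : κ → E), ∑ j ∈ s, σ' (e j) * σ₀ (a j) = 0 →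
      ∑ j ∈ s, σ (e j) * σ₀ (a j) = 0 ∧ ∑ j ∈ s, σ' (D (e j)) * σ₀ (a j) = 0

theorem genExtR_of_isQuartic {K : Type*} {E : Type u} {Ω : Type*} [Field K] [CharZero K]
    [Field E] [Algebra K E] [Countable E] [Field Ω] [IsAlgClosed Ω] [Uncountable Ω]
    {B : IntermediateField K E} {x y : E} {q : Polynomial B} (h : IsQuartic B x y q)
    (D : Derivation K E E) (hDB : ∀ b ∈ B, D b = 0) (hDx : D x = 1) (σ₀ σ : E →+* Ω)
    (hK : ∀ c : K, σ₀ (algebraMap K E c) = σ (algebraMap K E c)) :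
    GenExtR (B : Set E) D σ₀ σ := by
  let _ : Algebra K Ω := (σ₀.comp (algebraMap K E)).toAlgebra
  let s₀ : E →ₐ[K] Ω := { σ₀ with commutes' := fun c => rfl }
  let s : E →ₐ[K] Ω := { σ with commutes' := fun c => (hK c).symm }
  obtain ⟨σ', h1, h2⟩ := genExt h D hDB hDx s₀ s
  exact ⟨σ', h1, h2⟩

section Restrict

variable {K : Type*} {E M : Type u} [Field K] [Field E] [Field M] [Algebra K E]
  [Algebra K M] [Algebra E M] [IsScalarTower K E M]
  {B₀ : IntermediateField K E} {C₀ : IntermediateField K M} {x y : M} {q : Polynomial C₀}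

omit [IsScalarTower K E M] in
/-- `E` is algebraic over `B₀(e₀)`. -/
theorem isAlgebraic_adjoin (h : IsQuartic C₀ x y q) (hC : ∀ c ∈ C₀, IsAlgebraic B₀ c)
    (e₀ : E) (he₀ : algebraMap E M e₀ ∉ C₀) :
    Algebra.IsAlgebraic (IntermediateField.adjoin B₀ {e₀}) E := by
  have htr : Transcendental C₀ (algebraMap E M e₀) := fun halg =>
    he₀ (h.mem_of_isAlgebraic _ halg)
  have hb : IsTranscendenceBasis C₀ (fun _ : Unit => algebraMap E M e₀) := by
    have hbx := h.isTranscendenceBasis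
    refine AlgebraicIndependent.isTranscendenceBasis_of_lift_trdeg_le_of_finite
      (algebraicIndependent_unique_type_iff.mpr htr) ?_
    rw [← hbx.lift_cardinalMk_eq_trdeg]
  have halg : Algebra.IsAlgebraic (IntermediateField.adjoin C₀
      (Set.range (fun _ : Unit => algebraMap E M e₀))) M := hb.isAlgebraic_field
  set F := IntermediateField.adjoin B₀ {e₀} with hF
  let L : IntermediateField F M := algebraicClosure F M
  have hL : ∀ z : M, z ∈ L ↔ IsAlgebraic F z := fun z => mem_algebraicClosure_iff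
  have hCL : ∀ c : C₀, (c : M) ∈ L := by
    intro c
    rw [hL]
    exact (hC c c.2).tower_top F
  let L' : IntermediateField C₀ M :=
    { L.toSubfield with
      algebraMap_mem' := hCL }
  have he₀F : e₀ ∈ F := IntermediateField.subset_adjoin _ _ rfl
  have he₀L : algebraMap E M e₀ ∈ L' := by
    show algebraMap E M e₀ ∈ L
    rw [hL]
    exact isAlgebraic_algebraMap (⟨e₀, he₀F⟩ : F)
  have hle : IntermediateField.adjoin C₀ (Set.range (fun _ : Unit => algebraMap E M e₀)) ≤ L' := by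
    rw [IntermediateField.adjoin_le_iff]
    rintro _ ⟨_, rfl⟩
    exact he₀L
  have key : ∀ m : M, IsAlgebraic F m := by
    intro m
    obtain ⟨p, hp, hpm⟩ := halg.isAlgebraic m
    let f : IntermediateField.adjoin C₀ (Set.range (fun _ : Unit => algebraMap E M e₀)) →+* L :=
      (algebraMap _ M).codRestrict L.toSubring (fun w => hle w.2)
    have h3 : IsAlgebraic L m := by
      refine ⟨p.map f, (Polynomial.map_ne_zero_iff f.injective).mpr hp, ?_⟩
      rw [aeval_def, eval₂_map]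
      exact hpm
    exact h3.restrictScalars F
  constructor
  intro e
  have h1 := key (algebraMap E M e)
  exact (isAlgebraic_algebraMap_iff (algebraMap E M).injective).mp h1

theorem derivation_unique [CharZero K] (h : IsQuartic C₀ x y q)
    (hC : ∀ c ∈ C₀, IsAlgebraic B₀ c)
    (e₀ : E) (he₀ : algebraMap E M e₀ ∉ C₀) {Ω : Type*} [Field Ω]
    (σ : E →+* Ω) (d : E → Ω) (hadd : ∀ a b, d (a + b) = d a + d b)
    (hmul : ∀ a b, d (a * b) = σ a * d b + σ b * d a) (hB : ∀ b ∈ B₀, d b = 0)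
    (hx : d e₀ = 0) (e : E) : d e = 0 := by
  have : CharZero B₀ := charZero_of_injective_algebraMap (algebraMap K B₀).injective
  refine Der.derivation_eq_zero (k := B₀) σ d hadd hmul (fun b => hB b b.2) {e₀} ?_
    (isAlgebraic_adjoin h hC e₀ he₀) e
  rintro t rfl
  exact hx

theorem genExtR_restrict [CharZero K] [Countable E] {Ω : Type*} [Field Ω] [IsAlgClosed Ω]
    [Uncountable Ω] [Algebra.IsAlgebraic E M] (h : IsQuartic C₀ x y q)
    (hC : ∀ c ∈ C₀, IsAlgebraic B₀ c) (hmem : ∀ e : E, algebraMap E M e ∈ C₀ ↔ e ∈ B₀)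
    (DE : Derivation K E E) (hDE : ∀ e, DE e = 0 ↔ e ∈ B₀) (e₀ : E) (he₀ : DE e₀ = 1)
    (σ₀ σ : E →+* Ω) (hK : ∀ c : K, σ₀ (algebraMap K E c) = σ (algebraMap K E c)) :
    GenExtR (B₀ : Set E) DE σ₀ σ := by
  have hMc : Countable M := by
    rw [← Cardinal.mk_le_aleph0_iff]
    refine le_trans (Algebra.IsAlgebraic.cardinalMk_le_max E M) ?_
    rw [sup_le_iff]
    exact ⟨Cardinal.mk_le_aleph0_iff.mpr inferInstance, le_rfl⟩
  obtain ⟨D₀, hD₀x, hD₀C, -⟩ := h.exists_der
  have hne : algebraMap E M e₀ ∉ C₀ := by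
    rw [hmem, ← hDE, he₀]
    exact one_ne_zero
  set l := D₀ (algebraMap E M e₀) with hl
  have hl0 : l ≠ 0 := fun h0 => hne ((hD₀C _).mp h0)
  have hrel : ∀ e : E, D₀ (algebraMap E M e) = l * algebraMap E M (DE e) := by
    intro e
    rw [← sub_eq_zero]
    refine derivation_unique h hC e₀ hne (algebraMap E M)
      (fun e => D₀ (algebraMap E M e) - l * algebraMap E M (DE e)) ?_ ?_ ?_ ?_ e
    · intro a b
      simp only [map_add]; ring
    · intro a b
      simp only [map_mul, D₀.leibniz, DE.leibniz, smul_eq_mul, map_add]; ring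
    · intro b hb
      show _ - _ = _
      rw [(hD₀C _).mpr ((hmem b).mpr hb), (hDE b).mpr hb, map_zero, mul_zero, sub_zero]
    · show _ - _ = _
      rw [he₀, map_one, mul_one, ← hl, sub_self]
  -- extensions to `M`
  obtain ⟨s₀, hs₀⟩ : ∃ s₀ : M →+* Ω, ∀ e, s₀ (algebraMap E M e) = σ₀ e := by
    let _ : Algebra E Ω := σ₀.toAlgebra
    let f : M →ₐ[E] Ω := IsAlgClosed.lift
    exact ⟨f, fun e => f.commutes e⟩
  obtain ⟨s, hs⟩ : ∃ s : M →+* Ω, ∀ e, s (algebraMap E M e) = σ e := by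
    let _ : Algebra E Ω := σ.toAlgebra
    let f : M →ₐ[E] Ω := IsAlgClosed.lift
    exact ⟨f, fun e => f.commutes e⟩
  obtain ⟨s', hs', hs''⟩ := genExtR_of_isQuartic h D₀ (fun b hb => (hD₀C b).mpr hb) hD₀x s₀ s
    (fun c => by
      rw [IsScalarTower.algebraMap_apply K E M, hs₀, hs, hK])
  refine ⟨s'.comp (algebraMap E M), ?_, ?_⟩
  · intro b hb
    rw [RingHom.comp_apply, hs' _ ((hmem b).mpr hb), hs]
  · intro κ S a e hsum
    have h1 := hs'' κ S (fun j => algebraMap E M (a j)) (fun j => algebraMap E M (e j)) (by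
      simp only [hs₀]
      exact hsum)
    simp only [hs₀, hs] at h1
    refine ⟨h1.1, ?_⟩
    have h2 := h1.2
    simp only [hrel, map_mul, mul_assoc] at h2
    rw [← Finset.mul_sum] at h2
    exact (mul_eq_zero.mp h2).resolve_left ((_root_.map_ne_zero s').mpr hl0)

end Restrict

end Pool.Agent.Helper15.WE
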