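import Pool.Agent.Helper15.WE20

/-!
# Everything that is needed about one fibration
-/

namespace Pool.Agent.Helper15.WE

open Polynomial Curve LemR EC Filter Topology Engine

universe u

/-- The data of one fibration used in the proof of the density theorem. -/
structure Good {K E : Type u} [Field K] [Field E] [Algebra K E] [Algebra K (PadicAlgCl 2)]
    (τ : E →ₐ[K] PadicAlgCl 2) (B : IntermediateField K E) (D : Derivation K E E) (x₀ : E) :
    Prop where
  one : D x₀ = 1
  ker : ∀ e, D e = 0 ↔ e ∈ B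
  supply : Supply τ B D
  der : ∀ (σ : E →+* PadicAlgCl 2) (d : E → PadicAlgCl 2), (∀ a b, d (a + b) = d a + d b) →
    (∀ a b, d (a * b) = σ a * d b + σ b * d a) → (∀ b ∈ B, d b = 0) → d x₀ = 0 → ∀ e, d e = 0
  gen : ∀ σ₀ σ : E →+* PadicAlgCl 2, (∀ c : K, σ₀ (algebraMap K E c) = σ (algebraMap K E c)) →
    GenExtR (B : Set E) D σ₀ σ

theorem good_of_isQuartic {K E : Type u} [Field K] [NumberField K] [Field E] [Algebra K E]
    [Algebra K (PadicAlgCl 2)] (τ : E →ₐ[K] PadicAlgCl 2) (G : Finset E)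
    (hG : IntermediateField.adjoin K (G : Set E) = ⊤) {B : IntermediateField K E} {x y : E}
    {q : Polynomial B} (h : IsQuartic B x y q) :
    ∃ D : Derivation K E E, Good τ B D x := by
  have hKc : Countable K := Emb.countable_numberField K
  have hEc : Countable E := Emb.countable_of_fg K E G hG
  obtain ⟨D, hDx, hDB, hDy⟩ := h.exists_der
  exact ⟨D, hDx, hDB, h.supply τ G hG D hDx (fun b hb => (hDB b).mpr hb) hDy,
    fun σ d hadd hmul hB hx e => h.derivation_eq_zero σ d hadd hmul (fun b => hB b b.2) hx e,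
    fun σ₀ σ hK => genExtR_of_isQuartic h D (fun b hb => (hDB b).mpr hb) hDx σ₀ σ hK⟩

theorem good_of_isEll {K E M : Type u} [Field K] [NumberField K] [Field E] [Field M]
    [Algebra K E] [Algebra K M] [Algebra E M] [IsScalarTower K E M] [IsGalois E M]
    [Algebra K (PadicAlgCl 2)] (τ : E →ₐ[K] PadicAlgCl 2) (G : Finset E)
    (hG : IntermediateField.adjoin K (G : Set E) = ⊤) {B₀ : IntermediateField K E}
    {C₀ : IntermediateField K M} {x y A B : M} (hdes : Descent B₀ C₀)
    (hC : ∀ c ∈ C₀, IsAlgebraic B₀ c) (h : IsEll C₀ x y A B) :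
    ∃ (D : Derivation K E E) (e₀ : E), Good τ B₀ D e₀ := by
  classical
  have hKc : Countable K := Emb.countable_numberField K
  have hEc : Countable E := Emb.countable_of_fg K E G hG
  obtain ⟨DE, e₀, a, b, Ω, iF, iA, V, X₁, Y₁, j, w, hDE, he₀, hΔ, P, hP⟩ := exists_wdata hdes h
  have hne : algebraMap E M e₀ ∉ C₀ := by
    rw [hdes.mem_iff, ← hDE, he₀]
    exact one_ne_zero
  have hlarge := large_of_nontorsion τ G hG a b hΔ P hP
  exact ⟨DE, e₀, he₀, hDE, w.supply (fun c hc => (hDE c).mpr hc) τ G hG hlarge,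
    fun σ d hadd hmul hB hx e => derivation_unique h.isQuartic hC e₀ hne σ d hadd hmul hB hx e,
    fun σ₀ σ hK => genExtR_restrict h.isQuartic hC hdes.mem_iff DE hDE e₀ he₀ σ₀ σ hK⟩

end Pool.Agent.Helper15.WE
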