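import Pool.Agent.Helper15.WE22
import Pool.Agent.Helper15.Final2

/-!
# Potential density of varieties with many fibrations in curves of genus at most one
-/

namespace Pool.Agent.Helper15.WE

open AlgebraicGeometry CategoryTheory Polynomial Curve LemR EC Filter Topology Engine Final

universe u

theorem gen_all_good {K E : Type u} [Field K] [CharZero K] [Field E] [Algebra K E]
    [Algebra.EssFiniteType K E] [Algebra K (PadicAlgCl 2)] (τ : E →ₐ[K] PadicAlgCl 2)
    {ι : Type*} (B : ι → IntermediateField K E) (D : ι → Derivation K E E) (x : ι → E)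
    (h : ∀ i, Good τ (B i) (D i) (x i))
    (hconst : ∀ e, (∀ i, e ∈ B i) → IsAlgebraic K e) (D' : Derivation K E E) : Gen D D' := by
  let k : IntermediateField K E := ⨅ i, B i
  have hk : ∀ i, k ≤ B i := fun i => iInf_le B i
  have hmemk : ∀ e, e ∈ k ↔ ∀ i, e ∈ B i := fun e => by
    rw [← SetLike.mem_coe, IntermediateField.coe_iInf, Set.mem_iInter]
    exact Iff.rfl
  have hCk : CharZero k := charZero_of_injective_algebraMap (algebraMap K k).injective
  have hess : Algebra.EssFiniteType k E := Algebra.EssFiniteType.of_comp K k E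
  let _ : Algebra k (PadicAlgCl 2) := ((τ : E →+* PadicAlgCl 2).comp (algebraMap k E)).toAlgebra
  let σ₀ : E →ₐ[k] PadicAlgCl 2 := { (τ : E →+* PadicAlgCl 2) with commutes' := fun c => rfl }
  have hkD : ∀ Δ : Derivation K E E, ∀ c ∈ k, Δ c = 0 := fun Δ c hc =>
    der_eq_zero_of_isAlgebraic Δ c (hconst c ((hmemk c).mp hc))
  let B₁ : ι → IntermediateField k E := fun i => IntermediateField.extendScalars (hk i)
  let D₁ : ι → Derivation k E E := fun i => liftDer k (D i) (hkD (D i))
  have hB₁ : ∀ i e, e ∈ B i ↔ e ∈ B₁ i := fun i e => by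
    rw [IntermediateField.mem_extendScalars]
  have hDB₁ : ∀ i e, D₁ i e = 0 ↔ e ∈ B₁ i := fun i e => by
    rw [← hB₁, ← (h i).ker]; exact Iff.rfl
  have hDx₁ : ∀ i, D₁ i (x i) = 1 := fun i => (h i).one
  have key : Gen D₁ (liftDer k D' (hkD D')) := by
    refine gen_all D₁ B₁ hDB₁ x hDx₁ ?_ σ₀ ?_ ?_ _
    · intro i σ d hadd hmul hd hdx e
      exact (h i).der (σ : E →+* PadicAlgCl 2) d hadd hmul
        (fun b hb => hd b ((hB₁ i b).mp hb)) hdx e
    · intro i σ
      obtain ⟨σ', h1, h2⟩ := (h i).gen (σ₀ : E →+* PadicAlgCl 2) (σ : E →+* PadicAlgCl 2)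
        (fun c => by
          have e1 := σ₀.commutes (algebraMap K k c)
          have e2 := σ.commutes (algebraMap K k c)
          rw [← IsScalarTower.algebraMap_apply K k E] at e1 e2
          exact e1.trans e2.symm)
      refine ⟨{ σ' with commutes' := fun c => ?_ }, fun b hb => h1 b ((hB₁ i b).mpr hb), h2⟩
      have e1 : σ' (algebraMap k E c) = σ (algebraMap k E c) := h1 _ (hk i c.2)
      exact e1.trans (σ.commutes c)
    · intro e he
      have : e ∈ k := (hmemk e).mpr fun i => (hB₁ i e).mpr (he i)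
      exact ⟨⟨e, this⟩, rfl⟩
  exact gen_restrict k D D₁ (fun i e => rfl) _ key D' (fun e => rfl)

theorem main (K : Type u) [Field K] [NumberField K] (E : Type u) [Field E] [Algebra K E]
    (hfg : (⊤ : IntermediateField K E).FG) {ι : Type*} (B : ι → IntermediateField K E)
    (h : ∀ i, (∃ (x y : E) (q : Polynomial (B i)), IsQuartic (B i) x y q) ∨ IsGenusOne (B i))
    (hB : ∀ e : E, (∀ i, e ∈ B i) → IsAlgebraic K e)
    (A : Type u) [CommRing A] [Algebra K A] [hA : Algebra.FiniteType K A] (f : A →ₐ[K] E)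
    (hf : Function.Injective f) :
    PotentiallyDense K (Spec (CommRingCat.of A))
      (Spec.map (CommRingCat.ofHom (algebraMap K A))) := by
  classical
  have hess : Algebra.EssFiniteType K E := IntermediateField.fg_top_iff.mp hfg
  obtain ⟨G, hG⟩ := hfg
  have hKc : Countable K := Emb.countable_numberField K
  have : Algebra.IsAlgebraic ℚ K := inferInstance
  let ι₀ : K →ₐ[ℚ] PadicAlgCl 2 := IsAlgClosed.lift
  let _ : Algebra K (PadicAlgCl 2) := ι₀.toRingHom.toAlgebra
  obtain ⟨τ⟩ := Emb.exists_embedding K E (PadicAlgCl 2) G hG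
  have hgood : ∀ i, ∃ (D : Derivation K E E) (e₀ : E), Good τ (B i) D e₀ := by
    intro i
    rcases h i with ⟨x, y, q, hq⟩ | hi
    · obtain ⟨D, hD⟩ := good_of_isQuartic τ G hG hq
      exact ⟨D, x, hD⟩
    · exact good_of_isGenusOne τ G hG hi
  choose D x hD using hgood
  refine potentiallyDense_of_density K E ?_ A f hf
  intro A₀
  refine density τ G hG B D (fun i => (hD i).supply) ?_ A₀
  intro D'
  exact gen_all_good τ B D x hD hB D'

end Pool.Agent.Helper15.WE
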