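import Pool.Agent.Helper15.EC2

/-!
# Semilinear maps between Weierstrass curves
-/

namespace Pool.Agent.Helper15.EC

open WeierstrassCurve WeierstrassCurve.Affine

section MapPt

variable {F G : Type*} [Field F] [Field G] [DecidableEq F] [DecidableEq G]

omit [DecidableEq F] in
theorem IsAt.eq_of_isAt {c p r : F} {P Q : (cub c p r).Point} {x y : F}
    (hP : IsAt c p r P x y) (hQ : IsAt c p r Q x y) : P = Q := by
  obtain ⟨h, rfl⟩ := hP
  obtain ⟨h', rfl⟩ := hQ
  rfl

omit [DecidableEq F] [DecidableEq G] in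
/-- The map `(x, y) ↦ (u ^ 2 φ(x), u ^ 3 φ(y))` on points. -/
noncomputable def mapFun (φ : F →+* G) (u : G) (a b : F) (a' b' : G)
    (hns : ∀ x y : F, (cub 0 a b).Nonsingular x y →
      (cub 0 a' b').Nonsingular (u ^ 2 * φ x) (u ^ 3 * φ y)) :
    (cub 0 a b).Point → (cub 0 a' b').Point
  | .zero => 0
  | .some x y h => .some (u ^ 2 * φ x) (u ^ 3 * φ y) (hns x y h)

omit [DecidableEq F] [DecidableEq G] in
theorem mapFun_isAt (φ : F →+* G) (u : G) (a b : F) (a' b' : G)
    (hns : ∀ x y : F, (cub 0 a b).Nonsingular x y →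
      (cub 0 a' b').Nonsingular (u ^ 2 * φ x) (u ^ 3 * φ y)) {P : (cub 0 a b).Point} {x y : F}
    (hP : IsAt 0 a b P x y) :
    IsAt 0 a' b' (mapFun φ u a b a' b' hns P) (u ^ 2 * φ x) (u ^ 3 * φ y) := by
  obtain ⟨h, rfl⟩ := hP
  exact ⟨hns x y h, rfl⟩

theorem exists_mapPt (φ : F →+* G) (u : G) (hu : u ≠ 0) (a b : F) (a' b' : G)
    (ha : a' = u ^ 4 * φ a) (hb : b' = u ^ 6 * φ b) (h2F : (2 : F) ≠ 0)
    (hΔ : (cub 0 a' b').Δ ≠ 0) :
    ∃ f : (cub 0 a b).Point →+ (cub 0 a' b').Point, ∀ P x y, IsAt 0 a b P x y →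
      IsAt 0 a' b' (f P) (u ^ 2 * φ x) (u ^ 3 * φ y) := by
  have h2G : (2 : G) ≠ 0 := by
    have := (map_ne_zero φ).mpr h2F
    rwa [map_ofNat] at this
  have hns : ∀ x y : F, (cub 0 a b).Nonsingular x y →
      (cub 0 a' b').Nonsingular (u ^ 2 * φ x) (u ^ 3 * φ y) := by
    intro x y h
    apply cub_nonsingular _ _ _ _ _ hΔ
    have h1 := (cub_equation 0 a b x y).mp h.1
    have h2 := congrArg φ h1
    simp only [map_pow, map_add, map_mul, map_zero] at h2
    rw [ha, hb]
    linear_combination u ^ 6 * h2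
  let f := mapFun φ u a b a' b' hns
  have hf : ∀ {P : (cub 0 a b).Point} {x y : F}, IsAt 0 a b P x y →
      IsAt 0 a' b' (f P) (u ^ 2 * φ x) (u ^ 3 * φ y) := fun h => mapFun_isAt φ u a b a' b' hns h
  have f0 : f 0 = 0 := rfl
  have fneg : ∀ P, f (-P) = - f P := by
    intro P
    by_cases hP : P = 0
    · rw [hP, neg_zero, f0, neg_zero]
    · obtain ⟨x, y, h⟩ := exists_isAt hP
      have h1 := hf h.neg
      have h2 := (hf h).neg
      have e : u ^ 3 * φ (-y) = -(u ^ 3 * φ y) := by rw [map_neg]; ring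
      rw [e] at h1
      exact h1.eq_of_isAt h2
  have fadd : ∀ P Q, f (P + Q) = f P + f Q := by
    intro P Q
    by_cases hP : P = 0
    · rw [hP, zero_add, f0, zero_add]
    by_cases hQ : Q = 0
    · rw [hQ, add_zero, f0, add_zero]
    obtain ⟨x, y, h⟩ := exists_isAt hP
    obtain ⟨x', y', h'⟩ := exists_isAt hQ
    by_cases hx : x = x'
    · subst hx
      rcases h.eq_or_neg h' with heq | heq
      · subst heq
        by_cases hy : y = 0
        · subst hy
          have h3 : P = -P := by
            have := h.neg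
            rw [neg_zero] at this
            exact h.eq_of_isAt this
          have h4 : P + P = 0 := by
            conv_lhs => rw [h3]
            rw [← neg_add_rev]
            nth_rewrite 1 [h3]
            rw [neg_add_cancel, neg_zero]
          have h5 : f P = - f P := by rw [← fneg, ← h3]
          have h6 : f P + f P = 0 := by
            nth_rewrite 1 [h5]
            rw [neg_add_cancel]
          rw [h4, h6, f0]
        · have h3 := hf (h.double h2F hy _ rfl)
          have hy' : u ^ 3 * φ y ≠ 0 := mul_ne_zero (pow_ne_zero 3 hu) ((map_ne_zero φ).mpr hy)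
          have h4 := (hf h).double h2G hy' (u * φ ((3 * x ^ 2 + 2 * 0 * x + a) / (2 * y))) (by
            simp only [map_div₀, map_add, map_mul, map_pow, map_ofNat, map_zero]
            have hφy : φ y ≠ 0 := (map_ne_zero φ).mpr hy
            rw [ha]
            field_simp
            ring)
          have e1 : u ^ 2 * φ (((3 * x ^ 2 + 2 * 0 * x + a) / (2 * y)) ^ 2 - 0 - x - x)
              = (u * φ ((3 * x ^ 2 + 2 * 0 * x + a) / (2 * y))) ^ 2 - 0 - u ^ 2 * φ x
                - u ^ 2 * φ x := by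
            simp only [map_sub, map_pow, map_zero]
            ring
          have e2 : u ^ 3 * φ (-(((3 * x ^ 2 + 2 * 0 * x + a) / (2 * y)) *
              ((((3 * x ^ 2 + 2 * 0 * x + a) / (2 * y)) ^ 2 - 0 - x - x) - x) + y))
              = -((u * φ ((3 * x ^ 2 + 2 * 0 * x + a) / (2 * y))) *
                (((u * φ ((3 * x ^ 2 + 2 * 0 * x + a) / (2 * y))) ^ 2 - 0 - u ^ 2 * φ x
                - u ^ 2 * φ x) - u ^ 2 * φ x) + u ^ 3 * φ y) := by
            simp only [map_neg, map_add, map_mul, map_sub, map_pow, map_zero]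
            ring
          rw [e1, e2] at h3
          exact h3.eq_of_isAt h4
      · rw [heq, neg_add_cancel, f0, fneg, neg_add_cancel]
    · have h3 := hf (h.add h' hx _ rfl)
      have hx' : u ^ 2 * φ x ≠ u ^ 2 * φ x' := by
        intro h0
        exact hx (φ.injective (mul_left_cancel₀ (pow_ne_zero 2 hu) h0))
      have h4 := (hf h).add (hf h') hx' (u * φ ((y - y') / (x - x'))) (by
        have h5 : φ x - φ x' ≠ 0 := by
          rw [← map_sub]
          exact (map_ne_zero φ).mpr (sub_ne_zero.mpr hx)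
        simp only [map_div₀, map_sub]
        rw [← mul_sub, ← mul_sub]
        field_simp)
      have e1 : u ^ 2 * φ (((y - y') / (x - x')) ^ 2 - 0 - x - x')
          = (u * φ ((y - y') / (x - x'))) ^ 2 - 0 - u ^ 2 * φ x - u ^ 2 * φ x' := by
        simp only [map_sub, map_pow, map_zero]
        ring
      have e2 : u ^ 3 * φ (-(((y - y') / (x - x')) * ((((y - y') / (x - x')) ^ 2 - 0 - x - x')
          - x) + y)) = -((u * φ ((y - y') / (x - x'))) * (((u * φ ((y - y') / (x - x'))) ^ 2 - 0
            - u ^ 2 * φ x - u ^ 2 * φ x') - u ^ 2 * φ x) + u ^ 3 * φ y) := by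
        simp only [map_neg, map_add, map_mul, map_sub, map_pow, map_zero]
        ring
      rw [e1, e2] at h3
      exact h3.eq_of_isAt h4
  exact ⟨{ toFun := f, map_zero' := f0, map_add' := fadd }, fun P x y h => hf h⟩

end MapPt

end Pool.Agent.Helper15.EC
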