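import Pool.Agent.Helper15.Rel
import Pool.Agent.Helper15.WE3
import Pool.Agent.Helper15.WE4

/-!
# The place of the diagonal
-/

namespace Pool.Agent.Helper15.WE

open Polynomial Curve LemR
open scoped TensorProduct

universe u

variable {K : Type*} {M : Type u} {Ω : Type*} [Field K] [Field M] [Algebra K M] [Field Ω]
  [Algebra K Ω] [Algebra M Ω] [IsScalarTower K M Ω]

/-- The place of the diagonal. -/
theorem exists_place [CharZero K] {C : IntermediateField K M} {x y : M} {q : Polynomial C}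
    (h : IsQuartic C x y q)
    (i₂ : M →ₐ[K] Ω) (hi₂ : ∀ c ∈ C, i₂ c = algebraMap M Ω c) (ht : Transcendental M (i₂ x)) :
    ∃ V : ValuationSubring Ω, (∀ m : M, V.valuation (algebraMap M Ω m) ≤ 1) ∧
      ∀ m : M, V.valuation (i₂ m - algebraMap M Ω m) < 1 := by
  classical
  obtain ⟨D, hDx, hDC, -⟩ := h.exists_der
  let i₁ : M →ₐ[K] Ω := IsScalarTower.toAlgHom K M Ω
  have hi₁ : ∀ m, i₁ m = algebraMap M Ω m := fun m => rfl
  let F : Subfield Ω := (algebraMap M Ω).fieldRange
  have hF : ∀ m, i₁ m ∈ F := fun m => ⟨m, rfl⟩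
  have hrel : ∀ (κ : Type u) (S : Finset κ) (a e : κ → M), ∑ j ∈ S, i₂ (e j) * i₁ (a j) = 0 →
      ∑ j ∈ S, i₁ (e j) * i₁ (a j) = 0 := by
    intro κ S a e hsum
    refine (relations h D (fun b hb => (hDC b).mpr hb) hDx i₁ i₁ i₂ F hF hF hi₂ ?_ S a e hsum).1
    intro f hf
    by_contra hne
    apply ht
    let e' : M ≃+* F := RingEquiv.ofBijective (algebraMap M Ω).rangeRestrictField
      ⟨(algebraMap M Ω).rangeRestrictField.injective, by
        rintro ⟨_, ⟨m, rfl⟩⟩
        exact ⟨m, rfl⟩⟩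
    refine ⟨f.map (e'.symm : F →+* M), (Polynomial.map_ne_zero_iff e'.symm.injective).mpr hne, ?_⟩
    rw [aeval_def, eval₂_map]
    have : (algebraMap M Ω).comp (e'.symm : F →+* M) = F.subtype := by
      ext z
      have h1 : ((e' (e'.symm z) : F) : Ω) = z := by rw [e'.apply_symm_apply]
      exact h1
    rw [this]
    exact hf
  let P : M ⊗[K] M →ₐ[K] Ω := Algebra.TensorProduct.productMap i₂ i₁
  let μ : M ⊗[K] M →ₐ[K] M := Algebra.TensorProduct.productMap (AlgHom.id K M) (AlgHom.id K M)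
  have hker : ∀ ξ, P ξ = 0 → μ ξ = 0 := by
    intro ξ hξ
    obtain ⟨S, hS⟩ := TensorProduct.exists_finset ξ
    have h1 : ∑ j ∈ S, i₂ j.1 * i₁ j.2 = 0 := by
      rw [← hξ, hS, map_sum]
      refine Finset.sum_congr rfl fun j _ => ?_
      rw [Algebra.TensorProduct.productMap_apply_tmul]
    have h2 := hrel (M × M) S (fun j => j.2) (fun j => j.1) h1
    have h3 : i₁ (μ ξ) = 0 := by
      rw [hS, map_sum, map_sum, ← h2]
      refine Finset.sum_congr rfl fun j _ => ?_
      rw [Algebra.TensorProduct.productMap_apply_tmul, map_mul]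
      rfl
    exact (map_eq_zero i₁).mp h3
  let S : Subring Ω := P.toRingHom.range
  let I : Ideal S := (RingHom.ker μ.toRingHom).map P.toRingHom.rangeRestrict
  have hI : I ≠ ⊤ := by
    intro h0
    rw [Ideal.eq_top_iff_one] at h0
    rw [Ideal.mem_map_iff_of_surjective _ P.toRingHom.rangeRestrict_surjective] at h0
    obtain ⟨ξ, hξ, h1⟩ := h0
    have h2 : P (ξ - 1) = 0 := by
      rw [map_sub, map_one]
      have h3 := congrArg Subtype.val h1
      have h4 : P ξ = 1 := h3
      rw [h4, sub_self]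
    have h3 := hker _ h2
    have h4 : μ ξ = 0 := hξ
    rw [map_sub, map_one, h4, zero_sub, neg_eq_zero] at h3
    exact one_ne_zero h3
  obtain ⟨V, hV, hVI⟩ := Ideal.image_subset_nonunits_valuationSubring I hI
  refine ⟨V, fun m => ?_, fun m => ?_⟩
  · rw [V.valuation_le_one_iff]
    apply hV
    refine ⟨1 ⊗ₜ m, ?_⟩
    show P (1 ⊗ₜ m) = _
    rw [Algebra.TensorProduct.productMap_apply_tmul, map_one, one_mul]
    rfl
  · rw [← ValuationSubring.mem_nonunits_iff]
    apply hVI
    refine ⟨P.toRingHom.rangeRestrict (m ⊗ₜ 1 - 1 ⊗ₜ m), ?_, ?_⟩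
    · apply Ideal.mem_map_of_mem
      show μ _ = 0
      rw [map_sub, Algebra.TensorProduct.productMap_apply_tmul,
        Algebra.TensorProduct.productMap_apply_tmul]
      simp
    · have h5 : S.subtype (P.toRingHom.rangeRestrict (m ⊗ₜ 1 - 1 ⊗ₜ m))
          = P (m ⊗ₜ 1 - 1 ⊗ₜ m) := rfl
      rw [h5, map_sub, Algebra.TensorProduct.productMap_apply_tmul,
        Algebra.TensorProduct.productMap_apply_tmul, map_one, map_one, mul_one, one_mul]
      rfl

end Pool.Agent.Helper15.WE
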