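import Pool.Agent.Helper15.WE5
import Pool.Agent.Helper15.EC5

/-!
# The difference of two generic points
-/

namespace Pool.Agent.Helper15.WE

open Polynomial Curve LemR EC

universe u

/-- `M` is the function field of the elliptic curve `y ^ 2 = x ^ 3 + A x + B` over `C`. -/
structure IsEll {K M : Type*} [Field K] [Field M] [Algebra K M] (C : IntermediateField K M)
    (x y A B : M) : Prop where
  memA : A ∈ C
  memB : B ∈ C
  disc : 4 * A ^ 3 + 27 * B ^ 2 ≠ 0
  transc : Transcendental C x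
  eqn : y ^ 2 = x ^ 3 + A * x + B
  top : IntermediateField.adjoin C {x, y} = ⊤

section Basic

variable {K M : Type*} [Field K] [Field M] [Algebra K M] {C : IntermediateField K M}
  {x y A B : M}

theorem IsEll.isQuartic (h : IsEll C x y A B) :
    IsQuartic C x y (cubic (⟨A, h.memA⟩ : C) ⟨B, h.memB⟩) where
  transc := h.transc
  sep := by
    apply cubic_separable
    intro h0
    exact h.disc (congrArg Subtype.val h0)
  one_le := by rw [cubic_natDegree]; norm_num
  le_four := by rw [cubic_natDegree]; norm_num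
  eqn := by
    rw [aeval_cubic, h.eqn]
    rfl
  top := h.top

theorem IsEll.notMem (h : IsEll C x y A B) : x ∉ C := by
  intro hx
  apply h.transc
  have : x = algebraMap C M ⟨x, hx⟩ := rfl
  rw [this]
  exact isAlgebraic_algebraMap _

theorem IsEll.y_ne_zero (h : IsEll C x y A B) : y ≠ 0 := h.isQuartic.y_ne_zero

theorem disc_iff {F : Type*} [Field F] (h2 : (2 : F) ≠ 0) (A B : F)
    (h : 4 * A ^ 3 + 27 * B ^ 2 ≠ 0) : (cub 0 A B).Δ ≠ 0 := by
  rw [cub_Δ]
  intro h0
  have h16 : (16 : F) ≠ 0 := by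
    have : (16 : F) = 2 ^ 4 := by norm_num
    rw [this]; exact pow_ne_zero 4 h2
  apply h
  have h1 : (16 : F) * (4 * A ^ 3 + 27 * B ^ 2) = 0 := by linear_combination -h0
  exact (mul_eq_zero.mp h1).resolve_left h16

end Basic

section Diff

variable {K : Type*} {M : Type u} {Ω : Type*} [Field K] [Field M] [Algebra K M] [Field Ω]
  [Algebra K Ω] [Algebra M Ω] [IsScalarTower K M Ω] {C : IntermediateField K M}
  {x y A B : M}

theorem fixed_mem [CharZero K] {q : Polynomial C} (h : IsQuartic C x y q)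
    (i₂ : M →ₐ[K] Ω) (hi₂ : ∀ c ∈ C, i₂ c = algebraMap M Ω c) (ht : Transcendental M (i₂ x))
    (m : M) (hm : i₂ m = algebraMap M Ω m) : m ∈ C := by
  classical
  obtain ⟨D, hDx, hDC, -⟩ := h.exists_der
  let i₁ : M →ₐ[K] Ω := IsScalarTower.toAlgHom K M Ω
  let F : Subfield Ω := (algebraMap M Ω).fieldRange
  have hF : ∀ m, i₁ m ∈ F := fun m => ⟨m, rfl⟩
  have h1 := (relations h D (fun b hb => (hDC b).mpr hb) hDx i₁ i₁ i₂ F hF hF hi₂ ?_
    (Finset.univ : Finset Bool) (fun b => if b then 1 else m) (fun b => if b then m else -1)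
    ?_).2
  · have h2 : i₂ (D m) = 0 := by simpa using h1
    exact (hDC m).mp ((map_eq_zero i₂).mp h2)
  · intro f hf
    by_contra hne
    apply ht
    let e' : M ≃+* F := RingEquiv.ofBijective (algebraMap M Ω).rangeRestrictField
      ⟨(algebraMap M Ω).rangeRestrictField.injective, by
        rintro ⟨_, ⟨m, rfl⟩⟩
        exact ⟨m, rfl⟩⟩
    refine ⟨f.map (e'.symm : F →+* M), (Polynomial.map_ne_zero_iff e'.symm.injective).mpr hne, ?_⟩
    rw [aeval_def, eval₂_map]
    have : (algebraMap M Ω).comp (e'.symm : F →+* M) = F.subtype := by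
      ext z
      have h1 : ((e' (e'.symm z) : F) : Ω) = z := by rw [e'.apply_symm_apply]
      exact h1
    rw [this]
    exact hf
  · have h3 : i₁ m = algebraMap M Ω m := rfl
    simp [hm, h3]

/-- The data of the universal point. -/
structure Univ (C : IntermediateField K M) (V : ValuationSubring Ω) (i₂ : M →ₐ[K] Ω) : Prop where
  le_one : ∀ m : M, V.valuation (algebraMap M Ω m) ≤ 1
  lt_one : ∀ m : M, V.valuation (i₂ m - algebraMap M Ω m) < 1
  fixC : ∀ c ∈ C, i₂ c = algebraMap M Ω c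
  memC : ∀ m : M, i₂ m = algebraMap M Ω m → m ∈ C

variable {V : ValuationSubring Ω} {i₂ : M →ₐ[K] Ω}

omit [IsScalarTower K M Ω] in
theorem Univ.val_one (hu : Univ C V i₂) (m : M) (hm : m ≠ 0) :
    V.valuation (algebraMap M Ω m) = 1 := by
  apply le_antisymm (hu.le_one m)
  have h1 := hu.le_one m⁻¹
  rw [map_inv₀, map_inv₀] at h1
  have hne : V.valuation (algebraMap M Ω m) ≠ 0 := by
    rw [Ne, map_eq_zero, map_eq_zero]; exact hm
  rwa [inv_le_one₀ (zero_lt_iff.mpr hne)] at h1

omit [IsScalarTower K M Ω] in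
theorem Univ.val_le (hu : Univ C V i₂) (m : M) : V.valuation (i₂ m) ≤ 1 := by
  have h1 : i₂ m = (i₂ m - algebraMap M Ω m) + algebraMap M Ω m := by ring
  rw [h1]
  exact le_trans (Valuation.map_add _ _ _) (max_le (hu.lt_one m).le (hu.le_one m))

omit [IsScalarTower K M Ω] in
/-- If an element of `M` lies in the maximal ideal it vanishes. -/
theorem Univ.eq_zero (hu : Univ C V i₂) (m : M) (hm : V.valuation (algebraMap M Ω m) < 1) :
    m = 0 := by
  by_contra hne
  rw [hu.val_one m hne] at hm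
  exact lt_irrefl _ hm

omit [IsScalarTower K M Ω] in
theorem IsEll.exists_diff [CharZero K] [DecidableEq Ω] (h : IsEll C x y A B)
    (hu : Univ C V i₂) :
    ∃ X Y : Ω, AtInf M V X ∧ Y ^ 2 = aeval X (cubic A B) ∧
      IntermediateField.adjoin M {X, Y} = IntermediateField.adjoin M (Set.range i₂) ∧
      i₂ x = ((Y - algebraMap M Ω y) / (X - algebraMap M Ω x)) ^ 2 - X - algebraMap M Ω x ∧
      ∀ P₁ P₂ : (cub 0 (algebraMap M Ω A) (algebraMap M Ω B)).Point,
        IsAt 0 _ _ P₁ (algebraMap M Ω x) (algebraMap M Ω y) → IsAt 0 _ _ P₂ (i₂ x) (i₂ y) →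
        IsAt 0 _ _ (P₂ - P₁) X Y := by
  have hczM : CharZero M := charZero_of_injective_algebraMap (algebraMap K M).injective
  have hczΩ : CharZero Ω := charZero_of_injective_algebraMap (algebraMap K Ω).injective
  set v := V.valuation with hv
  set ι := algebraMap M Ω with hι
  set l : Ω := (i₂ y - -ι y) / (i₂ x - ι x) with hl
  have hxne : i₂ x ≠ ι x := fun h0 => h.notMem (hu.memC x h0)
  have hx0 : i₂ x - ι x ≠ 0 := sub_ne_zero.mpr hxne
  have hdiscΩ : 4 * ι A ^ 3 + 27 * ι B ^ 2 ≠ 0 := by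
    have := (map_ne_zero ι).mpr h.disc
    rwa [map_add, map_mul, map_mul, map_pow, map_pow, map_ofNat, map_ofNat] at this
  have hΔ : (cub 0 (ι A) (ι B)).Δ ≠ 0 := disc_iff two_ne_zero _ _ hdiscΩ
  have hE1 : ι y ^ 2 = ι x ^ 3 + 0 * ι x ^ 2 + ι A * ι x + ι B := by
    rw [← map_pow, h.eqn]; simp
  have hE2 : i₂ y ^ 2 = i₂ x ^ 3 + 0 * i₂ x ^ 2 + ι A * i₂ x + ι B := by
    rw [← map_pow, h.eqn, map_add, map_add, map_mul, map_pow, hu.fixC A h.memA,
      hu.fixC B h.memB]
    ring
  -- the points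
  let P₁ : (cub 0 (ι A) (ι B)).Point := .some _ _ (cub_nonsingular _ _ _ _ _ hΔ hE1)
  let P₂ : (cub 0 (ι A) (ι B)).Point := .some _ _ (cub_nonsingular _ _ _ _ _ hΔ hE2)
  have hP₁ : IsAt 0 _ _ P₁ (ι x) (ι y) := ⟨_, rfl⟩
  have hP₂ : IsAt 0 _ _ P₂ (i₂ x) (i₂ y) := ⟨_, rfl⟩
  have hQ' : ∀ P₁ P₂ : (cub 0 (ι A) (ι B)).Point, IsAt 0 _ _ P₁ (ι x) (ι y) →
      IsAt 0 _ _ P₂ (i₂ x) (i₂ y) → IsAt 0 _ _ (P₂ - P₁) (l ^ 2 - 0 - i₂ x - ι x)
        (-(l * ((l ^ 2 - 0 - i₂ x - ι x) - i₂ x) + i₂ y)) := by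
    intro P₁ P₂ hP₁ hP₂
    rw [sub_eq_add_neg]
    exact hP₂.add hP₁.neg hxne l hl
  have hQ := hQ' P₁ P₂ hP₁ hP₂
  set X : Ω := l ^ 2 - 0 - i₂ x - ι x with hX
  set Y : Ω := -(l * (X - i₂ x) + i₂ y) with hY
  -- the valuation of `X`
  have hvy : v (i₂ y - -ι y) = 1 := by
    have h1 : i₂ y - -ι y = (i₂ y - ι y) + ι (2 * y) := by
      rw [map_mul, map_ofNat]; ring
    have h2 : v (ι (2 * y)) = 1 := hu.val_one _ (mul_ne_zero two_ne_zero h.y_ne_zero)
    rw [h1, Valuation.map_add_eq_of_lt_right, h2]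
    rw [h2]; exact hu.lt_one y
  have hvl : 1 < v l := by
    have hpos : 0 < v (i₂ x - ι x) := zero_lt_iff.mpr ((Valuation.ne_zero_iff _).mpr hx0)
    rw [hl, map_div₀, hvy, one_lt_div₀ hpos]
    exact hu.lt_one x
  have hvX : v X = v l ^ 2 := by
    have h1 : X = (-(i₂ x) - ι x) + l ^ 2 := by rw [hX]; ring
    have h2 : v (-(i₂ x) - ι x) ≤ 1 := by
      refine le_trans (Valuation.map_sub _ _ _) (max_le ?_ (hu.le_one x))
      rw [Valuation.map_neg]
      exact hu.val_le x
    rw [h1, Valuation.map_add_eq_of_lt_right, map_pow]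
    rw [map_pow]
    exact lt_of_le_of_lt h2 (one_lt_pow₀ hvl two_ne_zero)
  have hvX1 : 1 < v X := by rw [hvX]; exact one_lt_pow₀ hvl two_ne_zero
  have hAt : AtInf M V X := ⟨fun a => (V.valuation_le_one_iff _).mp (hu.le_one a), fun hmem =>
    absurd ((V.valuation_le_one_iff _).mpr hmem) (not_le.mpr hvX1)⟩
  have hXx : X ≠ ι x := by
    intro h0
    rw [h0] at hvX1
    exact absurd (hu.le_one x) (not_le.mpr hvX1)
  have hadd := hQ.add hP₁ hXx _ rfl
  rw [sub_add_cancel] at hadd
  obtain ⟨e1, e2⟩ := hP₂.unique hadd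
  refine ⟨X, Y, hAt, ?_, ?_, by rw [e1, sub_zero], hQ'⟩
  · rw [hQ.eq, aeval_cubic]; ring
  · apply le_antisymm
    · rw [IntermediateField.adjoin_le_iff]
      have hx₂ : i₂ x ∈ IntermediateField.adjoin M (Set.range i₂) :=
        IntermediateField.subset_adjoin _ _ ⟨x, rfl⟩
      have hy₂ : i₂ y ∈ IntermediateField.adjoin M (Set.range i₂) :=
        IntermediateField.subset_adjoin _ _ ⟨y, rfl⟩
      have hx₁ : ι x ∈ IntermediateField.adjoin M (Set.range i₂) :=
        IntermediateField.algebraMap_mem _ _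
      have hy₁ : ι y ∈ IntermediateField.adjoin M (Set.range i₂) :=
        IntermediateField.algebraMap_mem _ _
      have hlm : l ∈ IntermediateField.adjoin M (Set.range i₂) :=
        div_mem (sub_mem hy₂ (neg_mem hy₁)) (sub_mem hx₂ hx₁)
      have hXm : X ∈ IntermediateField.adjoin M (Set.range i₂) :=
        sub_mem (sub_mem (sub_mem (pow_mem hlm 2) (zero_mem _)) hx₂) hx₁
      rintro z (rfl | hz)
      · exact hXm
      · rw [Set.mem_singleton_iff] at hz
        rw [hz]
        exact neg_mem (add_mem (mul_mem hlm (sub_mem hXm hx₂)) hy₂)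
    · have hXm : X ∈ IntermediateField.adjoin M {X, Y} :=
        IntermediateField.subset_adjoin _ _ (by simp)
      have hYm : Y ∈ IntermediateField.adjoin M {X, Y} :=
        IntermediateField.subset_adjoin _ _ (by simp)
      have hx₁ : ι x ∈ IntermediateField.adjoin M {X, Y} :=
        IntermediateField.algebraMap_mem _ _
      have hy₁ : ι y ∈ IntermediateField.adjoin M {X, Y} :=
        IntermediateField.algebraMap_mem _ _
      have hlm : (Y - ι y) / (X - ι x) ∈ IntermediateField.adjoin M {X, Y} :=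
        div_mem (sub_mem hYm hy₁) (sub_mem hXm hx₁)
      have hx₂ : i₂ x ∈ IntermediateField.adjoin M {X, Y} := by
        rw [e1]
        exact sub_mem (sub_mem (sub_mem (pow_mem hlm 2) (zero_mem _)) hXm) hx₁
      have hy₂ : i₂ y ∈ IntermediateField.adjoin M {X, Y} := by
        rw [e2, ← e1]
        exact neg_mem (add_mem (mul_mem hlm (sub_mem hx₂ hXm)) hYm)
      rw [IntermediateField.adjoin_le_iff]
      rintro _ ⟨m, rfl⟩
      have hm : m ∈ IntermediateField.adjoin C {x, y} := by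
        rw [h.top]; exact IntermediateField.mem_top
      induction hm using IntermediateField.adjoin_induction with
      | mem z hz =>
        rcases hz with rfl | hz
        · exact hx₂
        · rw [Set.mem_singleton_iff] at hz
          rw [hz]; exact hy₂
      | algebraMap c =>
        have : i₂ (algebraMap C M c) = ι c := hu.fixC _ c.2
        show i₂ (algebraMap C M c) ∈ _
        rw [this]
        exact IntermediateField.algebraMap_mem _ _
      | add z w _ _ hz hw => 
        show i₂ (z + w) ∈ _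
        rw [map_add]; exact add_mem hz hw
      | inv z _ hz =>
        show i₂ z⁻¹ ∈ _
        rw [map_inv₀]; exact inv_mem hz
      | mul z w _ _ hz hw =>
        show i₂ (z * w) ∈ _
        rw [map_mul]; exact mul_mem hz hw

end Diff

end Pool.Agent.Helper15.WE
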