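import Pool.Agent.Helper15.WE6

/-!
# The derivative along the fibre
-/

namespace Pool.Agent.Helper15.WE

open Polynomial Curve LemR EC

universe u

variable {K : Type*} {M : Type u} {Ω : Type*} [Field K] [Field M] [Algebra K M] [Field Ω]
  [Algebra K Ω] [Algebra M Ω] {C₀ : IntermediateField K M}
  {x y A B : M} {V : ValuationSubring Ω} {i₂ : M →ₐ[K] Ω}

theorem residue_x [CharZero M] (hu : Univ C₀ V i₂) {X Y : Ω} (hAt : AtInf M V X)
    (hE : Y ^ 2 = aeval X (cubic A B))
    (hx : i₂ x = ((Y - algebraMap M Ω y) / (X - algebraMap M Ω x)) ^ 2 - X - algebraMap M Ω x) :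
    V.valuation ((i₂ x - algebraMap M Ω x) * (Y / X) + algebraMap M Ω (2 * y)) < 1 := by
  set v := V.valuation with hv
  set ι := algebraMap M Ω with hι
  have hEE : Y ^ 2 = X ^ 3 + ι A * X + ι B := by rw [hE, aeval_cubic]
  have hX1 : 1 < v X := hAt.one_lt
  have hX0 : X ≠ 0 := by rintro rfl; exact hAt.notMem (zero_mem _)
  have hvXx : v (X - ι x) = v X := by
    rw [sub_eq_add_neg, Valuation.map_add_eq_of_lt_left]
    rw [Valuation.map_neg]
    exact lt_of_le_of_lt (hu.le_one x) hX1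
  have hXx0 : X - ι x ≠ 0 := by
    intro h0
    rw [h0, map_zero] at hvXx
    rw [← hvXx] at hX1
    exact not_lt_zero hX1
  let a : Polynomial M := C (-(4 * x * y)) * Polynomial.X ^ 2
    + C (2 * x ^ 2 * y - 2 * y * A) * Polynomial.X + C (-(2 * y * B))
  let b : Polynomial M := C (A + 3 * x ^ 2) * Polynomial.X + C (B + y ^ 2 - 2 * x ^ 3)
  have ha : a.natDegree ≤ 2 := by
    simp only [a]; compute_degree
  have hb : b.natDegree ≤ 1 := by
    simp only [b]; compute_degree
  have e1 : (i₂ x - ι x) * (Y / X) * (X * (X - ι x) ^ 2)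
      = Y * ((Y - ι y) ^ 2 - (X + 2 * ι x) * (X - ι x) ^ 2) := by
    rw [hx]
    field_simp
    ring
  have key : ((i₂ x - ι x) * (Y / X) + ι (2 * y)) * (X * (X - ι x) ^ 2)
      = aeval X a + aeval X b * Y := by
    rw [add_mul, e1]
    simp only [a, b, map_add, map_mul, map_pow, map_neg, map_sub, aeval_C, aeval_X, map_ofNat]
    rw [← hι]
    linear_combination (Y - 2 * ι y) * hEE
  have hvY := hAt.val_Y hEE
  have h5 : v (aeval X a + aeval X b * Y) ^ 2 ≤ v X ^ 5 := by
    have ha' : v (aeval X a) ^ 2 ≤ v X ^ 5 := by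
      calc v (aeval X a) ^ 2 ≤ (v X ^ 2) ^ 2 := pow_le_pow_left₀ zero_le (hAt.val_le a 2 ha) 2
        _ = v X ^ 4 := by rw [← pow_mul]
        _ ≤ v X ^ 5 := pow_le_pow_right₀ hX1.le (by norm_num)
    have hb' : v (aeval X b * Y) ^ 2 ≤ v X ^ 5 := by
      calc v (aeval X b * Y) ^ 2 = v (aeval X b) ^ 2 * v Y ^ 2 := by rw [map_mul, mul_pow]
        _ ≤ (v X ^ 1) ^ 2 * v Y ^ 2 :=
            mul_le_mul_left (pow_le_pow_left₀ zero_le (hAt.val_le b 1 hb) 2) _
        _ = v X ^ 5 := by rw [hvY, ← pow_mul, ← pow_add]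
    rcases le_total (v (aeval X a)) (v (aeval X b * Y)) with hle | hle
    · exact le_trans (pow_le_pow_left₀ zero_le
        (le_trans (Valuation.map_add _ _ _) (max_le hle le_rfl)) 2) hb'
    · exact le_trans (pow_le_pow_left₀ zero_le
        (le_trans (Valuation.map_add _ _ _) (max_le le_rfl hle)) 2) ha'
  rw [← key, map_mul, mul_pow] at h5
  have h6 : v (X * (X - ι x) ^ 2) ^ 2 = v X ^ 6 := by
    rw [map_mul, map_pow, hvXx, ← pow_succ', ← pow_mul]
  rw [h6] at h5
  by_contra hcon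
  rw [not_lt] at hcon
  have h7 : v X ^ 5 < v X ^ 6 := pow_lt_pow_right₀ hX1 (by norm_num)
  have h8 : v X ^ 6 ≤ v ((i₂ x - ι x) * (Y / X) + ι (2 * y)) ^ 2 * v X ^ 6 := by
    calc v X ^ 6 = 1 * v X ^ 6 := (one_mul _).symm
      _ ≤ _ := mul_le_mul_left (one_le_pow₀ hcon) _
  exact absurd (le_trans h8 h5) (not_le.mpr h7)

theorem residue [CharZero K] (h : IsEll C₀ x y A B) (hu : Univ C₀ V i₂) {X Y : Ω}
    (hAt : AtInf M V X)
    (hE : Y ^ 2 = aeval X (cubic A B))
    (hx : i₂ x = ((Y - algebraMap M Ω y) / (X - algebraMap M Ω x)) ^ 2 - X - algebraMap M Ω x)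
    (D : Derivation K M M) (hDC : ∀ c ∈ C₀, D c = 0) (hDx : D x = 2 * y) (e : M) :
    V.valuation ((i₂ e - algebraMap M Ω e) * (Y / X) + algebraMap M Ω (D e)) < 1 := by
  have hczM : CharZero M := charZero_of_injective_algebraMap (algebraMap K M).injective
  set v := V.valuation with hv
  set ι := algebraMap M Ω with hι
  have hprod : ∀ e f : M, (i₂ (e * f) - ι (e * f)) * (Y / X) + ι (D (e * f))
      = ((i₂ e - ι e) * (Y / X) + ι (D e)) * i₂ f + ι e * ((i₂ f - ι f) * (Y / X) + ι (D f))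
        - ι (D e) * (i₂ f - ι f) := by
    intro e f
    rw [D.leibniz, smul_eq_mul, smul_eq_mul]
    simp only [map_mul, map_add]
    ring
  have hmulle : ∀ a b : Ω, v a < 1 → v b ≤ 1 → v (a * b) < 1 := by
    intro a b ha hb
    rw [map_mul]
    calc v a * v b ≤ v a * 1 := by gcongr
      _ < 1 := by rwa [mul_one]
  have hmulle' : ∀ a b : Ω, v a ≤ 1 → v b < 1 → v (a * b) < 1 := by
    intro a b ha hb
    rw [mul_comm]; exact hmulle b a hb ha
  have haddlt : ∀ a b : Ω, v a < 1 → v b < 1 → v (a + b) < 1 := fun a b ha hb =>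
    lt_of_le_of_lt (Valuation.map_add _ _ _) (max_lt ha hb)
  have hsublt : ∀ a b : Ω, v a < 1 → v b < 1 → v (a - b) < 1 := fun a b ha hb =>
    lt_of_le_of_lt (Valuation.map_sub _ _ _) (max_lt ha hb)
  have hrx : v ((i₂ x - ι x) * (Y / X) + ι (D x)) < 1 := by
    rw [hDx]; exact residue_x hu hAt hE hx
  have hy0 := h.y_ne_zero
  have hDy : D y = 3 * x ^ 2 + A := by
    have h1 : D (y ^ 2) = D (x ^ 3 + A * x + B) := by rw [h.eqn]
    rw [D.leibniz_pow, map_add, map_add, D.leibniz_pow, D.leibniz, hDC A h.memA, hDC B h.memB,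
      hDx] at h1
    simp only [smul_eq_mul, nsmul_eq_mul, Nat.cast_ofNat] at h1
    have h2 : (2 * y) * (D y - (3 * x ^ 2 + A)) = 0 := by
      have h3 : (2 : ℕ) - 1 = 1 := rfl
      have h4 : (3 : ℕ) - 1 = 2 := rfl
      rw [h3, h4] at h1
      linear_combination h1
    exact sub_eq_zero.mp ((mul_eq_zero.mp h2).resolve_left (mul_ne_zero two_ne_zero hy0))
  have hry : v ((i₂ y - ι y) * (Y / X) + ι (D y)) < 1 := by
    -- the sum of the ordinates is a unit
    have hvy : v (i₂ y + ι y) = 1 := by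
      have h1 : i₂ y + ι y = (i₂ y - ι y) + ι (2 * y) := by
        rw [map_mul, map_ofNat]; ring
      have h2 : v (ι (2 * y)) = 1 := hu.val_one _ (mul_ne_zero two_ne_zero hy0)
      rw [h1, Valuation.map_add_eq_of_lt_right, h2]
      rw [h2]; exact hu.lt_one y
    have hE1 : ι y ^ 2 = ι x ^ 3 + ι A * ι x + ι B := by
      rw [← map_pow, h.eqn]; simp
    have hE2 : i₂ y ^ 2 = i₂ x ^ 3 + ι A * i₂ x + ι B := by
      rw [← map_pow, h.eqn, map_add, map_add, map_mul, map_pow, hu.fixC A h.memA,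
        hu.fixC B h.memB]
    have key : ((i₂ y - ι y) * (Y / X) + ι (D y)) * (i₂ y + ι y)
        = ((i₂ x - ι x) * (Y / X) + ι (D x)) * (i₂ (x ^ 2) + i₂ x * ι x + ι (x ^ 2) + ι A)
          - ι (2 * y) * (i₂ (x ^ 2) - ι (x ^ 2)) - ι (2 * y) * ι x * (i₂ x - ι x)
          + ι (3 * x ^ 2 + A) * (i₂ y - ι y) := by
      rw [hDx, hDy]
      simp only [map_mul, map_add, map_pow, map_ofNat]
      linear_combination (Y / X) * (hE2 - hE1)
    have h1 : v (((i₂ y - ι y) * (Y / X) + ι (D y)) * (i₂ y + ι y)) < 1 := by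
      rw [key]
      refine haddlt _ _ (hsublt _ _ (hsublt _ _ ?_ ?_) ?_) ?_
      · refine hmulle _ _ hrx ?_
        refine le_trans (Valuation.map_add _ _ _) (max_le ?_ (hu.le_one _))
        refine le_trans (Valuation.map_add _ _ _) (max_le ?_ (hu.le_one _))
        refine le_trans (Valuation.map_add _ _ _) (max_le (hu.val_le _) ?_)
        rw [map_mul]
        exact mul_le_one' (hu.val_le _) (hu.le_one _)
      · exact hmulle' _ _ (hu.le_one _) (hu.lt_one _)
      · refine hmulle' _ _ ?_ (hu.lt_one _)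
        rw [map_mul]
        exact mul_le_one' (hu.le_one _) (hu.le_one _)
      · exact hmulle' _ _ (hu.le_one _) (hu.lt_one _)
    rwa [map_mul, hvy, mul_one] at h1
  have he : e ∈ IntermediateField.adjoin C₀ {x, y} := by
    rw [h.top]; exact IntermediateField.mem_top
  induction he using IntermediateField.adjoin_induction with
  | mem z hz =>
    rcases hz with rfl | hz
    · exact hrx
    · rw [Set.mem_singleton_iff] at hz
      rw [hz]; exact hry
  | algebraMap c =>
    have h1 : i₂ (algebraMap C₀ M c) = ι (algebraMap C₀ M c) := hu.fixC _ c.2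
    have h2 : D (algebraMap C₀ M c) = 0 := hDC _ c.2
    rw [h1, h2, sub_self, zero_mul, map_zero, add_zero, map_zero]
    exact zero_lt_one
  | add z w _ _ hz hw =>
    have h1 : (i₂ (z + w) - ι (z + w)) * (Y / X) + ι (D (z + w))
        = ((i₂ z - ι z) * (Y / X) + ι (D z)) + ((i₂ w - ι w) * (Y / X) + ι (D w)) := by
      simp only [map_add]; ring
    rw [h1]
    exact haddlt _ _ hz hw
  | inv z _ hz =>
    by_cases hz0 : z = 0
    · rw [hz0, inv_zero, map_zero, map_zero, map_zero, sub_self, zero_mul, map_zero, add_zero,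
        map_zero]
      exact zero_lt_one
    have h1 := hprod z z⁻¹
    rw [mul_inv_cancel₀ hz0] at h1
    have hD1 : D (1 : M) = 0 := D.map_one_eq_zero
    rw [map_one, map_one, sub_self, zero_mul, hD1, map_zero, add_zero] at h1
    have h2 : ι z * ((i₂ z⁻¹ - ι z⁻¹) * (Y / X) + ι (D z⁻¹))
        = ι (D z) * (i₂ z⁻¹ - ι z⁻¹) - ((i₂ z - ι z) * (Y / X) + ι (D z)) * i₂ z⁻¹ := by
      linear_combination -h1
    have h3 : v (ι z * ((i₂ z⁻¹ - ι z⁻¹) * (Y / X) + ι (D z⁻¹))) < 1 := by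
      rw [h2]
      exact hsublt _ _ (hmulle' _ _ (hu.le_one _) (hu.lt_one _)) (hmulle _ _ hz (hu.val_le _))
    rwa [map_mul, hu.val_one z hz0, one_mul] at h3
  | mul z w _ _ hz hw =>
    rw [hprod]
    refine hsublt _ _ (haddlt _ _ (hmulle _ _ hz (hu.val_le _)) (hmulle' _ _ (hu.le_one _) hw))
      (hmulle' _ _ (hu.le_one _) (hu.lt_one _))

end Pool.Agent.Helper15.WE
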