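import Pool.Agent.Helper15.WE7

/-!
# Two generators of the same genus one function field
-/

namespace Pool.Agent.Helper15.WE

open Polynomial Curve LemR EC

universe u

variable {K : Type*} {M : Type u} {Ω : Type*} [Field K] [Field M] [Algebra K M] [Field Ω]
  [Algebra K Ω] [Algebra M Ω] {C₀ : IntermediateField K M}
  {x y A B x' y' A' B' : M} {V : ValuationSubring Ω} {i₂ : M →ₐ[K] Ω}

/-- The coordinates of the difference of the two generic points. -/
structure IsDiff [DecidableEq Ω] (V : ValuationSubring Ω) (i₂ : M →ₐ[K] Ω) (x y A B : M)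
    (X Y : Ω) : Prop where
  atInf : AtInf M V X
  eqn : Y ^ 2 = aeval X (cubic A B)
  adj : IntermediateField.adjoin M {X, Y} = IntermediateField.adjoin M (Set.range i₂)
  x_eq : i₂ x = ((Y - algebraMap M Ω y) / (X - algebraMap M Ω x)) ^ 2 - X - algebraMap M Ω x
  isAt : ∀ P₁ P₂ : (cub 0 (algebraMap M Ω A) (algebraMap M Ω B)).Point,
        IsAt 0 _ _ P₁ (algebraMap M Ω x) (algebraMap M Ω y) → IsAt 0 _ _ P₂ (i₂ x) (i₂ y) →
        IsAt 0 _ _ (P₂ - P₁) X Y

theorem IsEll.exists_isDiff [CharZero K] [DecidableEq Ω] (h : IsEll C₀ x y A B)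
    (hu : Univ C₀ V i₂) : ∃ X Y : Ω, IsDiff V i₂ x y A B X Y := by
  obtain ⟨X, Y, h1, h2, h3, h4, h5⟩ := h.exists_diff hu
  exact ⟨X, Y, h1, h2, h3, h4, h5⟩

/-- Comparison of two generating pairs. -/
theorem exists_scale [CharZero K] [DecidableEq Ω] (h : IsEll C₀ x y A B)
    (h' : IsEll C₀ x' y' A' B')
    (hu : Univ C₀ V i₂) {X Y X' Y' : Ω} (hd : IsDiff V i₂ x y A B X Y)
    (hd' : IsDiff V i₂ x' y' A' B' X' Y') :
    ∃ u ∈ C₀, u ≠ 0 ∧ X' = algebraMap M Ω u ^ 2 * X ∧ Y' = algebraMap M Ω u ^ 3 * Y ∧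
      A' = u ^ 4 * A ∧ B' = u ^ 6 * B ∧
      ∀ D D' : Derivation K M M, (∀ c ∈ C₀, D c = 0) → D x = 2 * y → (∀ c ∈ C₀, D' c = 0) →
        D' x' = 2 * y' → ∀ e, D' e = u * D e := by
  have hczM : CharZero M := charZero_of_injective_algebraMap (algebraMap K M).injective
  obtain ⟨u, hu0, hX, hY, hA, hB⟩ := lemmaW (k := M) two_ne_zero three_ne_zero hd.eqn hd'.eqn
    h.disc h'.disc hd.atInf hd'.atInf (by rw [hd.adj, hd'.adj])
  have hint : ∀ (n : ℕ) (c : M), 0 < n → c ∈ C₀ → u ^ n = c → u ∈ C₀ := by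
    intro n c hn hc hun
    apply h.isQuartic.mem_of_isAlgebraic
    refine ⟨Polynomial.X ^ n - C (⟨c, hc⟩ : C₀), X_pow_sub_C_ne_zero hn _, ?_⟩
    rw [map_sub, map_pow, aeval_X, aeval_C, hun]
    exact sub_self c
  refine ⟨u, ?_, hu0, hX, hY, hA, hB, ?_⟩
  · by_cases hA0 : A = 0
    · have hB0 : B ≠ 0 := by
        intro hB0
        apply h.disc
        rw [hA0, hB0]; ring
      refine hint 6 (B' / B) (by norm_num) (C₀.div_mem h'.memB h.memB) ?_
      rw [hB, mul_div_cancel_right₀ _ hB0]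
    · refine hint 4 (A' / A) (by norm_num) (C₀.div_mem h'.memA h.memA) ?_
      rw [hA, mul_div_cancel_right₀ _ hA0]
  · intro D D' hDC hDx hDC' hDx' e
    have r1 := residue h hu hd.atInf hd.eqn hd.x_eq D hDC hDx e
    have r2 := residue h' hu hd'.atInf hd'.eqn hd'.x_eq D' hDC' hDx' e
    have hu1 := hu.val_one u hu0
    have hX0 : X ≠ 0 := by
      intro h0
      exact hd.atInf.notMem (h0 ▸ zero_mem _)
    have hι0 : algebraMap M Ω u ≠ 0 := (_root_.map_ne_zero _).mpr hu0
    have hYX : Y' / X' = algebraMap M Ω u * (Y / X) := by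
      rw [hX, hY]
      field_simp
    have h1 : algebraMap M Ω (D' e - u * D e)
        = ((i₂ e - algebraMap M Ω e) * (Y' / X') + algebraMap M Ω (D' e))
          - algebraMap M Ω u * ((i₂ e - algebraMap M Ω e) * (Y / X) + algebraMap M Ω (D e)) := by
      rw [hYX, map_sub, map_mul]
      ring
    have h2 : V.valuation (algebraMap M Ω (D' e - u * D e)) < 1 := by
      rw [h1]
      refine lt_of_le_of_lt (Valuation.map_sub _ _ _) (max_lt r2 ?_)
      rw [map_mul, hu1, one_mul]
      exact r1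
    exact sub_eq_zero.mp (hu.eq_zero _ h2)

/-- Conjugate generators. -/
theorem IsEll.conj (h : IsEll C₀ x y A B) (γ : M ≃ₐ[K] M) (hγ : ∀ c ∈ C₀, γ c ∈ C₀)
    (hγ' : ∀ c ∈ C₀, γ.symm c ∈ C₀) : IsEll C₀ (γ x) (γ y) (γ A) (γ B) where
  memA := hγ _ h.memA
  memB := hγ _ h.memB
  disc := by
    have := (map_ne_zero γ).mpr h.disc
    rwa [map_add, map_mul, map_mul, map_pow, map_pow, map_ofNat, map_ofNat] at this
  transc := by
    intro halg
    have h1 := h.isQuartic.mem_of_isAlgebraic (γ x) halg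
    have h2 := hγ' _ h1
    rw [γ.symm_apply_apply] at h2
    exact h.notMem h2
  eqn := by
    rw [← map_pow, h.eqn]; simp
  top := by
    rw [eq_top_iff]
    intro m _
    have hm : γ.symm m ∈ IntermediateField.adjoin C₀ {x, y} := by
      rw [h.top]; exact IntermediateField.mem_top
    have key : ∀ z ∈ IntermediateField.adjoin C₀ {x, y},
        γ z ∈ IntermediateField.adjoin C₀ {γ x, γ y} := by
      intro z hz
      induction hz using IntermediateField.adjoin_induction with
      | mem z hz =>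
        rcases hz with rfl | hz
        · exact IntermediateField.subset_adjoin _ _ (by simp)
        · rw [Set.mem_singleton_iff] at hz
          rw [hz]
          exact IntermediateField.subset_adjoin _ _ (by simp)
      | algebraMap c =>
        exact IntermediateField.algebraMap_mem _ (⟨γ c, hγ c c.2⟩ : C₀)
      | add z w _ _ hz hw => rw [map_add]; exact add_mem hz hw
      | inv z _ hz => rw [map_inv₀]; exact inv_mem hz
      | mul z w _ _ hz hw => rw [map_mul]; exact mul_mem hz hw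
    have := key _ hm
    rwa [γ.apply_symm_apply] at this

/-- The conjugate of a derivation. -/
noncomputable def conjDer (γ : M ≃ₐ[K] M) (D : Derivation K M M) : Derivation K M M :=
  Derivation.mk' ((γ : M →ₗ[K] M) ∘ₗ (D : M →ₗ[K] M) ∘ₗ (γ.symm : M →ₗ[K] M)) (by
    intro a b
    show γ (D (γ.symm (a * b))) = a • γ (D (γ.symm b)) + b • γ (D (γ.symm a))
    rw [map_mul, D.leibniz, map_add, smul_eq_mul, smul_eq_mul, map_mul, map_mul,
      γ.apply_symm_apply, γ.apply_symm_apply]
    rfl)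

theorem conjDer_apply (γ : M ≃ₐ[K] M) (D : Derivation K M M) (m : M) :
    conjDer γ D m = γ (D (γ.symm m)) := rfl

end Pool.Agent.Helper15.WE
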