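import Pool.Agent.Helper15.WE8

/-!
# Descent of the Weierstrass equation and of the derivation
-/

namespace Pool.Agent.Helper15.WE

open Polynomial Curve LemR EC

universe u

/-- `C₀` is a field of constants of `M` that descends to the field `B₀` of constants of `E`. -/
structure Descent {K E M : Type*} [Field K] [Field E] [Field M] [Algebra K E] [Algebra K M]
    [Algebra E M] (B₀ : IntermediateField K E) (C₀ : IntermediateField K M) : Prop where
  stable : ∀ γ : M ≃ₐ[E] M, ∀ c ∈ C₀, γ c ∈ C₀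
  mem_iff : ∀ e : E, algebraMap E M e ∈ C₀ ↔ e ∈ B₀

variable {K E : Type*} {M : Type u} {Ω : Type*} [Field K] [Field E] [Field M] [Algebra K E]
  [Algebra K M] [Algebra E M] [IsScalarTower K E M] [Field Ω]
  [Algebra K Ω] [Algebra M Ω] {B₀ : IntermediateField K E} {C₀ : IntermediateField K M}
  {x y A B : M} {V : ValuationSubring Ω} {i₂ : M →ₐ[K] Ω}

theorem scale [CharZero K] [DecidableEq Ω] (hdes : Descent B₀ C₀) (h : IsEll C₀ x y A B)
    (hu : Univ C₀ V i₂) {X Y : Ω} (hd : IsDiff V i₂ x y A B X Y)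
    (D : Derivation K M M) (hDC : ∀ c ∈ C₀, D c = 0) (hDx : D x = 2 * y) (γ : M ≃ₐ[E] M) :
    ∃ u ∈ C₀, u ≠ 0 ∧ γ A = u ^ 4 * A ∧ γ B = u ^ 6 * B ∧
      (∀ e : E, γ (D (algebraMap E M e)) = u * D (algebraMap E M e)) ∧
      IsEll C₀ (γ x) (γ y) (γ A) (γ B) ∧
      IsDiff V i₂ (γ x) (γ y) (γ A) (γ B) (algebraMap M Ω u ^ 2 * X) (algebraMap M Ω u ^ 3 * Y) := by
  let γK : M ≃ₐ[K] M := γ.restrictScalars K
  have hst : ∀ c ∈ C₀, γK c ∈ C₀ := hdes.stable γ
  have hst' : ∀ c ∈ C₀, γK.symm c ∈ C₀ := hdes.stable γ.symm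
  have h' : IsEll C₀ (γK x) (γK y) (γK A) (γK B) := h.conj γK hst hst'
  obtain ⟨X', Y', hd'⟩ := h'.exists_isDiff hu
  obtain ⟨u, huC, hu0, hX, hY, hA, hB, hD⟩ := exists_scale h h' hu hd hd'
  refine ⟨u, huC, hu0, hA, hB, ?_, h', ?_⟩
  · intro e
    have h1 := hD D (conjDer γK D) hDC hDx ?_ ?_ (algebraMap E M e)
    · rw [← h1, conjDer_apply]
      have h2 : γK.symm (algebraMap E M e) = algebraMap E M e := γ.symm.commutes e
      rw [h2]; rfl
    · intro c hc
      rw [conjDer_apply, hDC _ (hst' c hc), map_zero]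
    · rw [conjDer_apply, γK.symm_apply_apply, hDx, map_mul, map_ofNat]
  · rw [← hX, ← hY]
    exact hd'

/-- The derivation of `E` along the fibre and the Weierstrass equation over `E`. -/
theorem exists_descent [CharZero K] [DecidableEq Ω] [IsGalois E M] (hdes : Descent B₀ C₀)
    (h : IsEll C₀ x y A B)
    (hu : Univ C₀ V i₂) {X Y : Ω} (hd : IsDiff V i₂ x y A B X Y)
    (D : Derivation K M M) (hDC : ∀ m, D m = 0 ↔ m ∈ C₀) (hDx : D x = 2 * y) (e₀ : E)
    (he₀ : D (algebraMap E M e₀) ≠ 0) :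
    ∃ (DE : Derivation K E E) (a b : E),
      (∀ e, D (algebraMap E M e) = D (algebraMap E M e₀) * algebraMap E M (DE e)) ∧
      A = D (algebraMap E M e₀) ^ 4 * algebraMap E M a ∧
      B = D (algebraMap E M e₀) ^ 6 * algebraMap E M b ∧
      (∀ e, DE e = 0 ↔ e ∈ B₀) ∧ DE e₀ = 1 := by
  set κ := D (algebraMap E M e₀) with hκ
  have hsc := scale hdes h hu hd D (fun c hc => (hDC c).mpr hc) hDx
  have hfix : ∀ m : M, (∀ γ : M ≃ₐ[E] M, γ m = m) → ∃ e, algebraMap E M e = m := fun m hm =>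
    (InfiniteGalois.mem_range_algebraMap_iff_fixed (k := E) m).mpr hm
  have hex : ∀ e : E, ∃ e' : E, algebraMap E M e' = κ⁻¹ * D (algebraMap E M e) := by
    intro e
    apply hfix
    intro γ
    obtain ⟨u, -, hu0, -, -, hγ, -, -⟩ := hsc γ
    rw [map_mul, map_inv₀, hκ, hγ, hγ, ← hκ, mul_inv]
    field_simp
  choose dE hdE using hex
  have hdE' : ∀ e, D (algebraMap E M e) = κ * algebraMap E M (dE e) := by
    intro e
    rw [hdE, ← mul_assoc, mul_inv_cancel₀ he₀, one_mul]
  have hinj := (algebraMap E M).injective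
  let DE : Derivation K E E := Derivation.mk'
    { toFun := dE
      map_add' := by
        intro e f
        apply hinj
        rw [map_add, hdE, hdE, hdE, map_add, map_add]; ring
      map_smul' := by
        intro c e
        apply hinj
        rw [hdE, RingHom.id_apply, Algebra.smul_def, Algebra.smul_def, (algebraMap E M).map_mul,
          (algebraMap E M).map_mul, hdE, D.leibniz, ← IsScalarTower.algebraMap_apply, D.map_algebraMap, smul_zero, add_zero,
          smul_eq_mul]
        ring }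
    (by
      intro e f
      apply hinj
      show algebraMap E M (dE (e * f)) = algebraMap E M (e • dE f + f • dE e)
      rw [hdE, map_mul, D.leibniz, smul_eq_mul, smul_eq_mul, smul_eq_mul, smul_eq_mul, map_add,
        map_mul, map_mul, hdE, hdE]
      ring)
  have hDE : ∀ e, DE e = dE e := fun e => rfl
  have ha : ∃ a, algebraMap E M a = A / κ ^ 4 := by
    apply hfix
    intro γ
    obtain ⟨u, -, hu0, hA, -, hγ, -, -⟩ := hsc γ
    have hγκ : γ κ = u * κ := hγ e₀
    rw [map_div₀, map_pow, hA, hγκ]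
    field_simp
  have hb : ∃ b, algebraMap E M b = B / κ ^ 6 := by
    apply hfix
    intro γ
    obtain ⟨u, -, hu0, -, hB, hγ, -, -⟩ := hsc γ
    have hγκ : γ κ = u * κ := hγ e₀
    rw [map_div₀, map_pow, hB, hγκ]
    field_simp
  obtain ⟨a, ha⟩ := ha
  obtain ⟨b, hb⟩ := hb
  refine ⟨DE, a, b, fun e => by rw [hDE]; exact hdE' e, ?_, ?_, ?_, ?_⟩
  · rw [ha]; field_simp
  · rw [hb]; field_simp
  · intro e
    rw [hDE, ← hdes.mem_iff, ← hDC, hdE']
    constructor
    · intro h0; rw [h0, map_zero, mul_zero]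
    · intro h0
      rcases mul_eq_zero.mp h0 with h1 | h1
      · exact absurd h1 he₀
      · exact hinj (by rw [h1, map_zero])
  · rw [hDE]
    apply hinj
    rw [hdE, map_one, ← hκ, inv_mul_cancel₀ he₀]

end Pool.Agent.Helper15.WE
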